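import Mathlib

/-!
# Arithmetic

The powers of `-2` modulo `3 ^ a`, and the cyclic shift of `Fin n`.
-/

namespace Pool.Agent.H78.TT

private theorem neg_two_pow_three_pow (a : ℕ) :
    ∃ u : ℤ, ¬ (3 : ℤ) ∣ u ∧ (-2 : ℤ) ^ (3 ^ a) = 1 + 3 ^ (a + 1) * u := by
  induction a with
  | zero => exact ⟨-1, by norm_num, by norm_num⟩
  | succ a ih =>
    obtain ⟨u, hu, h⟩ := ih
    refine ⟨u + 3 * (3 ^ a * u ^ 2 + 3 ^ (2 * a) * u ^ 3), ?_, ?_⟩
    · intro h3
      exact hu ((dvd_add_left (dvd_mul_right 3 _)).1 h3)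
    · rw [pow_succ 3 a, pow_mul, h]
      ring

/-- `-2` generates the units congruent to `1` modulo `3` (induction on `a`:
`(-2) ^ (3 ^ (a - 1)) = 1 + 3 ^ a * u` with `u` prime to `3`). -/
theorem exists_neg_two_pow (a : ℕ) {i : ℤ} (hi : (3 : ℤ) ∣ i - 1) :
    ∃ e : ℕ, (3 ^ a : ℤ) ∣ (-2) ^ e - i := by
  induction a with
  | zero => exact ⟨0, by simp⟩
  | succ a ih =>
    obtain ⟨e, t, ht⟩ := ih
    rcases Nat.eq_zero_or_pos a with ha | ha
    · subst ha
      refine ⟨0, ?_⟩
      rw [zero_add, pow_one, pow_zero, ← dvd_neg, neg_sub]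
      exact hi
    · obtain ⟨u, hu, hu'⟩ := neg_two_pow_three_pow (a - 1)
      rw [Nat.sub_add_cancel ha] at hu'
      -- `(-2) ^ e` is `1` modulo `3`
      have h1 : (3 : ℤ) ∣ (-2) ^ e - 1 := by
        have h2 : (3 : ℤ) ∣ 3 ^ a * t := Dvd.dvd.mul_right (dvd_pow_self 3 (by omega)) t
        rw [← ht] at h2
        have h3 : ((-2 : ℤ) ^ e - 1) = ((-2) ^ e - i) + (i - 1) := by ring
        rw [h3]
        exact dvd_add h2 hi
      -- the power of `1 + 3 ^ a * u`
      have h2 : ∀ m : ℕ, ∃ w : ℤ, (1 + 3 ^ a * u : ℤ) ^ m = 1 + 3 ^ a * (m * u) + 3 ^ (a + 1) * w := by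
        intro m
        induction m with
        | zero => exact ⟨0, by simp⟩
        | succ m ihm =>
          obtain ⟨w, hw⟩ := ihm
          obtain ⟨b, rfl⟩ := Nat.exists_eq_add_of_lt ha
          refine ⟨w + 3 ^ (b) * (m * u) * u + 3 ^ (b + 1) * w * u, ?_⟩
          rw [pow_succ, hw]
          push_cast
          ring
      have h3 : ∃ m : ℕ, (3 : ℤ) ∣ t + m * u := by
        have h4 : t % 3 = 0 ∨ t % 3 = 1 ∨ t % 3 = 2 := by omega
        have h5 : u % 3 = 1 ∨ u % 3 = 2 := by omega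
        rcases h4 with h4 | h4 | h4 <;> rcases h5 with h5 | h5
        · exact ⟨0, by push_cast; omega⟩
        · exact ⟨0, by push_cast; omega⟩
        · exact ⟨2, by push_cast; omega⟩
        · exact ⟨1, by push_cast; omega⟩
        · exact ⟨1, by push_cast; omega⟩
        · exact ⟨2, by push_cast; omega⟩
      obtain ⟨m, s, hs⟩ := h3
      obtain ⟨w, hw⟩ := h2 m
      obtain ⟨v, hv⟩ := h1
      refine ⟨e + 3 ^ (a - 1) * m, s + m * u * v + (-2) ^ e * w, ?_⟩
      have e1 : (-2 : ℤ) ^ e = 1 + 3 * v := by linarith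
      have e2 : i = (-2 : ℤ) ^ e - 3 ^ a * t := by linarith
      have e3 : t = 3 * s - m * u := by linarith
      rw [pow_add, pow_mul, hu', hw, e2, e3, e1]
      ring

/-- Every integer prime to `3` is a power of `2` up to sign modulo `3 ^ a`. -/
theorem exists_pm_two_pow (a : ℕ) {i : ℤ} (hi : ¬ (3 : ℤ) ∣ i) :
    ∃ e : ℕ, (3 ^ a : ℤ) ∣ i - 2 ^ e ∨ (3 ^ a : ℤ) ∣ i + 2 ^ e := by
  have h0 : (3 : ℤ) ∣ i - 1 ∨ (3 : ℤ) ∣ -i - 1 := by omega
  rcases h0 with h0 | h0
  · obtain ⟨e, he⟩ := exists_neg_two_pow a h0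
    refine ⟨e, ?_⟩
    rcases Nat.even_or_odd e with h | h
    · left
      rw [h.neg_pow, ← dvd_neg, neg_sub] at he
      exact he
    · right
      rw [h.neg_pow, ← dvd_neg, neg_sub, sub_neg_eq_add] at he
      exact he
  · obtain ⟨e, he⟩ := exists_neg_two_pow a h0
    refine ⟨e, ?_⟩
    rcases Nat.even_or_odd e with h | h
    · right
      rw [h.neg_pow, sub_neg_eq_add, add_comm] at he
      exact he
    · left
      rw [h.neg_pow, sub_neg_eq_add, neg_add_eq_sub] at he
      exact he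

open Fin.NatCast Fin.CommRing in
/-- The cyclic shift (`finRotate n`). -/
theorem exists_shift_perm {n : ℕ} (hn : Odd n) : ∃ τ : Equiv.Perm (Fin n),
    (∀ p : Fin n → Prop, (∀ j, p j → p (τ j)) → (∃ j, p j) → ∀ j, p j) ∧
    (∀ p : Fin n → Prop, (∀ j, p j → p (τ (τ j))) → (∃ j, p j) → ∀ j, p j) := by
  obtain ⟨l, rfl⟩ := hn
  have hcast : ((2 * l + 1 : ℕ) : Fin (2 * l + 1)) = 0 := Fin.natCast_self _
  refine ⟨finRotate (2 * l + 1), ?_, ?_⟩
  · rintro p hp ⟨j0, hj0⟩ j
    have h1 : ∀ k : ℕ, p (j0 + (k : Fin (2 * l + 1))) := by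
      intro k
      induction k with
      | zero => simpa using hj0
      | succ k ih =>
        have := hp _ ih
        rw [finRotate_apply] at this
        rw [Nat.cast_succ, ← add_assoc]
        exact this
    have h2 := h1 (j - j0).val
    rw [Fin.cast_val_eq_self, add_sub_cancel] at h2
    exact h2
  · rintro p hp ⟨j0, hj0⟩ j
    have h1 : ∀ k : ℕ, p (j0 + ((2 * k : ℕ) : Fin (2 * l + 1))) := by
      intro k
      induction k with
      | zero => simpa using hj0
      | succ k ih =>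
        have := hp _ ih
        rw [finRotate_apply, finRotate_apply] at this
        have e : ((2 * (k + 1) : ℕ) : Fin (2 * l + 1)) = ((2 * k : ℕ) : Fin (2 * l + 1)) + 1 + 1 := by
          rw [mul_add, mul_one, Nat.cast_add, add_assoc, one_add_one_eq_two]
          rfl
        rw [e, ← add_assoc, ← add_assoc]
        exact this
    have h2 := h1 ((j - j0).val * (l + 1))
    have e : ((2 * ((j - j0).val * (l + 1)) : ℕ) : Fin (2 * l + 1)) = j - j0 := by
      have h3 : 2 * ((j - j0).val * (l + 1)) = (j - j0).val * (2 * l + 1) + (j - j0).val := by ring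
      rw [h3, Nat.cast_add, Nat.cast_mul, hcast, mul_zero, zero_add, Fin.cast_val_eq_self]
    rw [e, add_sub_cancel] at h2
    exact h2

/-- With three or more indices `j`, `τ j`, `τ (τ j)` are different. -/
theorem shift_injective {n : ℕ} (hn : 3 ≤ n) {τ : Equiv.Perm (Fin n)}
    (h2 : ∀ p : Fin n → Prop, (∀ j, p j → p (τ (τ j))) → (∃ j, p j) → ∀ j, p j) (j : Fin n) :
    Function.Injective ![j, τ j, τ (τ j)] := by
  have key : ∀ j, τ (τ j) ≠ j := by
    intro j h
    have h3 := h2 (fun x => x = j) (fun x hx => by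
      rw [show x = j from hx, h]) ⟨j, rfl⟩
    have h4 : (⟨0, by omega⟩ : Fin n) = ⟨1, by omega⟩ := (h3 _).trans (h3 _).symm
    have h5 := congrArg Fin.val h4
    simp at h5
  have key1 : ∀ j, τ j ≠ j := by
    intro j h
    exact key j (by rw [h, h])
  intro a b hab
  fin_cases a <;> fin_cases b
  · rfl
  · exact absurd hab.symm (key1 j)
  · exact absurd hab.symm (key j)
  · exact absurd hab (key1 j)
  · rfl
  · exact absurd hab.symm (key1 (τ j))
  · exact absurd hab (key j)
  · exact absurd hab (key1 (τ j))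
  · rfl

end Pool.Agent.H78.TT
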