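import Mathlib

/-!
# The equations of the birational map

`W` is a subspace of `Ωⁿ` of dimension `3`. With `a` an element of the algebra, `c` is in `sol1 a W`
if `∑ sgn [aᵀ (c ∘ w ∘ (a w'))] ∘ w'' = 0` for all `w, w', w''` in `W`, the sum over all permutations
of `w, w', w''` and `∘` the entrywise product; the point of the other variety is the space
`c ∘ W`. For `W` of dimension `1` the equation is `u ∘ (a w) = aᵀ (u ∘ w)`.
-/

open Module Matrix

namespace Pool.Agent.H78.TT

variable {Ω : Type*} [Field Ω] {n : ℕ}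

/-- The span of the entrywise products. -/
def had (U W : Submodule Ω (Fin n → Ω)) : Submodule Ω (Fin n → Ω) :=
  Submodule.span Ω {z | ∃ u ∈ U, ∃ w ∈ W, z = u * w}

/-- One term of the equation. -/
def T1 (a : Matrix (Fin n) (Fin n) Ω) (c w w' w'' : Fin n → Ω) : Fin n → Ω :=
  (aᵀ *ᵥ (c * w * (a *ᵥ w'))) * w''

/-- The equation for `c`. -/
def E1 (a : Matrix (Fin n) (Fin n) Ω) (c w w' w'' : Fin n → Ω) : Fin n → Ω :=
  T1 a c w w' w'' - T1 a c w' w w'' + T1 a c w' w'' w - T1 a c w'' w' w + T1 a c w'' w w' -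
    T1 a c w w'' w'

/-- One term of the equation. -/
def T2 (a : Matrix (Fin n) (Fin n) Ω) (d w w' w'' : Fin n → Ω) : Fin n → Ω :=
  (aᵀ *ᵥ (w * (a *ᵥ (d * w')))) * w''

/-- The equation for `d`. -/
def E2 (a : Matrix (Fin n) (Fin n) Ω) (d w w' w'' : Fin n → Ω) : Fin n → Ω :=
  T2 a d w w' w'' - T2 a d w' w w'' + T2 a d w' w'' w - T2 a d w'' w' w + T2 a d w'' w w' -
    T2 a d w w'' w'

/-- The equation in dimension one. -/
def E3 (a : Matrix (Fin n) (Fin n) Ω) (u w : Fin n → Ω) : Fin n → Ω :=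
  u * (a *ᵥ w) - aᵀ *ᵥ (u * w)

theorem T1_add (a : Matrix (Fin n) (Fin n) Ω) (c c' w w' w'' : Fin n → Ω) :
    T1 a (c + c') w w' w'' = T1 a c w w' w'' + T1 a c' w w' w'' := by
  simp only [T1, add_mul, Matrix.mulVec_add]

theorem T1_smul (a : Matrix (Fin n) (Fin n) Ω) (r : Ω) (c w w' w'' : Fin n → Ω) :
    T1 a (r • c) w w' w'' = r • T1 a c w w' w'' := by
  simp only [T1, smul_mul_assoc, Matrix.mulVec_smul]

theorem T2_add (a : Matrix (Fin n) (Fin n) Ω) (c c' w w' w'' : Fin n → Ω) :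
    T2 a (c + c') w w' w'' = T2 a c w w' w'' + T2 a c' w w' w'' := by
  simp only [T2, add_mul, Matrix.mulVec_add, mul_add]

theorem T2_smul (a : Matrix (Fin n) (Fin n) Ω) (r : Ω) (c w w' w'' : Fin n → Ω) :
    T2 a (r • c) w w' w'' = r • T2 a c w w' w'' := by
  simp only [T2, smul_mul_assoc, Matrix.mulVec_smul, mul_smul_comm]

/-- The solutions `c`. -/
def sol1 (a : Matrix (Fin n) (Fin n) Ω) (W : Submodule Ω (Fin n → Ω)) :
    Submodule Ω (Fin n → Ω) where
  carrier := {c | ∀ w ∈ W, ∀ w' ∈ W, ∀ w'' ∈ W, E1 a c w w' w'' = 0}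
  add_mem' := fun {c c'} hc hc' w hw w' hw' w'' hw'' => by
    have h1 := hc w hw w' hw' w'' hw''
    have h2 := hc' w hw w' hw' w'' hw''
    have h3 : E1 a (c + c') w w' w'' = E1 a c w w' w'' + E1 a c' w w' w'' := by
      simp only [E1, T1_add]; abel
    rw [h3, h1, h2, add_zero]
  zero_mem' := fun w _ w' _ w'' _ => by
    have h : ∀ x y z : Fin n → Ω, T1 a 0 x y z = 0 := fun x y z => by
      have := T1_smul a 0 0 x y z
      rwa [zero_smul, zero_smul] at this
    simp only [E1, h]; simp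
  smul_mem' := fun r c hc w hw w' hw' w'' hw'' => by
    have h1 := hc w hw w' hw' w'' hw''
    have h3 : E1 a (r • c) w w' w'' = r • E1 a c w w' w'' := by
      simp only [E1, T1_smul, smul_sub, smul_add]
    rw [h3, h1, smul_zero]

/-- The solutions `d`. -/
def sol2 (a : Matrix (Fin n) (Fin n) Ω) (W : Submodule Ω (Fin n → Ω)) :
    Submodule Ω (Fin n → Ω) where
  carrier := {c | ∀ w ∈ W, ∀ w' ∈ W, ∀ w'' ∈ W, E2 a c w w' w'' = 0}
  add_mem' := fun {c c'} hc hc' w hw w' hw' w'' hw'' => by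
    have h1 := hc w hw w' hw' w'' hw''
    have h2 := hc' w hw w' hw' w'' hw''
    have h3 : E2 a (c + c') w w' w'' = E2 a c w w' w'' + E2 a c' w w' w'' := by
      simp only [E2, T2_add]; abel
    rw [h3, h1, h2, add_zero]
  zero_mem' := fun w _ w' _ w'' _ => by
    have h : ∀ x y z : Fin n → Ω, T2 a 0 x y z = 0 := fun x y z => by
      have := T2_smul a 0 0 x y z
      rwa [zero_smul, zero_smul] at this
    simp only [E2, h]; simp
  smul_mem' := fun r c hc w hw w' hw' w'' hw'' => by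
    have h1 := hc w hw w' hw' w'' hw''
    have h3 : E2 a (r • c) w w' w'' = r • E2 a c w w' w'' := by
      simp only [E2, T2_smul, smul_sub, smul_add]
    rw [h3, h1, smul_zero]

/-- The solutions `u` for given `w`. -/
def sol3 (a : Matrix (Fin n) (Fin n) Ω) (W : Submodule Ω (Fin n → Ω)) :
    Submodule Ω (Fin n → Ω) where
  carrier := {u | ∀ w ∈ W, E3 a u w = 0}
  add_mem' := fun {u u'} hu hu' w hw => by
    have h1 := hu w hw
    have h2 := hu' w hw
    have h3 : E3 a (u + u') w = E3 a u w + E3 a u' w := by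
      simp only [E3, add_mul, Matrix.mulVec_add]; abel
    rw [h3, h1, h2, add_zero]
  zero_mem' := fun w _ => by simp [E3]
  smul_mem' := fun r c hc w hw => by
    have h1 := hc w hw
    have h3 : E3 a (r • c) w = r • E3 a c w := by
      simp only [E3, smul_mul_assoc, Matrix.mulVec_smul, smul_sub]
    rw [h3, h1, smul_zero]

/-- The solutions `w` for given `u`. -/
def sol4 (a : Matrix (Fin n) (Fin n) Ω) (U : Submodule Ω (Fin n → Ω)) :
    Submodule Ω (Fin n → Ω) where
  carrier := {w | ∀ u ∈ U, E3 a u w = 0}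
  add_mem' := fun {w w'} hw hw' u hu => by
    have h1 := hw u hu
    have h2 := hw' u hu
    have h3 : E3 a u (w + w') = E3 a u w + E3 a u w' := by
      simp only [E3, mul_add, Matrix.mulVec_add]; abel
    rw [h3, h1, h2, add_zero]
  zero_mem' := fun w _ => by simp [E3]
  smul_mem' := fun r c hc w hw => by
    have h1 := hc w hw
    have h3 : E3 a w (r • c) = r • E3 a w c := by
      simp only [E3, mul_smul_comm, Matrix.mulVec_smul, smul_sub]
    rw [h3, h1, smul_zero]

end Pool.Agent.H78.TT
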