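import Pool.Agent.H78.TT.PolyLine
import Pool.Agent.H78.TT.SolDefs

/-!
# The generic case, dimension one

`u ∈ sol3 a (span {w})` iff `u ᵥ* N1 a w = 0`, `N1 a w j l = δ_jl (a w)_l - a j l * w j`, and
`N1 a w *ᵥ w = 0`. `x ∈ sol4 a (span {u})` iff `x ᵥ* M1 a u = 0` up to sign,
`M1 a u i l = u l * a l i - a i l * u i`; it is alternating, and `w` is in its kernel if
`u ∈ sol3 a (span {w})`. Let `u(a)` be row `0` of the adjugate of `N1 a w`. The function
`(∏ j, u(a) j) * (M1 a u(a)).adjugate 0 0` is polynomial on lines and not zero at `a j i = 1` if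
`i = τ j`, `a j i = 0` otherwise: `x ᵥ* N1 a w = 0` means `x l * w (τ l) = x (τ⁻¹ l) * w (τ⁻¹ l)`,
and `x ᵥ* M1 a u = 0` means `x (τ⁻¹ l) * u (τ⁻¹ l) = x (τ l) * u l`, so `x 0 = 0` implies `x = 0`.
-/

open Module Matrix

namespace Pool.Agent.H78.TT

open Pool.Agent.H72.SB

variable {Ω : Type*} [Field Ω] {n : ℕ}

/-- The matrix of the equations for `u`. -/
def N1 (a : Matrix (Fin n) (Fin n) Ω) (w : Fin n → Ω) : Matrix (Fin n) (Fin n) Ω :=
  Matrix.diagonal (a *ᵥ w) - Matrix.of fun j l => a j l * w j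

/-- The matrix of the equations for `w`. -/
def M1 (a : Matrix (Fin n) (Fin n) Ω) (u : Fin n → Ω) : Matrix (Fin n) (Fin n) Ω :=
  Matrix.of fun i l => u l * a l i - a i l * u i

private theorem N1_vecMul (a : Matrix (Fin n) (Fin n) Ω) (w u : Fin n → Ω) :
    u ᵥ* N1 a w = E3 a u w := by
  funext l
  have h1 : (u ᵥ* N1 a w) l = u l * (a *ᵥ w) l - ∑ j, u j * (a j l * w j) := by
    rw [N1, Matrix.vecMul_sub, Pi.sub_apply, Matrix.vecMul_diagonal]
    rfl
  have h2 : E3 a u w l = u l * (a *ᵥ w) l - ∑ j, a j l * (u j * w j) := rfl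
  rw [h1, h2]
  congr 1
  exact Finset.sum_congr rfl fun j _ => by ring

private theorem M1_vecMul (a : Matrix (Fin n) (Fin n) Ω) (u x : Fin n → Ω) :
    x ᵥ* M1 a u = E3 a u x := by
  funext l
  have h1 : (x ᵥ* M1 a u) l = ∑ i, x i * (u l * a l i - a i l * u i) := rfl
  have h2 : E3 a u x l = u l * (∑ i, a l i * x i) - ∑ i, a i l * (u i * x i) := rfl
  rw [h1, h2, Finset.mul_sum, ← Finset.sum_sub_distrib]
  exact Finset.sum_congr rfl fun j _ => by ring

private theorem E3_smul_right (a : Matrix (Fin n) (Fin n) Ω) (r : Ω) (u w : Fin n → Ω) :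
    E3 a u (r • w) = r • E3 a u w := by
  simp only [E3, mul_smul_comm, Matrix.mulVec_smul, smul_sub]

private theorem E3_smul_left (a : Matrix (Fin n) (Fin n) Ω) (r : Ω) (u w : Fin n → Ω) :
    E3 a (r • u) w = r • E3 a u w := by
  simp only [E3, smul_mul_assoc, Matrix.mulVec_smul, smul_sub]

private theorem mem_sol3_iff' (a : Matrix (Fin n) (Fin n) Ω) (w u : Fin n → Ω) :
    u ∈ sol3 a (Submodule.span Ω {w}) ↔ E3 a u w = 0 := by
  constructor
  · intro h
    exact h w (Submodule.mem_span_singleton_self w)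
  · intro h w' hw'
    obtain ⟨r, rfl⟩ := Submodule.mem_span_singleton.1 hw'
    rw [E3_smul_right, h, smul_zero]

private theorem mem_sol4_iff' (a : Matrix (Fin n) (Fin n) Ω) (u x : Fin n → Ω) :
    x ∈ sol4 a (Submodule.span Ω {u}) ↔ E3 a u x = 0 := by
  constructor
  · intro h
    exact h u (Submodule.mem_span_singleton_self u)
  · intro h u' hu'
    obtain ⟨r, rfl⟩ := Submodule.mem_span_singleton.1 hu'
    rw [E3_smul_left, h, smul_zero]

theorem mem_sol3_iff (a : Matrix (Fin n) (Fin n) Ω) (w u : Fin n → Ω) :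
    u ∈ sol3 a (Submodule.span Ω {w}) ↔ u ᵥ* N1 a w = 0 := by
  rw [mem_sol3_iff', N1_vecMul]

theorem N1_mulVec (a : Matrix (Fin n) (Fin n) Ω) (w : Fin n → Ω) : N1 a w *ᵥ w = 0 := by
  funext j
  have h1 : (N1 a w *ᵥ w) j = (a *ᵥ w) j * w j - ∑ l, a j l * w j * w l := by
    rw [N1, Matrix.sub_mulVec, Pi.sub_apply, Matrix.mulVec_diagonal]
    rfl
  have h2 : (a *ᵥ w) j = ∑ l, a j l * w l := rfl
  rw [h1, h2, Finset.sum_mul, ← Finset.sum_sub_distrib]
  exact Finset.sum_eq_zero fun l _ => by ring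

theorem mem_sol4_iff (a : Matrix (Fin n) (Fin n) Ω) (u x : Fin n → Ω) :
    x ∈ sol4 a (Submodule.span Ω {u}) ↔ x ᵥ* M1 a u = 0 := by
  rw [mem_sol4_iff', M1_vecMul]

private theorem M1_mulVec (a : Matrix (Fin n) (Fin n) Ω) (u x : Fin n → Ω) :
    M1 a u *ᵥ x = - (x ᵥ* M1 a u) := by
  funext i
  have h1 : (M1 a u *ᵥ x) i = ∑ l, (u l * a l i - a i l * u i) * x l := rfl
  have h2 : (- (x ᵥ* M1 a u)) i = - ∑ l, x l * (u i * a i l - a l i * u l) := rfl
  rw [h1, h2, ← Finset.sum_neg_distrib]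
  exact Finset.sum_congr rfl fun l _ => by ring

private theorem det_zero_of_mulVec {M : Matrix (Fin n) (Fin n) Ω} {r : Fin n → Ω} (hr : r ≠ 0)
    (h : M *ᵥ r = 0) : M.det = 0 :=
  Matrix.exists_mulVec_eq_zero_iff.1 ⟨r, hr, h⟩

/-- The function whose nonvanishing makes `a` good. -/
private def gf (w : Fin n → Ω) (i0 : Fin n) (a : Matrix (Fin n) (Fin n) Ω) : Ω :=
  (∏ j, (N1 a w).adjugate i0 j) *
    (M1 a (fun j => (N1 a w).adjugate i0 j)).adjugate i0 i0

private theorem polyLine_entry (j l : Fin n) :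
    PolyLine Ω (fun a : Matrix (Fin n) (Fin n) Ω => a j l) :=
  polyLine_linear (Matrix.entryLinearMap Ω Ω j l)

private theorem polyLine_N1 (w : Fin n → Ω) (j l : Fin n) :
    PolyLine Ω (fun a : Matrix (Fin n) (Fin n) Ω => N1 a w j l) := by
  have h1 : (fun a : Matrix (Fin n) (Fin n) Ω => N1 a w j l) = fun a =>
      (∑ s, a j s * (if j = l then w s else 0)) - a j l * w j := by
    funext a
    rw [N1, Matrix.sub_apply, Matrix.diagonal_apply, Matrix.of_apply]
    congr 1
    split_ifs with h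
    · rfl
    · simp
  rw [h1]
  exact (PolyLine.sum _ fun s _ => (polyLine_entry j s).mul (polyLine_const _)).sub
    ((polyLine_entry j l).mul (polyLine_const _))

private theorem polyLine_gf (w : Fin n → Ω) (i0 : Fin n) : PolyLine Ω (gf w i0) := by
  have h1 : ∀ j, PolyLine Ω (fun a : Matrix (Fin n) (Fin n) Ω => (N1 a w).adjugate i0 j) :=
    fun j => PolyLine.adjugate (polyLine_N1 w) i0 j
  refine PolyLine.mul (PolyLine.prod _ fun j _ => h1 j) (PolyLine.adjugate (fun i l => ?_) i0 i0)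
  exact ((h1 l).mul (polyLine_entry l i)).sub ((polyLine_entry i l).mul (h1 i))

/-- The permutation matrix. -/
private def pm (τ : Equiv.Perm (Fin n)) : Matrix (Fin n) (Fin n) Ω :=
  Matrix.of fun j i => if i = τ j then 1 else 0

private theorem pm_E3 (τ : Equiv.Perm (Fin n)) (u w : Fin n → Ω) (m : Fin n) :
    E3 (pm τ) u w (τ m) = u (τ m) * w (τ (τ m)) - u m * w m := by
  have h2 : E3 (pm τ) u w (τ m) = u (τ m) * (∑ i, pm τ (τ m) i * w i) -
      ∑ i, pm τ i (τ m) * (u i * w i) := rfl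
  rw [h2]
  congr 1
  · rw [Finset.sum_eq_single (τ (τ m))]
    · simp [pm]
    · intro b _ hb
      simp [pm, hb]
    · intro h
      exact absurd (Finset.mem_univ _) h
  · rw [Finset.sum_eq_single m]
    · simp [pm]
    · intro b _ hb
      have : ¬ m = b := fun h => hb h.symm
      simp [pm, this]
    · intro h
      exact absurd (Finset.mem_univ _) h

variable {k ι : Type*} [Field k] [Algebra k Ω] [Fintype ι]

/-- A good element `a`. -/
theorem exists_good1 [Infinite k] (β : Basis ι Ω (Matrix (Fin n) (Fin n) Ω)) (hn : 0 < n)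
    (τ : Equiv.Perm (Fin n))
    (h1 : ∀ p : Fin n → Prop, (∀ j, p j → p (τ j)) → (∃ j, p j) → ∀ j, p j)
    (h2 : ∀ p : Fin n → Prop, (∀ j, p j → p (τ (τ j))) → (∃ j, p j) → ∀ j, p j)
    (w : Fin n → Ω) (hw : ∀ j, w j ≠ 0) :
    ∃ a, RatV β (⊥ : IntermediateField k Ω) a ∧ ∃ u : Fin n → Ω, u ≠ 0 ∧
      sol3 a (Submodule.span Ω {w}) = Submodule.span Ω {u} ∧
      sol4 a (Submodule.span Ω {u}) = Submodule.span Ω {w} := by
  set i0 : Fin n := ⟨0, hn⟩ with hi0
  have hw0 : w ≠ 0 := fun h => hw i0 (congrFun h i0)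
  -- the function is not zero at the permutation matrix
  have hne : ∃ a, gf w i0 a ≠ 0 := by
    refine ⟨pm τ, ?_⟩
    have hu : ∀ j, (N1 (pm τ) w).adjugate i0 j ≠ 0 := by
      intro j
      refine adj_ne_zero _ i0 (N1_mulVec _ w) (hw i0) fun x hx hxj => ?_
      rw [N1_vecMul] at hx
      funext l
      refine h1 (fun l => x l = 0) (fun m hm => ?_) ⟨j, hxj⟩ l
      have h3 := congrFun hx (τ m)
      rw [pm_E3, Pi.zero_apply] at h3
      have hm' : x m = 0 := hm
      rw [hm', zero_mul, sub_zero] at h3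
      exact (mul_eq_zero.1 h3).resolve_right (hw _)
    refine mul_ne_zero (Finset.prod_ne_zero_iff.2 fun j _ => hu j) ?_
    set u : Fin n → Ω := fun j => (N1 (pm τ) w).adjugate i0 j with hudef
    have hd : (N1 (pm τ) w).det = 0 := det_zero_of_mulVec hw0 (N1_mulVec _ w)
    have h4 : E3 (pm τ) u w = 0 := by
      rw [← N1_vecMul]
      exact adj_vecMul _ i0 hd
    have h5 : M1 (pm τ) u *ᵥ w = 0 := by
      rw [M1_mulVec, M1_vecMul, h4, neg_zero]
    refine adj_ne_zero _ i0 h5 (hw i0) fun x hx hx0 => ?_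
    rw [M1_vecMul] at hx
    funext l
    refine h2 (fun l => x l = 0) (fun m hm => ?_) ⟨i0, hx0⟩ l
    have h3 := congrFun hx (τ m)
    rw [pm_E3, Pi.zero_apply] at h3
    have hm' : x m = 0 := hm
    rw [hm', mul_zero, sub_zero] at h3
    exact (mul_eq_zero.1 h3).resolve_left (hu _)
  obtain ⟨a, ha, hf⟩ := PolyLine.exists_rat (k := k) β (polyLine_gf w i0) hne
  refine ⟨a, ha, fun j => (N1 a w).adjugate i0 j, ?_, ?_, ?_⟩
  · intro h
    refine hf ?_
    have h3 : (N1 a w).adjugate i0 i0 = 0 := congrFun h i0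
    unfold gf
    rw [Finset.prod_eq_zero (Finset.mem_univ i0) h3, zero_mul]
  · have hd : (N1 a w).det = 0 := det_zero_of_mulVec hw0 (N1_mulVec _ w)
    have hj : (N1 a w).adjugate i0 i0 ≠ 0 := by
      intro h3
      refine hf ?_
      unfold gf
      rw [Finset.prod_eq_zero (Finset.mem_univ i0) h3, zero_mul]
    apply le_antisymm
    · intro x hx
      exact mem_span_of_adj _ i0 hd hj ((mem_sol3_iff a w x).1 hx)
    · rw [Submodule.span_singleton_le_iff_mem, mem_sol3_iff]
      exact adj_vecMul _ i0 hd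
  · set u : Fin n → Ω := fun j => (N1 a w).adjugate i0 j with hudef
    have hd : (N1 a w).det = 0 := det_zero_of_mulVec hw0 (N1_mulVec _ w)
    have h4 : E3 a u w = 0 := by
      rw [← N1_vecMul]
      exact adj_vecMul _ i0 hd
    have h5 : M1 a u *ᵥ w = 0 := by
      rw [M1_mulVec, M1_vecMul, h4, neg_zero]
    have hd2 : (M1 a u).det = 0 := det_zero_of_mulVec hw0 h5
    have hj : (M1 a u).adjugate i0 i0 ≠ 0 := fun h3 => hf (by
      unfold gf
      rw [← hudef, h3, mul_zero])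
    apply le_antisymm
    · intro x hx
      have h6 := mem_span_of_adj _ i0 hd2 hj ((mem_sol4_iff a u x).1 hx)
      have h7 : w ∈ Submodule.span Ω {fun j => (M1 a u).adjugate i0 j} := by
        refine mem_span_of_adj _ i0 hd2 hj ?_
        rw [M1_vecMul]
        exact h4
      obtain ⟨r, hr⟩ := Submodule.mem_span_singleton.1 h7
      obtain ⟨s, hs⟩ := Submodule.mem_span_singleton.1 h6
      have hr0 : r ≠ 0 := by
        rintro rfl
        rw [zero_smul] at hr
        exact hw0 hr.symm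
      refine Submodule.mem_span_singleton.2 ⟨s * r⁻¹, ?_⟩
      rw [← hs, ← hr, smul_smul, mul_assoc, inv_mul_cancel₀ hr0, mul_one]
    · rw [Submodule.span_singleton_le_iff_mem, mem_sol4_iff']
      exact h4

end Pool.Agent.H78.TT
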