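import Pool.Agent.H78.TT.PolyLine
import Pool.Agent.H78.TT.SolDefs

/-!
# The generic case, dimension three

`w : Fin 3 → Fin n → Ω` is a basis of `W`, `plu w j i l = det (w_r(j), w_r(i), w_r(l))_r` are its
Pluecker coordinates, alternating in `j, i, l`. `c ∈ sol1 a W` iff `c ᵥ* NN a w = 0`,
`NN a w j l = a j l * ∑ i, a j i * plu w j i l` (E1 is alternating and trilinear in `w, w', w''`, and
`E1 a c (w 0) (w 1) (w 2) l = ∑ j, c j * a j l * ∑ i, a j i * plu w j i l`), and `NN a w *ᵥ 1 = 0`.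
`d ∈ sol2 a (had (span {c}) W)` iff `(fun i => d i * c i) ᵥ* MM a c w = 0` (if all `c j ≠ 0`),
`MM a c w i l = ∑ j, a j i * a j l * c j * plu w j i l`, because
`E2 a d (c * w 0) (c * w 1) (c * w 2) l = c l * ∑ i, d i * c i * MM a c w i l`; it is alternating, and
`MM a c w *ᵥ 1 = 0` if `c ᵥ* NN a w = 0` (it is antisymmetric and `1 ᵥ* MM a c w = c ᵥ* NN a w`).

Let `c(a)` be row `0` of the adjugate of `NN a w`. The function
`(∏ j, c(a) j) * (MM a c(a) w).adjugate 0 0` is polynomial on lines. At `a j i = 1` if `i = τ j` or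
`i = τ (τ j)`, `a j i = 0` otherwise, it is not zero (`adj_ne_zero` twice): `x ᵥ* NN a w = 0` means
that `x (τ j) * q (τ j) = x j * q j` for all `j`, `q j = plu w j (τ j) (τ (τ j))`, and
`x ᵥ* MM a c w = 0` with `c j * q j = r ≠ 0` for all `j` means `r * (x (τ⁻¹ l) - x (τ l)) = 0` for
all `l`.
-/

open Module Matrix

namespace Pool.Agent.H78.TT

open Pool.Agent.H72.SB

variable {Ω : Type*} [Field Ω] {n : ℕ}

/-- The Pluecker coordinates. -/
def plu (w : Fin 3 → Fin n → Ω) (j i l : Fin n) : Ω :=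
  (Matrix.of fun r s : Fin 3 => w r (![j, i, l] s)).det

/-- The matrix of the equations for `c`. -/
def NN (a : Matrix (Fin n) (Fin n) Ω) (w : Fin 3 → Fin n → Ω) : Matrix (Fin n) (Fin n) Ω :=
  Matrix.of fun j l => a j l * ∑ i, a j i * plu w j i l

/-- The matrix of the equations for `d * c`. -/
def MM (a : Matrix (Fin n) (Fin n) Ω) (c : Fin n → Ω) (w : Fin 3 → Fin n → Ω) :
    Matrix (Fin n) (Fin n) Ω :=
  Matrix.of fun i l => ∑ j, a j i * a j l * c j * plu w j i l

/-- The determinant written out. -/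
private theorem plu_eq (w : Fin 3 → Fin n → Ω) (j i l : Fin n) :
    plu w j i l = w 0 j * w 1 i * w 2 l - w 0 j * w 1 l * w 2 i - w 0 i * w 1 j * w 2 l +
      w 0 i * w 1 l * w 2 j + w 0 l * w 1 j * w 2 i - w 0 l * w 1 i * w 2 j := by
  unfold plu
  rw [Matrix.det_fin_three]
  simp only [Matrix.of_apply, Matrix.cons_val_zero, Matrix.cons_val_one, Matrix.cons_val]

private theorem plu_swap (w : Fin 3 → Fin n → Ω) (j i l : Fin n) : plu w j i l = - plu w j l i := by
  rw [plu_eq, plu_eq]; ring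

private theorem plu_same (w : Fin 3 → Fin n → Ω) (j i : Fin n) : plu w j i i = 0 := by
  rw [plu_eq]; ring

/-- The Pluecker coordinates of `A w`. -/
private theorem plu_mul (A : Matrix (Fin 3) (Fin 3) Ω) (w x : Fin 3 → Fin n → Ω)
    (hx : ∀ r, x r = ∑ s, A r s • w s) (j i l : Fin n) : plu x j i l = A.det * plu w j i l := by
  unfold plu
  rw [← Matrix.det_mul]
  congr 1
  ext r s
  rw [Matrix.of_apply, Matrix.mul_apply, hx r, Finset.sum_apply]
  rfl

private theorem plu_had (w : Fin 3 → Fin n → Ω) (c : Fin n → Ω) (j i l : Fin n) :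
    plu (fun r => c * w r) j i l = c j * c i * c l * plu w j i l := by
  rw [plu_eq, plu_eq]
  simp only [Pi.mul_apply]
  ring

private theorem E1_eq (a : Matrix (Fin n) (Fin n) Ω) (c : Fin n → Ω) (w : Fin 3 → Fin n → Ω) :
    E1 a c (w 0) (w 1) (w 2) = c ᵥ* NN a w := by
  ext l
  simp only [E1, T1, NN, Matrix.vecMul, Matrix.mulVec, dotProduct, Pi.add_apply, Pi.sub_apply,
    Pi.mul_apply, Matrix.of_apply, Matrix.transpose_apply, plu_eq, Finset.sum_mul,
    Finset.mul_sum]
  simp only [← Finset.sum_sub_distrib, ← Finset.sum_add_distrib]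
  refine Finset.sum_congr rfl fun j _ => Finset.sum_congr rfl fun i _ => ?_
  ring

/-- The matrix of the equations for `d`. -/
private def N2 (a : Matrix (Fin n) (Fin n) Ω) (w : Fin 3 → Fin n → Ω) : Matrix (Fin n) (Fin n) Ω :=
  Matrix.of fun i l => ∑ j, a j i * a j l * plu w j i l

private theorem E2_eq (a : Matrix (Fin n) (Fin n) Ω) (d : Fin n → Ω) (w : Fin 3 → Fin n → Ω) :
    E2 a d (w 0) (w 1) (w 2) = d ᵥ* N2 a w := by
  ext l
  simp only [E2, T2, N2, Matrix.vecMul, Matrix.mulVec, dotProduct, Pi.add_apply, Pi.sub_apply,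
    Pi.mul_apply, Matrix.of_apply, Matrix.transpose_apply, plu_eq, Finset.sum_mul,
    Finset.mul_sum]
  simp only [← Finset.sum_sub_distrib, ← Finset.sum_add_distrib]
  rw [Finset.sum_comm]
  refine Finset.sum_congr rfl fun j _ => Finset.sum_congr rfl fun i _ => ?_
  ring

private theorem mem_span_three {w : Fin 3 → Fin n → Ω} {x y z : Fin n → Ω}
    (hx : x ∈ Submodule.span Ω (Set.range w)) (hy : y ∈ Submodule.span Ω (Set.range w))
    (hz : z ∈ Submodule.span Ω (Set.range w)) :
    ∃ A : Matrix (Fin 3) (Fin 3) Ω, ∀ r, (![x, y, z] : Fin 3 → Fin n → Ω) r = ∑ s, A r s • w s := by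
  rw [Submodule.mem_span_range_iff_exists_fun] at hx hy hz
  obtain ⟨f, hf⟩ := hx
  obtain ⟨g, hg⟩ := hy
  obtain ⟨h, hh⟩ := hz
  refine ⟨![f, g, h], fun r => ?_⟩
  fin_cases r
  · exact hf.symm
  · exact hg.symm
  · exact hh.symm

theorem mem_sol1_iff (a : Matrix (Fin n) (Fin n) Ω) (w : Fin 3 → Fin n → Ω) (c : Fin n → Ω) :
    c ∈ sol1 a (Submodule.span Ω (Set.range w)) ↔ c ᵥ* NN a w = 0 := by
  constructor
  · intro h
    rw [← E1_eq]
    exact h _ (Submodule.subset_span ⟨0, rfl⟩) _ (Submodule.subset_span ⟨1, rfl⟩) _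
      (Submodule.subset_span ⟨2, rfl⟩)
  · intro h x hx y hy z hz
    obtain ⟨A, hA⟩ := mem_span_three hx hy hz
    have h1 := E1_eq a c ![x, y, z]
    have h2 : NN a ![x, y, z] = A.det • NN a w := by
      ext j l
      rw [Matrix.smul_apply]
      simp only [NN, Matrix.of_apply, smul_eq_mul]
      simp only [plu_mul A w ![x, y, z] hA, Finset.mul_sum]
      exact Finset.sum_congr rfl fun i _ => by ring
    rw [h2, Matrix.vecMul_smul, h, smul_zero] at h1
    exact h1

/-- An alternating double sum. -/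
private theorem alt_sum (f : Fin n → Fin n → Ω) (h1 : ∀ i l, f i l = - f l i) (h0 : ∀ i, f i i = 0) :
    ∑ i, ∑ l, f i l = 0 := by
  rw [← Finset.sum_product' (Finset.univ : Finset (Fin n)) (Finset.univ : Finset (Fin n)) f]
  refine Finset.sum_involution (fun p _ => p.swap) ?_ ?_ ?_ ?_
  · intro p _
    rw [h1 p.1 p.2]
    simp
  · intro p _ hp hs
    apply hp
    have : p.1 = p.2 := by
      have := congrArg Prod.fst hs
      simpa using this.symm
    rw [this]
    exact h0 _
  · intro p _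
    simp
  · intro p _
    simp

theorem NN_mulVec_one (a : Matrix (Fin n) (Fin n) Ω) (w : Fin 3 → Fin n → Ω) :
    NN a w *ᵥ 1 = 0 := by
  ext j
  simp only [NN, Matrix.mulVec, dotProduct, Matrix.of_apply, Pi.one_apply, mul_one, Pi.zero_apply,
    Finset.mul_sum]
  refine alt_sum (fun l i => a j l * (a j i * plu w j i l)) (fun l i => ?_) (fun l => ?_)
  · show a j l * (a j i * plu w j i l) = - (a j i * (a j l * plu w j l i))
    rw [plu_swap w j i l]; ring
  · show a j l * (a j l * plu w j l l) = 0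
    rw [plu_same]; ring

private theorem had_span (c : Fin n → Ω) (w : Fin 3 → Fin n → Ω) :
    had (Submodule.span Ω {c}) (Submodule.span Ω (Set.range w)) =
      Submodule.span Ω (Set.range fun r => c * w r) := by
  apply le_antisymm
  · refine Submodule.span_le.2 ?_
    rintro _ ⟨u, hu, x, hx, rfl⟩
    obtain ⟨t, rfl⟩ := Submodule.mem_span_singleton.1 hu
    rw [Submodule.mem_span_range_iff_exists_fun] at hx
    obtain ⟨f, rfl⟩ := hx
    rw [smul_mul_assoc, Finset.mul_sum]
    refine Submodule.smul_mem _ _ (Submodule.sum_mem _ fun r _ => ?_)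
    rw [mul_smul_comm]
    exact Submodule.smul_mem _ _ (Submodule.subset_span ⟨r, rfl⟩)
  · refine Submodule.span_le.2 ?_
    rintro _ ⟨r, rfl⟩
    exact Submodule.subset_span ⟨c, Submodule.mem_span_singleton_self c, w r,
      Submodule.subset_span ⟨r, rfl⟩, rfl⟩

private theorem N2_had (a : Matrix (Fin n) (Fin n) Ω) (c d : Fin n → Ω) (w : Fin 3 → Fin n → Ω)
    (l : Fin n) : (d ᵥ* N2 a (fun r => c * w r)) l = ((d * c) ᵥ* MM a c w) l * c l := by
  simp only [N2, MM, Matrix.vecMul, dotProduct, Matrix.of_apply, plu_had, Finset.mul_sum,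
    Finset.sum_mul, Pi.mul_apply]
  refine Finset.sum_congr rfl fun i _ => Finset.sum_congr rfl fun j _ => ?_
  ring

theorem mem_sol2_iff (a : Matrix (Fin n) (Fin n) Ω) (w : Fin 3 → Fin n → Ω) {c : Fin n → Ω}
    (hc : ∀ j, c j ≠ 0) (d : Fin n → Ω) :
    d ∈ sol2 a (had (Submodule.span Ω {c}) (Submodule.span Ω (Set.range w))) ↔
      (d * c) ᵥ* MM a c w = 0 := by
  rw [had_span]
  have key : d ᵥ* N2 a (fun r => c * w r) = 0 ↔ (d * c) ᵥ* MM a c w = 0 := by
    constructor
    · intro h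
      ext l
      have h1 := N2_had a c d w l
      rw [h, Pi.zero_apply] at h1
      rcases mul_eq_zero.1 h1.symm with h2 | h2
      · exact h2
      · exact absurd h2 (hc l)
    · intro h
      ext l
      rw [N2_had, h, Pi.zero_apply, zero_mul]
  rw [← key]
  constructor
  · intro h
    rw [← E2_eq]
    exact h _ (Submodule.subset_span ⟨0, rfl⟩) _ (Submodule.subset_span ⟨1, rfl⟩) _
      (Submodule.subset_span ⟨2, rfl⟩)
  · intro h x hx y hy z hz
    obtain ⟨A, hA⟩ := mem_span_three hx hy hz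
    have h1 := E2_eq a d ![x, y, z]
    have h2 : N2 a ![x, y, z] = A.det • N2 a (fun r => c * w r) := by
      ext j l
      rw [Matrix.smul_apply]
      simp only [N2, Matrix.of_apply, smul_eq_mul]
      simp only [plu_mul A (fun r => c * w r) ![x, y, z] hA, Finset.mul_sum]
      exact Finset.sum_congr rfl fun i _ => by ring
    rw [h2, Matrix.vecMul_smul, h, smul_zero] at h1
    exact h1

private theorem one_vecMul_MM (a : Matrix (Fin n) (Fin n) Ω) (w : Fin 3 → Fin n → Ω) (c : Fin n → Ω) :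
    1 ᵥ* MM a c w = c ᵥ* NN a w := by
  ext l
  simp only [MM, NN, Matrix.vecMul, dotProduct, Matrix.of_apply, Pi.one_apply, one_mul,
    Finset.mul_sum]
  rw [Finset.sum_comm]
  refine Finset.sum_congr rfl fun i _ => Finset.sum_congr rfl fun j _ => ?_
  ring

theorem MM_mulVec_one (a : Matrix (Fin n) (Fin n) Ω) (w : Fin 3 → Fin n → Ω) {c : Fin n → Ω}
    (hc : c ᵥ* NN a w = 0) : MM a c w *ᵥ 1 = 0 ∧ 1 ᵥ* MM a c w = 0 := by
  have h1 : 1 ᵥ* MM a c w = 0 := by rw [one_vecMul_MM, hc]
  refine ⟨?_, h1⟩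
  have h2 : MM a c w *ᵥ 1 = - (1 ᵥ* MM a c w) := by
    ext i
    simp only [MM, Matrix.vecMul, Matrix.mulVec, dotProduct, Matrix.of_apply, Pi.one_apply,
      one_mul, mul_one, Pi.neg_apply, ← Finset.sum_neg_distrib]
    refine Finset.sum_congr rfl fun l _ => Finset.sum_congr rfl fun j _ => ?_
    rw [plu_swap w j i l]
    ring
  rw [h2, h1, neg_zero]

/-- The special element. -/
private def aa (τ : Equiv.Perm (Fin n)) : Matrix (Fin n) (Fin n) Ω :=
  Matrix.of fun j i => (if i = τ j then 1 else 0) + (if i = τ (τ j) then 1 else 0)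

private theorem sum_aa (τ : Equiv.Perm (Fin n)) (j : Fin n) (g : Fin n → Ω) :
    ∑ i, (aa τ : Matrix (Fin n) (Fin n) Ω) j i * g i = g (τ j) + g (τ (τ j)) := by
  simp only [aa, Matrix.of_apply, add_mul, ite_mul, one_mul, zero_mul, Finset.sum_add_distrib,
    Finset.sum_ite_eq', Finset.mem_univ, if_true]

/-- The equations at the special element. -/
private theorem vecMul_NN_aa (τ : Equiv.Perm (Fin n)) (w : Fin 3 → Fin n → Ω) (x : Fin n → Ω)
    (m : Fin n) : (x ᵥ* NN (aa τ) w) (τ (τ m)) =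
      x m * plu w m (τ m) (τ (τ m)) - x (τ m) * plu w (τ m) (τ (τ m)) (τ (τ (τ m))) := by
  have h1 : ∀ j, x j * NN (aa τ) w j (τ (τ m)) =
      (if j = m then x m * plu w m (τ m) (τ (τ m)) else 0) -
        (if j = τ m then x (τ m) * plu w (τ m) (τ (τ m)) (τ (τ (τ m))) else 0) := by
    intro j
    simp only [NN, Matrix.of_apply]
    rw [sum_aa τ j (fun i => plu w j i (τ (τ m)))]
    simp only [aa, Matrix.of_apply]
    have e1 : (τ (τ m) = τ j) ↔ (j = τ m) :=
      ⟨fun h => (τ.injective h).symm, fun h => by rw [h]⟩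
    have e2 : (τ (τ m) = τ (τ j)) ↔ (j = m) :=
      ⟨fun h => (τ.injective (τ.injective h)).symm, fun h => by rw [h]⟩
    simp only [e1, e2]
    by_cases h1 : j = m
    · subst h1
      by_cases h2 : j = τ j
      · have h3 : τ j = j := h2.symm
        simp only [h3, if_true, plu_same]
        ring
      · simp only [if_true, h2, if_false, plu_same]
        ring
    · by_cases h2 : j = τ m
      · subst h2
        simp only [h1, if_true, if_false, plu_same]
        rw [plu_swap w (τ m) (τ (τ m)) (τ (τ (τ m)))]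
        ring
      · simp only [h1, h2, if_false]
        ring
  show ∑ j, x j * NN (aa τ) w j (τ (τ m)) = _
  rw [Finset.sum_congr rfl fun j _ => h1 j, Finset.sum_sub_distrib]
  simp

private theorem vecMul_MM_aa (τ : Equiv.Perm (Fin n)) (w : Fin 3 → Fin n → Ω) (c x : Fin n → Ω)
    {r : Ω} (hr : ∀ j, c j * plu w j (τ j) (τ (τ j)) = r)
    (m : Fin n) : (x ᵥ* MM (aa τ) c w) (τ (τ m)) = r * (x (τ m) - x (τ (τ (τ m)))) := by
  have h0 : (x ᵥ* MM (aa τ) c w) (τ (τ m)) = ∑ j, (aa τ : Matrix (Fin n) (Fin n) Ω) j (τ (τ m)) *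
      c j * ∑ i, (aa τ : Matrix (Fin n) (Fin n) Ω) j i * (x i * plu w j i (τ (τ m))) := by
    simp only [MM, Matrix.vecMul, dotProduct, Matrix.of_apply, Finset.mul_sum]
    rw [Finset.sum_comm]
    refine Finset.sum_congr rfl fun i _ => Finset.sum_congr rfl fun j _ => ?_
    ring
  have h1 : ∀ j, (aa τ : Matrix (Fin n) (Fin n) Ω) j (τ (τ m)) *
      c j * ∑ i, (aa τ : Matrix (Fin n) (Fin n) Ω) j i * (x i * plu w j i (τ (τ m))) =
      (if j = m then r * x (τ m) else 0) - (if j = τ m then r * x (τ (τ (τ m))) else 0) := by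
    intro j
    rw [sum_aa τ j (fun i => x i * plu w j i (τ (τ m)))]
    simp only [aa, Matrix.of_apply]
    have e1 : (τ (τ m) = τ j) ↔ (j = τ m) :=
      ⟨fun h => (τ.injective h).symm, fun h => by rw [h]⟩
    have e2 : (τ (τ m) = τ (τ j)) ↔ (j = m) :=
      ⟨fun h => (τ.injective (τ.injective h)).symm, fun h => by rw [h]⟩
    simp only [e1, e2]
    by_cases h1 : j = m
    · subst h1
      by_cases h2 : j = τ j
      · have h3 : τ j = j := h2.symm
        simp only [h3, if_true, plu_same]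
        ring
      · simp only [if_true, h2, if_false, plu_same]
        rw [← hr j]
        ring
    · by_cases h2 : j = τ m
      · subst h2
        simp only [h1, if_true, if_false, plu_same]
        rw [plu_swap w (τ m) (τ (τ (τ m))) (τ (τ m)), ← hr (τ m)]
        ring
      · simp only [h1, h2, if_false]
        ring
  rw [h0, Finset.sum_congr rfl fun j _ => h1 j, Finset.sum_sub_distrib]
  simp [mul_sub]

private theorem polyLine_entry (j i : Fin n) :
    PolyLine Ω (fun a : Matrix (Fin n) (Fin n) Ω => a j i) := fun x y =>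
  ⟨Polynomial.C (x j i) + Polynomial.X * Polynomial.C (y j i), fun t => by
    show (x + t • y) j i = _
    rw [Matrix.add_apply, Matrix.smul_apply, Polynomial.eval_add, Polynomial.eval_mul,
      Polynomial.eval_X, Polynomial.eval_C, Polynomial.eval_C, smul_eq_mul]⟩

variable {k ι : Type*} [Field k] [Algebra k Ω] [Fintype ι]

/-- A good element `a`. -/
theorem exists_good3 [Infinite k] (β : Basis ι Ω (Matrix (Fin n) (Fin n) Ω)) (hn : 3 ≤ n)
    (τ : Equiv.Perm (Fin n))
    (h1 : ∀ p : Fin n → Prop, (∀ j, p j → p (τ j)) → (∃ j, p j) → ∀ j, p j)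
    (h2 : ∀ p : Fin n → Prop, (∀ j, p j → p (τ (τ j))) → (∃ j, p j) → ∀ j, p j)
    (w : Fin 3 → Fin n → Ω) (hw : ∀ j, plu w j (τ j) (τ (τ j)) ≠ 0) :
    ∃ a, RatV β (⊥ : IntermediateField k Ω) a ∧ ∃ c : Fin n → Ω, (∀ j, c j ≠ 0) ∧
      sol1 a (Submodule.span Ω (Set.range w)) = Submodule.span Ω {c} ∧
      sol2 a (had (Submodule.span Ω {c}) (Submodule.span Ω (Set.range w))) =
        Submodule.span Ω {c⁻¹} := by
  obtain ⟨i0⟩ : Nonempty (Fin n) := ⟨⟨0, by omega⟩⟩
  let C : Matrix (Fin n) (Fin n) Ω → Fin n → Ω := fun a j => (NN a w).adjugate i0 j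
  have hdet : ∀ a, (NN a w).det = 0 := fun a =>
    Matrix.exists_mulVec_eq_zero_iff.1 ⟨1, fun h => one_ne_zero (congrFun h i0),
      NN_mulVec_one a w⟩
  have hCk : ∀ a, C a ᵥ* NN a w = 0 := fun a => adj_vecMul (NN a w) i0 (hdet a)
  have hNN : ∀ j l, PolyLine Ω (fun a : Matrix (Fin n) (Fin n) Ω => NN a w j l) := by
    intro j l
    simp only [NN, Matrix.of_apply]
    exact (polyLine_entry j l).mul (PolyLine.sum _ fun i _ =>
      (polyLine_entry j i).mul (polyLine_const _))
  have hC : ∀ j, PolyLine Ω (fun a => C a j) := fun j => PolyLine.adjugate hNN i0 j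
  have hMM : ∀ i l, PolyLine Ω (fun a : Matrix (Fin n) (Fin n) Ω => MM a (C a) w i l) := by
    intro i l
    simp only [MM, Matrix.of_apply]
    exact PolyLine.sum _ fun j _ =>
      (((polyLine_entry j i).mul (polyLine_entry j l)).mul (hC j)).mul (polyLine_const _)
  have hf : PolyLine Ω (fun a => (∏ j, C a j) * (MM a (C a) w).adjugate i0 i0) :=
    (PolyLine.prod _ fun j _ => hC j).mul (PolyLine.adjugate hMM i0 i0)
  obtain ⟨a, ha, hfa⟩ := hf.exists_rat β (k := k) ⟨aa τ, by
    have hstep : ∀ x : Fin n → Ω, x ᵥ* NN (aa τ) w = 0 → ∀ m,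
        x (τ m) * plu w (τ m) (τ (τ m)) (τ (τ (τ m))) = x m * plu w m (τ m) (τ (τ m)) := by
      intro x hx m
      have e := vecMul_NN_aa τ w x m
      rw [hx, Pi.zero_apply] at e
      exact (sub_eq_zero.1 e.symm).symm
    have hCne : ∀ j, C (aa τ) j ≠ 0 := by
      intro j
      refine adj_ne_zero (NN (aa τ) w) i0 (NN_mulVec_one (aa τ) w) one_ne_zero ?_
      intro x hx hxj
      have h3 := h1 (fun m => x m = 0) (fun m hm => by
        have e := hstep x hx m
        rw [hm, zero_mul] at e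
        exact (mul_eq_zero.1 e).resolve_right (hw (τ m))) ⟨j, hxj⟩
      exact funext h3
    have hr : ∀ m, C (aa τ) m * plu w m (τ m) (τ (τ m)) =
        C (aa τ) i0 * plu w i0 (τ i0) (τ (τ i0)) :=
      h1 (fun m => C (aa τ) m * plu w m (τ m) (τ (τ m)) =
        C (aa τ) i0 * plu w i0 (τ i0) (τ (τ i0)))
        (fun m hm => (hstep _ (hCk (aa τ)) m).trans hm) ⟨i0, rfl⟩
    refine mul_ne_zero (Finset.prod_ne_zero_iff.2 fun j _ => hCne j) ?_
    refine adj_ne_zero _ i0 (MM_mulVec_one (aa τ) w (hCk (aa τ))).1 one_ne_zero ?_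
    intro x hx hxi
    have h3 := h2 (fun m => x m = 0) (fun m hm => by
      have e := vecMul_MM_aa τ w (C (aa τ)) x hr (τ.symm m)
      rw [hx, Pi.zero_apply, Equiv.apply_symm_apply, hm, zero_sub] at e
      have e2 := (mul_eq_zero.1 e.symm).resolve_left (mul_ne_zero (hCne i0) (hw i0))
      exact neg_eq_zero.1 e2) ⟨i0, hxi⟩
    exact funext h3⟩
  have hCne : ∀ j, C a j ≠ 0 := fun j =>
    (Finset.prod_ne_zero_iff.1 (left_ne_zero_of_mul hfa)) j (Finset.mem_univ j)
  have hadj := right_ne_zero_of_mul hfa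
  refine ⟨a, ha, C a, hCne, ?_, ?_⟩
  · ext x
    rw [mem_sol1_iff]
    constructor
    · intro hx
      exact mem_span_of_adj (NN a w) i0 (hdet a) (hCne i0) hx
    · intro hx
      obtain ⟨t, rfl⟩ := Submodule.mem_span_singleton.1 hx
      rw [Matrix.smul_vecMul, hCk, smul_zero]
  · ext d
    rw [mem_sol2_iff a w hCne, Submodule.mem_span_singleton]
    have hone := (MM_mulVec_one a w (hCk a)).2
    constructor
    · intro hx
      refine ⟨d i0 * C a i0, ?_⟩
      have h3 : d * C a - (d i0 * C a i0) • (1 : Fin n → Ω) = 0 := by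
        refine eq_zero_of_adj _ i0 hadj ?_ ?_
        · rw [Matrix.sub_vecMul, hx, Matrix.smul_vecMul, hone, smul_zero, sub_zero]
        · rw [Pi.sub_apply, Pi.mul_apply, Pi.smul_apply, Pi.one_apply, smul_eq_mul, mul_one,
            sub_self]
      ext j
      have h4 := congrFun (sub_eq_zero.1 h3) j
      rw [Pi.mul_apply, Pi.smul_apply, Pi.one_apply, smul_eq_mul, mul_one] at h4
      rw [Pi.smul_apply, Pi.inv_apply, smul_eq_mul, ← h4, mul_assoc, mul_inv_cancel₀ (hCne j),
        mul_one]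
    · rintro ⟨t, rfl⟩
      have h3 : (t • (C a)⁻¹) * C a = t • (1 : Fin n → Ω) := by
        ext j
        rw [Pi.mul_apply, Pi.smul_apply, Pi.smul_apply, Pi.inv_apply, Pi.one_apply, smul_eq_mul,
          smul_eq_mul, mul_assoc, inv_mul_cancel₀ (hCne j)]
      rw [h3, Matrix.smul_vecMul, hone, smul_zero]

end Pool.Agent.H78.TT
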