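import Pool.Agent.H78.TT.PolyLine
import Pool.Agent.H72.SB.Form

/-!
# General position

For an element `u` of the algebra, invertible, the space `u W` has the same field of definition as
`W`, and its Pluecker coordinates at finitely many given places are not zero. Proof: at the matrix
`u₀` with `u₀ w_r = (θ_i ^ r)_i` (extend the `w_r` to a basis) the minors are Vandermonde
determinants; `PolyLine.exists_rat` for `det u * ∏ q, det (...)`.
-/

open Module Matrix

namespace Pool.Agent.H78.TT

open Pool.Agent.H72.SB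

variable {k Ω ι : Type*} [Field k] [Field Ω] [Algebra k Ω] [Fintype ι] {n : ℕ}

private theorem polyLine_ent (j i : Fin n) :
    PolyLine Ω (fun a : Matrix (Fin n) (Fin n) Ω => a j i) := fun x y =>
  ⟨Polynomial.C (x j i) + Polynomial.X * Polynomial.C (y j i), fun t => by
    show (x + t • y) j i = _
    rw [Matrix.add_apply, Matrix.smul_apply, Polynomial.eval_add, Polynomial.eval_mul,
      Polynomial.eval_X, Polynomial.eval_C, Polynomial.eval_C, smul_eq_mul]⟩

theorem exists_shift [Infinite k] (β : Basis ι Ω (Matrix (Fin n) (Fin n) Ω)) {m : ℕ}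
    {w : Fin m → Fin n → Ω} (hw : LinearIndependent Ω w) {Q : Type*} [Fintype Q]
    (e : Q → Fin m → Fin n) (he : ∀ q, Function.Injective (e q)) :
    ∃ u, RatV β (⊥ : IntermediateField k Ω) u ∧ IsUnit u ∧
      ∀ q, (Matrix.of fun r s : Fin m => (u *ᵥ w r) (e q s)).det ≠ 0 := by
  have hΩ : Infinite Ω := Infinite.of_injective _ (algebraMap k Ω).injective
  have h1 : PolyLine Ω (fun u : Matrix (Fin n) (Fin n) Ω => u.det) :=
    PolyLine.det fun i j => polyLine_ent i j
  have h2 : PolyLine Ω (fun u : Matrix (Fin n) (Fin n) Ω =>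
      ∏ q, (Matrix.of fun r s : Fin m => (u *ᵥ w r) (e q s)).det) := by
    refine PolyLine.prod _ fun q _ => PolyLine.det fun r s => ?_
    simp only [Matrix.of_apply, Matrix.mulVec, dotProduct]
    exact PolyLine.sum _ fun i _ => (polyLine_ent _ i).mul (polyLine_const _)
  have e1 : ∃ u : Matrix (Fin n) (Fin n) Ω, u.det ≠ 0 := ⟨1, by
    rw [Matrix.det_one]; exact one_ne_zero⟩
  have e2 : ∃ u : Matrix (Fin n) (Fin n) Ω,
      ∏ q, (Matrix.of fun r s : Fin m => (u *ᵥ w r) (e q s)).det ≠ 0 := by
    obtain ⟨θ⟩ : Nonempty (Fin n ↪ Ω) := ⟨(Fin.valEmbedding).trans (Infinite.natEmbedding Ω)⟩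
    obtain ⟨g, hg⟩ := LinearMap.exists_extend
      ((Basis.span hw).constr Ω fun r : Fin m => fun i : Fin n => θ i ^ (r : ℕ))
    have hg' : ∀ r, g (w r) = fun i : Fin n => θ i ^ (r : ℕ) := by
      intro r
      have e3 := LinearMap.congr_fun hg (Basis.span hw r)
      rw [Basis.constr_basis, LinearMap.comp_apply] at e3
      rw [← e3]
      exact congrArg g (congrArg Subtype.val (Basis.span_apply hw r)).symm
    refine ⟨LinearMap.toMatrix' g, Finset.prod_ne_zero_iff.2 fun q _ => ?_⟩
    have e4 : (Matrix.of fun r s : Fin m => (LinearMap.toMatrix' g *ᵥ w r) (e q s)) =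
        (Matrix.vandermonde fun s => θ (e q s))ᵀ := by
      ext r s
      rw [Matrix.of_apply, Matrix.transpose_apply, Matrix.vandermonde_apply,
        LinearMap.toMatrix'_mulVec, hg' r]
    rw [e4, Matrix.det_transpose]
    exact Matrix.det_vandermonde_ne_zero_iff.2 fun s s' h => he q (θ.injective h)
  obtain ⟨u, hu, hu1, hu2⟩ := (h1.lineOpen.and h2.lineOpen).exists_rat (k := k) β
    (h1.lineOpen.exists_common h2.lineOpen e1 e2)
  refine ⟨u, hu, ?_, fun q => ?_⟩
  · rw [Matrix.isUnit_iff_isUnit_det]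
    exact isUnit_iff_ne_zero.2 hu1
  · exact (Finset.prod_ne_zero_iff.1 hu2) q (Finset.mem_univ q)

/-- The inverse of a rational unit is rational (the rational matrices are a finite-dimensional
algebra; or `RatS.map`/`RatS.comap` for left multiplication). -/
theorem ratV_inv {β : Basis ι Ω (Matrix (Fin n) (Fin n) Ω)} (hβ : IsForm k β)
    {K : IntermediateField k Ω} {u : Matrix (Fin n) (Fin n) Ω} (hu : RatV β K u)
    (hu' : IsUnit u) : RatV β K u⁻¹ := by
  obtain ⟨lam, hlam⟩ := exists_retraction K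
  have h0 : ∀ i, RatV β K (LinearMap.mulLeft Ω u (β i)) := fun i => by
    rw [LinearMap.mulLeft_apply]
    exact hu.mul hβ (ratV_basis i)
  have h1 := lamE_map h0 lam u⁻¹
  have hdet := (Matrix.isUnit_iff_isUnit_det u).1 hu'
  rw [LinearMap.mulLeft_apply, LinearMap.mulLeft_apply, Matrix.mul_nonsing_inv _ hdet,
    lamE_eq hlam (hβ.ratV_one K)] at h1
  have h2 : lamE β lam u⁻¹ = u⁻¹ := by
    have h3 := congrArg (fun X => u⁻¹ * X) h1
    simp only [← Matrix.mul_assoc] at h3
    rw [Matrix.nonsing_inv_mul _ hdet, Matrix.mul_one, Matrix.one_mul] at h3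
    exact h3
  rw [← h2]
  exact lamE_ratV lam _

/-- `u W` and `W` have the same field of definition. -/
theorem ratR_shift {β : Basis ι Ω (Matrix (Fin n) (Fin n) Ω)} (hβ : IsForm k β)
    {u : Matrix (Fin n) (Fin n) Ω} (hu : RatV β (⊥ : IntermediateField k Ω) u) (hu' : IsUnit u)
    (W : Submodule Ω (Fin n → Ω)) (K : IntermediateField k Ω) :
    RatR β K (W.map (Matrix.toLin' u)) ↔ RatR β K W := by
  have hu1 : RatV β K u := hu.mono bot_le
  have hdet := (Matrix.isUnit_iff_isUnit_det u).1 hu'
  constructor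
  · intro h
    have h1 := RatR.map hβ (ratV_inv hβ hu1 hu') h
    have h2 : (W.map (Matrix.toLin' u)).map (u⁻¹).mulVecLin = W := by
      rw [← Submodule.map_comp]
      have h3 : (u⁻¹).mulVecLin ∘ₗ Matrix.toLin' u = LinearMap.id := by
        rw [Matrix.toLin'_apply', ← Matrix.mulVecLin_mul, Matrix.nonsing_inv_mul _ hdet,
          Matrix.mulVecLin_one]
      rw [h3, Submodule.map_id]
    rwa [h2] at h1
  · intro h
    exact RatR.map hβ hu1 h

end Pool.Agent.H78.TT
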