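import Pool.Agent.H78.TT.Sol12
import Pool.Agent.H78.TT.Gen3
import Pool.Agent.H78.TT.Gen1
import Pool.Agent.H78.TT.Shift
import Pool.Agent.H78.TT.Arith

/-!
# The birational map

For `W` of dimension `1` or `3` there is `W'` of the same dimension which is rational over the same
fields for the form `F_(-2)`. `exists_shift_perm`, `exists_shift` (`u W` instead of `W`, `ratR_shift`),
`exists_good3` or `exists_good1`. In dimension three `W' = had (span {c}) (u W)`; if `u W` is
`K`-rational then so are `sol1 a (u W) = span {c}` (form `-3`) and `W'` (`ratR_had`, `-3 + 1 = -2`); if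
`W'` is `K`-rational then so are `sol2 a W' = span {c⁻¹}` (form `3`) and
`had (span {c⁻¹}) W' = u W` (`3 - 2 = 1`). In dimension one `W' = sol3 a (u W) = span {x}` and
`sol4 a W' = u W`.
-/

open Module Matrix

namespace Pool.Agent.H78.TT

open Pool.Agent.H72.SB

variable {k Ω : Type*} [Field k] [Field Ω] [Algebra k Ω] {n : ℕ}
variable {θ : Fin n → Ω} {v : Fin n → Fin n → Ω}

theorem had_span (c : Fin n → Ω) (U : Submodule Ω (Fin n → Ω)) :
    had (Submodule.span Ω {c}) U = U.map (LinearMap.mulLeft Ω c) := by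
  apply le_antisymm
  · refine Submodule.span_le.2 ?_
    rintro _ ⟨x, hx, w, hw, rfl⟩
    obtain ⟨r, rfl⟩ := Submodule.mem_span_singleton.1 hx
    refine ⟨r • w, U.smul_mem r hw, ?_⟩
    rw [LinearMap.mulLeft_apply, mul_smul_comm, smul_mul_assoc]
  · rintro _ ⟨w, hw, rfl⟩
    exact Submodule.subset_span ⟨c, Submodule.mem_span_singleton_self c, w, hw, rfl⟩

theorem had_inv {c : Fin n → Ω} (hc : ∀ j, c j ≠ 0) (U : Submodule Ω (Fin n → Ω)) :
    had (Submodule.span Ω {c⁻¹}) (had (Submodule.span Ω {c}) U) = U := by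
  rw [had_span, had_span, ← Submodule.map_comp]
  have h1 : (LinearMap.mulLeft Ω c⁻¹).comp (LinearMap.mulLeft Ω c) = LinearMap.id := by
    apply LinearMap.ext
    intro x
    funext j
    change (c j)⁻¹ * (c j * x j) = x j
    rw [inv_mul_cancel_left₀ (hc j)]
  rw [h1, Submodule.map_id]

theorem finrank_had {c : Fin n → Ω} (hc : ∀ j, c j ≠ 0) (U : Submodule Ω (Fin n → Ω)) :
    finrank Ω (had (Submodule.span Ω {c}) U) = finrank Ω U := by
  rw [had_span]
  refine (Submodule.equivMapOfInjective _ ?_ U).finrank_eq.symm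
  intro x y hxy
  funext j
  have h1 := congrFun hxy j
  change c j * x j = c j * y j at h1
  exact mul_left_cancel₀ (hc j) h1

theorem exists_core3 [Infinite k] (h : Dat k θ v) (hn : Odd n) (hn3 : 3 ≤ n)
    {W : Submodule Ω (Fin n → Ω)} (hW : finrank Ω W = 3) :
    ∃ W' : Submodule Ω (Fin n → Ω), finrank Ω W' = 3 ∧
      ∀ K : IntermediateField k Ω, RatR (bas h 1) K W ↔ RatR (bas h (-2)) K W' := by
  obtain ⟨τ, h1, h2⟩ := exists_shift_perm hn
  let b := finBasisOfFinrankEq Ω W hW
  let w : Fin 3 → Fin n → Ω := fun r => (b r : Fin n → Ω)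
  have hw : LinearIndependent Ω w := b.linearIndependent.map' W.subtype (Submodule.ker_subtype W)
  have hWw : W = Submodule.span Ω (Set.range w) := by
    have h3 := congrArg (Submodule.map W.subtype) b.span_eq
    rw [Submodule.map_span, Submodule.map_top, Submodule.range_subtype, ← Set.range_comp] at h3
    exact h3.symm
  obtain ⟨u, hu, hu', hq⟩ := exists_shift (k := k) (bas h 1) hw (fun q : Fin n => ![q, τ q, τ (τ q)])
    (fun q => shift_injective hn3 h2 q)
  obtain ⟨a, ha, c, hc, hs1, hs2⟩ := exists_good3 (k := k) (bas h 1) hn3 τ h1 h2 (fun r => u *ᵥ w r)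
    (fun j => hq j)
  have hU : W.map (Matrix.toLin' u) = Submodule.span Ω (Set.range fun r => u *ᵥ w r) := by
    rw [hWw, Submodule.map_span, ← Set.range_comp]
    rfl
  rw [← hU] at hs1 hs2
  refine ⟨had (Submodule.span Ω {c}) (W.map (Matrix.toLin' u)), ?_, fun K => ?_⟩
  · rw [finrank_had hc, ← hW]
    refine (Submodule.equivMapOfInjective _ ?_ W).finrank_eq.symm
    exact (Matrix.mulVec_injective_iff_isUnit (A := u)).2 hu'
  · rw [← ratR_shift (isForm_bas h 1) hu hu' W K]
    constructor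
    · intro hK
      have h3 := ratR_sol1 h ha hK
      rw [hs1] at h3
      have h4 := ratR_had h h3 hK
      rwa [show (-3 : ℤ) + 1 = -2 by norm_num] at h4
    · intro hK
      have h3 := ratR_sol2 h ha hK
      rw [hs2] at h3
      have h4 := ratR_had h h3 hK
      rwa [show (3 : ℤ) + -2 = 1 by norm_num, had_inv hc] at h4

theorem exists_core1 [Infinite k] (h : Dat k θ v) (hn : Odd n)
    {W : Submodule Ω (Fin n → Ω)} (hW : finrank Ω W = 1) :
    ∃ W' : Submodule Ω (Fin n → Ω), finrank Ω W' = 1 ∧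
      ∀ K : IntermediateField k Ω, RatR (bas h 1) K W ↔ RatR (bas h (-2)) K W' := by
  obtain ⟨τ, h1, h2⟩ := exists_shift_perm hn
  obtain ⟨w, hw0, hWw'⟩ : ∃ w : Fin n → Ω, w ≠ 0 ∧ W = Submodule.span Ω {w} := by
    obtain ⟨w, hw0, hWw⟩ := finrank_eq_one_iff'.1 hW
    refine ⟨w, fun h0 => hw0 (Subtype.ext h0), ?_⟩
    apply le_antisymm
    · intro x hx
      obtain ⟨r, hr⟩ := hWw ⟨x, hx⟩
      exact Submodule.mem_span_singleton.2 ⟨r, congrArg Subtype.val hr⟩
    · exact (Submodule.span_singleton_le_iff_mem _ _).2 w.2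
  have hw : LinearIndependent Ω (fun _ : Fin 1 => w) :=
    LinearIndependent.of_subsingleton 0 hw0
  obtain ⟨u, hu, hu', hq⟩ := exists_shift (k := k) (bas h 1) hw (fun q : Fin n => fun _ : Fin 1 => q)
    (fun q => Function.injective_of_subsingleton _)
  obtain ⟨a, ha, x, hx, hs3, hs4⟩ := exists_good1 (k := k) (bas h 1) hn.pos τ h1 h2
    (u *ᵥ w) (fun j => by
      have h3 := hq j
      rwa [Matrix.det_fin_one, Matrix.of_apply] at h3)
  have hU : W.map (Matrix.toLin' u) = Submodule.span Ω {u *ᵥ w} := by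
    rw [hWw', Submodule.map_span, Set.image_singleton]
    rfl
  rw [← hU] at hs3 hs4
  refine ⟨sol3 a (W.map (Matrix.toLin' u)), ?_, fun K => ?_⟩
  · rw [hs3]
    exact finrank_span_singleton hx
  · rw [← ratR_shift (isForm_bas h 1) hu hu' W K]
    constructor
    · exact fun hK => ratR_sol3 h ha hK
    · intro hK
      have h3 := ratR_sol4 h ha hK
      rwa [hs3, hs4] at h3

end Pool.Agent.H78.TT
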