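import Pool.Agent.H78.TT.EHat

/-!
# The auxiliary function
-/

open Module Matrix

namespace Pool.Agent.H78.TT

open Pool.Agent.H72.SB

variable {k Ω : Type*} [Field k] [Field Ω] [Algebra k Ω] {n m r : ℕ}

private theorem egen_poly (w : Fin (r + 1) → Fin n → Ω) (i j : Fin n) :
    PolyLine Ω (fun f : (Fin (r + 1) → Fin n) → Ω => eH f w i j) := by
  have h1 : PolyLine Ω (fun f : (Fin (r + 1) → Fin n) → Ω => ∑ x : Fin r → Fin n,
      f (Fin.snoc x j : Fin (r + 1) → Fin n) *
        (pl w (Fin.snoc x i : Fin (r + 1) → Fin n) / pl w (Fin.snoc x j : Fin (r + 1) → Fin n))) :=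
    PolyLine.sum _ fun x _ =>
      (polyLine_linear (LinearMap.proj (R := Ω) (φ := fun _ : Fin (r + 1) → Fin n => Ω)
        (Fin.snoc x j : Fin (r + 1) → Fin n))).mul (polyLine_const _)
  exact h1

private theorem egen_snoc_inj {x : Fin r → Fin n} (hx : Function.Injective x) {i : Fin n}
    (hi : ∀ a, x a ≠ i) : Function.Injective (Fin.snoc x i : Fin (r + 1) → Fin n) :=
  Fin.snoc_injective_iff.2 ⟨hx, fun ⟨a, ha⟩ => hi a ha⟩

private theorem egen_tuple (hr : r + 1 < n) (i j : Fin n) :
    ∃ x : Fin r → Fin n, Function.Injective x ∧ (∀ a, x a ≠ i) ∧ ∀ a, x a ≠ j := by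
  classical
  have h1 : r ≤ (({i, j} : Finset (Fin n))ᶜ).card := by
    rw [Finset.card_compl, Fintype.card_fin]
    have := Finset.card_le_two (a := i) (b := j)
    omega
  obtain ⟨t, ht, hc⟩ := Finset.exists_subset_card_eq h1
  refine ⟨fun a => (t.orderEmbOfFin hc a), (t.orderEmbOfFin hc).injective, fun a h => ?_,
    fun a h => ?_⟩
  · have h2 := ht (t.orderEmbOfFin_mem hc a)
    rw [show (t.orderEmbOfFin hc) a = i from h] at h2
    simp at h2
  · have h2 := ht (t.orderEmbOfFin_mem hc a)
    rw [show (t.orderEmbOfFin hc) a = j from h] at h2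
    simp at h2

private theorem egen_entry (hr : r + 1 < n) {w : Fin (r + 1) → Fin n → Ω}
    (hpl : ∀ x, Function.Injective x → pl w x ≠ 0) (i j : Fin n) :
    ∃ f : (Fin (r + 1) → Fin n) → Ω, eH f w i j ≠ 0 := by
  classical
  obtain ⟨x, hx, hi, hj⟩ := egen_tuple hr i j
  refine ⟨Pi.single (Fin.snoc x j : Fin (r + 1) → Fin n) 1, ?_⟩
  rw [eH, Matrix.of_apply, Finset.sum_eq_single x]
  · rw [Pi.single_eq_same, one_mul]
    exact div_ne_zero (hpl _ (egen_snoc_inj hx hi)) (hpl _ (egen_snoc_inj hx hj))
  · intro y _ hy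
    rw [Pi.single_eq_of_ne, zero_mul]
    intro h
    apply hy
    exact (Fin.snoc_inj.1 h).1
  · intro h
    exact absurd (Finset.mem_univ _) h

/-- The minor with rows and columns `z`. -/
private noncomputable def egenD (f : (Fin (r + 1) → Fin n) → Ω) (w : Fin (r + 1) → Fin n → Ω)
    (z : Fin (r + 1) → Fin n) : Matrix (Fin (r + 1)) (Fin (r + 1)) Ω :=
  Matrix.of fun a b => eH f w (z a) (z b)

private theorem egen_minor {w : Fin (r + 1) → Fin n → Ω}
    (hpl : ∀ x, Function.Injective x → pl w x ≠ 0) {z : Fin (r + 1) → Fin n}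
    (hz : Function.Injective z) :
    ∃ f : (Fin (r + 1) → Fin n) → Ω, (egenD f w z).det ≠ 0 := by
  classical
  let y : Fin (r + 1) → Fin r → Fin n := fun b c => z (b.succAbove c)
  refine ⟨fun t => ∑ b, if t = (Fin.snoc (y b) (z b) : Fin (r + 1) → Fin n) then 1 else 0, ?_⟩
  have hy : ∀ b, Function.Injective (Fin.snoc (y b) (z b) : Fin (r + 1) → Fin n) := by
    intro b
    refine egen_snoc_inj (fun c d h => Fin.succAbove_right_injective (hz h)) fun c h => ?_
    exact Fin.succAbove_ne b c (hz h)
  have h1 : egenD (fun t => ∑ b, if t = (Fin.snoc (y b) (z b) : Fin (r + 1) → Fin n) then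
      (1 : Ω) else 0) w z = 1 := by
    ext a b
    rw [egenD, Matrix.of_apply, eH, Matrix.of_apply, Finset.sum_eq_single (y b)]
    · have h2 : (∑ b', if (Fin.snoc (y b) (z b) : Fin (r + 1) → Fin n) =
          (Fin.snoc (y b') (z b') : Fin (r + 1) → Fin n) then (1 : Ω) else 0) = 1 := by
        rw [Finset.sum_eq_single b]
        · rw [if_pos rfl]
        · intro b' _ hb'
          rw [if_neg]
          intro h
          exact hb' (hz (Fin.snoc_inj.1 h).2).symm
        · intro h
          exact absurd (Finset.mem_univ _) h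
      rw [h2, one_mul]
      by_cases hab : a = b
      · subst hab
        rw [Matrix.one_apply_eq, div_self (hpl _ (hy a))]
      · rw [Matrix.one_apply_ne hab]
        obtain ⟨c, hc⟩ := Fin.exists_succAbove_eq hab
        have h3 : pl w (Fin.snoc (y b) (z a) : Fin (r + 1) → Fin n) = 0 := by
          apply pl_of_not_injective
          intro h
          have h4 : (Fin.snoc (y b) (z a) : Fin (r + 1) → Fin n) c.castSucc =
              (Fin.snoc (y b) (z a) : Fin (r + 1) → Fin n) (Fin.last r) := by
            rw [Fin.snoc_castSucc, Fin.snoc_last]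
            change z (b.succAbove c) = z a
            rw [hc]
          exact (Fin.castSucc_lt_last c).ne (h h4)
        rw [h3, zero_div]
    · intro x _ hx
      have h2 : (∑ b', if (Fin.snoc x (z b) : Fin (r + 1) → Fin n) =
          (Fin.snoc (y b') (z b') : Fin (r + 1) → Fin n) then (1 : Ω) else 0) = 0 := by
        refine Finset.sum_eq_zero fun b' _ => ?_
        rw [if_neg]
        intro h
        obtain ⟨h3, h4⟩ := Fin.snoc_inj.1 h
        have h5 : b = b' := hz h4
        subst h5
        exact hx h3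
      rw [h2, zero_mul]
    · intro h
      exact absurd (Finset.mem_univ _) h
  rw [h1, Matrix.det_one]
  exact one_ne_zero

private theorem egen_polyD (w : Fin (r + 1) → Fin n → Ω) (z : Fin (r + 1) → Fin n) :
    PolyLine Ω (fun f : (Fin (r + 1) → Fin n) → Ω => (egenD f w z).det) :=
  PolyLine.det fun a b => egen_poly w (z a) (z b)

private theorem egen_colS {f : (Fin (r + 1) → Fin n) → Ω} {w : Fin (r + 1) → Fin n → Ω}
    (hw : LinearIndependent Ω w) {z : Fin (r + 1) → Fin n} (hD : (egenD f w z).det ≠ 0) :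
    colS (eH f w) = Submodule.span Ω (Set.range w) := by
  have h1 : colS (eH f w) ≤ Submodule.span Ω (Set.range w) := mem_RI_iff.1 (eH_mem f w)
  have h2 : LinearIndependent Ω (fun b => (eH f w).col (z b)) := by
    apply LinearIndependent.of_comp (LinearMap.funLeft Ω Ω z)
    have h3 := Matrix.linearIndependent_cols_of_det_ne_zero hD
    exact h3
  have h4 : finrank Ω (Submodule.span Ω (Set.range fun b => (eH f w).col (z b))) = r + 1 := by
    rw [finrank_span_eq_card h2, Fintype.card_fin]
  have h5 : finrank Ω (Submodule.span Ω (Set.range w)) = r + 1 := by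
    rw [finrank_span_eq_card hw, Fintype.card_fin]
  have h6 : Submodule.span Ω (Set.range fun b => (eH f w).col (z b)) ≤ colS (eH f w) := by
    rw [Submodule.span_le]
    rintro _ ⟨b, rfl⟩
    refine ⟨Pi.single (z b) 1, ?_⟩
    rw [Matrix.mulVecLin_apply, Matrix.mulVec_single_one]
  apply Submodule.eq_of_le_of_finrank_le h1
  rw [h5, ← h4]
  exact Submodule.finrank_mono h6

/-- A good function `f`, rational over `k`. The functions `f ↦ eH f w i j` are linear; for `f` the
indicator of a tuple `(x, j)` with `(x, j)` and `(x, i)` injective the value is not `0` (`r + 1 < n`).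
For an injective tuple `z` the minor of `eH f w` with rows and columns `z` is `1` if `f` is the sum of
the indicators of the tuples `(z without b, z b)`. `exists_basR`, `PolyLine.exists_rat`. -/
theorem exists_eH [Infinite k] {θ : Fin n → Ω} (hp : Pol k θ) (hθ : Function.Injective θ)
    (hr : r + 1 < n) {w : Fin (r + 1) → Fin n → Ω} (hw : LinearIndependent Ω w)
    (hpl : ∀ x, Function.Injective x → pl w x ≠ 0) :
    ∃ f : (Fin (r + 1) → Fin n) → Ω, IsR θ (⊥ : IntermediateField k Ω) (Fin (r + 1)) f ∧
      (∀ i j, eH f w i j ≠ 0) ∧ colS (eH f w) = Submodule.span Ω (Set.range w) := by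
  classical
  have : Infinite Ω := Infinite.of_injective (algebraMap k Ω) (algebraMap k Ω).injective
  let z : Fin (r + 1) → Fin n := fun a => Fin.castLE hr.le a
  have hz : Function.Injective z := fun a b h => Fin.castLE_injective hr.le h
  have hpoly : ∀ S : Finset (Fin n × Fin n), PolyLine Ω
      (fun f : (Fin (r + 1) → Fin n) → Ω => (∏ p ∈ S, eH f w p.1 p.2) * (egenD f w z).det) :=
    fun S => (PolyLine.prod S fun p _ => egen_poly w p.1 p.2).mul (egen_polyD w z)
  have key : ∀ S : Finset (Fin n × Fin n), ∃ f : (Fin (r + 1) → Fin n) → Ω,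
      (∏ p ∈ S, eH f w p.1 p.2) * (egenD f w z).det ≠ 0 := by
    intro S
    induction S using Finset.induction_on with
    | empty =>
      obtain ⟨f, hf⟩ := egen_minor hpl hz
      exact ⟨f, by rw [Finset.prod_empty, one_mul]; exact hf⟩
    | insert p S hpS ih =>
      obtain ⟨f, hf1, hf2⟩ := LineOpen.exists_common (hpoly S).lineOpen
        (egen_poly w p.1 p.2).lineOpen ih (egen_entry hr hpl p.1 p.2)
      refine ⟨f, ?_⟩
      rw [Finset.prod_insert hpS, mul_assoc]
      exact mul_ne_zero hf2 hf1
  obtain ⟨β, hβ⟩ := exists_basR hp hθ (r + 1)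
  obtain ⟨f, hf, hf0⟩ := PolyLine.exists_rat (k := k) β (hpoly Finset.univ) (key Finset.univ)
  refine ⟨f, (hβ _ _).1 hf, fun i j => ?_, egen_colS hw (right_ne_zero_of_mul hf0)⟩
  exact Finset.prod_ne_zero_iff.1 (left_ne_zero_of_mul hf0) (i, j) (Finset.mem_univ _)

end Pool.Agent.H78.TT
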