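import Pool.Agent.H78.TT.ERat

/-!
# A rational line for the weights `v ^ (r + 1)`
-/

open Module Matrix

namespace Pool.Agent.H78.TT

open Pool.Agent.H72.SB

variable {k Ω : Type*} [Field k] [Field Ω] [Algebra k Ω] {n r : ℕ}
variable {θ : Fin n → Ω} {v : Fin n → Fin n → Ω} {K : IntermediateField k Ω}

private theorem emu_minor {m : ℕ} {w : Fin m → Fin n → Ω} (hw : LinearIndependent Ω w) :
    ∃ x : Fin m → Fin n, pl w x ≠ 0 := by
  classical
  have h1 : (Matrix.of w).rank = m := by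
    have h2 : LinearIndependent Ω (Matrix.of w).row := hw
    rw [h2.rank_matrix, Fintype.card_fin]
  rw [Matrix.rank_eq_finrank_span_cols] at h1
  obtain ⟨f, hf1, -, hf3⟩ := Submodule.exists_fun_fin_finrank_span_eq Ω (Set.range (Matrix.of w).col)
  choose x hx using hf1
  let e : Fin m ≃ Fin (finrank Ω (Submodule.span Ω (Set.range (Matrix.of w).col))) := finCongr h1.symm
  refine ⟨fun a => x (e a), ?_⟩
  have h3 : LinearIndependent Ω (f ∘ e) := hf3.comp e e.injective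
  have h4 : (Matrix.of fun a b => w a (x (e b))).col = f ∘ e := by
    funext b
    rw [Function.comp_apply, ← hx (e b)]
    rfl
  have h5 : IsUnit (Matrix.of fun a b => w a (x (e b))) := by
    rw [← Matrix.linearIndependent_cols_iff_isUnit, h4]
    exact h3
  exact ((Matrix.isUnit_iff_isUnit_det _).1 h5).ne_zero

/-- The line of the vector `μ i = ∑ x, f (x, i) * pl w x / ∏ b, v (x b) i` is rational for the
weights `v ^ (r + 1)`: with `exists_pl_rational`, `c j * μ i = v i j ^ (r + 1) *` a rational function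
of `i, j`, because `v (x b) j / v (x b) i = v i j / gam (x b, i, j)`. All `μ i ≠ 0` for a good `f`
(a function of `r + 2` indices). `rr_line`. -/
theorem exists_mu [Infinite k] (hp : Pol k θ) (hθ : Function.Injective θ) (h : Coc θ v K)
    {w : Fin (r + 1) → Fin n → Ω} (hw : LinearIndependent Ω w)
    (hW : RR θ v K (Submodule.span Ω (Set.range w))) :
    ∃ μ : Fin n → Ω, (∀ i, μ i ≠ 0) ∧
      RR θ (fun i j => v i j ^ (r + 1)) K (Submodule.span Ω {μ}) := by
  classical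
  obtain ⟨c, D, hc, hD, hcD⟩ := exists_pl_rational hp hθ h.ne hw hW
  obtain ⟨x0, hx0⟩ := emu_minor hw
  obtain ⟨β, hβ⟩ := exists_basR (k := k) hp hθ (r + 2)
  -- the linear functionals
  obtain ⟨L, hL⟩ : ∃ L : Fin n → ((Fin (r + 2) → Fin n) → Ω) →ₗ[Ω] Ω, ∀ i F, L i F =
      ∑ x : Fin (r + 1) → Fin n, (pl w x / ∏ b, v (x b) i) * F (Fin.snoc x i) := by
    refine ⟨fun i => ∑ x : Fin (r + 1) → Fin n, (pl w x / ∏ b, v (x b) i) •
      LinearMap.proj (R := Ω) (φ := fun _ : Fin (r + 2) → Fin n => Ω) (Fin.snoc x i), fun i F => ?_⟩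
    rw [LinearMap.sum_apply]
    rfl
  have hv0 : ∀ (x : Fin (r + 1) → Fin n) i, (∏ b, v (x b) i) ≠ 0 := fun x i =>
    Finset.prod_ne_zero_iff.2 fun b _ => h.ne _ _
  have h0 : ∃ F, ∏ i, L i F ≠ 0 := by
    refine ⟨fun z => if (fun b => z (Fin.castSucc b)) = x0 then 1 else 0, ?_⟩
    refine Finset.prod_ne_zero_iff.2 fun i _ => ?_
    rw [hL]
    have h1 : ∀ x : Fin (r + 1) → Fin n,
        (fun b : Fin (r + 1) => (Fin.snoc x i : Fin (r + 2) → Fin n) (Fin.castSucc b)) = x := by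
      intro x
      funext b
      rw [Fin.snoc_castSucc]
    simp only [h1]
    rw [Finset.sum_eq_single x0]
    · rw [if_pos rfl, mul_one]
      exact div_ne_zero hx0 (hv0 x0 i)
    · intro x _ hx
      rw [if_neg hx, mul_zero]
    · intro hx
      exact absurd (Finset.mem_univ _) hx
  obtain ⟨F, hF, hF0⟩ := PolyLine.exists_rat (k := k) β
    (PolyLine.prod Finset.univ fun i _ => polyLine_linear (L i)) h0
  have hFR : IsR θ K (Fin (r + 2)) F := ((hβ _ F).1 hF).mono bot_le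
  have hμ : ∀ i, L i F ≠ 0 := fun i => Finset.prod_ne_zero_iff.1 hF0 i (Finset.mem_univ i)
  have hcoc : Coc θ (fun i j => v i j ^ (r + 1)) K := by
    have h1 := h.zpow hp ((r + 1 : ℕ) : ℤ)
    have h2 : (fun i j => v i j ^ (((r + 1 : ℕ) : ℤ))) = fun i j => v i j ^ (r + 1) := by
      funext i j
      rw [zpow_natCast]
    rwa [h2] at h1
  refine ⟨fun i => L i F, hμ, (rr_line hp hθ hcoc hμ).2 ?_⟩
  -- the rational function
  obtain ⟨G, hG⟩ : ∃ G : (Fin 2 ⊕ Fin (r + 1) → Fin n) → Ω, ∀ y, G y =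
      F (Fin.snoc (fun b => y (Sum.inr b)) (y (Sum.inl 0))) *
      (∏ b : Fin (r + 1), (v (y (Sum.inr b)) (y (Sum.inl 0)) * v (y (Sum.inl 0)) (y (Sum.inl 1)) /
        v (y (Sum.inr b)) (y (Sum.inl 1)))⁻¹) *
      D (Sum.elim (fun b => y (Sum.inr b)) fun _ => y (Sum.inl 1)) := ⟨_, fun _ => rfl⟩
  have hGR : IsR θ K (Fin 2 ⊕ Fin (r + 1)) G := by
    have g1 := hFR.comp (ι := Fin 2 ⊕ Fin (r + 1))
      (Fin.snoc (fun b : Fin (r + 1) => Sum.inr b) (Sum.inl 0) : Fin (r + 2) → Fin 2 ⊕ Fin (r + 1))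
    have g2 : ∀ b : Fin (r + 1), IsR θ K (Fin 2 ⊕ Fin (r + 1)) (fun y =>
        (v (y (Sum.inr b)) (y (Sum.inl 0)) * v (y (Sum.inl 0)) (y (Sum.inl 1)) /
        v (y (Sum.inr b)) (y (Sum.inl 1)))⁻¹) := fun b =>
      (h.gam.comp (ι := Fin 2 ⊕ Fin (r + 1)) ![Sum.inr b, Sum.inl 0, Sum.inl 1]).inv0 hp
    have g3 := hD.comp (ι := Fin 2 ⊕ Fin (r + 1))
      (Sum.elim (fun b : Fin (r + 1) => Sum.inr b) fun _ => Sum.inl 1)
    refine ((g1.mul (IsR.prod Finset.univ fun b _ => g2 b)).mul g3).congr fun y => ?_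
    rw [hG]
    have e1 : (fun a => y ((Fin.snoc (fun b : Fin (r + 1) => Sum.inr b) (Sum.inl 0) :
        Fin (r + 2) → Fin 2 ⊕ Fin (r + 1)) a)) =
        (Fin.snoc (fun b => y (Sum.inr b)) (y (Sum.inl 0)) : Fin (r + 2) → Fin n) :=
      Fin.comp_snoc y _ _
    have e2 : (fun a => y ((Sum.elim (fun b : Fin (r + 1) => Sum.inr b) fun _ => Sum.inl 1 :
        Fin (r + 1) ⊕ Fin 1 → Fin 2 ⊕ Fin (r + 1)) a)) =
        Sum.elim (fun b => y (Sum.inr b)) fun _ => y (Sum.inl 1) := by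
      funext a
      rcases a with a | a <;> rfl
    rw [e1, e2]
  have hS := hGR.sum_all hp hθ
  obtain ⟨S, hSdef⟩ : ∃ S : Fin n → Fin n → Ω, ∀ i j, S i j =
      ∑ y : Fin (r + 1) → Fin n, G (Sum.elim ![i, j] y) := ⟨_, fun _ _ => rfl⟩
  have hSR : IsR θ K (Fin 2) (fun x => S (x 0) (x 1)) := hS.congr fun x => by
    rw [hSdef]
    have : ![x 0, x 1] = x := by
      funext a
      fin_cases a <;> rfl
    rw [this]
  have key : ∀ i j, c j * L i F = v i j ^ (r + 1) * S i j := by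
    intro i j
    rw [hL, hSdef, Finset.mul_sum, Finset.mul_sum]
    refine Finset.sum_congr rfl fun x _ => ?_
    rw [hG]
    simp only [Sum.elim_inr, Sum.elim_inl, Matrix.cons_val_zero, Matrix.cons_val_one]
    have e1 : v i j ^ (r + 1) * ∏ b : Fin (r + 1), (v (x b) i * v i j / v (x b) j)⁻¹ =
        (∏ b, v (x b) j) / ∏ b, v (x b) i := by
      have e2 : v i j ^ (r + 1) = ∏ _b : Fin (r + 1), v i j := by
        rw [Finset.prod_const, Finset.card_univ, Fintype.card_fin]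
      rw [e2, ← Finset.prod_mul_distrib, ← Finset.prod_div_distrib]
      refine Finset.prod_congr rfl fun b _ => ?_
      have a1 := h.ne (x b) i
      have a2 := h.ne i j
      have a3 := h.ne (x b) j
      field_simp
    have e3 := hcD j x
    calc c j * (pl w x / (∏ b, v (x b) i) * F (Fin.snoc x i))
        = (c j * pl w x) / (∏ b, v (x b) i) * F (Fin.snoc x i) := by ring
      _ = ((∏ b, v (x b) j) / ∏ b, v (x b) i) * F (Fin.snoc x i) * D (Sum.elim x fun _ => j) := by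
          rw [e3]
          ring
      _ = v i j ^ (r + 1) * (F (Fin.snoc x i) *
          (∏ b : Fin (r + 1), (v (x b) i * v i j / v (x b) j)⁻¹) * D (Sum.elim x fun _ => j)) := by
          rw [← e1]
          ring
  have hdiag : IsR θ K (Fin 2) (fun x => v (x 1) (x 1)) := h.diag.comp (fun _ => (1 : Fin 2))
  have hSd : IsR θ K (Fin 2) (fun x => S (x 1) (x 1)) := hSR.comp (fun _ : Fin 2 => (1 : Fin 2))
  refine (hSR.div hp ((hdiag.pow (r + 1)).mul hSd)).congr fun x => ?_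
  have k1 := key (x 0) (x 1)
  have k2 := key (x 1) (x 1)
  rw [← k2]
  have a1 : v (x 0) (x 1) ^ (r + 1) ≠ 0 := pow_ne_zero _ (h.ne _ _)
  have a2 := hμ (x 1)
  have a3 := hc (x 1)
  rw [div_div, div_eq_div_iff (mul_ne_zero a2 a1) (mul_ne_zero a3 a2)]
  linear_combination (L (x 1) F) * k1

end Pool.Agent.H78.TT
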