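import Pool.Agent.H78.TT.ERat

/-!
# The matrix of a rational subspace is rational

`exists_pl_rational` for `K`: for every `j`
`pl w (y, i) / pl w (y, j) = v i j / v j j * (D (y, i) j / D (y, j) j)`; `IsR.sum_all`, `IsR.div`,
`Coc.diag`.
-/

open Module Matrix

namespace Pool.Agent.H78.TT

open Pool.Agent.H72.SB

variable {k Ω : Type*} [Field k] [Field Ω] [Algebra k Ω] {n r : ℕ}
variable {θ : Fin n → Ω} {v : Fin n → Fin n → Ω} {K : IntermediateField k Ω}

private theorem ERat2_prod (j i : Fin n) (x : Fin r → Fin n) :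
    ∏ b : Fin (r + 1), v ((Fin.snoc x i : Fin (r + 1) → Fin n) b) j =
      (∏ b : Fin r, v (x b) j) * v i j := by
  rw [Fin.prod_univ_castSucc]
  simp only [Fin.snoc_castSucc, Fin.snoc_last]

private theorem ERat2_quot (hv : ∀ i j, v i j ≠ 0) {p : (Fin (r + 1) → Fin n) → Ω}
    {c : Fin n → Ω} {D : (Fin (r + 1) ⊕ Fin 1 → Fin n) → Ω} (hc : ∀ j, c j ≠ 0)
    (h : ∀ j x, c j * p x = (∏ b, v (x b) j) * D (Sum.elim x fun _ => j))
    (i j : Fin n) (x : Fin r → Fin n) :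
    p (Fin.snoc x i) / p (Fin.snoc x j) =
      v i j * ((v j j)⁻¹ * (D (Sum.elim (Fin.snoc x i : Fin (r + 1) → Fin n) fun _ => j) /
        D (Sum.elim (Fin.snoc x j : Fin (r + 1) → Fin n) fun _ => j))) := by
  have h1 := h j (Fin.snoc x i)
  have h2 := h j (Fin.snoc x j)
  rw [ERat2_prod] at h1 h2
  have hP : ∏ b : Fin r, v (x b) j ≠ 0 := Finset.prod_ne_zero_iff.2 fun b _ => hv _ _
  have h3 : p (Fin.snoc x i) / p (Fin.snoc x j) =
      (c j * p (Fin.snoc x i)) / (c j * p (Fin.snoc x j)) := by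
    rw [mul_div_mul_left _ _ (hc j)]
  rw [h3, h1, h2, mul_assoc, mul_assoc, mul_div_mul_left _ _ hP, mul_div_mul_comm]
  rw [div_eq_mul_inv (v i j), mul_assoc]

private theorem ERat2_snoc {ι : Type*} (z : ι → Fin n) (y : Fin r → ι) (a : ι) :
    (fun b => z ((Fin.snoc y a : Fin (r + 1) → ι) b)) =
      (Fin.snoc (fun b => z (y b)) (z a) : Fin (r + 1) → Fin n) := by
  funext b
  refine Fin.lastCases ?_ (fun b => ?_) b
  · simp only [Fin.snoc_last]
  · simp only [Fin.snoc_castSucc]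

private theorem ERat2_elim {ι : Type*} (z : ι → Fin n) (y : Fin r → ι) (a a' : ι) :
    (fun b => z ((Sum.elim (Fin.snoc y a : Fin (r + 1) → ι) (fun _ : Fin 1 => a')) b)) =
      Sum.elim (Fin.snoc (fun b => z (y b)) (z a) : Fin (r + 1) → Fin n) fun _ => z a' := by
  rw [← ERat2_snoc]
  funext b
  rcases b with b | b <;> rfl

theorem ratW_eH [Infinite k] (hp : Pol k θ) (hθ : Function.Injective θ) (h : Coc θ v K)
    {w : Fin (r + 1) → Fin n → Ω} (hw : LinearIndependent Ω w)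
    (hW : RR θ v K (Submodule.span Ω (Set.range w))) {f : (Fin (r + 1) → Fin n) → Ω}
    (hf : IsR θ (⊥ : IntermediateField k Ω) (Fin (r + 1)) f) : RatW θ v K (eH f w) := by
  obtain ⟨c, D, hc, hD, hcD⟩ := exists_pl_rational hp hθ h.ne hw hW
  have e1 : IsR θ K (Fin 2 ⊕ Fin r) (fun z => f (Fin.snoc (fun b => z (Sum.inr b))
      (z (Sum.inl 1)))) :=
    ((hf.mono bot_le).comp (Fin.snoc (fun b : Fin r => (Sum.inr b : Fin 2 ⊕ Fin r))
      (Sum.inl 1) : Fin (r + 1) → Fin 2 ⊕ Fin r)).congr fun z => by rw [ERat2_snoc]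
  have e2 : IsR θ K (Fin 2 ⊕ Fin r) (fun z => (v (z (Sum.inl 1)) (z (Sum.inl 1)))⁻¹) :=
    (h.diag.comp (fun _ : Fin 1 => (Sum.inl 1 : Fin 2 ⊕ Fin r))).inv0 hp
  have e3 : ∀ s : Fin 2, IsR θ K (Fin 2 ⊕ Fin r) (fun z =>
      D (Sum.elim (Fin.snoc (fun b => z (Sum.inr b)) (z (Sum.inl s)) : Fin (r + 1) → Fin n)
        fun _ => z (Sum.inl 1))) := fun s =>
    (hD.comp (Sum.elim (Fin.snoc (fun b : Fin r => (Sum.inr b : Fin 2 ⊕ Fin r))
      (Sum.inl s) : Fin (r + 1) → Fin 2 ⊕ Fin r) (fun _ : Fin 1 => Sum.inl 1))).congr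
        fun z => by rw [ERat2_elim]
  have e4 := (e1.mul (e2.mul ((e3 0).div hp (e3 1)))).sum_all hp hθ
  refine e4.congr fun x => ?_
  have hx : v (x 0) (x 1) ≠ 0 := h.ne _ _
  unfold eH
  rw [Matrix.of_apply, Finset.sum_div]
  refine Finset.sum_congr rfl fun y _ => ?_
  simp only [Sum.elim_inl, Sum.elim_inr]
  rw [ERat2_quot h.ne hc hcD]
  rw [mul_div_assoc, mul_div_cancel_left₀ _ hx]

end Pool.Agent.H78.TT
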