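import Pool.Agent.H78.TT.RLine
import Pool.Agent.H78.TT.Core
import Pool.Agent.H78.TT.ERat2
import Pool.Agent.H78.TT.EMu
import Pool.Agent.H78.TT.EGen

/-!
# The birational map for subspaces of any dimension, for a given map of lines

`W` is a subspace of dimension `g`, in general position, `e` its matrix (`eH`), `K₀` the field of
definition of the cocycle of `e`. `W` is rational over `K` for the weights `v` if and only if `K₀ ≤ K`
and the line of the vector `1` is rational over `K` for the weights `v / e`. The line is moved to the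
line of `t'` (`LineMap`, over `K₀`), and `W` to `τ ∘ W`, `τ = μ ^ c * t'`.
-/

open Module Matrix

namespace Pool.Agent.H78.TT

open Pool.Agent.H72.SB

variable {k Ω : Type*} [Field k] [Field Ω] [Algebra k Ω] {n : ℕ}
variable {θ : Fin n → Ω} {v : Fin n → Fin n → Ω}

/-- The cocycle of `e` is rational if that of `v` and the quotient `ρ` of `e` and `v`, up to a
coboundary, are. -/
theorem isR_eta (hp : Pol k θ) {K : IntermediateField k Ω} {w e : Fin n → Fin n → Ω}
    (hw : Coc θ w K) (he : ∀ i j, e i j ≠ 0) {τ : Fin n → Ω} (hτ : ∀ j, τ j ≠ 0)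
    (h : IsR θ K (Fin 2) (fun x => τ (x 0) / τ (x 1) * e (x 0) (x 1) / w (x 0) (x 1))) :
    IsR θ K (Fin 3) (fun x => e (x 0) (x 1) * e (x 1) (x 2) / e (x 0) (x 2)) := by
  have h01 := h.comp (ι := Fin 3) ![0, 1]
  have h12 := h.comp (ι := Fin 3) ![1, 2]
  have h02 := h.comp (ι := Fin 3) ![0, 2]
  refine (hw.gam.mul ((h01.mul h12).div hp h02)).congr fun x => ?_
  have a1 := hτ (x 0)
  have a2 := hτ (x 1)
  have a3 := hτ (x 2)
  have b1 := he (x 0) (x 1)
  have b2 := he (x 1) (x 2)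
  have b3 := he (x 0) (x 2)
  have c1 := hw.ne (x 0) (x 1)
  have c2 := hw.ne (x 1) (x 2)
  have c3 := hw.ne (x 0) (x 2)
  simp only [Matrix.cons_val_zero, Matrix.cons_val_one]
  field_simp

theorem span_mul (τ : Fin n → Ω) {m : ℕ} (w : Fin m → Fin n → Ω) :
    had (Submodule.span Ω {τ}) (Submodule.span Ω (Set.range w)) =
      Submodule.span Ω (Set.range fun a => τ * w a) := by
  rw [had_span, Submodule.map_span, ← Set.range_comp]
  rfl

theorem had_one (U : Submodule Ω (Fin n → Ω)) : had (Submodule.span Ω {1}) U = U := by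
  rw [had_span]
  have h1 : LinearMap.mulLeft Ω (1 : Fin n → Ω) = LinearMap.id := by
    apply LinearMap.ext
    intro x
    rw [LinearMap.mulLeft_apply, one_mul]
    rfl
  rw [h1, Submodule.map_id]

theorem linearIndependent_mul {τ : Fin n → Ω} (hτ : ∀ j, τ j ≠ 0) {m : ℕ} {w : Fin m → Fin n → Ω}
    (hw : LinearIndependent Ω w) : LinearIndependent Ω (fun a => τ * w a) := by
  refine hw.map' (LinearMap.mulLeft Ω τ) (LinearMap.ker_eq_bot.2 ?_)
  intro x y hxy
  funext j
  have h1 := congrFun hxy j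
  change τ j * x j = τ j * y j at h1
  exact mul_left_cancel₀ (hτ j) h1

/-- The map of lines: for all weights over all fields `K₀` there is a vector `t` such that the line of
`1` is rational for `w` over the same fields as the line of `t` for `w ^ i`. -/
def LineMap (k : Type*) {Ω : Type*} [Field k] [Field Ω] [Algebra k Ω] {n : ℕ} (θ : Fin n → Ω)
    (i : ℤ) : Prop :=
  ∀ (K₀ : IntermediateField k Ω) (w : Fin n → Fin n → Ω), Coc θ w K₀ →
    ∃ t : Fin n → Ω, (∀ j, t j ≠ 0) ∧ ∀ K : IntermediateField k Ω, K₀ ≤ K →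
      (RR θ w K (Submodule.span Ω {1}) ↔
        RR θ (fun a b => w a b ^ i) K (Submodule.span Ω {t}))

theorem exists_coreH [Infinite k] (h : Dat k θ v) {g : ℕ} (hg : 1 ≤ g) (hgn : g < n)
    {W : Submodule Ω (Fin n → Ω)} (hW : finrank Ω W = g) {i : ℤ} (hL : LineMap k θ i)
    (hig : (g : ℤ) ∣ i - 1) :
    ∃ W' : Submodule Ω (Fin n → Ω), finrank Ω W' = g ∧
      ∀ K : IntermediateField k Ω, RatR (bas h 1) K W ↔ RatR (bas h i) K W' := by
  obtain ⟨r, rfl⟩ : ∃ r, g = r + 1 := ⟨g - 1, by omega⟩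
  have hp := h.pol
  have hθ := h.inj
  let b0 := finBasisOfFinrankEq Ω W hW
  let w0 : Fin (r + 1) → Fin n → Ω := fun a => (b0 a : Fin n → Ω)
  have hw0 : LinearIndependent Ω w0 :=
    b0.linearIndependent.map' W.subtype (Submodule.ker_subtype W)
  have hWw : W = Submodule.span Ω (Set.range w0) := by
    have h3 := congrArg (Submodule.map W.subtype) b0.span_eq
    rw [Submodule.map_span, Submodule.map_top, Submodule.range_subtype, ← Set.range_comp] at h3
    exact h3.symm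
  have : Fintype {x : Fin (r + 1) → Fin n // Function.Injective x} := Fintype.ofFinite _
  obtain ⟨u, hu, hu', hq⟩ := exists_shift (k := k) (bas h 1) hw0
    (Q := {x : Fin (r + 1) → Fin n // Function.Injective x}) (fun q => q.1) (fun q => q.2)
  have huinj : Function.Injective (Matrix.toLin' u) :=
    (Matrix.mulVec_injective_iff_isUnit (A := u)).2 hu'
  obtain ⟨w, hwdef⟩ : ∃ w : Fin (r + 1) → Fin n → Ω, w = fun a => u *ᵥ w0 a := ⟨_, rfl⟩
  have hw : LinearIndependent Ω w := by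
    rw [hwdef]
    exact hw0.map' (Matrix.toLin' u) (LinearMap.ker_eq_bot.2 huinj)
  have hpl : ∀ x, Function.Injective x → pl w x ≠ 0 := by
    intro x hx
    rw [hwdef]
    exact hq ⟨x, hx⟩
  have hU : W.map (Matrix.toLin' u) = Submodule.span Ω (Set.range w) := by
    rw [hWw, Submodule.map_span, ← Set.range_comp, hwdef]
    rfl
  obtain ⟨f, hf, hfne, hfcol⟩ := exists_eH (k := k) hp hθ hgn hw hpl
  obtain ⟨e, he⟩ : ∃ e : Fin n → Fin n → Ω, ∀ i j, e i j = eH f w i j := ⟨_, fun _ _ => rfl⟩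
  have hene : ∀ i j, e i j ≠ 0 := fun i j => by rw [he]; exact hfne i j
  obtain ⟨K₀, hK₀⟩ := exists_fodF hp hθ (k := k)
    (fun x : Fin 3 → Fin n => e (x 0) (x 1) * e (x 1) (x 2) / e (x 0) (x 2))
  have hce : Coc θ e K₀ := ⟨hene, (hK₀ K₀).2 le_rfl⟩
  have hWe : RR θ e K₀ (Submodule.span Ω (Set.range w)) := by
    rw [← hfcol]
    refine rr_colS hp hθ hce ((isR_const 1 K₀.one_mem).congr fun x => ?_)
    rw [he, div_self (hfne _ _)]
  obtain ⟨μ, hμ, hμr⟩ := exists_mu hp hθ hce hw hWe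
  have hcer : Coc θ (fun i j => e i j ^ (r + 1)) K₀ := by
    have := hce.zpow hp ((r + 1 : ℕ) : ℤ)
    simpa only [zpow_natCast] using this
  have hμR : IsR θ K₀ (Fin 2) (fun x => μ (x 0) / μ (x 1) / e (x 0) (x 1) ^ (r + 1)) :=
    (rr_line hp hθ hcer hμ).1 hμr
  -- the weights `b = v / e`
  obtain ⟨b, hb⟩ : ∃ b : Fin n → Fin n → Ω, ∀ i j, b i j = v i j * e i j ^ (-1 : ℤ) :=
    ⟨_, fun _ _ => rfl⟩
  have hcb : Coc θ b K₀ := by
    have := (h.coc K₀).mul (hce.zpow hp (-1))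
    have hb' : b = fun i j => v i j * e i j ^ (-1 : ℤ) := by funext i j; exact hb i j
    rw [hb']
    exact this
  obtain ⟨t', ht', hch⟩ := hL K₀ b hcb
  obtain ⟨c, hc⟩ := hig
  let τ : Fin n → Ω := fun j => μ j ^ c * t' j
  have hτ : ∀ j, τ j ≠ 0 := fun j => mul_ne_zero (zpow_ne_zero _ (hμ j)) (ht' j)
  -- the weights `q = v ^ i / e`
  have hcq : ∀ K : IntermediateField k Ω, K₀ ≤ K →
      Coc θ (fun a b => v a b ^ i * e a b ^ (-1 : ℤ)) K := fun K hK =>
    ((h.coc K).zpow hp i).mul ((hce.mono hK).zpow hp (-1))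
  have hbi : ∀ K : IntermediateField k Ω, K₀ ≤ K → Coc θ (fun a a' => b a a' ^ i) K := fun K hK =>
    (hcb.mono hK).zpow hp i
  have hM : ∀ K : IntermediateField k Ω, K₀ ≤ K → IsR θ K (Fin 2)
      (fun x => (μ (x 0) / μ (x 1) / e (x 0) (x 1) ^ (r + 1)) ^ c) := fun K hK =>
    (hμR.mono hK).zpow hp c
  have key : ∀ x : Fin 2 → Fin n, τ (x 0) / τ (x 1) / (v (x 0) (x 1) ^ i * e (x 0) (x 1) ^ (-1 : ℤ))
      = (μ (x 0) / μ (x 1) / e (x 0) (x 1) ^ (r + 1)) ^ c *
        (t' (x 0) / t' (x 1) / b (x 0) (x 1) ^ i) := by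
    intro x
    have h1 : e (x 0) (x 1) ≠ 0 := hene _ _
    have h2 : v (x 0) (x 1) ≠ 0 := h.ne _ _
    have h3 : i = 1 + ((r + 1 : ℕ) : ℤ) * c := by linarith
    have h4 : e (x 0) (x 1) ^ i = e (x 0) (x 1) * (e (x 0) (x 1) ^ (r + 1)) ^ c := by
      rw [h3, zpow_add₀ h1, zpow_one, _root_.zpow_mul, zpow_natCast]
    have h5 : b (x 0) (x 1) ^ i = v (x 0) (x 1) ^ i / (e (x 0) (x 1) *
        (e (x 0) (x 1) ^ (r + 1)) ^ c) := by
      rw [hb, mul_zpow, ← _root_.zpow_mul, neg_one_mul, _root_.zpow_neg, h4, div_eq_mul_inv]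
    rw [h5, _root_.zpow_neg_one, div_zpow, div_zpow]
    change μ (x 0) ^ c * t' (x 0) / (μ (x 1) ^ c * t' (x 1)) / _ = _
    have h6 : (e (x 0) (x 1) ^ (r + 1)) ^ c ≠ 0 := zpow_ne_zero _ (pow_ne_zero _ h1)
    have h7 : v (x 0) (x 1) ^ i ≠ 0 := zpow_ne_zero _ h2
    have h8 : μ (x 1) ^ c ≠ 0 := zpow_ne_zero _ (hμ _)
    have h9 := ht' (x 1)
    field_simp
  have hMne : ∀ x : Fin 2 → Fin n, (μ (x 0) / μ (x 1) / e (x 0) (x 1) ^ (r + 1)) ^ c ≠ 0 :=
    fun x => zpow_ne_zero _ (div_ne_zero (div_ne_zero (hμ _) (hμ _)) (pow_ne_zero _ (hene _ _)))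
  have hline : ∀ K : IntermediateField k Ω, K₀ ≤ K →
      (IsR θ K (Fin 2) (fun x => τ (x 0) / τ (x 1) / (v (x 0) (x 1) ^ i *
        e (x 0) (x 1) ^ (-1 : ℤ))) ↔
        RR θ (fun a a' => b a a' ^ i) K (Submodule.span Ω {t'})) := by
    intro K hK
    rw [rr_line hp hθ (hbi K hK) ht']
    constructor
    · intro h1
      refine (h1.div hp (hM K hK)).congr fun x => ?_
      rw [key x, mul_div_cancel_left₀ _ (hMne x)]
    · intro h1
      exact ((hM K hK).mul h1).congr fun x => key x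
  refine ⟨had (Submodule.span Ω {τ}) (Submodule.span Ω (Set.range w)), ?_, fun K => ?_⟩
  · rw [finrank_had hτ, ← hU, ← hW]
    exact (Submodule.equivMapOfInjective _ huinj W).finrank_eq.symm
  rw [← ratR_shift (isForm_bas h 1) hu hu' W K, hU, ratR_iff h, ratR_iff h]
  have hv1 : (fun i j => v i j ^ (1 : ℤ)) = v := by funext i j; rw [zpow_one]
  rw [hv1]
  constructor
  · intro hK
    have h1 : RatW θ v K (eH f w) := ratW_eH hp hθ (h.coc K) hw hK hf
    have h1' : IsR θ K (Fin 2) (fun x => e (x 0) (x 1) / v (x 0) (x 1)) :=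
      IsR.congr h1 fun x => by rw [he]
    have h3 : K₀ ≤ K := by
      rw [← hK₀ K]
      refine isR_eta hp (h.coc K) hene (τ := 1) (fun j => one_ne_zero) (h1'.congr fun x => ?_)
      simp
    have h4 : RR θ b K (Submodule.span Ω {1}) := by
      refine (rr_line hp hθ (hcb.mono h3) (t := 1) (fun j => one_ne_zero)).2 ?_
      refine h1'.congr fun x => ?_
      rw [hb, _root_.zpow_neg_one, Pi.one_apply, Pi.one_apply]
      have h5 := h.ne (x 0) (x 1)
      have h6 := hene (x 0) (x 1)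
      field_simp
    have h5 := (hline K h3).2 ((hch K h3).1 h4)
    have h6 : RR θ (fun a b => v a b ^ i * e a b ^ (-1 : ℤ)) K (Submodule.span Ω {τ}) :=
      (rr_line hp hθ (hcq K h3) hτ).2 h5
    have h7 := h6.had (hWe.mono h3)
    have h8 : (fun i_1 j => v i_1 j ^ i * e i_1 j ^ (-1 : ℤ) * e i_1 j) =
        fun i_1 j => v i_1 j ^ i := by
      funext a a'
      rw [_root_.zpow_neg_one, mul_assoc, inv_mul_cancel₀ (hene _ _), mul_one]
    rwa [h8] at h7
  · intro hK
    rw [span_mul] at hK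
    have h1 : RatW θ (fun i_1 j => v i_1 j ^ i) K (eH f (fun a => τ * w a)) :=
      ratW_eH hp hθ ((h.coc K).zpow hp i) (linearIndependent_mul hτ hw) hK hf
    have h1' : IsR θ K (Fin 2) (fun x => τ (x 0) / τ (x 1) * e (x 0) (x 1) /
        v (x 0) (x 1) ^ i) := IsR.congr h1 fun x => by rw [eH_torus f hτ, he]
    have h3 : K₀ ≤ K := by
      rw [← hK₀ K]
      exact isR_eta hp ((h.coc K).zpow hp i) hene hτ h1'
    have h4 : IsR θ K (Fin 2) (fun x => τ (x 0) / τ (x 1) / (v (x 0) (x 1) ^ i *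
        e (x 0) (x 1) ^ (-1 : ℤ))) := by
      refine h1'.congr fun x => ?_
      rw [_root_.zpow_neg_one]
      have h5 : v (x 0) (x 1) ^ i ≠ 0 := zpow_ne_zero _ (h.ne _ _)
      have h6 := hene (x 0) (x 1)
      field_simp
    have h5 := (hch K h3).2 ((hline K h3).1 h4)
    have h7 := h5.had (hWe.mono h3)
    rw [had_one] at h7
    have h8 : (fun i j => b i j * e i j) = v := by
      funext a a'
      rw [hb, _root_.zpow_neg_one, mul_assoc, inv_mul_cancel₀ (hene _ _), mul_one]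
    rwa [h8] at h7

end Pool.Agent.H78.TT
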