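import Pool.Agent.H78.TT.FormBas

/-!
# The algebras `F_s(k)`

`AA h s` is the `k`-algebra of the matrices `P(θ_i, θ_j) v_ij ^ s`, `P` over `k`. It is central simple
of degree `n`: the `bas h s p` are a `k`-basis and an `Ω`-basis of `Mₙ(Ω)` (a central element commutes
with all of `Mₙ(Ω)`, so it is `c • 1`, and `c ∈ k`; the `Ω`-span of an ideal `≠ 0` is an ideal of
`Mₙ(Ω)`, hence everything, so the ideal has dimension `n ^ 2` over `k`).
-/

open Module Matrix

universe u

namespace Pool.Agent.H78.TT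

open Pool.Agent.H72.SB

section

variable {k Ω : Type*} [Field k] [Field Ω] [Algebra k Ω] {n : ℕ}
variable {θ : Fin n → Ω} {v : Fin n → Fin n → Ω}

/-- The algebra `F_s(k)`. -/
def AA (h : Dat k θ v) (s : ℤ) : Subalgebra k (Matrix (Fin n) (Fin n) Ω) where
  carrier := {X | RF θ v s (⊥ : IntermediateField k Ω) X}
  mul_mem' hX hY := RF.mul h hX hY
  add_mem' hX hY := RF.add hX hY
  algebraMap_mem' c := by
    have h1 : algebraMap k (Matrix (Fin n) (Fin n) Ω) c = (algebraMap k Ω c) • 1 := by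
      rw [Algebra.algebraMap_eq_smul_one, ← IsScalarTower.algebraMap_smul Ω c]
    rw [Set.mem_ofPred_eq, h1]
    exact RF.smul ((⊥ : IntermediateField k Ω).algebraMap_mem c) (RF.one h)

theorem mem_AA {h : Dat k θ v} {s : ℤ} {X : Matrix (Fin n) (Fin n) Ω} :
    X ∈ AA h s ↔ RF θ v s (⊥ : IntermediateField k Ω) X := Iff.rfl

theorem exists_basis_AA (h : Dat k θ v) (s : ℤ) : ∃ b : Basis (Fin n × Fin n) k (AA h s),
    ∀ p, (b p : Matrix (Fin n) (Fin n) Ω) = bas h s p := by
  let w : Fin n × Fin n → AA h s := fun p => ⟨bas h s p, rf_bas h s p⟩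
  have h1 : LinearIndependent k (bas h s) := by
    refine (bas h s).linearIndependent.restrict_scalars (R := k) ?_
    intro a b hab
    have h2 : algebraMap k Ω a = algebraMap k Ω b := by
      simpa [Algebra.smul_def] using hab
    exact (algebraMap k Ω).injective h2
  have h2 : LinearIndependent k w := by
    have h3 : (AA h s).val.toLinearMap ∘ w = bas h s := by
      ext1 p
      rfl
    refine LinearIndependent.of_comp (AA h s).val.toLinearMap ?_
    rw [h3]
    exact h1
  have h3 : ⊤ ≤ Submodule.span k (Set.range w) := by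
    intro X _
    have hX : RatV (bas h s) (⊥ : IntermediateField k Ω) (X : Matrix (Fin n) (Fin n) Ω) :=
      (ratV_bas h).2 X.2
    choose c hc using fun p => IntermediateField.mem_bot.1 (hX p)
    have h4 : X = ∑ p, c p • w p := by
      apply Subtype.ext
      rw [AddSubmonoidClass.coe_finsetSum]
      conv_lhs => rw [← (bas h s).sum_repr (X : Matrix (Fin n) (Fin n) Ω)]
      refine Finset.sum_congr rfl fun p _ => ?_
      rw [← hc p, algebraMap_smul]
      rfl
    rw [h4]
    exact Submodule.sum_mem _ fun p _ => Submodule.smul_mem _ _ (Submodule.subset_span ⟨p, rfl⟩)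
  refine ⟨Basis.mk h2 h3, fun p => ?_⟩
  rw [Basis.mk_apply]

theorem finrank_AA (h : Dat k θ v) (s : ℤ) : finrank k (AA h s) = n ^ 2 := by
  obtain ⟨b, -⟩ := exists_basis_AA h s
  rw [finrank_eq_card_basis b, Fintype.card_prod, Fintype.card_fin, sq]

theorem finite_AA (h : Dat k θ v) (s : ℤ) : FiniteDimensional k (AA h s) := by
  obtain ⟨b, -⟩ := exists_basis_AA h s
  exact b.finiteDimensional_of_finite

theorem isCentral_AA (h : Dat k θ v) (s : ℤ) [NeZero n] : Algebra.IsCentral k (AA h s) := by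
  refine ⟨fun x hx => ?_⟩
  have hc : ∀ p, bas h s p * (x : Matrix (Fin n) (Fin n) Ω) =
      (x : Matrix (Fin n) (Fin n) Ω) * bas h s p := by
    intro p
    have := Subalgebra.mem_center_iff.1 hx ⟨bas h s p, rf_bas h s p⟩
    exact congrArg Subtype.val this
  have hc' : ∀ Y : Matrix (Fin n) (Fin n) Ω, Y * (x : Matrix (Fin n) (Fin n) Ω) =
      (x : Matrix (Fin n) (Fin n) Ω) * Y := by
    intro Y
    rw [← (bas h s).sum_repr Y, Finset.sum_mul, Finset.mul_sum]
    refine Finset.sum_congr rfl fun p _ => ?_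
    rw [smul_mul_assoc, mul_smul_comm, hc p]
  have h1 : (x : Matrix (Fin n) (Fin n) Ω) ∈ Set.range (Matrix.scalar (Fin n)) := by
    refine Matrix.mem_range_scalar_of_commute_single fun i j _ => ?_
    exact hc' _
  obtain ⟨c, hcx⟩ := h1
  have hcx' : (x : Matrix (Fin n) (Fin n) Ω) = c • (1 : Matrix (Fin n) (Fin n) Ω) := by
    rw [← hcx, Matrix.scalar_apply, Matrix.smul_one_eq_diagonal]
  have hone : RatV (bas h s) (⊥ : IntermediateField k Ω) (1 : Matrix (Fin n) (Fin n) Ω) :=
    (ratV_bas h).2 (RF.one h)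
  have hX : RatV (bas h s) (⊥ : IntermediateField k Ω) (x : Matrix (Fin n) (Fin n) Ω) :=
    (ratV_bas h).2 x.2
  have hne : ∃ p, (bas h s).repr 1 p ≠ 0 := by
    by_contra hcon
    push Not at hcon
    have h2 : (bas h s).repr (1 : Matrix (Fin n) (Fin n) Ω) = 0 := by
      ext p
      rw [hcon p, Finsupp.zero_apply]
    have h3 : (1 : Matrix (Fin n) (Fin n) Ω) = 0 := by
      rwa [LinearEquiv.map_eq_zero_iff] at h2
    exact one_ne_zero h3
  obtain ⟨p, hp⟩ := hne
  have hcb : c ∈ (⊥ : IntermediateField k Ω) := by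
    have h4 := hX p
    rw [hcx', map_smul, Finsupp.smul_apply, smul_eq_mul] at h4
    have h5 := IntermediateField.div_mem _ h4 (hone p)
    rwa [mul_div_assoc, div_self hp, mul_one] at h5
  obtain ⟨a, ha⟩ := IntermediateField.mem_bot.1 hcb
  refine Algebra.mem_bot.2 ⟨a, ?_⟩
  apply Subtype.ext
  rw [hcx', ← ha, algebraMap_smul, Algebra.algebraMap_eq_smul_one]
  rfl

theorem isSimple_AA (h : Dat k θ v) (s : ℤ) [NeZero n] : IsSimpleRing (AA h s) := by
  classical
  have hn : Nontrivial (AA h s) := by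
    refine ⟨⟨0, 1, fun h0 => ?_⟩⟩
    have h1 : (0 : Matrix (Fin n) (Fin n) Ω) = 1 := congrArg Subtype.val h0
    exact zero_ne_one h1
  obtain ⟨lam, hlam⟩ := exists_retraction (⊥ : IntermediateField k Ω)
  have key : ∀ (I : TwoSidedIdeal (AA h s)) (x : AA h s), x ∈ I → x ≠ 0 → (1 : AA h s) ∈ I := by
    intro I x hx hx0
    have hsmul : ∀ (c : Ω) (hc : c ∈ (⊥ : IntermediateField k Ω)) (y : AA h s), y ∈ I →
        ∃ z ∈ I, (z : Matrix (Fin n) (Fin n) Ω) = c • (y : Matrix (Fin n) (Fin n) Ω) := by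
      intro c hc y hy
      obtain ⟨a, rfl⟩ := IntermediateField.mem_bot.1 hc
      refine ⟨algebraMap k (AA h s) a * y, I.mul_mem_left _ _ hy, ?_⟩
      rw [← Algebra.smul_def, algebraMap_smul]
      rfl
    have hsum : ∀ {κ : Type} (t : Finset κ) (f : κ → Matrix (Fin n) (Fin n) Ω),
        (∀ a ∈ t, ∃ z ∈ I, (z : Matrix (Fin n) (Fin n) Ω) = f a) →
        ∃ z ∈ I, (z : Matrix (Fin n) (Fin n) Ω) = ∑ a ∈ t, f a := by
      intro κ t f
      induction t using Finset.induction_on with
      | empty =>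
        intro _
        exact ⟨0, I.zero_mem, by rw [Finset.sum_empty]; rfl⟩
      | insert a t ha ih =>
        intro hf
        obtain ⟨z1, hz1, e1⟩ := hf a (Finset.mem_insert_self a t)
        obtain ⟨z2, hz2, e2⟩ := ih fun b hb => hf b (Finset.mem_insert_of_mem hb)
        refine ⟨z1 + z2, I.add_mem hz1 hz2, ?_⟩
        rw [Finset.sum_insert ha, ← e1, ← e2]
        rfl
    have hAB : ∀ A B : Matrix (Fin n) (Fin n) Ω,
        ∃ z ∈ I, (z : Matrix (Fin n) (Fin n) Ω) =
          lamE (bas h s) lam (A * (x : Matrix (Fin n) (Fin n) Ω) * B) := by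
      intro A B
      have h1 : A * (x : Matrix (Fin n) (Fin n) Ω) * B =
          ∑ p, ∑ q, ((bas h s).repr A p * (bas h s).repr B q) •
            (bas h s p * (x : Matrix (Fin n) (Fin n) Ω) * bas h s q) := by
        conv_lhs => rw [← (bas h s).sum_repr A, ← (bas h s).sum_repr B]
        rw [Finset.sum_mul, Finset.sum_mul]
        refine Finset.sum_congr rfl fun p _ => ?_
        rw [Finset.mul_sum]
        refine Finset.sum_congr rfl fun q _ => ?_
        rw [smul_mul_assoc, smul_mul_smul_comm]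
      rw [h1, lamE_sum]
      refine hsum _ _ fun p _ => ?_
      rw [lamE_sum]
      refine hsum _ _ fun q _ => ?_
      have h2 : RatV (bas h s) (⊥ : IntermediateField k Ω)
          (bas h s p * (x : Matrix (Fin n) (Fin n) Ω) * bas h s q) :=
        (ratV_bas h).2 (RF.mul h (RF.mul h (rf_bas h s p) x.2) (rf_bas h s q))
      rw [lamE_smul _ _ h2]
      refine hsmul _ (lam _).2
        ((⟨bas h s p, rf_bas h s p⟩ : AA h s) * x * ⟨bas h s q, rf_bas h s q⟩) ?_
      exact I.mul_mem_right _ _ (I.mul_mem_left _ _ hx)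
    have hx1 : ∃ i j, (x : Matrix (Fin n) (Fin n) Ω) i j ≠ 0 := by
      by_contra hcon
      push Not at hcon
      refine hx0 (Subtype.ext ?_)
      ext i j
      exact hcon i j
    obtain ⟨i, j, hij⟩ := hx1
    have hone : (1 : Matrix (Fin n) (Fin n) Ω) =
        ∑ l, (Matrix.single l i ((x : Matrix (Fin n) (Fin n) Ω) i j)⁻¹) *
          (x : Matrix (Fin n) (Fin n) Ω) * Matrix.single j l (1 : Ω) := by
      rw [← Matrix.diagonal_one, ← Matrix.sum_single_eq_diagonal]
      refine Finset.sum_congr rfl fun l _ => ?_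
      rw [Matrix.single_mul_mul_single, mul_one, inv_mul_cancel₀ hij]
    obtain ⟨z, hz, ez⟩ := hsum (Finset.univ : Finset (Fin n)) (fun l => lamE (bas h s) lam
      ((Matrix.single l i ((x : Matrix (Fin n) (Fin n) Ω) i j)⁻¹) *
          (x : Matrix (Fin n) (Fin n) Ω) * Matrix.single j l (1 : Ω))) fun l _ => hAB _ _
    rw [← lamE_sum, ← hone] at ez
    have h3 : RatV (bas h s) (⊥ : IntermediateField k Ω) (1 : Matrix (Fin n) (Fin n) Ω) :=
      (ratV_bas h).2 (RF.one h)
    have h4 : lamE (bas h s) lam (1 : Matrix (Fin n) (Fin n) Ω) = 1 := by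
      have h5 := lamE_smul (β := bas h s) lam (1 : Ω) h3
      rw [one_smul, hlam 1 (IntermediateField.one_mem _)] at h5
      rw [h5]
      exact one_smul _ _
    rw [h4] at ez
    have h6 : z = 1 := Subtype.ext ez
    rwa [h6] at hz
  refine ⟨⟨fun I => ?_⟩⟩
  by_cases hI : I = ⊥
  · exact Or.inl hI
  · right
    have h1 : ∃ x ∈ I, x ≠ 0 := by
      by_contra hcon
      push Not at hcon
      refine hI ?_
      ext x
      rw [TwoSidedIdeal.mem_bot]
      exact ⟨hcon x, fun h0 => by rw [h0]; exact I.zero_mem⟩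
    obtain ⟨x, hx, hx0⟩ := h1
    have h2 := key I x hx hx0
    exact I.one_mem_iff.1 h2

end

section

variable {k Ω : Type u} [Field k] [Field Ω] [Algebra k Ω] {n : ℕ}
variable {θ : Fin n → Ω} {v : Fin n → Fin n → Ω}

/-- `F_s(k)` as a central simple algebra. -/
noncomputable def AC (h : Dat k θ v) (s : ℤ) [NeZero n] : CSA.{u, u} k :=
  have := isCentral_AA h s
  have := isSimple_AA h s
  have := finite_AA h s
  { carrier := AA h s }

theorem finrank_AC (h : Dat k θ v) (s : ℤ) [NeZero n] : finrank k (AC h s) = n ^ 2 :=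
  finrank_AA h s

/-- The inclusion. -/
noncomputable def incAC (h : Dat k θ v) (s : ℤ) [NeZero n] :
    AC h s →ₐ[k] Matrix (Fin n) (Fin n) Ω := (AA h s).val

/-- The identity. -/
noncomputable def eqAC (h : Dat k θ v) (s : ℤ) [NeZero n] : AC h s ≃ₐ[k] AA h s :=
  AlgEquiv.refl

theorem exists_basis_AC (h : Dat k θ v) (s : ℤ) [NeZero n] :
    ∃ b : Basis (Fin n × Fin n) k (AC h s), ∀ p, bas h s p = incAC h s (b p) := by
  obtain ⟨b, hb⟩ := exists_basis_AA h s
  exact ⟨b, fun p => (hb p).symm⟩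

end

end Pool.Agent.H78.TT
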