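import Pool.Agent.H78.TT.RR

/-!
# Column spaces, rational matrices in general position, rational lines
-/

open Module Matrix

namespace Pool.Agent.H78.TT

open Pool.Agent.H72.SB

variable {k Ω : Type*} [Field k] [Field Ω] [Algebra k Ω] {n : ℕ}
variable {θ : Fin n → Ω} {v w w' : Fin n → Fin n → Ω} {K K' : IntermediateField k Ω}
  {U W : Submodule Ω (Fin n → Ω)} {X : Matrix (Fin n) (Fin n) Ω}

private theorem RLine_mul (hp : Pol k θ) (hθ : Function.Injective θ) (h : Coc θ w K)
    {X Y : Matrix (Fin n) (Fin n) Ω} (hX : RatW θ w K X) (hY : RatW θ w K Y) :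
    RatW θ w K (X * Y) := by
  have h1 : IsR θ K (Fin 3) (fun x => X (x 0) (x 2) / w (x 0) (x 2)) :=
    (IsR.comp hX (![0, 2] : Fin 2 → Fin 3)).congr fun x => rfl
  have h2 : IsR θ K (Fin 3) (fun x => Y (x 2) (x 1) / w (x 2) (x 1)) :=
    (IsR.comp hY (![2, 1] : Fin 2 → Fin 3)).congr fun x => rfl
  have h3 : IsR θ K (Fin 3)
      (fun x => w (x 0) (x 2) * w (x 2) (x 1) / w (x 0) (x 1)) :=
    (IsR.comp h.gam (![0, 2, 1] : Fin 3 → Fin 3)).congr fun x => rfl
  have h4 := IsR.sum_last hp hθ (r := 2) ((h1.mul h2).mul h3)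
  refine h4.congr fun x => ?_
  rw [Matrix.mul_apply, Finset.sum_div]
  refine Finset.sum_congr rfl fun j _ => ?_
  have e0 : (Fin.snoc x j : Fin 3 → Fin n) 0 = x 0 := rfl
  have e1 : (Fin.snoc x j : Fin 3 → Fin n) 1 = x 1 := rfl
  have e2 : (Fin.snoc x j : Fin 3 → Fin n) 2 = j := rfl
  simp only [e0, e1, e2]
  have n1 := h.ne (x 0) j
  have n2 := h.ne j (x 1)
  have n3 := h.ne (x 0) (x 1)
  field_simp

/-- `Mₙ(Ω)` is spanned by rational matrices. -/
private theorem RLine_span (hp : Pol k θ) (hθ : Function.Injective θ) (h : Coc θ w K)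
    (Y : Matrix (Fin n) (Fin n) Ω) :
    ∃ (c : (Fin 2 → Fin n) → Ω) (R : (Fin 2 → Fin n) → Matrix (Fin n) (Fin n) Ω),
      (∀ p, RatW θ w K (R p)) ∧ Y = ∑ p, c p • R p := by
  obtain ⟨β, hβ⟩ := exists_basR hp hθ 2
  let F : (Fin 2 → Fin n) → Ω := fun x => Y (x 0) (x 1) / w (x 0) (x 1)
  refine ⟨fun p => β.repr F p, fun p => Matrix.of fun i j => β p ![i, j] * w i j, fun p => ?_, ?_⟩
  · have h1 : IsR θ K (Fin 2) (β p) := (hβ K (β p)).1 (ratV_basis p)
    refine IsR.congr h1 fun x => ?_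
    have e : (![x 0, x 1] : Fin 2 → Fin n) = x := by
      funext a
      fin_cases a <;> rfl
    change β p ![x 0, x 1] * w (x 0) (x 1) / w (x 0) (x 1) = β p x
    rw [mul_div_assoc, div_self (h.ne _ _), mul_one, e]
  · ext i j
    have h1 := congrFun (β.sum_repr F) ![i, j]
    rw [Finset.sum_apply] at h1
    rw [Matrix.sum_apply]
    have h2 : F ![i, j] = Y i j / w i j := rfl
    have h3 : Y i j = F ![i, j] * w i j := by
      rw [h2, div_mul_cancel₀ _ (h.ne i j)]
    rw [h3, ← h1, Finset.sum_mul]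
    refine Finset.sum_congr rfl fun p _ => ?_
    change β.repr F p * β p ![i, j] * w i j = β.repr F p * (β p ![i, j] * w i j)
    rw [mul_assoc]

/-- The column space of a rational matrix. Its right ideal is spanned by the matrices `X * Y`, `Y`
rational (`Mₙ(Ω)` is spanned by rational matrices, `exists_basR` for `r = 2`). -/
theorem rr_colS (hp : Pol k θ) (hθ : Function.Injective θ) (h : Coc θ w K) (hX : RatW θ w K X) :
    RR θ w K (colS X) := by
  intro Z hZ
  rw [mem_RI_col] at hZ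
  have h1 : ∀ j, ∃ y : Fin n → Ω, X *ᵥ y = Z.col j := fun j => mem_colS.1 (hZ j)
  choose y hy using h1
  let Y : Matrix (Fin n) (Fin n) Ω := Matrix.of fun i j => y j i
  have hZY : Z = X * Y := by
    ext i j
    have h2 := congrFun (hy j) i
    rw [Matrix.mul_apply]
    rw [Matrix.col_apply] at h2
    rw [← h2]
    rfl
  obtain ⟨c, R, hR, hYR⟩ := RLine_span hp hθ h Y
  rw [hZY, hYR, Matrix.mul_sum]
  refine Submodule.sum_mem _ fun p _ => ?_
  rw [Matrix.mul_smul]
  refine Submodule.smul_mem _ _ (Submodule.subset_span ⟨?_, RLine_mul hp hθ h hX (hR p)⟩)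
  intro u
  rw [← Matrix.mulVec_mulVec]
  exact mem_colS.2 ⟨_, rfl⟩

private theorem RLine_sum {ι : Type*} (s : Finset ι) (c : ι → Ω)
    (R : ι → Matrix (Fin n) (Fin n) Ω) (hc : ∀ i, c i ∈ K) (hR : ∀ i, RatW θ w K (R i)) :
    RatW θ w K (∑ i ∈ s, c i • R i) := by
  have h1 : IsR θ K (Fin 2) (fun x => ∑ i ∈ s, c i * (R i (x 0) (x 1) / w (x 0) (x 1))) :=
    IsR.sum s fun i _ => (isR_const (c i) (hc i)).mul (hR i)
  refine IsR.congr h1 fun x => ?_
  rw [Matrix.sum_apply, Finset.sum_div]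
  refine Finset.sum_congr rfl fun i _ => ?_
  rw [Matrix.smul_apply, smul_eq_mul, mul_div_assoc]

/-- Rational matrices in `RI U` with a property which holds outside the zeros of a polynomial
function. Basis of `RI U` consisting of rational matrices, `PolyLine.exists_rat` for the field `K`
instead of `k` (`m` matrices: the space `Fin m → RI U`). -/
theorem exists_rat_RI [Infinite k] (hp : Pol k θ) (hθ : Function.Injective θ)
    (hU : RR θ w K U) {m : ℕ} {f : (Fin m → Matrix (Fin n) (Fin n) Ω) → Ω}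
    (hf : PolyLine Ω f) (h0 : ∃ X : Fin m → Matrix (Fin n) (Fin n) Ω, (∀ a, X a ∈ RI U) ∧ f X ≠ 0) :
    ∃ X : Fin m → Matrix (Fin n) (Fin n) Ω, (∀ a, X a ∈ RI U) ∧ (∀ a, RatW θ w K (X a)) ∧
      f X ≠ 0 := by
  classical
  let S : Set (RI U) := {x | RatW θ w K (x : Matrix (Fin n) (Fin n) Ω)}
  have hS : (⊤ : Submodule Ω (RI U)) ≤ Submodule.span Ω S := by
    rintro ⟨x, hx⟩ -
    have h1 := hU hx
    have h2 : Submodule.span Ω {X | X ∈ RI U ∧ RatW θ w K X} ≤
        (Submodule.span Ω S).map (RI U).subtype := by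
      rw [Submodule.span_le]
      rintro Y ⟨hY, hYr⟩
      exact ⟨⟨Y, hY⟩, Submodule.subset_span hYr, rfl⟩
    obtain ⟨z, hz, hzx⟩ := h2 h1
    have : z = ⟨x, hx⟩ := Subtype.ext hzx
    rw [← this]
    exact hz
  let b := Module.Basis.ofSpan hS
  have hb : ∀ i, RatW θ w K ((b i : RI U) : Matrix (Fin n) (Fin n) Ω) := fun i =>
    Module.Basis.ofSpan_subset hS ⟨i, rfl⟩
  have : Finite (((linearIndepOn_empty Ω (id : RI U → RI U)).extend (Set.empty_subset S))) :=
    Module.Finite.finite_basis b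
  have := Fintype.ofFinite (((linearIndepOn_empty Ω (id : RI U → RI U)).extend
    (Set.empty_subset S)))
  let B := Pi.basis (fun _ : Fin m => b)
  have hf' : PolyLine Ω (fun Z : Fin m → RI U =>
      f (fun a => ((Z a : RI U) : Matrix (Fin n) (Fin n) Ω))) := by
    intro x y
    obtain ⟨p, hp⟩ := hf (fun a => ((x a : RI U) : Matrix (Fin n) (Fin n) Ω))
      (fun a => ((y a : RI U) : Matrix (Fin n) (Fin n) Ω))
    exact ⟨p, fun t => by rw [← hp t]; rfl⟩
  obtain ⟨X0, hX0, hfX0⟩ := h0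
  obtain ⟨Z, hZ, hfZ⟩ := hf'.exists_rat (k := k) B ⟨fun a => ⟨X0 a, hX0 a⟩, hfX0⟩
  refine ⟨fun a => ((Z a : RI U) : Matrix (Fin n) (Fin n) Ω), fun a => (Z a).2, fun a => ?_, hfZ⟩
  have h1 : ((Z a : RI U) : Matrix (Fin n) (Fin n) Ω) =
      ∑ i, b.repr (Z a) i • ((b i : RI U) : Matrix (Fin n) (Fin n) Ω) := by
    have h2 := congrArg (RI U).subtype (b.sum_repr (Z a))
    rw [map_sum] at h2
    simp only [map_smul] at h2
    exact h2.symm
  change RatW θ w K ((Z a : RI U) : Matrix (Fin n) (Fin n) Ω)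
  rw [h1]
  refine RLine_sum _ _ _ (fun i => ?_) hb
  have h2 := hZ ⟨a, i⟩
  rw [Pi.basis_repr] at h2
  exact (bot_le : (⊥ : IntermediateField k Ω) ≤ K) h2

/-- Rational lines. `←`: `rr_colS` for the matrix `t i / t j`. `→`: `exists_rat_RI` with `m = 1` and
`f X = ∏ j, X 0 j j`; a matrix `X` in `RI (span {t})` has `X i j = t i * y j`, so
`t i / t j = X i j / X j j`. -/
theorem rr_line [Infinite k] (hp : Pol k θ) (hθ : Function.Injective θ) (h : Coc θ w K)
    {t : Fin n → Ω} (ht : ∀ j, t j ≠ 0) :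
    RR θ w K (Submodule.span Ω {t}) ↔ IsR θ K (Fin 2) (fun x => t (x 0) / t (x 1) / w (x 0) (x 1)) := by
  constructor
  · intro hU
    have hf : PolyLine Ω (fun Z : Fin 1 → Matrix (Fin n) (Fin n) Ω => ∏ j, Z 0 j j) := by
      refine PolyLine.prod _ fun j _ => ?_
      exact polyLine_linear (((LinearMap.proj j : (Fin n → Ω) →ₗ[Ω] Ω).comp
        (LinearMap.proj j : (Fin n → Fin n → Ω) →ₗ[Ω] (Fin n → Ω))).comp
        (LinearMap.proj (0 : Fin 1) : (Fin 1 → Fin n → Fin n → Ω) →ₗ[Ω] (Fin n → Fin n → Ω)))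
    obtain ⟨X, hX, hXr, hfX⟩ := exists_rat_RI hp hθ hU hf
      ⟨fun _ => Matrix.vecMulVec t 1, fun _ => vecMulVec_mem_RI (Submodule.mem_span_singleton_self t),
        by
          rw [Finset.prod_ne_zero_iff]
          intro j _
          change t j * 1 ≠ 0
          rw [mul_one]
          exact ht j⟩
    have hd : ∀ j, X 0 j j ≠ 0 := fun j => Finset.prod_ne_zero_iff.1 hfX j (Finset.mem_univ j)
    have hcol : ∀ j, ∃ c : Ω, c • t = (X 0).col j := fun j =>
      Submodule.mem_span_singleton.1 (mem_RI_col.1 (hX 0) j)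
    choose c hc using hcol
    have hXc : ∀ i j, X 0 i j = c j * t i := fun i j => by
      have h1 := congrFun (hc j) i
      rw [Matrix.col_apply] at h1
      rw [← h1]
      rfl
    have h1 : IsR θ K (Fin 2) (fun x => X 0 (x 1) (x 1) / w (x 1) (x 1)) :=
      (IsR.comp (hXr 0) (![1, 1] : Fin 2 → Fin 2)).congr fun x => rfl
    have h2 : IsR θ K (Fin 2) (fun x => w (x 1) (x 1)) :=
      (IsR.comp h.diag (![1] : Fin 1 → Fin 2)).congr fun x => rfl
    have h3 : IsR θ K (Fin 2) (fun x => (X 0 (x 1) (x 1))⁻¹) := by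
      refine IsR.inv hp ((h1.mul h2).congr fun x => ?_) fun x => hd _
      rw [div_mul_cancel₀ _ (h.ne _ _)]
    refine (IsR.mul (hXr 0) h3).congr fun x => ?_
    have hcj : c (x 1) ≠ 0 := fun h0 => hd (x 1) (by rw [hXc, h0, zero_mul])
    have ht1 := ht (x 1)
    have hw := h.ne (x 0) (x 1)
    rw [hXc, hXc]
    field_simp
  · intro hI
    let X : Matrix (Fin n) (Fin n) Ω := Matrix.of fun i j => t i / t j
    have hX : RatW θ w K X := hI
    have hcol : colS X = Submodule.span Ω {t} := by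
      apply le_antisymm
      · intro x hx
        obtain ⟨u, rfl⟩ := mem_colS.1 hx
        rw [Submodule.mem_span_singleton]
        refine ⟨∑ j, u j / t j, ?_⟩
        funext i
        rw [Pi.smul_apply, smul_eq_mul, Matrix.mulVec, dotProduct, Finset.sum_mul]
        refine Finset.sum_congr rfl fun j _ => ?_
        change u j / t j * t i = t i / t j * u j
        ring
      · rw [Submodule.span_singleton_le_iff_mem]
        rcases Nat.eq_zero_or_pos n with h0 | h0
        · subst h0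
          have : t = 0 := funext fun i => i.elim0
          rw [this]
          exact Submodule.zero_mem _
        · refine mem_colS.2 ⟨Pi.single ⟨0, h0⟩ (t ⟨0, h0⟩), ?_⟩
          funext i
          rw [Matrix.mulVec_single]
          change t i / t ⟨0, h0⟩ * t ⟨0, h0⟩ = t i
          rw [div_mul_cancel₀ _ (ht _)]
    rw [← hcol]
    exact rr_colS hp hθ h hX

end Pool.Agent.H78.TT
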