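import Pool.Agent.H78.TT.RBase
import Pool.Agent.H78.TT.RLine
import Pool.Agent.H78.TT.Core

/-!
# Chains of Tregub's maps over a field `K₀`

`exists_core1` over the base field `K₀` (`dat_base`, `ratR_base`, `exists_base`), then `exists_shift`
with one vector and `ratR_shift` over `K₀` to get a vector without zero entries; induction on `m`.
-/

open Module Matrix

namespace Pool.Agent.H78.TT

open Pool.Agent.H72.SB

variable {k Ω : Type*} [Field k] [Field Ω] [Algebra k Ω] {n : ℕ}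
variable {θ : Fin n → Ω} {w : Fin n → Fin n → Ω} {K₀ : IntermediateField k Ω}

/-- A line is spanned by a nonzero vector. -/
private theorem Chain_line {W : Submodule Ω (Fin n → Ω)} (hW : finrank Ω W = 1) :
    ∃ w : Fin n → Ω, w ≠ 0 ∧ W = Submodule.span Ω {w} := by
  obtain ⟨w, hw0, hWw⟩ := finrank_eq_one_iff'.1 hW
  refine ⟨w, fun h0 => hw0 (Subtype.ext h0), ?_⟩
  apply le_antisymm
  · intro x hx
    obtain ⟨r, hr⟩ := hWw ⟨x, hx⟩
    exact Submodule.mem_span_singleton.2 ⟨r, congrArg Subtype.val hr⟩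
  · exact (Submodule.span_singleton_le_iff_mem _ _).2 w.2

/-- One step, over the base field. -/
private theorem Chain_base [Infinite k] {v : Fin n → Fin n → Ω} (h : Dat k θ v) (hn : Odd n)
    {t : Fin n → Ω} (ht : ∀ j, t j ≠ 0) :
    ∃ t' : Fin n → Ω, (∀ j, t' j ≠ 0) ∧ ∀ K : IntermediateField k Ω,
      (RatR (bas h 1) K (Submodule.span Ω {t}) ↔
        RatR (bas h (-2)) K (Submodule.span Ω {t'})) := by
  have ht0 : t ≠ 0 := by
    intro h0
    have := ht ⟨0, hn.pos⟩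
    rw [h0] at this
    exact this rfl
  obtain ⟨W', hW', hR⟩ := exists_core1 h hn (W := Submodule.span Ω {t})
    (finrank_span_singleton ht0)
  obtain ⟨x, hx, hWx⟩ := Chain_line hW'
  obtain ⟨u, hu, hu', hq⟩ := exists_shift (k := k) (bas h (-2))
    (LinearIndependent.of_subsingleton 0 hx : LinearIndependent Ω (fun _ : Fin 1 => x))
    (fun q : Fin n => fun _ : Fin 1 => q) (fun q => Function.injective_of_subsingleton _)
  have hU : W'.map (Matrix.toLin' u) = Submodule.span Ω {u *ᵥ x} := by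
    rw [hWx, Submodule.map_span, Set.image_singleton]
    rfl
  refine ⟨u *ᵥ x, fun j => ?_, fun K => ?_⟩
  · have h3 := hq j
    rwa [Matrix.det_fin_one, Matrix.of_apply] at h3
  · rw [hR K, ← hU, ratR_shift (isForm_bas h (-2)) hu hu' W' K]

/-- One step. -/
private theorem Chain_step [Infinite k] (hp : Pol k θ) (hθ : Function.Injective θ) (hn : Odd n)
    (h : Coc θ w K₀) {t : Fin n → Ω} (ht : ∀ j, t j ≠ 0) :
    ∃ t' : Fin n → Ω, (∀ j, t' j ≠ 0) ∧ ∀ K : IntermediateField k Ω, K₀ ≤ K →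
      (RR θ w K (Submodule.span Ω {t}) ↔
        RR θ (fun i j => w i j ^ (-2 : ℤ)) K (Submodule.span Ω {t'})) := by
  have hinf : Infinite K₀ := Infinite.of_injective _ (algebraMap k K₀).injective
  have hD : Dat K₀ θ w := dat_base hp hθ h
  obtain ⟨t', ht', hR⟩ := Chain_base hD hn ht
  refine ⟨t', ht', fun K hK => ?_⟩
  obtain ⟨K', rfl⟩ := exists_base hK
  have h1 := ratR_base (U := Submodule.span Ω {t}) hD 1 K'
  have h2 := ratR_base (U := Submodule.span Ω {t'}) hD (-2) K'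
  have e1 : (fun i j => w i j ^ (1 : ℤ)) = w := by
    funext i j
    exact zpow_one _
  rw [e1] at h1
  rw [← h1, ← h2]
  exact hR K'

theorem exists_chain [Infinite k] (hp : Pol k θ) (hθ : Function.Injective θ) (hn : Odd n)
    (h : Coc θ w K₀) {t : Fin n → Ω} (ht : ∀ j, t j ≠ 0) (m : ℕ) :
    ∃ t' : Fin n → Ω, (∀ j, t' j ≠ 0) ∧ ∀ K : IntermediateField k Ω, K₀ ≤ K →
      (RR θ w K (Submodule.span Ω {t}) ↔
        RR θ (fun i j => w i j ^ ((-2 : ℤ) ^ m)) K (Submodule.span Ω {t'})) := by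
  induction m generalizing w t with
  | zero =>
    refine ⟨t, ht, fun K _ => ?_⟩
    have e1 : (fun i j => w i j ^ ((-2 : ℤ) ^ 0)) = w := by
      funext i j
      rw [pow_zero, zpow_one]
    rw [e1]
  | succ m ih =>
    obtain ⟨t1, ht1, h1⟩ := Chain_step hp hθ hn h ht
    obtain ⟨t', ht', h2⟩ := ih (Coc.zpow hp h (-2)) ht1
    refine ⟨t', ht', fun K hK => ?_⟩
    have e1 : (fun i j => (w i j ^ (-2 : ℤ)) ^ ((-2 : ℤ) ^ m)) =
        fun i j => w i j ^ ((-2 : ℤ) ^ (m + 1)) := by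
      funext i j
      rw [← _root_.zpow_mul, pow_succ, mul_comm]
    rw [h1 K hK, h2 K hK, e1]

/-- Also with the sign: `rr_line` for `t` and `t⁻¹`. -/
theorem exists_chain_pm [Infinite k] (hp : Pol k θ) (hθ : Function.Injective θ) (hn : Odd n)
    (h : Coc θ w K₀) {i : ℤ} {m : ℕ} (hi : i = (-2) ^ m ∨ i = -(-2) ^ m) :
    ∃ t' : Fin n → Ω, (∀ j, t' j ≠ 0) ∧ ∀ K : IntermediateField k Ω, K₀ ≤ K →
      (RR θ w K (Submodule.span Ω {1}) ↔
        RR θ (fun a b => w a b ^ i) K (Submodule.span Ω {t'})) := by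
  obtain ⟨t, ht, h1⟩ := exists_chain hp hθ hn h (t := 1) (fun _ => one_ne_zero) m
  rcases hi with rfl | rfl
  · exact ⟨t, ht, h1⟩
  · refine ⟨fun j => (t j)⁻¹, fun j => inv_ne_zero (ht j), fun K hK => ?_⟩
    have c1 : Coc θ (fun a b => w a b ^ ((-2 : ℤ) ^ m)) K := Coc.zpow hp (h.mono hK) _
    have c2 : Coc θ (fun a b => w a b ^ (-(-2 : ℤ) ^ m)) K := Coc.zpow hp (h.mono hK) _
    rw [h1 K hK, rr_line hp hθ c1 ht, rr_line hp hθ c2 fun j => inv_ne_zero (ht j)]
    have key : ∀ x : Fin 2 → Fin n, (t (x 0))⁻¹ / (t (x 1))⁻¹ /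
        w (x 0) (x 1) ^ (-(-2 : ℤ) ^ m) =
        (t (x 0) / t (x 1) / w (x 0) (x 1) ^ ((-2 : ℤ) ^ m))⁻¹ := by
      intro x
      rw [_root_.zpow_neg, inv_div_inv, div_inv_eq_mul, inv_div, div_div_eq_mul_div]
      rw [mul_comm, mul_div_assoc]
    have hne : ∀ x : Fin 2 → Fin n,
        t (x 0) / t (x 1) / w (x 0) (x 1) ^ ((-2 : ℤ) ^ m) ≠ 0 := fun x =>
      div_ne_zero (div_ne_zero (ht _) (ht _)) (c1.ne _ _)
    constructor
    · intro hR
      exact (IsR.inv hp hR hne).congr key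
    · intro hR
      refine (IsR.inv hp hR fun x => ?_).congr fun x => ?_
      · rw [key]
        exact inv_ne_zero (hne x)
      · rw [key, inv_inv]

end Pool.Agent.H78.TT
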