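import Pool.Agent.H78.TT.CoreH
import Pool.Agent.H78.TT.Chain

/-!
# The birational map for subspaces of any dimension in odd degree
-/

open Module Matrix

namespace Pool.Agent.H78.TT

open Pool.Agent.H72.SB

variable {k Ω : Type*} [Field k] [Field Ω] [Algebra k Ω] {n : ℕ}
variable {θ : Fin n → Ω} {v : Fin n → Fin n → Ω}

theorem exists_coreG [Infinite k] (h : Dat k θ v) (hn : Odd n) {g : ℕ} (hg : 1 ≤ g) (hgn : g < n)
    {W : Submodule Ω (Fin n → Ω)} (hW : finrank Ω W = g) {i : ℤ} {m : ℕ}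
    (hi : i = (-2) ^ m ∨ i = -(-2) ^ m) (hig : (g : ℤ) ∣ i - 1) :
    ∃ W' : Submodule Ω (Fin n → Ω), finrank Ω W' = g ∧
      ∀ K : IntermediateField k Ω, RatR (bas h 1) K W ↔ RatR (bas h i) K W' :=
  exists_coreH h hg hgn hW (fun _ _ hw => exists_chain_pm h.pol h.inj hn hw hi) hig

end Pool.Agent.H78.TT
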