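import Pool.Agent.H78.TT.FormBas

/-!
# Coordinates of a form of the matrix algebra

Let `β` be a basis whose `k`-span is an algebra, which contains a diagonal matrix with distinct
entries `θ i` and a matrix `v` without zero entries. The matrices `x ^ a v x ^ b`, `x = diagonal θ`,
`a, b < n`, are independent over `Ω` and rational, so they are a basis of the `k`-span of `β`
(`coeff_mem`). So `θ_i ^ n` is a combination of the lower powers over `k`, and
`∑ j, v_ij θ_j ^ c v_jl = P_c(θ_i, θ_l) v_il` with `P_c` over `k`; with `Pol.exists_dual` this gives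
`v_ij v_jl / v_il` as a polynomial in `θ_i, θ_j, θ_l`.
-/

open Module Matrix

namespace Pool.Agent.H78.TT

open Pool.Agent.H72.SB

variable {k Ω : Type*} [Field k] [Field Ω] [Algebra k Ω] {n : ℕ}

/-- The coefficients of a rational vector with respect to independent rational vectors are rational
(apply `lamE` with a retraction, `exists_retraction`, `lamE_smul`, `lamE_eq`). -/
theorem coeff_mem {E ι κ : Type*} [AddCommGroup E] [Module Ω E] [Fintype ι] {β : Basis ι Ω E}
    {K : IntermediateField k Ω} [Fintype κ] {y : κ → E} (hy : ∀ q, RatV β K (y q))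
    (hi : LinearIndependent Ω y) {c : κ → Ω} (hc : RatV β K (∑ q, c q • y q)) (q : κ) :
    c q ∈ K := by
  obtain ⟨lam, hlam⟩ := exists_retraction K
  have h1 := lamE_eq (β := β) hlam hc
  rw [lamE_sum] at h1
  have h2 : ∑ q, (c q - (lam (c q) : Ω)) • y q = 0 := by
    have h3 : ∑ q, lamE β lam (c q • y q) = ∑ q, (lam (c q) : Ω) • y q :=
      Finset.sum_congr rfl fun q _ => lamE_smul lam (c q) (hy q)
    rw [h3] at h1
    simp only [sub_smul, Finset.sum_sub_distrib, h1, sub_self]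
  have h4 := Fintype.linearIndependent_iff.1 hi _ h2 q
  rw [sub_eq_zero.1 h4]
  exact (lam (c q)).2

private theorem Dat_ratV_pow {ι : Type*} [Fintype ι] {β : Basis ι Ω (Matrix (Fin n) (Fin n) Ω)}
    (hβ : IsForm k β) {X : Matrix (Fin n) (Fin n) Ω}
    (hX : RatV β (⊥ : IntermediateField k Ω) X) (a : ℕ) :
    RatV β (⊥ : IntermediateField k Ω) (X ^ a) := by
  induction a with
  | zero => rw [pow_zero]; exact hβ.one
  | succ a ih => rw [pow_succ]; exact ih.mul hβ hX

private theorem Dat_entry (θ : Fin n → Ω) (v : Matrix (Fin n) (Fin n) Ω) (a b : ℕ)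
    (i j : Fin n) :
    (Matrix.diagonal θ ^ a * v * Matrix.diagonal θ ^ b) i j = θ i ^ a * v i j * θ j ^ b := by
  rw [Matrix.diagonal_pow, Matrix.diagonal_pow, Matrix.mul_diagonal, Matrix.diagonal_mul]
  rfl

private theorem Dat_unit {θ : Fin n → Ω} (hθ : Function.Injective θ) :
    IsUnit (Matrix.vandermonde θ).det :=
  isUnit_iff_ne_zero.2 (Matrix.det_vandermonde_ne_zero_iff.2 hθ)

private theorem Dat_VCV (θ : Fin n → Ω) (c : Fin n × Fin n → Ω) (i j : Fin n) :
    (Matrix.vandermonde θ * (Matrix.of fun a b => c (a, b)) * (Matrix.vandermonde θ)ᵀ) i j =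
      ∑ p : Fin n × Fin n, c p * (θ i ^ (p.1 : ℕ) * θ j ^ (p.2 : ℕ)) := by
  rw [Matrix.mul_apply, Fintype.sum_prod_type_right]
  refine Finset.sum_congr rfl fun b _ => ?_
  rw [Matrix.mul_apply, Finset.sum_mul]
  refine Finset.sum_congr rfl fun a _ => ?_
  rw [Matrix.vandermonde_apply, Matrix.transpose_apply, Matrix.vandermonde_apply, Matrix.of_apply]
  ring

private theorem Dat_sum_entry (θ : Fin n → Ω) (v : Matrix (Fin n) (Fin n) Ω)
    (c : Fin n × Fin n → Ω) (i j : Fin n) :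
    (∑ p : Fin n × Fin n, c p • (Matrix.diagonal θ ^ (p.1 : ℕ) * v *
      Matrix.diagonal θ ^ (p.2 : ℕ))) i j =
      (∑ p : Fin n × Fin n, c p * (θ i ^ (p.1 : ℕ) * θ j ^ (p.2 : ℕ))) * v i j := by
  rw [Matrix.sum_apply, Finset.sum_mul]
  refine Finset.sum_congr rfl fun p _ => ?_
  rw [Matrix.smul_apply, Dat_entry, smul_eq_mul]
  ring

private theorem Dat_indep {θ : Fin n → Ω} (hθ : Function.Injective θ)
    {v : Matrix (Fin n) (Fin n) Ω} (hv0 : ∀ i j, v i j ≠ 0) :
    LinearIndependent Ω (fun p : Fin n × Fin n => Matrix.diagonal θ ^ (p.1 : ℕ) * v *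
      Matrix.diagonal θ ^ (p.2 : ℕ)) := by
  rw [Fintype.linearIndependent_iff]
  intro c hc p
  set V := Matrix.vandermonde θ with hV
  have hVu : IsUnit V.det := Dat_unit hθ
  have h1 : V * (Matrix.of fun a b => c (a, b)) * Vᵀ = 0 := by
    ext i j
    rw [hV, Dat_VCV, Matrix.zero_apply]
    have h2 := congrFun (congrFun hc i) j
    rw [Dat_sum_entry, Matrix.zero_apply] at h2
    exact (mul_eq_zero.1 h2).resolve_right (hv0 i j)
  have hVt : IsUnit Vᵀ.det := by rw [Matrix.det_transpose]; exact hVu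
  have h3 : (Matrix.of fun a b => c (a, b)) = 0 := by
    have h4 : V⁻¹ * (V * (Matrix.of fun a b => c (a, b)) * Vᵀ) * (Vᵀ)⁻¹ =
        Matrix.of fun a b => c (a, b) := by
      rw [Matrix.mul_assoc, Matrix.mul_nonsing_inv_cancel_right _ _ hVt, ← Matrix.mul_assoc,
        Matrix.nonsing_inv_mul _ hVu, Matrix.one_mul]
    rw [← h4, h1, Matrix.mul_zero, Matrix.zero_mul]
  exact congrFun (congrFun h3 p.1) p.2

private theorem Dat_expand {θ : Fin n → Ω} (hθ : Function.Injective θ)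
    {v : Matrix (Fin n) (Fin n) Ω} (hv0 : ∀ i j, v i j ≠ 0) (X : Matrix (Fin n) (Fin n) Ω) :
    ∃ c : Fin n × Fin n → Ω, ∑ p : Fin n × Fin n, c p • (Matrix.diagonal θ ^ (p.1 : ℕ) * v *
      Matrix.diagonal θ ^ (p.2 : ℕ)) = X := by
  set V := Matrix.vandermonde θ with hV
  have hVu : IsUnit V.det := Dat_unit hθ
  have hVt : IsUnit Vᵀ.det := by rw [Matrix.det_transpose]; exact hVu
  set D : Matrix (Fin n) (Fin n) Ω := Matrix.of fun i j => X i j / v i j with hD
  refine ⟨fun p => (V⁻¹ * D * (Vᵀ)⁻¹) p.1 p.2, ?_⟩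
  ext i j
  rw [Dat_sum_entry, ← Dat_VCV]
  have h1 : (Matrix.of fun a b => (V⁻¹ * D * (Vᵀ)⁻¹) ((a, b) : Fin n × Fin n).1
      ((a, b) : Fin n × Fin n).2) = V⁻¹ * D * (Vᵀ)⁻¹ := rfl
  rw [h1, ← hV]
  have h2 : V * (V⁻¹ * D * (Vᵀ)⁻¹) * Vᵀ = D := by
    rw [Matrix.mul_assoc V, Matrix.nonsing_inv_mul_cancel_right _ _ hVt, ← Matrix.mul_assoc,
      Matrix.mul_nonsing_inv _ hVu, Matrix.one_mul]
  rw [h2, hD, Matrix.of_apply, div_mul_cancel₀ _ (hv0 i j)]

private theorem Dat_pol {ι : Type*} [Fintype ι] {β : Basis ι Ω (Matrix (Fin n) (Fin n) Ω)}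
    (hβ : IsForm k β) {θ : Fin n → Ω} (hθ : Function.Injective θ)
    (hd : RatV β (⊥ : IntermediateField k Ω) (Matrix.diagonal θ)) : Pol k θ := by
  set V := Matrix.vandermonde θ with hV
  have hVu : IsUnit V.det := Dat_unit hθ
  -- independence of the powers
  have hi : LinearIndependent Ω (fun a : Fin n => Matrix.diagonal θ ^ (a : ℕ)) := by
    rw [Fintype.linearIndependent_iff]
    intro c hc a
    have h1 : V *ᵥ c = 0 := by
      ext i
      have h2 := congrFun (congrFun hc i) i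
      rw [Matrix.sum_apply, Matrix.zero_apply] at h2
      rw [Pi.zero_apply, ← h2, Matrix.mulVec, dotProduct]
      refine Finset.sum_congr rfl fun a _ => ?_
      rw [Matrix.smul_apply, Matrix.diagonal_pow, Matrix.diagonal_apply_eq, smul_eq_mul, hV,
        Matrix.vandermonde_apply, mul_comm]
      rfl
    have h3 : c = 0 := by
      have h4 : V⁻¹ *ᵥ (V *ᵥ c) = c := by
        rw [Matrix.mulVec_mulVec, Matrix.nonsing_inv_mul _ hVu, Matrix.one_mulVec]
      rw [← h4, h1, Matrix.mulVec_zero]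
    exact congrFun h3 a
  set p : Fin n → Ω := V⁻¹ *ᵥ (fun i => θ i ^ n) with hp
  have hpe : ∀ i, θ i ^ n = ∑ a : Fin n, θ i ^ (a : ℕ) * p a := by
    intro i
    have h5 : V *ᵥ p = fun i => θ i ^ n := by
      rw [hp, Matrix.mulVec_mulVec, Matrix.mul_nonsing_inv _ hVu, Matrix.one_mulVec]
    have h6 := congrFun h5 i
    rw [Matrix.mulVec, dotProduct] at h6
    rw [← h6]
    rfl
  have hX : ∑ a : Fin n, p a • Matrix.diagonal θ ^ (a : ℕ) = Matrix.diagonal θ ^ n := by
    ext i j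
    rw [Matrix.sum_apply]
    simp only [Matrix.smul_apply, Matrix.diagonal_pow]
    by_cases hij : i = j
    · subst hij
      simp only [Matrix.diagonal_apply_eq, Pi.pow_apply, smul_eq_mul]
      rw [hpe i]
      exact Finset.sum_congr rfl fun a _ => mul_comm _ _
    · simp only [Matrix.diagonal_apply_ne _ hij, smul_zero, Finset.sum_const_zero]
  have hmem : ∀ a, p a ∈ (⊥ : IntermediateField k Ω) := fun a =>
    coeff_mem (β := β) (fun a => Dat_ratV_pow hβ hd _) hi (by
      rw [hX]; exact Dat_ratV_pow hβ hd n) a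
  choose c hc using fun a => IntermediateField.mem_bot.1 (hmem a)
  refine ⟨c, fun i => ?_⟩
  rw [hpe i]
  refine Finset.sum_congr rfl fun a _ => ?_
  rw [hc a, mul_comm]

theorem dat_of_form {ι : Type*} [Fintype ι] {β : Basis ι Ω (Matrix (Fin n) (Fin n) Ω)}
    (hβ : IsForm k β) {θ : Fin n → Ω} (hθ : Function.Injective θ)
    (hd : RatV β (⊥ : IntermediateField k Ω) (Matrix.diagonal θ)) {v : Matrix (Fin n) (Fin n) Ω}
    (hv : RatV β (⊥ : IntermediateField k Ω) v) (hv0 : ∀ i j, v i j ≠ 0) :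
    ∃ h : Dat k θ (fun i j => v i j), ∀ X, RatV (bas h 1) (⊥ : IntermediateField k Ω) X ↔
      RatV β (⊥ : IntermediateField k Ω) X := by
  have hy : ∀ p : Fin n × Fin n, RatV β (⊥ : IntermediateField k Ω)
      (Matrix.diagonal θ ^ (p.1 : ℕ) * v * Matrix.diagonal θ ^ (p.2 : ℕ)) := fun p =>
    ((Dat_ratV_pow hβ hd _).mul hβ hv).mul hβ (Dat_ratV_pow hβ hd _)
  have hpol := Dat_pol hβ hθ hd
  -- the polynomials
  have hP : ∀ b : Fin n, ∃ c : Fin n × Fin n → Ω, (∀ p, c p ∈ (⊥ : IntermediateField k Ω)) ∧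
      ∀ i l, ∑ j, v i j * θ j ^ (b : ℕ) * v j l =
        (∑ p : Fin n × Fin n, c p * (θ i ^ (p.1 : ℕ) * θ l ^ (p.2 : ℕ))) * v i l := by
    intro b
    obtain ⟨c, hc⟩ := Dat_expand hθ hv0 (v * Matrix.diagonal θ ^ (b : ℕ) * v)
    refine ⟨c, fun p => coeff_mem (β := β) hy (Dat_indep hθ hv0) (by
      rw [hc]; exact (hv.mul hβ (Dat_ratV_pow hβ hd _)).mul hβ hv) p, fun i l => ?_⟩
    rw [← Dat_sum_entry, hc, Matrix.mul_apply]
    refine Finset.sum_congr rfl fun j _ => ?_
    rw [Matrix.diagonal_pow, Matrix.mul_diagonal]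
    rfl
  choose c hcm hc using hP
  obtain ⟨g, hg⟩ := hpol.exists_dual hθ
  have hgam : IsR θ (⊥ : IntermediateField k Ω) (Fin 3)
      (fun x => v (x 0) (x 1) * v (x 1) (x 2) / v (x 0) (x 2)) := by
    have h1 : IsR θ (⊥ : IntermediateField k Ω) (Fin 3) (fun x => ∑ b : Fin n,
        (∑ p : Fin n × Fin n, c b p * (θ (x 0) ^ (p.1 : ℕ) * θ (x 2) ^ (p.2 : ℕ))) *
          ∑ a : Fin n, algebraMap k Ω (g a b) * θ (x 1) ^ (a : ℕ)) :=
      IsR.sum _ fun b _ => (IsR.sum _ fun p _ => (isR_const _ (hcm b p)).mul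
        (((isR_theta (0 : Fin 3)).pow _).mul ((isR_theta (2 : Fin 3)).pow _))).mul
        (IsR.sum _ fun a _ => (isR_const _ (IntermediateField.algebraMap_mem _ _)).mul
          ((isR_theta (1 : Fin 3)).pow _))
    refine h1.congr fun x => ?_
    rw [div_eq_iff (hv0 _ _), Finset.sum_mul]
    have h2 : ∀ b : Fin n, (∑ p : Fin n × Fin n, c b p * (θ (x 0) ^ (p.1 : ℕ) *
        θ (x 2) ^ (p.2 : ℕ))) * (∑ a : Fin n, algebraMap k Ω (g a b) * θ (x 1) ^ (a : ℕ)) *
        v (x 0) (x 2) = ∑ j, v (x 0) j * v j (x 2) * (θ j ^ (b : ℕ) *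
          ∑ a : Fin n, algebraMap k Ω (g a b) * θ (x 1) ^ (a : ℕ)) := by
      intro b
      rw [mul_right_comm, ← hc b (x 0) (x 2), Finset.sum_mul]
      exact Finset.sum_congr rfl fun j _ => by ring
    simp only [h2]
    rw [Finset.sum_comm]
    simp only [← Finset.mul_sum, hg]
    rw [Finset.sum_eq_single (x 1)]
    · rw [if_pos rfl, mul_one]
    · intro j _ hj
      rw [if_neg hj, mul_zero]
    · intro h
      exact absurd (Finset.mem_univ _) h
  have h : Dat k θ (fun i j => v i j) := ⟨hθ, hpol, hv0, hgam⟩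
  refine ⟨h, fun X => ?_⟩
  have hbas : ∀ p, bas h 1 p = Matrix.diagonal θ ^ (p.1 : ℕ) * v *
      Matrix.diagonal θ ^ (p.2 : ℕ) := by
    intro p
    ext i j
    rw [bas_apply, Dat_entry, zpow_one]
    ring
  have hyb : ∀ p, RatV β (⊥ : IntermediateField k Ω) (bas h 1 p) := fun p => by
    rw [hbas]; exact hy p
  constructor
  · intro hX
    rw [← (bas h 1).sum_repr X]
    exact RatV.sum fun p _ => (hyb p).smul (hX p)
  · intro hX p
    rw [← (bas h 1).sum_repr X] at hX
    exact coeff_mem (β := β) hyb (bas h 1).linearIndependent hX p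

end Pool.Agent.H78.TT
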