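import Pool.Agent.H78.TT.RR

/-!
# The matrix of a subspace

`w : Fin m → Fin n → Ω` is a basis of `W`, `pl w x` its Pluecker coordinates. The matrix `eH f w` has
its columns in `W`, does not depend on the choice of the basis, and for a vector `t` without zero
entries the matrix of `t ∘ W` is `(t i / t j) * eH f w i j`.
-/

open Module Matrix

namespace Pool.Agent.H78.TT

open Pool.Agent.H72.SB

variable {k Ω : Type*} [Field k] [Field Ω] [Algebra k Ω] {n m r : ℕ}

/-- The Pluecker coordinates. -/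
def pl (w : Fin m → Fin n → Ω) (x : Fin m → Fin n) : Ω :=
  (Matrix.of fun a b => w a (x b)).det

/-- The matrix of a subspace; `f` is an auxiliary function. -/
noncomputable def eH (f : (Fin (r + 1) → Fin n) → Ω) (w : Fin (r + 1) → Fin n → Ω) :
    Matrix (Fin n) (Fin n) Ω :=
  Matrix.of fun i j => ∑ x : Fin r → Fin n, f (Fin.snoc x j) *
    (pl w (Fin.snoc x i) / pl w (Fin.snoc x j))

theorem pl_of_not_injective (w : Fin m → Fin n → Ω) {x : Fin m → Fin n}
    (hx : ¬ Function.Injective x) : pl w x = 0 := by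
  obtain ⟨a, b, hab, hne⟩ : ∃ a b, x a = x b ∧ a ≠ b := by
    by_contra hcon
    push Not at hcon
    exact hx fun a b h => hcon a b h
  refine Matrix.det_zero_of_column_eq hne fun i => ?_
  rw [Matrix.of_apply, Matrix.of_apply, hab]

/-- Another basis. -/
theorem pl_basis {w w' : Fin m → Fin n → Ω} (hw : LinearIndependent Ω w)
    (hw' : LinearIndependent Ω w')
    (h : ∀ a, w' a ∈ Submodule.span Ω (Set.range w)) :
    ∃ c : Ω, c ≠ 0 ∧ ∀ x, pl w' x = c * pl w x := by
  have h1 : ∀ a, ∃ c : Fin m → Ω, ∑ b, c b • w b = w' a := fun a =>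
    (Submodule.mem_span_range_iff_exists_fun Ω).1 (h a)
  choose C hC using h1
  have hC' : ∀ a l, w' a l = ∑ b, C a b * w b l := by
    intro a l
    rw [← hC a, Finset.sum_apply]
    exact Finset.sum_congr rfl fun b _ => rfl
  refine ⟨(Matrix.of C).det, ?_, ?_⟩
  · intro h0
    obtain ⟨v, hv0, hv⟩ := Matrix.exists_vecMul_eq_zero_iff.2 h0
    apply hv0
    have h2 : ∑ a, v a • w' a = 0 := by
      have h3 : ∀ a, v a • w' a = ∑ b, (v a * C a b) • w b := by
        intro a
        rw [← hC a, Finset.smul_sum]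
        exact Finset.sum_congr rfl fun b _ => smul_smul _ _ _
      rw [Finset.sum_congr rfl fun a _ => h3 a, Finset.sum_comm]
      refine Finset.sum_eq_zero fun b _ => ?_
      rw [← Finset.sum_smul]
      have h4 := congrFun hv b
      rw [Matrix.vecMul, dotProduct, Pi.zero_apply] at h4
      have h5 : ∑ a, v a * C a b = 0 := h4
      rw [h5, zero_smul]
    exact funext fun a => Fintype.linearIndependent_iff.1 hw' v h2 a
  · intro x
    rw [pl, pl, ← Matrix.det_mul]
    congr 1
    ext a b
    rw [Matrix.mul_apply, Matrix.of_apply, hC']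
    exact Finset.sum_congr rfl fun c _ => rfl

theorem pl_torus (t : Fin n → Ω) (w : Fin m → Fin n → Ω) (x : Fin m → Fin n) :
    pl (fun a => t * w a) x = (∏ b, t (x b)) * pl w x := by
  exact Matrix.det_mul_row (fun b => t (x b)) (Matrix.of fun a b => w a (x b))

theorem eH_basis {f : (Fin (r + 1) → Fin n) → Ω} {w w' : Fin (r + 1) → Fin n → Ω} {c : Ω}
    (hc : c ≠ 0) (h : ∀ x, pl w' x = c * pl w x) : eH f w' = eH f w := by
  ext i j
  rw [eH, eH, Matrix.of_apply, Matrix.of_apply]
  refine Finset.sum_congr rfl fun x _ => ?_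
  rw [h, h, mul_div_mul_left _ _ hc]

theorem eH_torus (f : (Fin (r + 1) → Fin n) → Ω) {t : Fin n → Ω} (ht : ∀ j, t j ≠ 0)
    (w : Fin (r + 1) → Fin n → Ω) (i j : Fin n) :
    eH f (fun a => t * w a) i j = t i / t j * eH f w i j := by
  rw [eH, eH, Matrix.of_apply, Matrix.of_apply, Finset.mul_sum]
  refine Finset.sum_congr rfl fun x _ => ?_
  have h1 : ∀ l : Fin n, pl (fun a => t * w a) (Fin.snoc x l : Fin (r + 1) → Fin n) =
      (∏ b, t (x b)) * t l * pl w (Fin.snoc x l : Fin (r + 1) → Fin n) := by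
    intro l
    rw [pl_torus, Fin.prod_univ_castSucc, Fin.snoc_last]
    congr 2
    exact Finset.prod_congr rfl fun b _ => by rw [Fin.snoc_castSucc]
  have h2 : (∏ b, t (x b)) ≠ 0 := Finset.prod_ne_zero_iff.2 fun b _ => ht (x b)
  rw [h1, h1, mul_assoc, mul_assoc, mul_div_mul_left _ _ h2, mul_div_mul_comm]
  ring

private theorem pl_snoc_mem (w : Fin (r + 1) → Fin n → Ω) (x : Fin r → Fin n) :
    (fun i => pl w (Fin.snoc x i : Fin (r + 1) → Fin n)) ∈ Submodule.span Ω (Set.range w) := by
  have h1 : (fun i => pl w (Fin.snoc x i : Fin (r + 1) → Fin n)) =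
      ∑ a : Fin (r + 1), ((-1) ^ ((a : ℕ) + (Fin.last r : ℕ)) *
        (Matrix.of fun (a' b : Fin r) => w (a.succAbove a') (x b)).det) • w a := by
    funext i
    rw [pl, Matrix.det_succ_column _ (Fin.last r), Finset.sum_apply]
    refine Finset.sum_congr rfl fun a _ => ?_
    rw [Pi.smul_apply, smul_eq_mul, Matrix.of_apply, Fin.snoc_last]
    have h2 : (Matrix.of fun a b => w a ((Fin.snoc x i : Fin (r + 1) → Fin n) b)).submatrix
        a.succAbove (Fin.last r).succAbove =
        Matrix.of fun (a' b : Fin r) => w (a.succAbove a') (x b) := by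
      ext a' b
      rw [Matrix.submatrix_apply, Matrix.of_apply, Matrix.of_apply, Fin.succAbove_last,
        Fin.snoc_castSucc]
    rw [h2]
    ring
  rw [h1]
  exact Submodule.sum_mem _ fun a _ => Submodule.smul_mem _ _ (Submodule.subset_span ⟨a, rfl⟩)

/-- The columns are in `W`. -/
theorem eH_mem (f : (Fin (r + 1) → Fin n) → Ω) (w : Fin (r + 1) → Fin n → Ω) :
    eH f w ∈ RI (Submodule.span Ω (Set.range w)) := by
  rw [mem_RI_col]
  intro j
  have h1 : (eH f w).col j = ∑ x : Fin r → Fin n,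
      (f (Fin.snoc x j) / pl w (Fin.snoc x j : Fin (r + 1) → Fin n)) •
        (fun i => pl w (Fin.snoc x i : Fin (r + 1) → Fin n)) := by
    funext i
    rw [Finset.sum_apply]
    change ∑ x : Fin r → Fin n, f (Fin.snoc x j) *
      (pl w (Fin.snoc x i) / pl w (Fin.snoc x j)) = _
    refine Finset.sum_congr rfl fun x _ => ?_
    rw [Pi.smul_apply, smul_eq_mul]
    ring
  rw [h1]
  exact Submodule.sum_mem _ fun x _ => Submodule.smul_mem _ _ (pl_snoc_mem w x)

end Pool.Agent.H78.TT
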