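import Pool.Agent.H78.TT.EHat
import Pool.Agent.H78.TT.RLine

/-!
# The matrix of a rational subspace is rational

If `W` is `K`-rational for the weights `v` there are rational matrices `X 0, ..., X r` in `RI W` whose
columns `j` are a basis of `W`, for all `j` (`exists_rat_RI`, the product over `j` of the minors with
rows `z`, `z` an injective tuple). With `X a i j = Q a i j * v i j` one has, for every `j`,
`pl (columns j) x = (∏ b, v (x b) j) * det (Q a (x b) j)`, which is a multiple of `pl w x` by a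
constant `≠ 0` (depending on `j`), so that
`pl w (y, i) / pl w (y, j) = v i j / v j j * (det Q (y, i) j / det Q (y, j) j)`; `IsR.sum_all`,
`IsR.div`, `IsR.det`.
-/

open Module Matrix

namespace Pool.Agent.H78.TT

open Pool.Agent.H72.SB

variable {k Ω : Type*} [Field k] [Field Ω] [Algebra k Ω] {n r : ℕ}
variable {θ : Fin n → Ω} {v : Fin n → Fin n → Ω} {K : IntermediateField k Ω}

/-- A non-zero Pluecker coordinate. -/
private theorem ERat_exists_pl {m : ℕ} {w : Fin m → Fin n → Ω} (hw : LinearIndependent Ω w) :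
    ∃ z : Fin m → Fin n, pl w z ≠ 0 := by
  classical
  let c : Fin n → Fin m → Ω := fun i a => w a i
  have htop : Submodule.span Ω (Set.range c) = ⊤ := by
    by_contra hne
    obtain ⟨f, hf0, hf⟩ := Submodule.exists_le_ker_of_lt_top _ (lt_top_iff_ne_top.2 hne)
    have h1 : ∀ i, f (c i) = 0 := fun i =>
      LinearMap.mem_ker.1 (hf (Submodule.subset_span ⟨i, rfl⟩))
    have h2 : ∑ a, f (Pi.single a 1) • w a = 0 := by
      funext i
      have h3 : c i = ∑ a, w a i • (Pi.single a (1 : Ω) : Fin m → Ω) := by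
        funext b
        simp [c, Finset.sum_apply, Pi.single_apply]
      have h4 := h1 i
      rw [h3, map_sum] at h4
      rw [Finset.sum_apply, Pi.zero_apply, ← h4]
      refine Finset.sum_congr rfl fun a _ => ?_
      rw [map_smul, Pi.smul_apply, smul_eq_mul, smul_eq_mul, mul_comm]
    have h5 := Fintype.linearIndependent_iff.1 hw (fun a => f (Pi.single a 1)) h2
    apply hf0
    refine LinearMap.pi_ext' fun a => ?_
    ext
    simpa using h5 a
  obtain ⟨κ, a, ha, hspan, hli⟩ := exists_linearIndependent' Ω c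
  have : Finite κ := Finite.of_injective a ha
  let _ : Fintype κ := Fintype.ofFinite κ
  let B : Basis κ Ω (Fin m → Ω) := Basis.mk hli (by rw [hspan, htop])
  have hcard : Fintype.card κ = m := by
    rw [← Module.finrank_eq_card_basis B, Module.finrank_fin_fun]
  let e : Fin m ≃ κ := (Fintype.equivFinOfCardEq hcard).symm
  refine ⟨fun b => a (e b), ?_⟩
  have hli2 : LinearIndependent Ω (fun b => c (a (e b))) := hli.comp e e.injective
  have hM : LinearIndependent Ω (Matrix.of fun b : Fin m => c (a (e b))).row := hli2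
  have hu := Matrix.linearIndependent_rows_iff_isUnit.1 hM
  rw [Matrix.isUnit_iff_isUnit_det] at hu
  have h6 : pl w (fun b => a (e b)) = (Matrix.of fun b : Fin m => c (a (e b))).det := by
    rw [← Matrix.det_transpose]
    rfl
  rw [h6]
  exact hu.ne_zero

/-- the entries are linear -/
private def ERat_entry (m : ℕ) (a : Fin m) (i j : Fin n) :
    (Fin m → Matrix (Fin n) (Fin n) Ω) →ₗ[Ω] Ω where
  toFun X := X a i j
  map_add' _ _ := rfl
  map_smul' _ _ := rfl

/-- Rational matrices whose columns are bases. -/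
theorem exists_columns [Infinite k] (hp : Pol k θ) (hθ : Function.Injective θ)
    {w : Fin (r + 1) → Fin n → Ω} (hw : LinearIndependent Ω w)
    (hW : RR θ v K (Submodule.span Ω (Set.range w))) :
    ∃ X : Fin (r + 1) → Matrix (Fin n) (Fin n) Ω,
      (∀ a, X a ∈ RI (Submodule.span Ω (Set.range w))) ∧ (∀ a, RatW θ v K (X a)) ∧
      ∀ j, LinearIndependent Ω (fun a i => X a i j) := by
  obtain ⟨z, hz⟩ := ERat_exists_pl hw
  let f : (Fin (r + 1) → Matrix (Fin n) (Fin n) Ω) → Ω := fun X =>
    ∏ j : Fin n, (Matrix.of fun a b : Fin (r + 1) => X a (z b) j).det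
  have hf : PolyLine Ω f := by
    refine PolyLine.prod _ fun j _ => ?_
    refine PolyLine.det (M := fun X : Fin (r + 1) → Matrix (Fin n) (Fin n) Ω =>
      Matrix.of fun a b : Fin (r + 1) => X a (z b) j) fun a b => ?_
    exact polyLine_linear (Ω := Ω) (E := Fin (r + 1) → Matrix (Fin n) (Fin n) Ω)
      (ERat_entry (r + 1) a (z b) j)
  obtain ⟨X, hX1, hX2, hX3⟩ := exists_rat_RI hp hθ hW hf ⟨fun a => Matrix.of fun i _ => w a i,
    fun a => mem_RI_col.2 fun j => Submodule.subset_span ⟨a, rfl⟩, by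
      refine Finset.prod_ne_zero_iff.2 fun j _ => ?_
      exact hz⟩
  refine ⟨X, hX1, hX2, fun j => ?_⟩
  have h1 : (Matrix.of fun a b : Fin (r + 1) => X a (z b) j).det ≠ 0 :=
    Finset.prod_ne_zero_iff.1 hX3 j (Finset.mem_univ j)
  have h2 := Matrix.linearIndependent_rows_of_det_ne_zero h1
  let g : (Fin n → Ω) →ₗ[Ω] (Fin (r + 1) → Ω) := LinearMap.funLeft Ω Ω z
  have h3 : LinearIndependent Ω (g ∘ fun a i => X a i j) := h2
  exact LinearIndependent.of_comp g h3

/-- The Pluecker coordinates as a rational function: for every `j` a multiple of `pl w`. -/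
theorem exists_pl_rational [Infinite k] (hp : Pol k θ) (hθ : Function.Injective θ)
    (hv : ∀ i j, v i j ≠ 0) {w : Fin (r + 1) → Fin n → Ω} (hw : LinearIndependent Ω w)
    (hW : RR θ v K (Submodule.span Ω (Set.range w))) :
    ∃ (c : Fin n → Ω) (D : (Fin (r + 1) ⊕ Fin 1 → Fin n) → Ω), (∀ j, c j ≠ 0) ∧
      IsR θ K (Fin (r + 1) ⊕ Fin 1) D ∧
      ∀ j x, c j * pl w x = (∏ b, v (x b) j) * D (Sum.elim x fun _ => j) := by
  obtain ⟨X, hX1, hX2, hX3⟩ := exists_columns hp hθ hw hW
  have hc : ∀ j, ∃ c : Ω, c ≠ 0 ∧ ∀ x, pl (fun a i => X a i j) x = c * pl w x := fun j =>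
    pl_basis hw (hX3 j) fun a => mem_RI_col.1 (hX1 a) j
  choose c hc0 hcx using hc
  refine ⟨c, fun y => (Matrix.of fun a b : Fin (r + 1) =>
    X a (y (Sum.inl b)) (y (Sum.inr 0)) / v (y (Sum.inl b)) (y (Sum.inr 0))).det, hc0, ?_, ?_⟩
  · refine IsR.det (M := fun y : Fin (r + 1) ⊕ Fin 1 → Fin n => Matrix.of fun a b : Fin (r + 1) =>
      X a (y (Sum.inl b)) (y (Sum.inr 0)) / v (y (Sum.inl b)) (y (Sum.inr 0))) fun a b => ?_
    exact (IsR.comp (hX2 a) (![Sum.inl b, Sum.inr 0] : Fin 2 → Fin (r + 1) ⊕ Fin 1)).congr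
      fun x => rfl
  · intro j x
    rw [← hcx j x, pl]
    have h1 := Matrix.det_mul_row (fun b => v (x b) j)
      (Matrix.of fun a b : Fin (r + 1) => X a (x b) j / v (x b) j)
    rw [show (Matrix.of fun a b : Fin (r + 1) => X a (x b) j) = Matrix.of fun a b =>
      v (x b) j * (Matrix.of fun a b : Fin (r + 1) => X a (x b) j / v (x b) j) a b from ?_]
    · exact h1
    · ext a b
      simp only [Matrix.of_apply]
      rw [mul_div_cancel₀ _ (hv _ _)]

end Pool.Agent.H78.TT
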