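import Pool.Agent.H78.TT.PolyLine
import Pool.Agent.H72.SB.Form

/-!
# Matrices with distinct eigenvalues

`gramT X = det (tr (X ^ (a + b)))_(a, b < n)` is polynomial on lines and not zero at a diagonal matrix
with distinct entries (the square of a Vandermonde determinant). If it is not zero then
the characteristic polynomial is squarefree: if `(T - r) ^ 2` divides it then
`Y = (charpoly / (T - r))(X)` satisfies `Y ^ 2 = 0`, so `tr (X ^ b Y) = 0` for all `b`, and the
coefficients of `charpoly / (T - r)` are in the kernel of the Gram matrix. So there are `n` distinct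
eigenvalues and `X` is diagonalizable.
-/

open Module Matrix

namespace Pool.Agent.H78.TT

open Pool.Agent.H72.SB

variable {k Ω : Type*} [Field k] [Field Ω] [Algebra k Ω] {n : ℕ}

/-- The Gram determinant of the powers of `X` for the trace form. -/
noncomputable def gramT (X : Matrix (Fin n) (Fin n) Ω) : Ω :=
  (Matrix.of fun a b : Fin n => (X ^ ((a : ℕ) + b)).trace).det

private lemma polyLine_entry (i j : Fin n) :
    PolyLine Ω (fun X : Matrix (Fin n) (Fin n) Ω => X i j) :=
  polyLine_linear (Matrix.entryLinearMap Ω Ω i j)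

private lemma polyLine_pow (m : ℕ) : ∀ i j : Fin n,
    PolyLine Ω (fun X : Matrix (Fin n) (Fin n) Ω => (X ^ m) i j) := by
  induction m with
  | zero =>
    intro i j
    simp only [pow_zero]
    exact polyLine_const _
  | succ m ih =>
    intro i j
    have h := PolyLine.matMul (M := fun X : Matrix (Fin n) (Fin n) Ω => X ^ m)
      (N := fun X : Matrix (Fin n) (Fin n) Ω => X) ih polyLine_entry i j
    simpa only [pow_succ] using h

theorem polyLine_gramT : PolyLine Ω (gramT : Matrix (Fin n) (Fin n) Ω → Ω) := by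
  unfold gramT
  refine PolyLine.det fun i j => ?_
  simp only [Matrix.of_apply, Matrix.trace, Matrix.diag_apply]
  exact PolyLine.sum _ fun a _ => polyLine_pow _ a a

theorem gramT_diagonal {θ : Fin n → Ω} (hθ : Function.Injective θ) :
    gramT (Matrix.diagonal θ) ≠ 0 := by
  have h : (Matrix.of fun a b : Fin n => ((Matrix.diagonal θ) ^ ((a : ℕ) + b)).trace) =
      (Matrix.vandermonde θ)ᵀ * Matrix.vandermonde θ := by
    ext a b
    rw [Matrix.vandermonde_transpose_mul_vandermonde, Matrix.of_apply, Matrix.diagonal_pow,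
      Matrix.trace_diagonal]
    rfl
  unfold gramT
  rw [h, Matrix.det_mul, Matrix.det_transpose]
  have h1 := Matrix.det_vandermonde_ne_zero_iff.2 hθ
  exact mul_ne_zero h1 h1

/-- The characteristic polynomial is squarefree. -/
private lemma nodup_roots_of_gramT {X : Matrix (Fin n) (Fin n) Ω} (hX : gramT X ≠ 0) :
    X.charpoly.roots.Nodup := by
  classical
  rw [Multiset.nodup_iff_count_le_one]
  intro r
  by_contra hlt
  rw [not_le, Polynomial.count_roots] at hlt
  have hp0 : X.charpoly ≠ 0 := (Matrix.charpoly_monic X).ne_zero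
  have hdvd : (Polynomial.X - Polynomial.C r) ^ 2 ∣ X.charpoly :=
    (Polynomial.le_rootMultiplicity_iff hp0).1 hlt
  obtain ⟨q', hq'⟩ := hdvd
  set q := (Polynomial.X - Polynomial.C r) * q' with hq
  have hpq : X.charpoly = (Polynomial.X - Polynomial.C r) * q := by
    rw [hq', hq]
    ring
  have hqq : q * q = X.charpoly * q' := by
    rw [hq', hq]
    ring
  have hq0 : q ≠ 0 := by
    intro h
    rw [h, mul_zero] at hpq
    exact hp0 hpq
  have hdeg : q.natDegree < n := by
    have h1 : X.charpoly.natDegree = n := by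
      rw [Matrix.charpoly_natDegree_eq_dim, Fintype.card_fin]
    rw [hpq, Polynomial.natDegree_mul (Polynomial.X_sub_C_ne_zero r) hq0,
      Polynomial.natDegree_X_sub_C] at h1
    omega
  apply hX
  unfold gramT
  rw [← Matrix.exists_mulVec_eq_zero_iff]
  refine ⟨fun a : Fin n => q.coeff a, ?_, ?_⟩
  · intro h
    have h1 := congrFun h ⟨q.natDegree, hdeg⟩
    simp only [Pi.zero_apply, Polynomial.coeff_natDegree, Polynomial.leadingCoeff_eq_zero] at h1
    exact hq0 h1
  · ext a
    simp only [Matrix.mulVec, dotProduct, Matrix.of_apply, Pi.zero_apply]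
    have hY : Polynomial.aeval X q * Polynomial.aeval X q = 0 := by
      rw [← map_mul, hqq, map_mul, Matrix.aeval_self_charpoly, zero_mul]
    have hc : Commute (X ^ (a : ℕ)) (Polynomial.aeval X q) := by
      have h1 : Commute X (Polynomial.aeval X q) := by
        have h2 : X = Polynomial.aeval X (Polynomial.X : Polynomial Ω) := by
          rw [Polynomial.aeval_X]
        have h3 : Polynomial.aeval X (Polynomial.X : Polynomial Ω) * Polynomial.aeval X q =
            Polynomial.aeval X q * Polynomial.aeval X (Polynomial.X : Polynomial Ω) := by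
          rw [← map_mul, ← map_mul, mul_comm]
        rw [← h2] at h3
        exact h3
      exact h1.pow_left _
    have hnil : IsNilpotent (X ^ (a : ℕ) * Polynomial.aeval X q) := by
      refine ⟨2, ?_⟩
      rw [hc.mul_pow, pow_two (Polynomial.aeval X q), hY, mul_zero]
    have htr : (X ^ (a : ℕ) * Polynomial.aeval X q).trace = 0 :=
      (Matrix.isNilpotent_trace_of_isNilpotent hnil).eq_zero
    rw [Polynomial.aeval_eq_sum_range' hdeg, Finset.sum_range, Finset.mul_sum,
      Matrix.trace_sum] at htr
    rw [← htr]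
    refine Finset.sum_congr rfl fun b _ => ?_
    rw [Matrix.mul_smul, Matrix.trace_smul, ← pow_add, smul_eq_mul, mul_comm]

theorem exists_diag [IsAlgClosed Ω] {X : Matrix (Fin n) (Fin n) Ω} (hX : gramT X ≠ 0) :
    ∃ (P : Matrix (Fin n) (Fin n) Ω) (θ : Fin n → Ω), IsUnit P ∧ Function.Injective θ ∧
      P * X = Matrix.diagonal θ * P := by
  classical
  have hnd := nodup_roots_of_gramT hX
  have hcard : X.charpoly.roots.toFinset.card = n := by
    rw [Multiset.toFinset_card_of_nodup hnd, IsAlgClosed.card_roots_eq_natDegree,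
      Matrix.charpoly_natDegree_eq_dim, Fintype.card_fin]
  let ε := X.charpoly.roots.toFinset.equivFinOfCardEq hcard
  let θ : Fin n → Ω := fun i => (ε.symm i : Ω)
  have hθ : Function.Injective θ := Subtype.coe_injective.comp ε.symm.injective
  have hroot : ∀ i, X.charpoly.eval (θ i) = 0 := by
    intro i
    have h1 : θ i ∈ X.charpoly.roots.toFinset := (ε.symm i).2
    rw [Multiset.mem_toFinset, Polynomial.mem_roots (Matrix.charpoly_monic X).ne_zero] at h1
    exact h1
  have hv : ∀ i, ∃ v : Fin n → Ω, v ≠ 0 ∧ v ᵥ* X = θ i • v := by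
    intro i
    have h1 := hroot i
    rw [Matrix.eval_charpoly, ← Matrix.exists_vecMul_eq_zero_iff] at h1
    obtain ⟨v, hv0, hv⟩ := h1
    refine ⟨v, hv0, ?_⟩
    rw [Matrix.vecMul_sub, sub_eq_zero] at hv
    rw [← hv]
    ext j
    simp [Matrix.scalar_apply, Matrix.vecMul_diagonal, mul_comm]
  choose v hv0 hv using hv
  refine ⟨Matrix.of v, θ, ?_, hθ, ?_⟩
  · rw [← Matrix.linearIndependent_rows_iff_isUnit]
    refine Module.End.eigenvectors_linearIndependent' (Matrix.toLin' Xᵀ) θ hθ _ fun i => ?_
    rw [Module.End.hasEigenvector_iff]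
    refine ⟨?_, hv0 i⟩
    rw [Module.End.mem_eigenspace_iff, Matrix.toLin'_apply, Matrix.mulVec_transpose]
    exact hv i
  · ext i j
    have h1 := congrFun (hv i) j
    rw [Matrix.diagonal_mul]
    exact h1

/-- A rational matrix with distinct eigenvalues. -/
theorem exists_eig [Infinite k] [IsAlgClosed Ω] {ι : Type*} [Fintype ι]
    (β : Basis ι Ω (Matrix (Fin n) (Fin n) Ω)) :
    ∃ X, RatV β (⊥ : IntermediateField k Ω) X ∧ ∃ (P : Matrix (Fin n) (Fin n) Ω)
      (θ : Fin n → Ω), IsUnit P ∧ Function.Injective θ ∧ P * X = Matrix.diagonal θ * P := by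
  have hinf : Infinite Ω := Infinite.of_injective (algebraMap k Ω) (algebraMap k Ω).injective
  obtain ⟨X, hX, h⟩ := PolyLine.exists_rat (k := k) β polyLine_gramT
    ⟨Matrix.diagonal fun i : Fin n => Infinite.natEmbedding Ω i,
      gramT_diagonal fun i j hij => Fin.ext ((Infinite.natEmbedding Ω).injective hij)⟩
  exact ⟨X, hX, exists_diag h⟩

end Pool.Agent.H78.TT
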