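import Pool.Agent.H78.TT.Dat
import Pool.Agent.H78.TT.Eig
import Pool.Agent.H72.SB.FormEx

/-!
# Coordinates of a central simple algebra

`exists_form` gives `ρ`, `b`, `β`; `exists_eig` a rational matrix `X` with distinct eigenvalues.
Replace `ρ` by `P ρ P⁻¹`, so that `X` is diagonal; choose a rational matrix `v` without zero entries
(`PolyLine.exists_rat` for `∏ i, ∏ j, v i j`, not zero at the matrix of ones); `dat_of_form`.
-/

open Module Matrix

namespace Pool.Agent.H78.TT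

open Pool.Agent.H72.SB

variable {k Ω : Type*} [Field k] [Field Ω] [Algebra k Ω] {n : ℕ}

/-- Conjugation with a unit. -/
private def ExDat_conj (u : (Matrix (Fin n) (Fin n) Ω)ˣ) :
    Matrix (Fin n) (Fin n) Ω ≃ₐ[Ω] Matrix (Fin n) (Fin n) Ω where
  toFun Y := u.1 * Y * u⁻¹.1
  invFun Y := u⁻¹.1 * Y * u.1
  left_inv Y := by
    change u⁻¹.1 * (u.1 * Y * u⁻¹.1) * u.1 = Y
    rw [← mul_assoc, ← mul_assoc, Units.inv_mul, one_mul, mul_assoc, Units.inv_mul, mul_one]
  right_inv Y := by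
    change u.1 * (u⁻¹.1 * Y * u.1) * u⁻¹.1 = Y
    rw [← mul_assoc, ← mul_assoc, Units.mul_inv, one_mul, mul_assoc, Units.mul_inv, mul_one]
  map_mul' Y Z := by
    have h : u.1 * Y * u⁻¹.1 * (u.1 * Z * u⁻¹.1) = u.1 * Y * (u⁻¹.1 * u.1) * Z * u⁻¹.1 := by
      simp only [mul_assoc]
    rw [h, Units.inv_mul, mul_one, mul_assoc u.1 Y Z]
  map_add' Y Z := by rw [mul_add, add_mul]
  commutes' r := by
    rw [← Algebra.commutes, mul_assoc, Units.mul_inv, mul_one]

private theorem ExDat_range {ι : Type*} [Fintype ι] {A : Type*} [Ring A] [Algebra k A]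
    {β : Basis ι Ω (Matrix (Fin n) (Fin n) Ω)} {ρ : A →ₐ[k] Matrix (Fin n) (Fin n) Ω}
    {b : Basis ι k A} (hρ : ∀ i, β i = ρ (b i)) (X : Matrix (Fin n) (Fin n) Ω) :
    RatV β (⊥ : IntermediateField k Ω) X ↔ X ∈ ρ.range := by
  constructor
  · intro hX
    choose c hc using fun i => IntermediateField.mem_bot.1 (hX i)
    refine ⟨∑ i, c i • b i, ?_⟩
    rw [← β.sum_repr X]
    change ρ (∑ i, c i • b i) = _
    rw [map_sum]
    refine Finset.sum_congr rfl fun i _ => ?_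
    rw [map_smul, ← hρ i, ← hc i, algebraMap_smul]
  · rintro ⟨a, rfl⟩
    exact ratV_rho hρ a

theorem exists_dat [Infinite k] [IsAlgClosed Ω] (A : Type*) [Ring A] [Algebra k A]
    [Algebra.IsCentral k A] [IsSimpleRing A] [FiniteDimensional k A] (hn : finrank k A = n ^ 2) :
    ∃ (θ : Fin n → Ω) (v : Fin n → Fin n → Ω) (h : Dat k θ v)
      (ρ : A →ₐ[k] Matrix (Fin n) (Fin n) Ω),
      ∀ X, RatV (bas h 1) (⊥ : IntermediateField k Ω) X ↔ X ∈ ρ.range := by
  obtain ⟨ρ, b, β, hρ, -⟩ := exists_form (Ω := Ω) A hn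
  obtain ⟨X, hX, P, θ, hP, hθ, hPX⟩ := exists_eig (k := k) β
  obtain ⟨u, rfl⟩ := hP
  set ρ' : A →ₐ[k] Matrix (Fin n) (Fin n) Ω :=
    (((ExDat_conj u).restrictScalars k).toAlgHom).comp ρ with hρ'
  set β' : Basis (Fin (n ^ 2)) Ω (Matrix (Fin n) (Fin n) Ω) :=
    β.map (ExDat_conj u).toLinearEquiv with hβ'
  have h1 : ∀ i, β' i = ρ' (b i) := by
    intro i
    rw [hβ', Basis.map_apply, hρ i]
    rfl
  have hd : RatV β' (⊥ : IntermediateField k Ω) (Matrix.diagonal θ) := by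
    have h2 : Matrix.diagonal θ = (ExDat_conj u).toLinearEquiv X := by
      change Matrix.diagonal θ = u.1 * X * u⁻¹.1
      rw [hPX, mul_assoc, Units.mul_inv, mul_one]
    intro i
    rw [h2, hβ', Basis.map_repr, LinearEquiv.trans_apply, LinearEquiv.symm_apply_apply]
    exact hX i
  have hpl : PolyLine Ω (fun M : Matrix (Fin n) (Fin n) Ω => ∏ i, ∏ j, M i j) :=
    PolyLine.prod _ fun i _ => PolyLine.prod _ fun j _ =>
      polyLine_linear (Matrix.entryLinearMap Ω Ω i j)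
  obtain ⟨v, hv, hv0⟩ := hpl.exists_rat (k := k) β' ⟨Matrix.of fun _ _ => 1, by
    simp only [Matrix.of_apply, Finset.prod_const_one]
    exact one_ne_zero⟩
  have hv1 : ∀ i j, v i j ≠ 0 := fun i j =>
    Finset.prod_ne_zero_iff.1 (Finset.prod_ne_zero_iff.1 hv0 i (Finset.mem_univ i)) j
      (Finset.mem_univ j)
  obtain ⟨h, hh⟩ := dat_of_form (isForm_of_rho h1) hθ hd hv hv1
  exact ⟨θ, fun i j => v i j, h, ρ', fun Y => (hh Y).trans (ExDat_range h1 Y)⟩

end Pool.Agent.H78.TT
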