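import Pool.Agent.H78.TT.Step

/-!
# The theorem
-/

open Module Matrix

universe u

namespace Pool.Agent.H78.TT

open Pool.Agent.H72.SB Pool.Agent.H49.Cyc

variable {k : Type u} [Field k] {n m : ℕ}

/-- The case `i = (-2) ^ e` modulo `n`. -/
private theorem common_pos [Infinite k] {A B : CSA.{u, u} k} (hA : finrank k A = n ^ 2)
    (hB : finrank k B = n ^ 2) (hn : Odd n) (hm : 1 ≤ m) (hmn : m < n)
    (hg : Nat.gcd m n = 1 ∨ Nat.gcd m n = 3) {i : ℤ} (hAB : IsMultiple A i B) (e : ℕ)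
    (he : (n : ℤ) ∣ i - (-2) ^ e) :
    ∃ (F : Type u) (_ : Field F) (_ : Algebra k F), IsFunctionField A m F ∧
      IsFunctionField B m F := by
  obtain ⟨C, hC, hAC⟩ := exists_isMultiple_of hA ((-2) ^ e)
  obtain ⟨f⟩ := equiv_of_dvd hA hB hC hAB hAC he
  have hgn : Nat.gcd m n ≤ n := Nat.le_of_dvd (by omega) (Nat.gcd_dvd_right m n)
  obtain ⟨F, i1, i2, hF⟩ := exists_functionField A hA hgn
  have h2 : IsFunctionField C (Nat.gcd m n) F := functionField_pow hA hC hn hg hgn e hAC hF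
  have h3 : IsFunctionField B (Nat.gcd m n) F := h2.congr f.symm
  exact ⟨_, _, _, functionField_gcd A hA hm hmn hF, functionField_gcd B hB hm hmn h3⟩

/-- `k` infinite, `[B] = i [A]`, `i = ± 2 ^ e` modulo `n`: a common function field. The sign:
`op_iff` for the opposite algebra `opCSA B` (class `-i`), `functionField_gcd`, `equiv_of_dvd`. -/
theorem common_infinite [Infinite k] {A B : CSA.{u, u} k} (hA : finrank k A = n ^ 2)
    (hB : finrank k B = n ^ 2) (hn : Odd n) (hm : 1 ≤ m) (hmn : m < n)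
    (hg : Nat.gcd m n = 1 ∨ Nat.gcd m n = 3) {i : ℤ} (hAB : IsMultiple A i B) (e : ℕ)
    (he : (n : ℤ) ∣ i - 2 ^ e ∨ (n : ℤ) ∣ i + 2 ^ e) :
    ∃ (F : Type u) (_ : Field F) (_ : Algebra k F), IsFunctionField A m F ∧
      IsFunctionField B m F := by
  have h1 : (n : ℤ) ∣ i - (-2) ^ e ∨ (n : ℤ) ∣ i + (-2) ^ e := by
    rcases Nat.even_or_odd e with hee | hee
    · rw [hee.neg_pow]
      exact he
    · rw [hee.neg_pow, sub_neg_eq_add, ← sub_eq_add_neg]
      exact he.symm
  rcases h1 with h1 | h1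
  · exact common_pos hA hB hn hm hmn hg hAB e h1
  · have h2 : IsMultiple A (-i) (opCSA B) := .inv i B (opCSA B) hAB ⟨AlgEquiv.refl⟩
    have hB' : finrank k (opCSA B) = n ^ 2 := by
      rw [← hB]
      exact (MulOpposite.opLinearEquiv k).finrank_eq.symm
    have h3 : (n : ℤ) ∣ -i - (-2) ^ e := by
      obtain ⟨c, hc⟩ := h1
      exact ⟨-c, by linarith⟩
    obtain ⟨F, i1, i2, h4, h5⟩ := common_pos hA hB' hn hm hmn hg h2 e h3
    exact ⟨F, i1, i2, h4, (op_iff (A := B) (B := opCSA B) hB hm hmn AlgEquiv.refl F).2 h5⟩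

private theorem same_of_equiv {A B : CSA.{u, u} k} (hA : finrank k A = n ^ 2) (hmn : m < n)
    (f : A ≃ₐ[k] B) :
    (∃ (F : Type u) (_ : Field F) (_ : Algebra k F), IsFunctionField A m F ∧
      IsFunctionField B m F) ∧
    ∀ (F : Type u) [Field F] [Algebra k F], IsFunctionField A m F ↔ IsFunctionField B m F := by
  obtain ⟨F, i1, i2, hF⟩ := exists_functionField A hA hmn.le
  exact ⟨⟨F, i1, i2, hF, hF.congr f⟩, fun F _ _ => ⟨fun h => h.congr f, fun h => h.congr f.symm⟩⟩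

/-- All fields. -/
theorem same_iff_pow {A B : CSA.{u, u} k} (hA : finrank k A = n ^ 2)
    (hB : finrank k B = n ^ 2) (hn : Odd n) (hm : 1 ≤ m) (hmn : m < n)
    (hg : Nat.gcd m n = 1 ∨ Nat.gcd m n = 3) {i : ℤ} (hAB : IsMultiple A i B) (e : ℕ)
    (he : (n : ℤ) ∣ i - 2 ^ e ∨ (n : ℤ) ∣ i + 2 ^ e) :
    (∃ (F : Type u) (_ : Field F) (_ : Algebra k F), IsFunctionField A m F ∧
      IsFunctionField B m F) ∧
    ∀ (F : Type u) [Field F] [Algebra k F], IsFunctionField A m F ↔ IsFunctionField B m F := by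
  rcases finite_or_infinite k with hk | hk
  · obtain ⟨f⟩ := nonempty_algEquiv_of_finite A B (by rw [hA, hB])
    exact same_of_equiv hA hmn f
  · obtain ⟨F₀, i1, i2, h1, h2⟩ := common_infinite hA hB hn hm hmn hg hAB e he
    refine ⟨⟨F₀, i1, i2, h1, h2⟩, fun F _ _ => ⟨fun h3 => ?_, fun h3 => ?_⟩⟩
    · obtain ⟨e⟩ := functionField_unique A hA (by omega) h1 h3
      exact h2.congr_field e
    · obtain ⟨e⟩ := functionField_unique B hB (by omega) h2 h3
      exact h1.congr_field e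

/-- Degree `3 ^ a`. `exists_isMultiple` gives `i` and `j`, `(IsMultiple.sub_one (hi.trans hj))`
says that `i j - 1` is a multiple of the period; if `3` does not divide `i` use
`exists_pm_two_pow`; if `3 ∣ i` then `i j - 1` is prime to `3`, so the period of `A` is prime to
`3 ^ a`, hence `1` (`equiv_of_dvd` with exponents `i j - 1` and `0`, times an inverse modulo
`3 ^ a`): `A` and `B` are isomorphic. -/
theorem same_iff_three {A B : CSA.{u, u} k} {a : ℕ} (hA : finrank k A = (3 ^ a) ^ 2)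
    (hB : finrank k B = (3 ^ a) ^ 2) (hm : 1 ≤ m) (hmn : m < 3 ^ a) (h9 : ¬ 9 ∣ m)
    (hAB : InCyclic A B) (hBA : InCyclic B A) :
    (∃ (F : Type u) (_ : Field F) (_ : Algebra k F), IsFunctionField A m F ∧
      IsFunctionField B m F) ∧
    ∀ (F : Type u) [Field F] [Algebra k F], IsFunctionField A m F ↔ IsFunctionField B m F := by
  rcases finite_or_infinite k with hk | hk
  · obtain ⟨f⟩ := nonempty_algEquiv_of_finite A B (by rw [hA, hB])
    exact same_of_equiv hA hmn f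
  obtain ⟨i, hi⟩ := exists_isMultiple hAB
  obtain ⟨j, hj⟩ := exists_isMultiple hBA
  by_cases h3 : (3 : ℤ) ∣ i
  · -- the period is prime to `3`
    have hx : IsMultiple A (i * j + -1) (kCSA k) := (hi.trans hj).sub_one
    obtain ⟨c, hc⟩ := h3
    have hco : IsCoprime (i * j + -1) ((3 : ℤ) ^ a) := by
      refine IsCoprime.pow_right ⟨-1, c * j, ?_⟩
      rw [hc]
      ring
    obtain ⟨u, v, huv⟩ := hco
    have h1 : IsMultiple A (i + ((1 - i) * u) * (i * j + -1)) B := hi.add (hx.smul _)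
    have h2 : ((3 ^ a : ℕ) : ℤ) ∣ i + ((1 - i) * u) * (i * j + -1) - 1 := by
      refine ⟨-((1 - i) * v), ?_⟩
      push_cast
      linear_combination (1 - i) * huv
    obtain ⟨f⟩ := equiv_of_dvd hA hB hA h1 .self h2
    exact same_of_equiv hA hmn f.symm
  · obtain ⟨e, he⟩ := exists_pm_two_pow a h3
    have hn : Odd (3 ^ a) := Odd.pow (by decide)
    have hg : Nat.gcd m (3 ^ a) = 1 ∨ Nat.gcd m (3 ^ a) = 3 := by
      obtain ⟨b, hb, hb'⟩ := (Nat.dvd_prime_pow Nat.prime_three).1 (Nat.gcd_dvd_right m (3 ^ a))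
      rw [hb']
      have hb2 : b < 2 := by
        by_contra hcon
        have h4 : (3 : ℕ) ^ 2 ∣ 3 ^ b := pow_dvd_pow 3 (by omega)
        rw [← hb'] at h4
        exact h9 ((by norm_num : (9 : ℕ) = 3 ^ 2) ▸ h4.trans (Nat.gcd_dvd_left m (3 ^ a)))
      interval_cases b <;> simp
    refine same_iff_pow hA hB hn hm hmn hg hi e ?_
    push_cast
    exact he

end Pool.Agent.H78.TT
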