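import Pool.Agent.H78.TT.RSum
import Pool.Agent.H72.SB.Form

/-!
# The forms of the matrix algebra

For `s : ℤ` the matrices `P(θ_i, θ_j) v_ij ^ s`, `P` over `K`, are a `K`-form `F_s(K)` of `Mₙ(Ω)`.
They are closed under products; entrywise products map `F_s × F_t` to `F_(s+t)`, transposition maps
`F_s` to `F_(-s)`.
-/

open Module Matrix

namespace Pool.Agent.H78.TT

open Pool.Agent.H72.SB

variable {k Ω : Type*} [Field k] [Field Ω] [Algebra k Ω] {n : ℕ}

/-- The coordinates of a central simple algebra with an étale maximal commutative subalgebra. -/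
structure Dat (k : Type*) {Ω : Type*} [Field k] [Field Ω] [Algebra k Ω] {n : ℕ} (θ : Fin n → Ω)
    (v : Fin n → Fin n → Ω) : Prop where
  inj : Function.Injective θ
  pol : Pol k θ
  ne : ∀ i j, v i j ≠ 0
  gam : IsR θ (⊥ : IntermediateField k Ω) (Fin 3)
    (fun x => v (x 0) (x 1) * v (x 1) (x 2) / v (x 0) (x 2))

/-- The matrix `X` is in `F_s(K)`. -/
def RF (θ : Fin n → Ω) (v : Fin n → Fin n → Ω) (s : ℤ) (K : IntermediateField k Ω)
    (X : Matrix (Fin n) (Fin n) Ω) : Prop :=
  IsR θ K (Fin 2) (fun x => X (x 0) (x 1) / v (x 0) (x 1) ^ s)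

variable {θ : Fin n → Ω} {v : Fin n → Fin n → Ω} {K K' : IntermediateField k Ω} {s t : ℤ}
  {X Y : Matrix (Fin n) (Fin n) Ω}

/-- The entrywise product. -/
def hadP (X Y : Matrix (Fin n) (Fin n) Ω) : Matrix (Fin n) (Fin n) Ω :=
  Matrix.of fun i j => X i j * Y i j

theorem hadP_apply (X Y : Matrix (Fin n) (Fin n) Ω) (i j : Fin n) :
    hadP X Y i j = X i j * Y i j := rfl

theorem RF.add (hX : RF θ v s K X) (hY : RF θ v s K Y) : RF θ v s K (X + Y) :=
  (IsR.add hX hY).congr fun x => by rw [Matrix.add_apply, add_div]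

theorem RF.neg (hX : RF θ v s K X) : RF θ v s K (-X) :=
  (IsR.neg hX).congr fun x => by rw [Matrix.neg_apply, neg_div]

theorem RF.sub (hX : RF θ v s K X) (hY : RF θ v s K Y) : RF θ v s K (X - Y) := by
  rw [sub_eq_add_neg]; exact hX.add hY.neg

theorem RF.smul {c : Ω} (hc : c ∈ K) (hX : RF θ v s K X) : RF θ v s K (c • X) :=
  ((isR_const c hc).mul hX).congr fun x => by rw [Matrix.smul_apply, smul_eq_mul, mul_div_assoc]

theorem RF.mono (hK : K ≤ K') (hX : RF θ v s K X) : RF θ v s K' X := IsR.mono hK hX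

theorem RF.had (h : Dat k θ v) (hX : RF θ v s K X) (hY : RF θ v t K Y) :
    RF θ v (s + t) K (hadP X Y) :=
  (IsR.mul hX hY).congr fun x => by
    rw [hadP_apply, zpow_add₀ (h.ne _ _), mul_div_mul_comm]

end Pool.Agent.H78.TT
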