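import Pool.Agent.H78.TT.FormMul

/-!
# The bases of the forms
-/

open Module Matrix

namespace Pool.Agent.H78.TT

open Pool.Agent.H72.SB

variable {k Ω : Type*} [Field k] [Field Ω] [Algebra k Ω] {n : ℕ}
variable {θ : Fin n → Ω} {v : Fin n → Fin n → Ω} {K K' : IntermediateField k Ω} {s t : ℤ}
  {X Y : Matrix (Fin n) (Fin n) Ω}

/-- The basis `θ_i ^ a θ_j ^ b v_ij ^ s` of `Mₙ(Ω)`. -/
theorem exists_bas (h : Dat k θ v) (s : ℤ) :
    ∃ β : Basis (Fin n × Fin n) Ω (Matrix (Fin n) (Fin n) Ω), ∀ p i j,
      β p i j = θ i ^ (p.1 : ℕ) * θ j ^ (p.2 : ℕ) * v i j ^ s := by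
  classical
  let f : Fin n × Fin n → Matrix (Fin n) (Fin n) Ω := fun p =>
    Matrix.of fun i j => θ i ^ (p.1 : ℕ) * θ j ^ (p.2 : ℕ) * v i j ^ s
  set V := Matrix.vandermonde θ with hV
  have hVu : IsUnit V.det := isUnit_iff_ne_zero.2 (Matrix.det_vandermonde_ne_zero_iff.2 h.inj)
  have li : LinearIndependent Ω f := by
    rw [Fintype.linearIndependent_iff]
    intro c hc p
    let C : Matrix (Fin n) (Fin n) Ω := Matrix.of fun a b => c (a, b)
    have h1 : V * (C * Vᵀ) = 0 := by
      ext i j
      have h2 := congrFun (congrFun hc i) j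
      rw [Matrix.sum_apply, Fintype.sum_prod_type] at h2
      simp only [Matrix.smul_apply, f, Matrix.of_apply, smul_eq_mul, Matrix.zero_apply] at h2
      have h3 : (∑ a : Fin n, ∑ b : Fin n, c (a, b) * (θ i ^ (a : ℕ) * θ j ^ (b : ℕ))) *
          v i j ^ s = 0 := by
        rw [← h2, Finset.sum_mul]
        refine Finset.sum_congr rfl fun a _ => ?_
        rw [Finset.sum_mul]
        exact Finset.sum_congr rfl fun b _ => by ring
      have h4 := (mul_eq_zero.1 h3).resolve_right (zpow_ne_zero s (h.ne i j))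
      rw [Matrix.mul_apply, Matrix.zero_apply, ← h4]
      refine Finset.sum_congr rfl fun a _ => ?_
      rw [Matrix.mul_apply, Finset.mul_sum]
      refine Finset.sum_congr rfl fun b _ => ?_
      rw [Matrix.transpose_apply, hV, Matrix.vandermonde_apply, Matrix.vandermonde_apply]
      simp only [C, Matrix.of_apply]
      ring
    have h5 : C * Vᵀ = 0 := by
      have := congrArg (fun M => V⁻¹ * M) h1
      simpa [← Matrix.mul_assoc, Matrix.nonsing_inv_mul _ hVu] using this
    have h6 : C = 0 := by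
      have hVt : IsUnit (Vᵀ).det := by rw [Matrix.det_transpose]; exact hVu
      have := congrArg (fun M => M * (Vᵀ)⁻¹) h5
      simpa [Matrix.mul_assoc, Matrix.mul_nonsing_inv _ hVt] using this
    have := congrFun (congrFun h6 p.1) p.2
    exact this
  have hsp : ⊤ ≤ Submodule.span Ω (Set.range f) := by
    refine (li.span_eq_top_of_card_eq_finrank' ?_).ge
    rw [Module.finrank_matrix]
    simp
  refine ⟨Basis.mk li hsp, fun p i j => ?_⟩
  rw [Basis.mk_apply]
  rfl

/-- The basis `θ_i ^ a θ_j ^ b v_ij ^ s` of `Mₙ(Ω)`. -/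
noncomputable def bas (h : Dat k θ v) (s : ℤ) :
    Basis (Fin n × Fin n) Ω (Matrix (Fin n) (Fin n) Ω) := (exists_bas h s).choose

theorem bas_apply (h : Dat k θ v) (s : ℤ) (p : Fin n × Fin n) (i j : Fin n) :
    bas h s p i j = θ i ^ (p.1 : ℕ) * θ j ^ (p.2 : ℕ) * v i j ^ s :=
  (exists_bas h s).choose_spec p i j

theorem rf_bas (h : Dat k θ v) (s : ℤ) (p : Fin n × Fin n) : RF θ v s K (bas h s p) := by
  refine (((isR_theta (0 : Fin 2)).pow p.1).mul ((isR_theta (1 : Fin 2)).pow p.2)).congr
    fun x => ?_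
  rw [bas_apply, mul_div_assoc, div_self (zpow_ne_zero _ (h.ne _ _)), mul_one]

private theorem ratV_mono (h : Dat k θ v) (s : ℤ) {c : Ω} (hc : c ∈ K) (a b : ℕ) :
    RatV (bas h s) K (Matrix.of fun i j => c * (θ i ^ a * θ j ^ b) * v i j ^ s) := by
  obtain ⟨c1, h1⟩ := h.pol.pow a
  obtain ⟨c2, h2⟩ := h.pol.pow b
  have e : (Matrix.of fun i j => c * (θ i ^ a * θ j ^ b) * v i j ^ s :
      Matrix (Fin n) (Fin n) Ω) = ∑ p : Fin n × Fin n,
        (c * (algebraMap k Ω (c1 p.1) * algebraMap k Ω (c2 p.2))) • bas h s p := by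
    ext i j
    rw [Matrix.sum_apply, Matrix.of_apply, h1, h2, Fintype.sum_prod_type, Finset.sum_mul_sum,
      Finset.mul_sum, Finset.sum_mul]
    refine Finset.sum_congr rfl fun x _ => ?_
    rw [Finset.mul_sum, Finset.sum_mul]
    refine Finset.sum_congr rfl fun y _ => ?_
    rw [Matrix.smul_apply, bas_apply, smul_eq_mul]
    ring
  rw [e]
  exact RatV.sum fun p _ => RatV.smul
    (K.mul_mem hc (K.mul_mem (K.algebraMap_mem _) (K.algebraMap_mem _))) (ratV_basis p)

/-- `K`-rational in the basis `bas h s` means in `F_s(K)`. -/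
theorem ratV_bas (h : Dat k θ v) : RatV (bas h s) K X ↔ RF θ v s K X := by
  constructor
  · intro hX
    have h1 : IsR θ K (Fin 2) (fun x => ∑ p : Fin n × Fin n,
        (bas h s).repr X p * (bas h s p (x 0) (x 1) / v (x 0) (x 1) ^ s)) :=
      IsR.sum _ fun p _ => (isR_const _ (hX p)).mul (rf_bas h s p)
    refine h1.congr fun x => ?_
    conv_lhs => rw [← (bas h s).sum_repr X]
    rw [Matrix.sum_apply, Finset.sum_div]
    refine Finset.sum_congr rfl fun p _ => ?_
    rw [Matrix.smul_apply, smul_eq_mul, mul_div_assoc]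
  · rintro ⟨P, hP⟩
    have key : ∀ Q : MvPolynomial (Fin 2) K, RatV (bas h s) K (Matrix.of fun i j =>
        MvPolynomial.aeval (fun a => θ ((![i, j] : Fin 2 → Fin n) a)) Q * v i j ^ s) := by
      intro Q
      induction Q using MvPolynomial.induction_on' with
      | monomial u c =>
        have h1 := ratV_mono (K := K) h s c.2 (u 0) (u 1)
        have e : (Matrix.of fun i j => MvPolynomial.aeval
            (fun a => θ ((![i, j] : Fin 2 → Fin n) a)) (MvPolynomial.monomial u c) * v i j ^ s :
            Matrix (Fin n) (Fin n) Ω) =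
            Matrix.of fun i j => (c : Ω) * (θ i ^ u 0 * θ j ^ u 1) * v i j ^ s := by
          ext i j
          rw [Matrix.of_apply, Matrix.of_apply, MvPolynomial.aeval_monomial,
            Finsupp.prod_fintype _ _ (fun _ => pow_zero _), Fin.prod_univ_two]
          rfl
        rw [e]
        exact h1
      | add p q hp hq =>
        have e : (Matrix.of fun i j => MvPolynomial.aeval
            (fun a => θ ((![i, j] : Fin 2 → Fin n) a)) (p + q) * v i j ^ s :
            Matrix (Fin n) (Fin n) Ω) =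
            (Matrix.of fun i j => MvPolynomial.aeval
              (fun a => θ ((![i, j] : Fin 2 → Fin n) a)) p * v i j ^ s) +
            Matrix.of fun i j => MvPolynomial.aeval
              (fun a => θ ((![i, j] : Fin 2 → Fin n) a)) q * v i j ^ s := by
          ext i j
          rw [Matrix.add_apply, Matrix.of_apply, Matrix.of_apply, Matrix.of_apply, map_add, add_mul]
        rw [e]
        exact hp.add hq
    have e : X = Matrix.of fun i j =>
        MvPolynomial.aeval (fun a => θ ((![i, j] : Fin 2 → Fin n) a)) P * v i j ^ s := by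
      ext i j
      have h1 := hP ![i, j]
      rw [Matrix.of_apply, ← h1]
      exact (div_mul_cancel₀ _ (zpow_ne_zero s (h.ne i j))).symm
    rw [e]
    exact key P

theorem isForm_bas (h : Dat k θ v) (s : ℤ) : IsForm k (bas h s) where
  one := (ratV_bas h).2 (RF.one h)
  mul i j := (ratV_bas h).2 (RF.mul h (rf_bas h s i) (rf_bas h s j))

end Pool.Agent.H78.TT
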