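import Pool.Agent.H78.TT.Form

/-!
# Products in the forms
-/

open Module Matrix

namespace Pool.Agent.H78.TT

open Pool.Agent.H72.SB

variable {k Ω : Type*} [Field k] [Field Ω] [Algebra k Ω] {n : ℕ}
variable {θ : Fin n → Ω} {v : Fin n → Fin n → Ω} {K K' : IntermediateField k Ω} {s t : ℤ}
  {X Y : Matrix (Fin n) (Fin n) Ω}

/-- `v_ij v_jl = gam(i, j, l) v_il`, also with the exponent `s` (`IsR.inv` for negative `s`). -/
theorem Dat.gam_zpow (h : Dat k θ v) (s : ℤ) : IsR θ K (Fin 3)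
    (fun x => v (x 0) (x 1) ^ s * v (x 1) (x 2) ^ s / v (x 0) (x 2) ^ s) := by
  have h0 : IsR θ K (Fin 3) (fun x => v (x 0) (x 1) * v (x 1) (x 2) / v (x 0) (x 2)) :=
    IsR.mono bot_le h.gam
  have h1 : IsR θ K (Fin 3) (fun x => (v (x 0) (x 1) * v (x 1) (x 2) / v (x 0) (x 2)) ^ s) := by
    cases s with
    | ofNat m =>
      exact (h0.pow m).congr fun x => by rw [Int.ofNat_eq_natCast, zpow_natCast]
    | negSucc m =>
      refine ((h0.pow (m + 1)).inv h.pol fun x => ?_).congr fun x => by rw [zpow_negSucc]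
      exact pow_ne_zero _ (div_ne_zero (mul_ne_zero (h.ne _ _) (h.ne _ _)) (h.ne _ _))
  exact h1.congr fun x => by rw [div_zpow, mul_zpow]

/-- `v_ii` is rational. -/
theorem Dat.diag_zpow (h : Dat k θ v) (s : ℤ) : IsR θ K (Fin 1) (fun x => v (x 0) (x 0) ^ s) := by
  refine ((h.gam_zpow (K := K) s).comp (fun _ : Fin 3 => (0 : Fin 1))).congr fun x => ?_
  rw [mul_div_assoc, div_self (zpow_ne_zero s (h.ne _ _)), mul_one]

theorem RF.mul (h : Dat k θ v) (hX : RF θ v s K X) (hY : RF θ v s K Y) : RF θ v s K (X * Y) := by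
  have h1 : IsR θ K (Fin 3) (fun x => X (x 0) (x 2) / v (x 0) (x 2) ^ s) :=
    (IsR.comp hX (![0, 2] : Fin 2 → Fin 3)).congr fun x => rfl
  have h2 : IsR θ K (Fin 3) (fun x => Y (x 2) (x 1) / v (x 2) (x 1) ^ s) :=
    (IsR.comp hY (![2, 1] : Fin 2 → Fin 3)).congr fun x => rfl
  have h3 : IsR θ K (Fin 3)
      (fun x => v (x 0) (x 2) ^ s * v (x 2) (x 1) ^ s / v (x 0) (x 1) ^ s) :=
    (IsR.comp (h.gam_zpow (K := K) s) (![0, 2, 1] : Fin 3 → Fin 3)).congr fun x => rfl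
  have h4 := IsR.sum_last h.pol h.inj (r := 2) ((h1.mul h2).mul h3)
  refine h4.congr fun x => ?_
  rw [Matrix.mul_apply, Finset.sum_div]
  refine Finset.sum_congr rfl fun j _ => ?_
  have e0 : (Fin.snoc x j : Fin 3 → Fin n) 0 = x 0 := rfl
  have e1 : (Fin.snoc x j : Fin 3 → Fin n) 1 = x 1 := rfl
  have e2 : (Fin.snoc x j : Fin 3 → Fin n) 2 = j := rfl
  simp only [e0, e1, e2]
  have n1 := zpow_ne_zero s (h.ne (x 0) j)
  have n2 := zpow_ne_zero s (h.ne j (x 1))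
  have n3 := zpow_ne_zero s (h.ne (x 0) (x 1))
  field_simp

/-- `v_ij v_ji` is rational. -/
theorem RF.transpose (h : Dat k θ v) (hX : RF θ v s K X) : RF θ v (-s) K Xᵀ := by
  have h1 : IsR θ K (Fin 2) (fun x => X (x 1) (x 0) / v (x 1) (x 0) ^ s) :=
    (IsR.comp hX (![1, 0] : Fin 2 → Fin 2)).congr fun x => rfl
  have h2 : IsR θ K (Fin 2)
      (fun x => v (x 0) (x 1) ^ s * v (x 1) (x 0) ^ s / v (x 0) (x 0) ^ s) :=
    (IsR.comp (h.gam_zpow (K := K) s) (![0, 1, 0] : Fin 3 → Fin 2)).congr fun x => rfl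
  have h3 : IsR θ K (Fin 2) (fun x => v (x 0) (x 0) ^ s) :=
    (IsR.comp (h.diag_zpow (K := K) s) (![0] : Fin 1 → Fin 2)).congr fun x => rfl
  refine ((h1.mul h2).mul h3).congr fun x => ?_
  have n1 := zpow_ne_zero s (h.ne (x 0) (x 1))
  have n2 := zpow_ne_zero s (h.ne (x 1) (x 0))
  have n3 := zpow_ne_zero s (h.ne (x 0) (x 0))
  rw [Matrix.transpose_apply, _root_.zpow_neg, div_inv_eq_mul]
  field_simp

theorem RF.one (h : Dat k θ v) : RF θ v s K 1 := by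
  have h1 : IsR θ K (Fin 2) (fun x => if x 0 = x 1 then 1 else 0) :=
    isR_delta h.pol h.inj (0 : Fin 2) (1 : Fin 2)
  have h3 : IsR θ K (Fin 2) (fun x => v (x 0) (x 0) ^ (-s)) :=
    (IsR.comp (h.diag_zpow (K := K) (-s)) (![0] : Fin 1 → Fin 2)).congr fun x => rfl
  refine (h1.mul h3).congr fun x => ?_
  rw [Matrix.one_apply]
  by_cases hx : x 0 = x 1
  · rw [if_pos hx, ← hx, _root_.zpow_neg, one_mul, one_div]
  · rw [if_neg hx, zero_div, zero_mul]

end Pool.Agent.H78.TT
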