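import Pool.Agent.H78.TT.RSum

/-!
# More on rational functions

`IsR.inv0`: no hypothesis on zeros, `0⁻¹ = 0`. The functions with `IsR` are a finite-dimensional
`K`-algebra `R`; multiplication by `F` maps `F R` to itself and is injective there (the values are in
a field), so `F = F * F * G` with `G` in `R`, and `F⁻¹ = G * G * F`.
-/

open Module

namespace Pool.Agent.H78.TT

variable {k Ω : Type*} [Field k] [Field Ω] [Algebra k Ω] {n : ℕ}
variable {θ : Fin n → Ω} {K K' : IntermediateField k Ω} {ι κ : Type*}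

private theorem RInv_int (h : Pol k θ) (a : ι) :
    IsIntegral K (fun x : ι → Fin n => θ (x a)) := by
  obtain ⟨c, hc⟩ := h
  refine ⟨Polynomial.X ^ n - ∑ b : Fin n, Polynomial.C (algebraMap k K (c b)) *
    Polynomial.X ^ (b : ℕ), Polynomial.monic_X_pow_sub (Polynomial.degree_sum_fin_lt _), ?_⟩
  rw [← Polynomial.aeval_def]
  simp only [map_sub, map_pow, Polynomial.aeval_X, map_sum, map_mul, Polynomial.aeval_C]
  funext x
  simp only [Pi.sub_apply, Pi.pow_apply, Finset.sum_apply, Pi.mul_apply, Pi.zero_apply]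
  rw [hc, sub_eq_zero]
  exact Finset.sum_congr rfl fun b _ => rfl

private theorem RInv_lin {E V : Type*} [Field E] [AddCommGroup V] [Module E V] [Module.Finite E V]
    (m : V →ₗ[E] V) (hm : ∀ f g : V, m (m f) = m (m g) → m f = m g) (v : V) :
    ∃ g : V, m (m g) = m v := by
  have hmr : ∀ f ∈ LinearMap.range m, m f ∈ LinearMap.range m := fun f _ => ⟨f, rfl⟩
  have hi : Function.Injective (m.restrict hmr) := by
    rintro ⟨_, ⟨f, rfl⟩⟩ ⟨_, ⟨g, rfl⟩⟩ hfg
    exact Subtype.ext (hm f g (congrArg Subtype.val hfg))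
  obtain ⟨⟨_, ⟨g, rfl⟩⟩, hg⟩ := (LinearMap.injective_iff_surjective.1 hi) ⟨m v, ⟨v, rfl⟩⟩
  exact ⟨g, congrArg Subtype.val hg⟩

/-- `F = F * F * G` with a rational `G`. -/
private theorem RInv_quasi [Finite ι] (h : Pol k θ) {F : (ι → Fin n) → Ω} (hF : IsR θ K ι F) :
    ∃ G : (ι → Fin n) → Ω, IsR θ K ι G ∧ ∀ x, F x * (F x * G x) = F x := by
  let t : ι → ((ι → Fin n) → Ω) := fun a x => θ (x a)
  have hev : ∀ (P : MvPolynomial ι K) (x : ι → Fin n),
      MvPolynomial.aeval (R := K) t P x = MvPolynomial.aeval (fun a => θ (x a)) P := by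
    intro P x
    have h1 : (Pi.evalAlgHom K (fun _ : ι → Fin n => Ω) x).comp (MvPolynomial.aeval t) =
        MvPolynomial.aeval (fun a => θ (x a)) := by
      apply MvPolynomial.algHom_ext
      intro a
      simp [t]
    exact DFunLike.congr_fun h1 P
  have hfg : (Subalgebra.toSubmodule (Algebra.adjoin K (Set.range t))).FG := by
    refine fg_adjoin_of_finite (Set.finite_range t) ?_
    rintro _ ⟨a, rfl⟩
    exact RInv_int h a
  set A : Subalgebra K ((ι → Fin n) → Ω) := Algebra.adjoin K (Set.range t) with hA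
  have hAm : ∀ f : (ι → Fin n) → Ω, f ∈ A ↔ IsR θ K ι f := by
    intro f
    rw [hA, Algebra.adjoin_range_eq_range_aeval]
    constructor
    · rintro ⟨P, hP⟩
      refine ⟨P, fun x => ?_⟩
      rw [← hev, ← hP]
      rfl
    · rintro ⟨P, hP⟩
      refine ⟨P, ?_⟩
      funext x
      rw [hP, ← hev]
      rfl
  have : Module.Finite K A := Module.Finite.iff_fg.2 hfg
  let m : A →ₗ[K] A := LinearMap.mulLeft K (⟨F, (hAm F).2 hF⟩ : A)
  have hm : ∀ f g : A, m (m f) = m (m g) → m f = m g := by
    intro f g h0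
    apply Subtype.ext
    funext x
    have h1 : F x * (F x * f.1 x) = F x * (F x * g.1 x) := congrFun (congrArg Subtype.val h0) x
    show F x * f.1 x = F x * g.1 x
    by_cases hx : F x = 0
    · rw [hx, zero_mul, zero_mul]
    · exact mul_left_cancel₀ hx h1
  obtain ⟨g', h0⟩ := RInv_lin m hm 1
  refine ⟨g'.1, (hAm g'.1).1 g'.2, fun x => ?_⟩
  have h1 : F x * (F x * g'.1 x) = F x * 1 := congrFun (congrArg Subtype.val h0) x
  rw [h1, mul_one]

theorem IsR.inv0 [Finite ι] (h : Pol k θ) {F : (ι → Fin n) → Ω} (hF : IsR θ K ι F) :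
    IsR θ K ι (fun x => (F x)⁻¹) := by
  obtain ⟨G, hG, hFG⟩ := RInv_quasi h hF
  refine ((hG.mul hG).mul hF).congr fun x => ?_
  by_cases hx : F x = 0
  · rw [hx, inv_zero, mul_zero]
  · have h1 : F x * G x = 1 := mul_left_cancel₀ hx (by rw [hFG x, mul_one])
    rw [mul_assoc, mul_comm (G x) (F x), h1, mul_one]
    exact (eq_inv_of_mul_eq_one_right h1).symm

theorem IsR.div [Finite ι] (h : Pol k θ) {F G : (ι → Fin n) → Ω} (hF : IsR θ K ι F)
    (hG : IsR θ K ι G) : IsR θ K ι (fun x => F x / G x) :=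
  (hF.mul (hG.inv0 h)).congr fun _ => div_eq_mul_inv _ _

theorem IsR.zpow [Finite ι] (h : Pol k θ) {F : (ι → Fin n) → Ω} (hF : IsR θ K ι F) (s : ℤ) :
    IsR θ K ι (fun x => F x ^ s) := by
  cases s with
  | ofNat m => exact (hF.pow m).congr fun x => zpow_natCast _ _
  | negSucc m => exact ((hF.pow (m + 1)).inv0 h).congr fun x => zpow_negSucc _ _

theorem IsR.det {m : Type*} [Fintype m] [DecidableEq m] {M : (ι → Fin n) → Matrix m m Ω}
    (hM : ∀ a b, IsR θ K ι (fun x => M x a b)) : IsR θ K ι (fun x => (M x).det) := by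
  have h1 : IsR θ K ι (fun x => ∑ σ : Equiv.Perm m, ((Equiv.Perm.sign σ : ℤ) : Ω) *
      ∏ i, M x (σ i) i) :=
    IsR.sum _ fun σ _ => (isR_const _ (intCast_mem K _)).mul (IsR.prod _ fun i _ => hM _ _)
  exact h1.congr fun _ => Matrix.det_apply' _

/-- Sum over some of the indices. -/
theorem IsR.sum_all (h : Pol k θ) (hθ : Function.Injective θ) [Fintype κ] [DecidableEq κ]
    {F : (ι ⊕ κ → Fin n) → Ω} (hF : IsR θ K (ι ⊕ κ) F) :
    IsR θ K ι (fun x => ∑ y : κ → Fin n, F (Sum.elim x y)) := by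
  obtain ⟨P, hP⟩ := hF
  have key : ∀ (Q : MvPolynomial (ι ⊕ κ) K) (e : κ → ℕ), IsR θ K ι (fun x =>
      ∑ y : κ → Fin n, MvPolynomial.aeval (fun a => θ ((Sum.elim x y : ι ⊕ κ → Fin n) a)) Q *
        ∏ b, θ (y b) ^ e b) := by
    intro Q
    induction Q using MvPolynomial.induction_on with
    | C c =>
      intro e
      have h1 : IsR θ K ι (fun _ : ι → Fin n => (c : Ω) * ∏ b : κ, ∑ j : Fin n, θ j ^ e b) :=
        isR_const _ (K.mul_mem c.2 (prod_mem fun b _ => h.sum_pow hθ _))
      refine h1.congr fun x => ?_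
      rw [Fintype.prod_sum, Finset.mul_sum]
      refine Finset.sum_congr rfl fun y _ => ?_
      rw [MvPolynomial.aeval_C]
      rfl
    | add p q hp hq =>
      intro e
      refine ((hp e).add (hq e)).congr fun x => ?_
      rw [← Finset.sum_add_distrib]
      refine Finset.sum_congr rfl fun y _ => ?_
      rw [map_add, add_mul]
    | mul_X p i hp =>
      intro e
      rcases i with a | b
      · refine ((hp e).mul (isR_theta a)).congr fun x => ?_
        rw [Finset.sum_mul]
        refine Finset.sum_congr rfl fun y _ => ?_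
        rw [map_mul, MvPolynomial.aeval_X, Sum.elim_inl]
        ring
      · refine (hp (e + Pi.single b 1)).congr fun x => ?_
        refine Finset.sum_congr rfl fun y _ => ?_
        rw [map_mul, MvPolynomial.aeval_X, Sum.elim_inr, mul_assoc]
        congr 1
        simp only [Pi.add_apply, pow_add, Finset.prod_mul_distrib]
        rw [mul_comm]
        congr 1
        rw [Finset.prod_eq_single b]
        · simp
        · intro c _ hc
          rw [Pi.single_eq_of_ne hc, pow_zero]
        · intro hb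
          exact absurd (Finset.mem_univ _) hb
  refine (key P 0).congr fun x => Finset.sum_congr rfl fun y _ => ?_
  rw [hP]
  simp

/-- Sum over all indices. -/
theorem IsR.sum_mem (h : Pol k θ) (hθ : Function.Injective θ) [Fintype κ] [DecidableEq κ]
    {F : (κ → Fin n) → Ω} (hF : IsR θ K κ F) : ∑ y : κ → Fin n, F y ∈ K := by
  have h1 : IsR θ K (Empty ⊕ κ) (fun z => F fun b => z (Sum.inr b)) := hF.comp Sum.inr
  obtain ⟨P, hP⟩ := h1.sum_all h hθ
  have h2 := hP (fun a => a.elim)
  simp only [Sum.elim_inr] at h2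
  rw [h2]
  clear h2 hP
  induction P using MvPolynomial.induction_on with
  | C c =>
    rw [MvPolynomial.aeval_C]
    exact c.2
  | add p q hp hq =>
    rw [map_add]
    exact add_mem hp hq
  | mul_X p i _ => exact i.elim

end Pool.Agent.H78.TT
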