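import Pool.Agent.H78.TT.Alg
import Pool.Agent.H78.TT.RInv

/-!
# Opposite algebra, split algebra, period

Transposition maps `F_s` to `F_(-s)`. `F_0(k)` is conjugate to `Mₙ(k)` by the Vandermonde matrix.
With `ν_j = ∏ i, v_ij` one has `v_jl ^ n = (∏ i, gam(i, j, l)) ν_l / ν_j`, so that conjugation with
`diagonal ν` maps `F_(s+n)` to `F_s`.
-/

open Module Matrix

namespace Pool.Agent.H78.TT

open Pool.Agent.H72.SB

variable {k Ω : Type*} [Field k] [Field Ω] [Algebra k Ω] {n : ℕ}
variable {θ : Fin n → Ω} {v : Fin n → Fin n → Ω}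

theorem op_AA (h : Dat k θ v) (s : ℤ) : Nonempty (AA h (-s) ≃ₐ[k] (AA h s)ᵐᵒᵖ) := by
  have h1 : ∀ X : AA h (-s), (X : Matrix (Fin n) (Fin n) Ω)ᵀ ∈ AA h s := by
    intro X
    have h2 := RF.transpose h (mem_AA.1 X.2)
    rw [neg_neg] at h2
    exact h2
  have h2 : ∀ X : AA h s, (X : Matrix (Fin n) (Fin n) Ω)ᵀ ∈ AA h (-s) :=
    fun X => RF.transpose h (mem_AA.1 X.2)
  exact ⟨{
    toFun := fun X => MulOpposite.op ⟨_, h1 X⟩
    invFun := fun Y => ⟨_, h2 Y.unop⟩
    left_inv := fun X => Subtype.ext (Matrix.transpose_transpose _)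
    right_inv := fun Y => by
      apply MulOpposite.unop_injective
      exact Subtype.ext (Matrix.transpose_transpose _)
    map_mul' := fun X Y => by
      apply MulOpposite.unop_injective
      exact Subtype.ext (Matrix.transpose_mul _ _)
    map_add' := fun X Y => by
      apply MulOpposite.unop_injective
      exact Subtype.ext (Matrix.transpose_add _ _)
    commutes' := fun c => by
      apply MulOpposite.unop_injective
      apply Subtype.ext
      change (algebraMap k (Matrix (Fin n) (Fin n) Ω) c)ᵀ = algebraMap k (Matrix (Fin n) (Fin n) Ω) c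
      ext i j
      rw [Matrix.transpose_apply, Matrix.algebraMap_matrix_apply, Matrix.algebraMap_matrix_apply]
      by_cases hij : i = j
      · rw [hij]
      · rw [if_neg hij, if_neg (Ne.symm hij)] }⟩

/-- Conjugation. -/
private def conjI {R : Type*} [Ring R] [Algebra k R] (A A' : R) (h1 : A * A' = 1)
    (h2 : A' * A = 1) : R →ₐ[k] R where
  toFun M := A * M * A'
  map_one' := by rw [mul_one, h1]
  map_mul' M N := by
    calc A * (M * N) * A' = A * M * (1 * (N * A')) := by simp only [mul_assoc, one_mul]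
      _ = A * M * A' * (A * N * A') := by rw [← h2]; simp only [mul_assoc]
  map_zero' := by rw [mul_zero, zero_mul]
  map_add' M N := by rw [mul_add, add_mul]
  commutes' c := by rw [← Algebra.commutes, mul_assoc, h1, mul_one]

private theorem conjI_inj {R : Type*} [Ring R] [Algebra k R] (A A' : R) (h1 : A * A' = 1)
    (h2 : A' * A = 1) : Function.Injective (conjI (k := k) A A' h1 h2) := by
  intro M N hMN
  have h3 : A * M * A' = A * N * A' := hMN
  have h4 : A' * (A * M * A') * A = A' * (A * N * A') * A := by rw [h3]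
  have h5 : ∀ L : R, A' * (A * L * A') * A = L := by
    intro L
    calc A' * (A * L * A') * A = (A' * A) * L * (A' * A) := by simp only [mul_assoc]
      _ = L := by rw [h2, one_mul, mul_one]
  rwa [h5, h5] at h4

private theorem equiv_of_maps {S : Type*} [Ring S] [Algebra k S] (h : Dat k θ v) (t : ℤ)
    (f : S →ₐ[k] Matrix (Fin n) (Fin n) Ω) (hf : Function.Injective f)
    (hS : FiniteDimensional k S) (hdim : finrank k S = n ^ 2) (hmem : ∀ x, f x ∈ AA h t) :
    Nonempty (S ≃ₐ[k] AA h t) := by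
  have i2 := finite_AA h t
  let g : S →ₐ[k] AA h t := f.codRestrict (AA h t) hmem
  have hg : Function.Injective g := by
    intro x y hxy
    exact hf (congrArg Subtype.val hxy)
  have hd : finrank k S = finrank k (AA h t) := by rw [hdim, finrank_AA]
  have hgs : Function.Surjective g :=
    (LinearMap.injective_iff_surjective_of_finrank_eq_finrank hd (f := g.toLinearMap)).1 hg
  exact ⟨AlgEquiv.ofBijective g ⟨hg, hgs⟩⟩

theorem zero_AA (h : Dat k θ v) : Nonempty (AA h 0 ≃ₐ[k] Matrix (Fin n) (Fin n) k) := by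
  obtain ⟨g, hg⟩ := h.pol.exists_dual h.inj
  let V : Matrix (Fin n) (Fin n) Ω := Matrix.of fun i (b : Fin n) => θ i ^ (b : ℕ)
  let D : Matrix (Fin n) (Fin n) Ω :=
    Matrix.of fun b j => ∑ a : Fin n, algebraMap k Ω (g a b) * θ j ^ (a : ℕ)
  have h1 : V * D = 1 := by
    ext i j
    rw [Matrix.mul_apply, Matrix.one_apply]
    exact hg i j
  have h2 : D * V = 1 := mul_eq_one_comm.1 h1
  let f0 : Matrix (Fin n) (Fin n) k →ₐ[k] Matrix (Fin n) (Fin n) Ω := (Algebra.ofId k Ω).mapMatrix
  let f : Matrix (Fin n) (Fin n) k →ₐ[k] Matrix (Fin n) (Fin n) Ω :=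
    (conjI (k := k) V D h1 h2).comp f0
  have hf0 : Function.Injective f0 := by
    intro A B hAB
    ext i j
    exact (algebraMap k Ω).injective (congrFun (congrFun hAB i) j)
  have hf : Function.Injective f := (conjI_inj (k := k) V D h1 h2).comp hf0
  have hdim : finrank k (Matrix (Fin n) (Fin n) k) = n ^ 2 := by
    rw [Module.finrank_matrix, Module.finrank_self]
    simp only [Fintype.card_fin]
    ring
  have hmem : ∀ M, f M ∈ AA h 0 := by
    intro M
    have e1 : ∀ i j, f M i j = ∑ b : Fin n, (∑ a : Fin n, θ i ^ (a : ℕ) *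
        algebraMap k Ω (M a b)) * ∑ a : Fin n, algebraMap k Ω (g a b) * θ j ^ (a : ℕ) := by
      intro i j
      change (V * f0 M * D) i j = _
      rw [Matrix.mul_apply]
      refine Finset.sum_congr rfl fun b _ => ?_
      rw [Matrix.mul_apply]
      rfl
    have e2 : IsR θ (⊥ : IntermediateField k Ω) (Fin 2) (fun x => ∑ b : Fin n,
        (∑ a : Fin n, θ (x 0) ^ (a : ℕ) * algebraMap k Ω (M a b)) *
          ∑ a : Fin n, algebraMap k Ω (g a b) * θ (x 1) ^ (a : ℕ)) :=
      IsR.sum _ fun b _ => (IsR.sum _ fun a _ => ((isR_theta (0 : Fin 2)).pow _).mul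
        (isR_const _ (IntermediateField.algebraMap_mem _ _))).mul
          (IsR.sum _ fun a _ => (isR_const _ (IntermediateField.algebraMap_mem _ _)).mul
            ((isR_theta (1 : Fin 2)).pow _))
    exact e2.congr fun x => by rw [zpow_zero, div_one, e1]
  obtain ⟨e⟩ := equiv_of_maps h 0 f hf inferInstance hdim hmem
  exact ⟨e.symm⟩

/-- Product over the last index: the determinant of the multiplication. -/
private theorem isR_prod_last {K : IntermediateField k Ω} (h : Pol k θ)
    (hθ : Function.Injective θ) {r : ℕ} {F : (Fin (r + 1) → Fin n) → Ω}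
    (hF : IsR θ K (Fin (r + 1)) F) :
    IsR θ K (Fin r) (fun x => ∏ j : Fin n, F (Fin.snoc x j)) := by
  obtain ⟨g, hg⟩ := h.exists_dual hθ
  let V : Matrix (Fin n) (Fin n) Ω := Matrix.of fun i (b : Fin n) => θ i ^ (b : ℕ)
  let D : Matrix (Fin n) (Fin n) Ω :=
    Matrix.of fun b j => ∑ a : Fin n, algebraMap k Ω (g a b) * θ j ^ (a : ℕ)
  have h1 : V * D = 1 := by
    ext i j
    rw [Matrix.mul_apply, Matrix.one_apply]
    exact hg i j
  have h2 : D * V = 1 := mul_eq_one_comm.1 h1
  have h3 : ∀ a b : Fin n, IsR θ K (Fin r) (fun x =>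
      (D * diagonal (fun j => F (Fin.snoc x j)) * V) a b) := by
    intro a b
    have h4 : IsR θ K (Fin (r + 1)) (fun y =>
        (∑ c : Fin n, algebraMap k Ω (g c a) * θ (y (Fin.last r)) ^ (c : ℕ)) * F y *
          θ (y (Fin.last r)) ^ (b : ℕ)) :=
      ((IsR.sum _ fun c _ => (isR_const _ (K.algebraMap_mem _)).mul
        ((isR_theta (Fin.last r)).pow _)).mul hF).mul ((isR_theta (Fin.last r)).pow _)
    refine (IsR.sum_last h hθ h4).congr fun x => ?_
    rw [Matrix.mul_apply]
    refine Finset.sum_congr rfl fun j _ => ?_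
    rw [Matrix.mul_diagonal]
    have e2 : (Fin.snoc x j : Fin (r + 1) → Fin n) (Fin.last r) = j := Fin.snoc_last _ _
    rw [e2]
    rfl
  refine (IsR.det h3).congr fun x => ?_
  rw [Matrix.det_mul, Matrix.det_mul, Matrix.det_diagonal]
  have h5 : D.det * V.det = 1 := by rw [← Matrix.det_mul, h2, Matrix.det_one]
  rw [mul_right_comm, h5, one_mul]

theorem period_AA (h : Dat k θ v) (s : ℤ) : Nonempty (AA h (s + n) ≃ₐ[k] AA h s) := by
  let ν : Fin n → Ω := fun j => ∏ i, v i j
  have hν : ∀ j, ν j ≠ 0 := fun j => Finset.prod_ne_zero_iff.2 fun i _ => h.ne i j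
  have h1 : (diagonal ν) * (diagonal fun j => (ν j)⁻¹) = (1 : Matrix (Fin n) (Fin n) Ω) := by
    rw [Matrix.diagonal_mul_diagonal, ← Matrix.diagonal_one]
    congr 1
    funext j
    exact mul_inv_cancel₀ (hν j)
  have h2 := mul_eq_one_comm.1 h1
  let f : AA h (s + n) →ₐ[k] Matrix (Fin n) (Fin n) Ω :=
    (conjI (k := k) (diagonal ν) (diagonal fun j => (ν j)⁻¹) h1 h2).comp (AA h (s + n)).val
  have hf : Function.Injective f := (conjI_inj (k := k) _ _ h1 h2).comp Subtype.val_injective
  have hmem : ∀ X, f X ∈ AA h s := by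
    intro X
    have e1 : ∀ j l, f X j l = ν j * (X : Matrix (Fin n) (Fin n) Ω) j l * (ν l)⁻¹ := by
      intro j l
      change (diagonal ν * (X : Matrix (Fin n) (Fin n) Ω) * diagonal fun j => (ν j)⁻¹) j l = _
      rw [Matrix.mul_diagonal, Matrix.diagonal_mul]
    have e2 : IsR θ (⊥ : IntermediateField k Ω) (Fin 2)
        (fun x => ∏ i : Fin n, (v i (x 0) * v (x 0) (x 1) / v i (x 1))) := by
      have e3 : IsR θ (⊥ : IntermediateField k Ω) (Fin 3)
          (fun x => v (x 2) (x 0) * v (x 0) (x 1) / v (x 2) (x 1)) :=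
        (IsR.comp h.gam (![2, 0, 1] : Fin 3 → Fin 3)).congr fun x => rfl
      refine (isR_prod_last h.pol h.inj (r := 2) e3).congr fun x => ?_
      refine Finset.prod_congr rfl fun j _ => ?_
      have e0 : (Fin.snoc x j : Fin 3 → Fin n) 0 = x 0 := rfl
      have e1 : (Fin.snoc x j : Fin 3 → Fin n) 1 = x 1 := rfl
      have e2 : (Fin.snoc x j : Fin 3 → Fin n) 2 = j := rfl
      simp only [e0, e1, e2]
    refine (IsR.mul (mem_AA.1 X.2) e2).congr fun x => ?_
    rw [e1, Finset.prod_div_distrib, Finset.prod_mul_distrib, Finset.prod_const, Finset.card_univ,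
      Fintype.card_fin, zpow_add₀ (h.ne _ _), zpow_natCast]
    change _ = _ * (ν (x 0) * v (x 0) (x 1) ^ n / ν (x 1))
    have n1 := h.ne (x 0) (x 1)
    have n2 := hν (x 1)
    field_simp
  exact equiv_of_maps h s f hf (finite_AA h _) (finrank_AA h _) hmem

end Pool.Agent.H78.TT
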