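import Pool.Agent.H78.TT.Tens
import Pool.Agent.H78.TT.Iso
import Pool.Agent.H78.TT.ExDat
import Pool.Agent.H49.Cyc.BrE
import Pool.Agent.H49.Cyc.Arrange

/-!
# Multiples of the class

Compare `Pool.Agent.H49.Cyc.brauer_of_isMultiple` (the same induction), `brauer_tensor`,
`brauer_op`, `equiv_of_brauer`, `mat_equiv`.
-/

open Module Matrix TensorProduct

universe u

namespace Pool.Agent.H78.TT

open Pool.Agent.H72.SB Pool.Agent.H49.Cyc

variable {k Ω : Type u} [Field k] [Field Ω] [Algebra k Ω] {n : ℕ}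
variable {θ : Fin n → Ω} {v : Fin n → Fin n → Ω}

private theorem zero_brauer (h : Dat k θ v) [NeZero n] {C : CSA.{u, u} k} (e : C ≃ₐ[k] k) :
    IsBrauerEquivalent C (AC h 0) := by
  obtain ⟨f⟩ := zero_AA h
  have f' : AC h 0 ≃ₐ[k] Matrix (Fin n) (Fin n) C := ((eqAC h 0).trans f).trans e.symm.mapMatrix
  exact Pool.Agent.H49.GSB.brauer_of_matrix (NeZero.ne n) f'

/-- `[B] = i [A]` implies `[B] = [F_i]`. -/
theorem brauer_AC (h : Dat k θ v) [NeZero n] {A B : CSA.{u, u} k} (e : A ≃ₐ[k] AA h 1) {i : ℤ}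
    (hi : IsMultiple A i B) : IsBrauerEquivalent B (AC h i) := by
  induction hi with
  | self => exact brauer_of_equiv (e.trans (eqAC h 1).symm)
  | one C e0 =>
    obtain ⟨e0⟩ := e0
    exact zero_brauer h e0
  | mul i j B C E _ _ e0 hB hC =>
    obtain ⟨e0⟩ := e0
    obtain ⟨f⟩ := tensor_AA h i j
    exact brauer_tensor (X := AC h i) (Y := AC h j) (D := AC h (i + j)) hB hC e0 (NeZero.ne n) f
  | inv i B C _ e0 hB =>
    obtain ⟨e0⟩ := e0
    obtain ⟨f⟩ := op_AA h i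
    exact brauer_op (X := AC h i) (Y := AC h (-i)) hB e0 f
  | equiv i B C _ e0 hB => exact e0.symm.trans hB

theorem equiv_AC (h : Dat k θ v) [NeZero n] {A B : CSA.{u, u} k} (e : A ≃ₐ[k] AA h 1) {i : ℤ}
    (hi : IsMultiple A i B) (hB : finrank k B = n ^ 2) : Nonempty (B ≃ₐ[k] AA h i) := by
  obtain ⟨f⟩ := equiv_of_brauer (brauer_AC h e hi) (hB.trans (finrank_AC h i).symm)
  exact ⟨f.trans (eqAC h i)⟩

/-- Matrices over `F_i(k)` as a central simple algebra. -/
private noncomputable def MC (h : Dat k θ v) (s : ℤ) [NeZero n] : CSA.{u, u} k :=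
  { carrier := Matrix (Fin n) (Fin n) (AC h s) }

/-- `[F_i] = i [A]`: for `i ≥ 0` by induction with `tensor_AA` and the central simple algebra of the
matrices over `F_(i+1)`, then `op_AA`. -/
theorem isMultiple_AC (h : Dat k θ v) [NeZero n] {A : CSA.{u, u} k} (e : A ≃ₐ[k] AA h 1) (i : ℤ) :
    IsMultiple A i (AC h i) := by
  have h1 : IsMultiple A 1 (AC h 1) :=
    .equiv 1 A (AC h 1) .self (brauer_of_equiv (e.trans (eqAC h 1).symm))
  have key : ∀ m : ℕ, IsMultiple A (m : ℤ) (AC h (m : ℤ)) := by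
    intro m
    induction m with
    | zero =>
      exact .equiv 0 (kCSA k) (AC h 0) (.one (kCSA k) ⟨AlgEquiv.refl⟩)
        (zero_brauer h (C := kCSA k) AlgEquiv.refl)
    | succ m ih =>
      obtain ⟨f⟩ := tensor_AA h (m : ℤ) 1
      have h2 : IsMultiple A ((m : ℤ) + 1) (MC h ((m : ℤ) + 1)) :=
        .mul (m : ℤ) 1 (AC h (m : ℤ)) (AC h 1) (MC h ((m : ℤ) + 1)) ih h1 ⟨f.symm⟩
      have h3 : IsBrauerEquivalent (MC h ((m : ℤ) + 1)) (AC h ((m : ℤ) + 1)) :=
        (Pool.Agent.H49.GSB.brauer_of_matrix (A := MC h ((m : ℤ) + 1))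
          (D := AC h ((m : ℤ) + 1)) (NeZero.ne n) AlgEquiv.refl).symm
      have h4 := IsMultiple.equiv ((m : ℤ) + 1) _ (AC h ((m : ℤ) + 1)) h2 h3
      rw [show (((m + 1 : ℕ) : ℤ)) = (m : ℤ) + 1 by push_cast; rfl]
      exact h4
  obtain ⟨m, rfl | rfl⟩ := i.eq_nat_or_neg
  · exact key m
  · obtain ⟨f⟩ := op_AA h (m : ℤ)
    exact .inv (m : ℤ) (AC h (m : ℤ)) (AC h (-(m : ℤ))) (key m) ⟨f⟩

/-- The data of a central simple algebra. -/
theorem exists_dat' [Infinite k] [IsAlgClosed Ω] {A : CSA.{u, u} k} (hA : finrank k A = n ^ 2) :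
    ∃ (θ : Fin n → Ω) (v : Fin n → Fin n → Ω) (h : Dat k θ v), Nonempty (A ≃ₐ[k] AA h 1) := by
  obtain ⟨θ, v, h, ρ, hρ⟩ := exists_dat (Ω := Ω) A hA
  refine ⟨θ, v, h, ?_⟩
  have hn : n ≠ 0 := by
    rintro rfl
    have h0 : 0 < finrank k A := Module.finrank_pos
    rw [hA] at h0
    simp at h0
  have : NeZero n := ⟨hn⟩
  have hinj : Function.Injective ρ := ρ.toRingHom.injective
  have hr : ρ.range = AA h 1 := by
    ext X
    rw [← hρ X, mem_AA]
    exact ratV_bas h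
  exact ⟨(AlgEquiv.ofInjective ρ hinj).trans (Subalgebra.equivOfEq _ _ hr)⟩

/-- Algebras of the same degree whose classes are `i [A]` and `j [A]` with `i = j` modulo `n`. -/
theorem equiv_of_dvd [Infinite k] {A B C : CSA.{u, u} k} (hA : finrank k A = n ^ 2)
    (hB : finrank k B = n ^ 2) (hC : finrank k C = n ^ 2) {i j : ℤ} (hi : IsMultiple A i B)
    (hj : IsMultiple A j C) (hij : (n : ℤ) ∣ i - j) : Nonempty (B ≃ₐ[k] C) := by
  have hn : n ≠ 0 := by
    rintro rfl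
    have h0 : 0 < finrank k A := Module.finrank_pos
    rw [hA] at h0
    simp at h0
  have : NeZero n := ⟨hn⟩
  obtain ⟨θ, v, h, ⟨e⟩⟩ := exists_dat' (Ω := AlgebraicClosure k) hA
  obtain ⟨f⟩ := equiv_AC h e hi hB
  obtain ⟨g⟩ := equiv_AC h e hj hC
  have key : ∀ (m : ℕ) (s : ℤ), Nonempty (AA h (s + n * m) ≃ₐ[k] AA h s) := by
    intro m
    induction m with
    | zero =>
      intro s
      rw [Nat.cast_zero, mul_zero, add_zero]
      exact ⟨AlgEquiv.refl⟩
    | succ m ih =>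
      intro s
      obtain ⟨f1⟩ := ih s
      obtain ⟨f2⟩ := period_AA h (s + n * m)
      rw [show s + (n : ℤ) * ((m + 1 : ℕ) : ℤ) = s + n * m + n by push_cast; ring]
      exact ⟨f2.trans f1⟩
  obtain ⟨t, ht⟩ := hij
  obtain ⟨m, rfl | rfl⟩ := t.eq_nat_or_neg
  · obtain ⟨p⟩ := key m j
    rw [show j + (n : ℤ) * m = i by linarith] at p
    exact ⟨(f.trans p).trans g.symm⟩
  · obtain ⟨p⟩ := key m i
    rw [show i + (n : ℤ) * m = j by linarith] at p
    exact ⟨(f.trans p.symm).trans g.symm⟩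

/-- There is an algebra of degree `n` with the class `i [A]`. -/
theorem exists_isMultiple_of [Infinite k] {A : CSA.{u, u} k} (hA : finrank k A = n ^ 2) (i : ℤ) :
    ∃ B : CSA.{u, u} k, finrank k B = n ^ 2 ∧ IsMultiple A i B := by
  have hn : n ≠ 0 := by
    rintro rfl
    have h0 : 0 < finrank k A := Module.finrank_pos
    rw [hA] at h0
    simp at h0
  have : NeZero n := ⟨hn⟩
  obtain ⟨θ, v, h, ⟨e⟩⟩ := exists_dat' (Ω := AlgebraicClosure k) hA
  exact ⟨AC h i, finrank_AC h i, isMultiple_AC h e i⟩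

end Pool.Agent.H78.TT
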