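import Pool.Agent.H72.SB.Dens

/-!
# Functions which are polynomials on lines

Also the adjugate of a singular matrix and its kernel.
-/

open Module Matrix

namespace Pool.Agent.H78.TT

open Pool.Agent.H72.SB

variable {Ω E : Type*} [Field Ω] [AddCommGroup E] [Module Ω E]

/-- `f` is a polynomial on every line. -/
def PolyLine (Ω : Type*) {E : Type*} [Field Ω] [AddCommGroup E] [Module Ω E] (f : E → Ω) : Prop :=
  ∀ x y, ∃ p : Polynomial Ω, ∀ t : Ω, f (x + t • y) = p.eval t

variable {f g : E → Ω}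

theorem polyLine_const (c : Ω) : PolyLine Ω (fun _ : E => c) :=
  fun x y => ⟨Polynomial.C c, fun t => by rw [Polynomial.eval_C]⟩

theorem polyLine_linear (f : E →ₗ[Ω] Ω) : PolyLine Ω (fun x => f x) :=
  fun x y => ⟨Polynomial.C (f x) + Polynomial.X * Polynomial.C (f y), fun t => by
    change f (x + t • y) = _
    rw [map_add, map_smul, Polynomial.eval_add, Polynomial.eval_mul, Polynomial.eval_X,
      Polynomial.eval_C, Polynomial.eval_C, smul_eq_mul]⟩

theorem PolyLine.add (hf : PolyLine Ω f) (hg : PolyLine Ω g) : PolyLine Ω (fun x => f x + g x) := by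
  intro x y
  obtain ⟨p, hp⟩ := hf x y
  obtain ⟨q, hq⟩ := hg x y
  exact ⟨p + q, fun t => by rw [Polynomial.eval_add, ← hp t, ← hq t]⟩

theorem PolyLine.neg (hf : PolyLine Ω f) : PolyLine Ω (fun x => - f x) := by
  intro x y
  obtain ⟨p, hp⟩ := hf x y
  exact ⟨-p, fun t => by rw [Polynomial.eval_neg, ← hp t]⟩

theorem PolyLine.sub (hf : PolyLine Ω f) (hg : PolyLine Ω g) : PolyLine Ω (fun x => f x - g x) := by
  intro x y
  obtain ⟨p, hp⟩ := hf x y
  obtain ⟨q, hq⟩ := hg x y
  exact ⟨p - q, fun t => by rw [Polynomial.eval_sub, ← hp t, ← hq t]⟩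

theorem PolyLine.mul (hf : PolyLine Ω f) (hg : PolyLine Ω g) : PolyLine Ω (fun x => f x * g x) := by
  intro x y
  obtain ⟨p, hp⟩ := hf x y
  obtain ⟨q, hq⟩ := hg x y
  exact ⟨p * q, fun t => by rw [Polynomial.eval_mul, ← hp t, ← hq t]⟩

theorem PolyLine.sum {κ : Type*} (s : Finset κ) {f : κ → E → Ω}
    (h : ∀ a ∈ s, PolyLine Ω (f a)) : PolyLine Ω (fun x => ∑ a ∈ s, f a x) := by
  classical
  induction s using Finset.induction_on with
  | empty => exact fun x y => ⟨0, fun t => by simp⟩
  | insert a s ha ih =>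
    have h1 := (h a (Finset.mem_insert_self a s)).add
      (ih fun b hb => h b (Finset.mem_insert_of_mem hb))
    intro x y
    obtain ⟨p, hp⟩ := h1 x y
    exact ⟨p, fun t => (Finset.sum_insert ha).trans (hp t)⟩

theorem PolyLine.prod {κ : Type*} (s : Finset κ) {f : κ → E → Ω}
    (h : ∀ a ∈ s, PolyLine Ω (f a)) : PolyLine Ω (fun x => ∏ a ∈ s, f a x) := by
  classical
  induction s using Finset.induction_on with
  | empty => exact fun x y => ⟨1, fun t => by simp⟩
  | insert a s ha ih =>
    have h1 := (h a (Finset.mem_insert_self a s)).mul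
      (ih fun b hb => h b (Finset.mem_insert_of_mem hb))
    intro x y
    obtain ⟨p, hp⟩ := h1 x y
    exact ⟨p, fun t => (Finset.prod_insert ha).trans (hp t)⟩

theorem PolyLine.det {m : Type*} [Fintype m] [DecidableEq m] {M : E → Matrix m m Ω}
    (h : ∀ i j, PolyLine Ω (fun x => M x i j)) : PolyLine Ω (fun x => (M x).det) := by
  have h1 : PolyLine Ω (fun x => ∑ σ : Equiv.Perm m,
      (((Equiv.Perm.sign σ : ℤ) : Ω) * ∏ i, M x (σ i) i)) :=
    PolyLine.sum _ fun σ _ => (polyLine_const _).mul (PolyLine.prod _ fun i _ => h (σ i) i)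
  intro x y
  obtain ⟨p, hp⟩ := h1 x y
  exact ⟨p, fun t => (Matrix.det_apply' _).trans (hp t)⟩

theorem PolyLine.adjugate {m : Type*} [Fintype m] [DecidableEq m] {M : E → Matrix m m Ω}
    (h : ∀ i j, PolyLine Ω (fun x => M x i j)) (i j : m) :
    PolyLine Ω (fun x => (M x).adjugate i j) := by
  have h1 : PolyLine Ω (fun x => ((M x).updateRow j (Pi.single i 1)).det) := by
    apply PolyLine.det
    intro a b
    by_cases ha : a = j
    · intro x y
      refine ⟨Polynomial.C ((Pi.single i (1 : Ω) : m → Ω) b), fun t => ?_⟩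
      change (M (x + t • y)).updateRow j (Pi.single i 1) a b = _
      rw [Polynomial.eval_C, Matrix.updateRow_apply, if_pos ha]
    · intro x y
      obtain ⟨p, hp⟩ := h a b x y
      refine ⟨p, fun t => ?_⟩
      rw [← hp t]
      change (M (x + t • y)).updateRow j (Pi.single i 1) a b = M (x + t • y) a b
      rw [Matrix.updateRow_apply, if_neg ha]
  intro x y
  obtain ⟨p, hp⟩ := h1 x y
  exact ⟨p, fun t => (Matrix.adjugate_apply _ _ _).trans (hp t)⟩

/-- The entries of products of polynomial matrices. -/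
theorem PolyLine.matMul {l m p : Type*} [Fintype m] {M : E → Matrix l m Ω} {N : E → Matrix m p Ω}
    (hM : ∀ i j, PolyLine Ω (fun x => M x i j)) (hN : ∀ i j, PolyLine Ω (fun x => N x i j)) (i : l)
    (j : p) : PolyLine Ω (fun x => (M x * N x) i j) := by
  have h1 : PolyLine Ω (fun x => ∑ a, M x i a * N x a j) :=
    PolyLine.sum _ fun a _ => (hM i a).mul (hN a j)
  intro x y
  obtain ⟨q, hq⟩ := h1 x y
  exact ⟨q, fun t => Matrix.mul_apply.trans (hq t)⟩

theorem PolyLine.lineOpen (hf : PolyLine Ω f) : LineOpen Ω (fun x => f x ≠ 0) := by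
  intro x y hx
  obtain ⟨p, hp⟩ := hf x y
  have hne : p ≠ 0 := by
    rintro rfl
    apply hx
    have h1 := hp 0
    rw [zero_smul, add_zero, Polynomial.eval_zero] at h1
    exact h1
  refine (Polynomial.finite_setOfPred_isRoot hne).subset ?_
  intro t ht
  simp only [Set.mem_ofPred_eq, not_not] at ht ⊢
  rw [Polynomial.IsRoot.def, ← hp t]
  exact ht

/-- There is a rational vector at which a polynomial function which is not zero is not zero
(`LineOpen.exists_rat`). -/
theorem PolyLine.exists_rat {k ι : Type*} [Field k] [Algebra k Ω] [Infinite k] [Fintype ι]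
    (β : Basis ι Ω E) (hf : PolyLine Ω f) (h0 : ∃ x, f x ≠ 0) :
    ∃ x, RatV β (⊥ : IntermediateField k Ω) x ∧ f x ≠ 0 :=
  hf.lineOpen.exists_rat β h0

section adj

variable {n : ℕ} (N : Matrix (Fin n) (Fin n) Ω) (i0 : Fin n)

omit [Field Ω] in
private theorem updateRow_apply_ne (M : Matrix (Fin n) (Fin n) Ω) (j : Fin n) (r : Fin n → Ω)
    {i : Fin n} (hi : i ≠ j) (l : Fin n) : M.updateRow j r i l = M i l := by
  rw [Matrix.updateRow_apply, if_neg hi]

private theorem vecMul_updateRow (j : Fin n) (r : Fin n → Ω) {x : Fin n → Ω} (hx : x j = 0) :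
    x ᵥ* N.updateRow j r = x ᵥ* N := by
  funext l
  rw [Matrix.vecMul, Matrix.vecMul, dotProduct, dotProduct]
  refine Finset.sum_congr rfl fun i _ => ?_
  by_cases hi : i = j
  · rw [hi, hx, zero_mul, zero_mul]
  · rw [updateRow_apply_ne N j r hi]

/-- `adjugate_apply`: `adj N i0 j = det (N.updateRow j (Pi.single i0 1))`, and
`x ᵥ* N.updateRow j r = x ᵥ* N` if `x j = 0`. -/
theorem eq_zero_of_adj {j : Fin n} (h : N.adjugate i0 j ≠ 0) {x : Fin n → Ω} (hx : x ᵥ* N = 0)
    (hxj : x j = 0) : x = 0 := by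
  rw [Matrix.adjugate_apply] at h
  exact Matrix.eq_zero_of_vecMul_eq_zero h (by rw [vecMul_updateRow N j _ hxj, hx])

/-- If `N r = 0` with `r i0 ≠ 0` then every `x` with `x ᵥ* N.updateRow j e_i0 = 0` has `x j = 0`
(multiply by `r`), and so `x ᵥ* N = 0`. -/
theorem adj_ne_zero {r : Fin n → Ω} (hr : N *ᵥ r = 0) (hr0 : r i0 ≠ 0) {j : Fin n}
    (h : ∀ x : Fin n → Ω, x ᵥ* N = 0 → x j = 0 → x = 0) : N.adjugate i0 j ≠ 0 := by
  rw [Matrix.adjugate_apply]
  intro h0
  obtain ⟨x, hx0, hx⟩ := Matrix.exists_vecMul_eq_zero_iff.2 h0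
  have e1 : (N.updateRow j (Pi.single i0 1)) *ᵥ r = Pi.single j (r i0) := by
    funext i
    by_cases hi : i = j
    · subst hi
      rw [Matrix.mulVec, Pi.single_eq_same]
      have : (N.updateRow i (Pi.single i0 (1 : Ω))) i = Pi.single i0 (1 : Ω) := by
        funext l
        rw [Matrix.updateRow_apply, if_pos rfl]
      rw [this, single_dotProduct, one_mul]
    · rw [Pi.single_eq_of_ne hi]
      have h1 := congrFun hr i
      rw [Pi.zero_apply] at h1
      rw [← h1, Matrix.mulVec, Matrix.mulVec, dotProduct, dotProduct]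
      exact Finset.sum_congr rfl fun l _ => by rw [updateRow_apply_ne N j _ hi]
  have e2 : x j * r i0 = 0 := by
    have h1 := Matrix.dotProduct_mulVec x (N.updateRow j (Pi.single i0 1)) r
    rw [hx, zero_dotProduct, e1, dotProduct_single] at h1
    exact h1
  have hxj : x j = 0 := (mul_eq_zero.1 e2).resolve_right hr0
  exact hx0 (h x (by rw [← vecMul_updateRow N j (Pi.single i0 1) hxj]; exact hx) hxj)

/-- Row `i0` of the adjugate of a singular matrix is in the left kernel. -/
theorem adj_vecMul (h : N.det = 0) : (fun j => N.adjugate i0 j) ᵥ* N = 0 := by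
  funext l
  have h1 := congrFun (congrFun (Matrix.adjugate_mul N) i0) l
  rw [h, zero_smul, Matrix.mul_apply, Matrix.zero_apply] at h1
  rw [Matrix.vecMul, dotProduct, Pi.zero_apply]
  exact h1

/-- If row `i0` of the adjugate of a singular matrix has an entry `≠ 0` then the left kernel is
spanned by it. -/
theorem mem_span_of_adj (h : N.det = 0) {j : Fin n} (hj : N.adjugate i0 j ≠ 0) {x : Fin n → Ω}
    (hx : x ᵥ* N = 0) : x ∈ Submodule.span Ω {fun j => N.adjugate i0 j} := by
  rw [Submodule.mem_span_singleton]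
  refine ⟨x j / N.adjugate i0 j, ?_⟩
  have h1 : x - (x j / N.adjugate i0 j) • (fun j => N.adjugate i0 j) = 0 := by
    apply eq_zero_of_adj N i0 hj
    · rw [Matrix.sub_vecMul, Matrix.smul_vecMul, hx, adj_vecMul N i0 h, smul_zero, sub_zero]
    · rw [Pi.sub_apply, Pi.smul_apply, smul_eq_mul, div_mul_cancel₀ _ hj, sub_self]
  exact (sub_eq_zero.1 h1).symm

end adj

end Pool.Agent.H78.TT
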