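import Mathlib

/-!
# Rational functions of indices

`θ : Fin n → Ω` are the roots of a polynomial over `k`. `IsR θ K ι F` says that the function `F` of
indices `x a`, `a ∈ ι`, is a polynomial in the `θ (x a)` with coefficients in `K`.
-/

namespace Pool.Agent.H78.TT

variable {k Ω : Type*} [Field k] [Field Ω] [Algebra k Ω] {n : ℕ}

/-- `F` is a polynomial in the `θ (x a)` with coefficients in `K`. -/
def IsR (θ : Fin n → Ω) (K : IntermediateField k Ω) (ι : Type*) (F : (ι → Fin n) → Ω) : Prop :=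
  ∃ P : MvPolynomial ι K, ∀ x, F x = MvPolynomial.aeval (fun a => θ (x a)) P

variable {θ : Fin n → Ω} {K K' : IntermediateField k Ω} {ι ι' : Type*} {F G : (ι → Fin n) → Ω}

theorem IsR.congr (h : IsR θ K ι F) (hFG : ∀ x, G x = F x) : IsR θ K ι G := by
  obtain ⟨P, hP⟩ := h
  exact ⟨P, fun x => by rw [hFG, hP]⟩

theorem IsR.add (hF : IsR θ K ι F) (hG : IsR θ K ι G) : IsR θ K ι (fun x => F x + G x) := by
  obtain ⟨P, hP⟩ := hF
  obtain ⟨Q, hQ⟩ := hG
  exact ⟨P + Q, fun x => by simp only [map_add, hP, hQ]⟩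

theorem IsR.neg (hF : IsR θ K ι F) : IsR θ K ι (fun x => - F x) := by
  obtain ⟨P, hP⟩ := hF
  exact ⟨- P, fun x => by simp only [map_neg, hP]⟩

theorem IsR.mul (hF : IsR θ K ι F) (hG : IsR θ K ι G) : IsR θ K ι (fun x => F x * G x) := by
  obtain ⟨P, hP⟩ := hF
  obtain ⟨Q, hQ⟩ := hG
  exact ⟨P * Q, fun x => by simp only [map_mul, hP, hQ]⟩

theorem IsR.pow (hF : IsR θ K ι F) (m : ℕ) : IsR θ K ι (fun x => F x ^ m) := by
  obtain ⟨P, hP⟩ := hF
  exact ⟨P ^ m, fun x => by simp only [map_pow, hP]⟩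

theorem isR_const (c : Ω) (hc : c ∈ K) : IsR θ K ι (fun _ => c) :=
  ⟨MvPolynomial.C ⟨c, hc⟩, fun x => by rw [MvPolynomial.aeval_C]; rfl⟩

theorem isR_theta (a : ι) : IsR θ K ι (fun x => θ (x a)) :=
  ⟨MvPolynomial.X a, fun x => by rw [MvPolynomial.aeval_X]⟩

theorem IsR.sum {κ : Type*} (s : Finset κ) {f : κ → (ι → Fin n) → Ω}
    (h : ∀ a ∈ s, IsR θ K ι (f a)) : IsR θ K ι (fun x => ∑ a ∈ s, f a x) := by
  classical
  induction s using Finset.induction_on with
  | empty => simpa using isR_const (θ := θ) (ι := ι) (0 : Ω) K.zero_mem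
  | insert a s ha ih =>
    refine ((h a (Finset.mem_insert_self a s)).add
      (ih fun b hb => h b (Finset.mem_insert_of_mem hb))).congr fun x => ?_
    rw [Finset.sum_insert ha]

theorem IsR.prod {κ : Type*} (s : Finset κ) {f : κ → (ι → Fin n) → Ω}
    (h : ∀ a ∈ s, IsR θ K ι (f a)) : IsR θ K ι (fun x => ∏ a ∈ s, f a x) := by
  classical
  induction s using Finset.induction_on with
  | empty => simpa using isR_const (θ := θ) (ι := ι) (1 : Ω) K.one_mem
  | insert a s ha ih =>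
    refine ((h a (Finset.mem_insert_self a s)).mul
      (ih fun b hb => h b (Finset.mem_insert_of_mem hb))).congr fun x => ?_
    rw [Finset.prod_insert ha]

/-- Renaming of the indices: `x ↦ F (x ∘ φ)`. -/
theorem IsR.comp {F : (ι' → Fin n) → Ω} (hF : IsR θ K ι' F) (φ : ι' → ι) :
    IsR θ K ι (fun x => F fun a => x (φ a)) := by
  obtain ⟨P, hP⟩ := hF
  refine ⟨MvPolynomial.rename φ P, fun x => ?_⟩
  rw [MvPolynomial.aeval_rename]
  exact hP _

theorem IsR.mono (hK : K ≤ K') (hF : IsR θ K ι F) : IsR θ K' ι F := by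
  obtain ⟨P, hP⟩ := hF
  refine ⟨MvPolynomial.map (IntermediateField.inclusion hK).toRingHom P, fun x => ?_⟩
  rw [hP]
  clear hP
  induction P using MvPolynomial.induction_on with
  | C a => simp only [MvPolynomial.map_C, MvPolynomial.aeval_C]; rfl
  | add p q hp hq => rw [map_add, map_add, map_add, hp, hq]
  | mul_X p i hp => rw [map_mul, map_mul, map_mul, hp]; simp

end Pool.Agent.H78.TT
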