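import Pool.Agent.H78.TT.RInv
import Pool.Agent.H72.SB.KS

/-!
# A basis of rational functions, the field of definition of a function

`exists_basR`: the monomials `∏ a, θ (x a) ^ e a`, `e a < n`; the coordinates of `F` are
`∑ x, F x * ∏ a, lam (e a) (x a)` with the dual functions `lam` of `Pol.exists_dual`
(`lam b j = ∑ a, g a b * θ j ^ a`), and sums over all indices of rational functions are in `K`
(`IsR.sum_mem`).
-/

open Module

namespace Pool.Agent.H78.TT

open Pool.Agent.H72.SB

variable {k Ω : Type*} [Field k] [Field Ω] [Algebra k Ω] {n : ℕ}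
variable {θ : Fin n → Ω} {K K' : IntermediateField k Ω} {ι κ : Type*}

/-- The dual functions. -/
private noncomputable def lamF (g : Fin n → Fin n → k) (θ : Fin n → Ω) (b j : Fin n) : Ω :=
  ∑ a : Fin n, algebraMap k Ω (g a b) * θ j ^ (a : ℕ)

private noncomputable def monM (θ : Fin n → Ω) (r : ℕ) :
    Matrix (Fin r → Fin n) (Fin r → Fin n) Ω :=
  Matrix.of fun x e => ∏ a, θ (x a) ^ (e a : ℕ)

private noncomputable def dualM (g : Fin n → Fin n → k) (θ : Fin n → Ω) (r : ℕ) :
    Matrix (Fin r → Fin n) (Fin r → Fin n) Ω :=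
  Matrix.of fun e y => ∏ a, lamF g θ (e a) (y a)

private lemma monM_mul_dualM {g : Fin n → Fin n → k}
    (hg : ∀ i j, ∑ b : Fin n, θ i ^ (b : ℕ) *
      ∑ a : Fin n, algebraMap k Ω (g a b) * θ j ^ (a : ℕ) = if i = j then 1 else 0) (r : ℕ) :
    monM θ r * dualM g θ r = 1 := by
  classical
  ext x y
  rw [Matrix.mul_apply, Matrix.one_apply]
  simp only [monM, dualM, Matrix.of_apply, ← Finset.prod_mul_distrib]
  have h1 : ∑ e : Fin r → Fin n, ∏ a, θ (x a) ^ (e a : ℕ) * lamF g θ (e a) (y a) =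
      ∏ a, ∑ b : Fin n, θ (x a) ^ (b : ℕ) * lamF g θ b (y a) := by
    rw [Finset.prod_univ_sum, Fintype.piFinset_univ]
  rw [h1]
  have h2 : ∀ a, ∑ b : Fin n, θ (x a) ^ (b : ℕ) * lamF g θ b (y a) =
      if x a = y a then 1 else 0 := fun a => hg (x a) (y a)
  simp only [h2]
  rw [Fintype.prod_ite_zero, Finset.prod_const_one]
  by_cases hxy : x = y
  · rw [if_pos hxy, if_pos fun a => congrFun hxy a]
  · rw [if_neg hxy, if_neg fun h => hxy (funext h)]

theorem exists_basR (h : Pol k θ) (hθ : Function.Injective θ) (r : ℕ) :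
    ∃ β : Basis (Fin r → Fin n) Ω ((Fin r → Fin n) → Ω), ∀ (K : IntermediateField k Ω) F,
      RatV β K F ↔ IsR θ K (Fin r) F := by
  classical
  obtain ⟨g, hg⟩ := h.exists_dual hθ
  have h1 : monM θ r * dualM g θ r = 1 := monM_mul_dualM hg r
  have h2 : dualM g θ r * monM θ r = 1 := mul_eq_one_comm.1 h1
  let E := Matrix.toLin'OfInv h1 h2
  refine ⟨Basis.ofEquivFun E, fun K F => ?_⟩
  have hrepr : ∀ e, (Basis.ofEquivFun E).repr F e =
      ∑ y, (∏ a, lamF g θ (e a) (y a)) * F y := fun e => rfl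
  have hsum : ∀ x, F x = ∑ e, (∏ a, θ (x a) ^ (e a : ℕ)) * (Basis.ofEquivFun E).repr F e := by
    intro x
    have h3 := congrFun (E.symm_apply_apply F) x
    exact h3.symm
  constructor
  · intro hF
    have h3 : IsR θ K (Fin r) (fun x => ∑ e : Fin r → Fin n,
        (∏ a, θ (x a) ^ (e a : ℕ)) * (Basis.ofEquivFun E).repr F e) :=
      IsR.sum _ fun e _ => (IsR.prod _ fun a _ => (isR_theta a).pow _).mul (isR_const _ (hF e))
    exact h3.congr hsum
  · intro hF e
    rw [hrepr]
    refine IsR.sum_mem h hθ (F := fun y => (∏ a, lamF g θ (e a) (y a)) * F y) ?_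
    refine IsR.mul (IsR.prod _ fun a _ => ?_) hF
    exact IsR.sum _ fun c _ => (isR_const _ (K.algebraMap_mem _)).mul ((isR_theta a).pow _)

/-- The field of definition of a function: `k` adjoined the coordinates in the basis
`exists_basR`. -/
theorem exists_fodF (h : Pol k θ) (hθ : Function.Injective θ) {r : ℕ} (F : (Fin r → Fin n) → Ω) :
    ∃ K₀ : IntermediateField k Ω, ∀ K, IsR θ K (Fin r) F ↔ K₀ ≤ K := by
  obtain ⟨β, hβ⟩ := exists_basR h hθ r
  refine ⟨IntermediateField.adjoin k (Set.range fun e => β.repr F e), fun K => ?_⟩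
  rw [← hβ, IntermediateField.adjoin_le_iff, Set.range_subset_iff]
  rfl

end Pool.Agent.H78.TT
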