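import Pool.Agent.H78.TT.RR

/-!
# Change of the base field
-/

open Module Matrix

namespace Pool.Agent.H78.TT

open Pool.Agent.H72.SB

variable {k Ω : Type*} [Field k] [Field Ω] [Algebra k Ω] {n : ℕ}
variable {θ : Fin n → Ω} {w : Fin n → Fin n → Ω} {K₀ : IntermediateField k Ω}
  {U : Submodule Ω (Fin n → Ω)}

theorem pol_base (hp : Pol k θ) : Pol K₀ θ := by
  obtain ⟨c, hc⟩ := hp
  refine ⟨fun b => algebraMap k K₀ (c b), fun i => ?_⟩
  rw [hc i]
  refine Finset.sum_congr rfl fun b _ => ?_
  rw [← IsScalarTower.algebraMap_apply k K₀ Ω]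

theorem isR_base (K : IntermediateField K₀ Ω) {ι : Type*} {F : (ι → Fin n) → Ω} :
    IsR θ K ι F ↔ IsR θ (K.restrictScalars k) ι F := by
  let f : K →+* (K.restrictScalars k) :=
    { toFun := fun x => ⟨x.1, x.2⟩
      map_one' := rfl
      map_mul' := fun _ _ => rfl
      map_zero' := rfl
      map_add' := fun _ _ => rfl }
  let g : (K.restrictScalars k) →+* K :=
    { toFun := fun x => ⟨x.1, x.2⟩
      map_one' := rfl
      map_mul' := fun _ _ => rfl
      map_zero' := rfl
      map_add' := fun _ _ => rfl }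
  have hf : (algebraMap (K.restrictScalars k) Ω).comp f = algebraMap K Ω := rfl
  have hg : (algebraMap K Ω).comp g = algebraMap (K.restrictScalars k) Ω := rfl
  constructor
  · rintro ⟨P, hP⟩
    refine ⟨MvPolynomial.map f P, fun x => ?_⟩
    rw [hP x, MvPolynomial.aeval_def, MvPolynomial.aeval_def, MvPolynomial.eval₂_map, hf]
  · rintro ⟨P, hP⟩
    refine ⟨MvPolynomial.map g P, fun x => ?_⟩
    rw [hP x, MvPolynomial.aeval_def, MvPolynomial.aeval_def, MvPolynomial.eval₂_map, hg]

/-- The data over `K₀`. -/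
theorem dat_base (hp : Pol k θ) (hθ : Function.Injective θ) (h : Coc θ w K₀) : Dat K₀ θ w where
  inj := hθ
  pol := pol_base hp
  ne := h.ne
  gam := by
    rw [isR_base, IntermediateField.restrictScalars_bot_eq_self]
    exact h.gam

theorem ratR_base (h : Dat K₀ θ w) (s : ℤ) (K : IntermediateField K₀ Ω) :
    RatR (bas h s) K U ↔ RR θ (fun i j => w i j ^ s) (K.restrictScalars k) U := by
  have h1 : {X : Matrix (Fin n) (Fin n) Ω | X ∈ RI U ∧ RatW θ (fun i j => w i j ^ s) K X} =
      {X | X ∈ RI U ∧ RatW θ (fun i j => w i j ^ s) (K.restrictScalars k) X} := by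
    ext X
    exact and_congr_right fun _ => isR_base K
  rw [ratR_iff h s]
  unfold RR
  rw [h1]

/-- Every field `K ≥ K₀` comes from an intermediate field of `Ω / K₀`
(`IntermediateField.extendScalars`). -/
theorem exists_base {K : IntermediateField k Ω} (hK : K₀ ≤ K) :
    ∃ K' : IntermediateField K₀ Ω, K'.restrictScalars k = K :=
  ⟨IntermediateField.extendScalars hK, IntermediateField.extendScalars_restrictScalars hK⟩

end Pool.Agent.H78.TT
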