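import Pool.Agent.H78.TT.R

/-!
# Powers of the roots
-/

namespace Pool.Agent.H78.TT

variable {k Ω : Type*} [Field k] [Field Ω] [Algebra k Ω] {n : ℕ}
variable {θ : Fin n → Ω} {K K' : IntermediateField k Ω} {ι ι' : Type*} {F G : (ι → Fin n) → Ω}

/-- `θ ^ n` is a combination of the lower powers over `k`. -/
def Pol (k : Type*) {Ω : Type*} [Field k] [Field Ω] [Algebra k Ω] {n : ℕ} (θ : Fin n → Ω) : Prop :=
  ∃ c : Fin n → k, ∀ i, θ i ^ n = ∑ b : Fin n, algebraMap k Ω (c b) * θ i ^ (b : ℕ)

/-- All powers are combinations of the first `n` ones over `k`. -/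
theorem Pol.pow (h : Pol k θ) (e : ℕ) :
    ∃ c : Fin n → k, ∀ i, θ i ^ e = ∑ b : Fin n, algebraMap k Ω (c b) * θ i ^ (b : ℕ) := by
  induction e with
  | zero =>
    rcases Nat.eq_zero_or_pos n with h0 | h0
    · subst h0
      exact ⟨fun _ => 0, fun i => i.elim0⟩
    · refine ⟨Pi.single ⟨0, h0⟩ 1, fun i => ?_⟩
      rw [Finset.sum_eq_single (⟨0, h0⟩ : Fin n)]
      · simp
      · intro b _ hb
        simp [Pi.single_eq_of_ne hb]
      · intro hb
        exact absurd (Finset.mem_univ _) hb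
  | succ e ih =>
    obtain ⟨c, hc⟩ := ih
    have key : ∀ b : Fin n, ∃ d : Fin n → k, ∀ i,
        θ i ^ ((b : ℕ) + 1) = ∑ a : Fin n, algebraMap k Ω (d a) * θ i ^ (a : ℕ) := by
      intro b
      rcases Nat.lt_or_ge ((b : ℕ) + 1) n with hb | hb
      · refine ⟨Pi.single ⟨(b : ℕ) + 1, hb⟩ 1, fun i => ?_⟩
        rw [Finset.sum_eq_single (⟨(b : ℕ) + 1, hb⟩ : Fin n)]
        · simp
        · intro a _ ha
          simp [Pi.single_eq_of_ne ha]
        · intro ha
          exact absurd (Finset.mem_univ _) ha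
      · have hbn : (b : ℕ) + 1 = n := le_antisymm b.2 hb
        rw [hbn]
        exact h
    choose d hd using key
    refine ⟨fun a => ∑ b, c b * d b a, fun i => ?_⟩
    rw [pow_succ, hc, Finset.sum_mul]
    simp only [map_sum, map_mul, Finset.sum_mul]
    rw [Finset.sum_comm]
    refine Finset.sum_congr rfl fun b _ => ?_
    rw [mul_assoc, ← pow_succ, hd b i, Finset.mul_sum]
    refine Finset.sum_congr rfl fun a _ => ?_
    ring

private theorem RPow_det (hθ : Function.Injective θ) : IsUnit (Matrix.vandermonde θ).det :=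
  isUnit_iff_ne_zero.2 (Matrix.det_vandermonde_ne_zero_iff.2 hθ)

/-- The power sums are in `k`: trace of a power of the companion matrix, which the Vandermonde
matrix conjugates to `diagonal θ`. -/
theorem Pol.sum_pow (h : Pol k θ) (hθ : Function.Injective θ) (e : ℕ) :
    ∑ j, θ j ^ e ∈ K := by
  have hp : ∀ b : Fin n, ∃ c : Fin n → k, ∀ i,
      θ i ^ (e + (b : ℕ)) = ∑ a : Fin n, algebraMap k Ω (c a) * θ i ^ (a : ℕ) :=
    fun b => h.pow _
  choose c hc using hp
  set V := Matrix.vandermonde θ with hV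
  let M : Matrix (Fin n) (Fin n) Ω := Matrix.of fun a b => algebraMap k Ω (c b a)
  have hVu : IsUnit V.det := RPow_det hθ
  have h1 : V * M = Matrix.diagonal (fun i => θ i ^ e) * V := by
    ext i b
    rw [Matrix.mul_apply, Matrix.diagonal_mul, hV]
    simp only [Matrix.vandermonde_apply, M, Matrix.of_apply]
    rw [← pow_add, hc b i]
    exact Finset.sum_congr rfl fun a _ => mul_comm _ _
  have h2 : M = V⁻¹ * (Matrix.diagonal (fun i => θ i ^ e) * V) := by
    rw [← h1, ← Matrix.mul_assoc, Matrix.nonsing_inv_mul _ hVu, Matrix.one_mul]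
  have h3 : M.trace = ∑ j, θ j ^ e := by
    rw [h2, Matrix.trace_mul_comm, Matrix.mul_assoc, Matrix.mul_nonsing_inv _ hVu, Matrix.mul_one,
      Matrix.trace_diagonal]
  rw [← h3]
  exact sum_mem fun a _ => K.algebraMap_mem _

/-- The inverse of the Vandermonde matrix is rational: there are functions `lam b` of one index,
`lam b j = ∑ a, g a b θ_j ^ a` with `g a b` in `k`, with `∑ b, θ_i ^ b lam b j = δ_ij`
(inverse of the Gram matrix, `Pol.sum_pow`). -/
theorem Pol.exists_dual (h : Pol k θ) (hθ : Function.Injective θ) :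
    ∃ g : Fin n → Fin n → k, ∀ i j, ∑ b : Fin n, θ i ^ (b : ℕ) *
      ∑ a : Fin n, algebraMap k Ω (g a b) * θ j ^ (a : ℕ) = if i = j then 1 else 0 := by
  set V := Matrix.vandermonde θ with hV
  have hVu : IsUnit V.det := RPow_det hθ
  have hG : ∀ a b : Fin n, ∃ r : k, algebraMap k Ω r = ∑ j, θ j ^ ((a : ℕ) + (b : ℕ)) :=
    fun a b => IntermediateField.mem_bot.1 (h.sum_pow (K := ⊥) hθ _)
  choose g0 hg0 using hG
  let G0 : Matrix (Fin n) (Fin n) k := Matrix.of g0
  have h1 : G0.map (algebraMap k Ω) = V.transpose * V := by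
    ext a b
    rw [Matrix.map_apply, Matrix.mul_apply, hV]
    simp only [G0, Matrix.of_apply, Matrix.transpose_apply, Matrix.vandermonde_apply]
    rw [hg0]
    exact Finset.sum_congr rfl fun j _ => pow_add _ _ _
  have h2 : IsUnit G0.det := by
    rw [isUnit_iff_ne_zero]
    intro h0
    have h3 : (G0.map (algebraMap k Ω)).det = 0 := by
      have := (algebraMap k Ω).map_det G0
      rw [h0, map_zero] at this
      exact this.symm
    rw [h1, Matrix.det_mul, Matrix.det_transpose] at h3
    exact hVu.ne_zero (mul_self_eq_zero.1 h3)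
  have h4 : (G0⁻¹).map (algebraMap k Ω) * (V.transpose * V) = 1 := by
    rw [← h1, ← Matrix.map_mul, Matrix.nonsing_inv_mul _ h2]
    exact Matrix.map_one _ (map_zero _) (map_one _)
  have h5 : V * ((G0⁻¹).map (algebraMap k Ω) * V.transpose) = 1 := by
    have h6 : ((G0⁻¹).map (algebraMap k Ω) * V.transpose) * V = 1 := by
      rw [Matrix.mul_assoc]
      exact h4
    exact mul_eq_one_comm.1 h6
  refine ⟨fun a b => G0⁻¹ b a, fun i j => ?_⟩
  have h7 := congrFun (congrFun h5 i) j
  rw [Matrix.one_apply, Matrix.mul_apply] at h7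
  rw [← h7]
  refine Finset.sum_congr rfl fun b _ => ?_
  rw [Matrix.mul_apply, hV, Matrix.vandermonde_apply]
  congr 1

/-- The Kronecker symbol is rational. -/
theorem isR_delta (h : Pol k θ) (hθ : Function.Injective θ) (a b : ι) [DecidableEq (Fin n)] :
    IsR θ K ι (fun x => if x a = x b then 1 else 0) := by
  obtain ⟨g, hg⟩ := h.exists_dual hθ
  have h1 : IsR θ K ι (fun x => ∑ c : Fin n, θ (x a) ^ (c : ℕ) *
      ∑ d : Fin n, algebraMap k Ω (g d c) * θ (x b) ^ (d : ℕ)) :=
    IsR.sum _ fun c _ => ((isR_theta a).pow _).mul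
      (IsR.sum _ fun d _ => (isR_const _ (K.algebraMap_mem _)).mul ((isR_theta b).pow _))
  refine h1.congr fun x => ?_
  rw [hg]
  split_ifs <;> rfl

end Pool.Agent.H78.TT
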