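import Pool.Agent.H78.TT.FormBas
import Pool.Agent.H78.TT.SolDefs

/-!
# The solution spaces are rational

Tools: `ratS_of_lamE`, `lamE_mem`, `lamE_smul`, `lamE_map` (`Pool.Agent.H72.SB.KS`), `mem_RI_col`,
`ratV_bas`, the closure of `RF` under `+`, `*`, `hadP`, transposition. A matrix `Y` is in
`RI (sol1 a W)` iff `ESum a Y x y z = 0` for all `x, y, z` in `RI W`, iff this holds for all
`K`-rational `x, y, z` in `RI W`; column `j` of `ESum a Y x y z` is
`E1 a (Y.col j) (x.col j) (y.col j) (z.col j)`.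
-/

open Module Matrix

namespace Pool.Agent.H78.TT

open Pool.Agent.H72.SB

variable {k Ω : Type*} [Field k] [Field Ω] [Algebra k Ω] {n : ℕ}
variable {θ : Fin n → Ω} {v : Fin n → Fin n → Ω} {K : IntermediateField k Ω} {s t : ℤ}

/-- An intersection of rational subspaces is rational. -/
theorem ratS_iInf {E ι κ : Type*} [AddCommGroup E] [Module Ω E] [Fintype ι] {β : Basis ι Ω E}
    {S : κ → Submodule Ω E} (h : ∀ i, RatS β K (S i)) : RatS β K (⨅ i, S i) :=
  ratS_of_lamE fun lam x hx => by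
    rw [Submodule.mem_iInf] at hx ⊢
    exact fun i => lamE_mem lam (h i) (hx i)

/-- A subspace given by rational equations. -/
theorem ratS_of_eqs {E E' ι ι' κ : Type*} [AddCommGroup E] [Module Ω E] [AddCommGroup E']
    [Module Ω E'] [Fintype ι] [Fintype ι'] {β : Basis ι Ω E} {β' : Basis ι' Ω E'}
    {S : Submodule Ω E} (f : κ → E →ₗ[Ω] E') (hf : ∀ q i, RatV β' K (f q (β i)))
    (hS : ∀ x, x ∈ S ↔ ∀ q, f q x = 0) : RatS β K S := by
  have h : S = ⨅ q, LinearMap.ker (f q) := by
    ext x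
    rw [hS, Submodule.mem_iInf]
    rfl
  rw [h]
  exact ratS_iInf fun q => ratS_ker (hf q)

private theorem hadP_add_left (X X' Y : Matrix (Fin n) (Fin n) Ω) :
    hadP (X + X') Y = hadP X Y + hadP X' Y := by
  ext i j
  simp only [hadP_apply, Matrix.add_apply, add_mul]

private theorem hadP_add_right (X Y Y' : Matrix (Fin n) (Fin n) Ω) :
    hadP X (Y + Y') = hadP X Y + hadP X Y' := by
  ext i j
  simp only [hadP_apply, Matrix.add_apply, mul_add]

private theorem hadP_smul_left (c : Ω) (X Y : Matrix (Fin n) (Fin n) Ω) :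
    hadP (c • X) Y = c • hadP X Y := by
  ext i j
  simp only [hadP_apply, Matrix.smul_apply, smul_eq_mul, mul_assoc]

private theorem hadP_smul_right (c : Ω) (X Y : Matrix (Fin n) (Fin n) Ω) :
    hadP X (c • Y) = c • hadP X Y := by
  ext i j
  simp only [hadP_apply, Matrix.smul_apply, smul_eq_mul]
  ring

private theorem hadP_zero_left (Y : Matrix (Fin n) (Fin n) Ω) : hadP 0 Y = 0 := by
  ext i j
  simp only [hadP_apply, Matrix.zero_apply, zero_mul]

private theorem hadP_zero_right (X : Matrix (Fin n) (Fin n) Ω) : hadP X 0 = 0 := by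
  ext i j
  simp only [hadP_apply, Matrix.zero_apply, mul_zero]

private theorem col_hadP (X Y : Matrix (Fin n) (Fin n) Ω) (j : Fin n) :
    (hadP X Y).col j = X.col j * Y.col j := by
  ext i
  rfl

private theorem col_mul' (X Y : Matrix (Fin n) (Fin n) Ω) (j : Fin n) :
    (X * Y).col j = X *ᵥ Y.col j := by
  ext i
  rfl

private theorem hadP_mem_RI {U W : Submodule Ω (Fin n → Ω)} {X Y : Matrix (Fin n) (Fin n) Ω}
    (hX : X ∈ RI U) (hY : Y ∈ RI W) : hadP X Y ∈ RI (had U W) := by
  rw [mem_RI_col] at hX hY ⊢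
  intro j
  rw [col_hadP]
  exact Submodule.subset_span ⟨_, hX j, _, hY j, rfl⟩

private theorem hadP_vecMulVec (u w : Fin n → Ω) (j : Fin n) :
    hadP (Matrix.vecMulVec u (Pi.single j 1)) (Matrix.vecMulVec w (Pi.single j 1)) =
      Matrix.vecMulVec (u * w) (Pi.single j (1 : Ω)) := by
  ext i l
  simp only [hadP_apply, Matrix.vecMulVec_apply, Pi.mul_apply]
  by_cases h : l = j
  · subst h
    simp
  · simp [Pi.single_eq_of_ne h]

private theorem sum_vecMulVec_col (X : Matrix (Fin n) (Fin n) Ω) :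
    X = ∑ j, Matrix.vecMulVec (X.col j) (Pi.single j (1 : Ω)) := by
  ext i l
  rw [Matrix.sum_apply, Finset.sum_eq_single l]
  · simp [Matrix.vecMulVec_apply, Matrix.col_apply]
  · intro b _ hb
    simp [Matrix.vecMulVec_apply, Pi.single_eq_of_ne (Ne.symm hb)]
  · intro h
    exact absurd (Finset.mem_univ _) h

/-- The entrywise products of rational spaces. -/
theorem ratR_had (h : Dat k θ v) {U W : Submodule Ω (Fin n → Ω)} (hU : RatR (bas h s) K U)
    (hW : RatR (bas h t) K W) : RatR (bas h (s + t)) K (had U W) := by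
  unfold RatR RatS
  set S := Submodule.span Ω {x | x ∈ RI (had U W) ∧ RatV (bas h (s + t)) K x} with hS
  have hA : ∀ Y ∈ RI U, ∀ X ∈ RI W, hadP Y X ∈ S := by
    intro Y hY X hX
    refine Submodule.span_induction (p := fun Y _ => hadP Y X ∈ S) ?_ ?_ ?_ ?_ (hU hY)
    · intro Y' hY'
      refine Submodule.span_induction (p := fun X _ => hadP Y' X ∈ S) ?_ ?_ ?_ ?_ (hW hX)
      · intro X' hX'
        exact Submodule.subset_span ⟨hadP_mem_RI hY'.1 hX'.1,
          (ratV_bas h).2 (RF.had h ((ratV_bas h).1 hY'.2) ((ratV_bas h).1 hX'.2))⟩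
      · rw [hadP_zero_right]
        exact Submodule.zero_mem _
      · intro a b _ _ ha hb
        rw [hadP_add_right]
        exact Submodule.add_mem _ ha hb
      · intro c a _ ha
        rw [hadP_smul_right]
        exact Submodule.smul_mem _ _ ha
    · rw [hadP_zero_left]
      exact Submodule.zero_mem _
    · intro a b _ _ ha hb
      rw [hadP_add_left]
      exact Submodule.add_mem _ ha hb
    · intro c a _ ha
      rw [hadP_smul_left]
      exact Submodule.smul_mem _ _ ha
  have hB : ∀ z ∈ had U W, ∀ j, Matrix.vecMulVec z (Pi.single j (1 : Ω)) ∈ S := by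
    intro z hz j
    unfold had at hz
    refine Submodule.span_induction
      (p := fun z _ => Matrix.vecMulVec z (Pi.single j (1 : Ω)) ∈ S) ?_ ?_ ?_ ?_ hz
    · rintro _ ⟨u, hu, w, hw, rfl⟩
      rw [← hadP_vecMulVec]
      exact hA _ (vecMulVec_mem_RI hu) _ (vecMulVec_mem_RI hw)
    · rw [Matrix.zero_vecMulVec]
      exact Submodule.zero_mem _
    · intro a b _ _ ha hb
      rw [Matrix.add_vecMulVec]
      exact Submodule.add_mem _ ha hb
    · intro c a _ ha
      rw [Matrix.smul_vecMulVec]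
      exact Submodule.smul_mem _ _ ha
  intro X hX
  rw [sum_vecMulVec_col X]
  exact Submodule.sum_mem _ fun j _ => hB _ (mem_RI_col.1 hX j) j

/-- The linear map of the equation `E3`. -/
private def f3 (a Y : Matrix (Fin n) (Fin n) Ω) :
    Matrix (Fin n) (Fin n) Ω →ₗ[Ω] Matrix (Fin n) (Fin n) Ω where
  toFun X := hadP X (a * Y) - aᵀ * hadP X Y
  map_add' X X' := by
    rw [hadP_add_left, hadP_add_left, Matrix.mul_add]
    abel
  map_smul' c X := by
    rw [hadP_smul_left, hadP_smul_left, Matrix.mul_smul, RingHom.id_apply, smul_sub]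

/-- The linear map of the equation `E3`. -/
private def f4 (a Y : Matrix (Fin n) (Fin n) Ω) :
    Matrix (Fin n) (Fin n) Ω →ₗ[Ω] Matrix (Fin n) (Fin n) Ω where
  toFun X := hadP Y (a * X) - aᵀ * hadP Y X
  map_add' X X' := by
    rw [Matrix.mul_add, hadP_add_right, hadP_add_right, Matrix.mul_add]
    abel
  map_smul' c X := by
    rw [Matrix.mul_smul, hadP_smul_right, hadP_smul_right, Matrix.mul_smul, RingHom.id_apply,
      smul_sub]

private theorem f3_apply (a Y X : Matrix (Fin n) (Fin n) Ω) :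
    f3 a Y X = hadP X (a * Y) - aᵀ * hadP X Y := rfl

private theorem f4_apply (a Y X : Matrix (Fin n) (Fin n) Ω) :
    f4 a Y X = hadP Y (a * X) - aᵀ * hadP Y X := rfl

private theorem f4_eq (a Y X : Matrix (Fin n) (Fin n) Ω) : f4 a Y X = f3 a X Y := rfl

private theorem col_f3 (a Y X : Matrix (Fin n) (Fin n) Ω) (j : Fin n) :
    (f3 a Y X).col j = E3 a (X.col j) (Y.col j) := by
  have h1 : (f3 a Y X).col j = (hadP X (a * Y)).col j - (aᵀ * hadP X Y).col j := by
    ext i
    rfl
  rw [h1, col_hadP, col_mul', col_mul', col_hadP]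
  rfl

private theorem f3_eq_zero {a Y X : Matrix (Fin n) (Fin n) Ω} :
    f3 a Y X = 0 ↔ ∀ j, E3 a (X.col j) (Y.col j) = 0 := by
  constructor
  · intro h j
    rw [← col_f3, h]
    rfl
  · intro h
    ext i j
    have := congrFun (h j) i
    rw [← col_f3] at this
    exact this

/-- rational elements are enough -/
private theorem f3_span_left {a X : Matrix (Fin n) (Fin n) Ω} {A : Set (Matrix (Fin n) (Fin n) Ω)}
    (hA : ∀ Y ∈ A, f3 a Y X = 0) {Y : Matrix (Fin n) (Fin n) Ω} (hY : Y ∈ Submodule.span Ω A) :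
    f3 a Y X = 0 := by
  rw [← f4_eq]
  have h : Submodule.span Ω A ≤ LinearMap.ker (f4 a X) :=
    Submodule.span_le.2 fun Z hZ => by
      rw [SetLike.mem_coe, LinearMap.mem_ker, f4_eq]
      exact hA Z hZ
  exact h hY

private theorem f3_span_right {a Y : Matrix (Fin n) (Fin n) Ω} {A : Set (Matrix (Fin n) (Fin n) Ω)}
    (hA : ∀ X ∈ A, f3 a Y X = 0) {X : Matrix (Fin n) (Fin n) Ω} (hX : X ∈ Submodule.span Ω A) :
    f3 a Y X = 0 := by
  have h : Submodule.span Ω A ≤ LinearMap.ker (f3 a Y) :=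
    Submodule.span_le.2 fun Z hZ => by
      rw [SetLike.mem_coe, LinearMap.mem_ker]
      exact hA Z hZ
  exact h hX

private theorem col_vecMulVec_one (w : Fin n → Ω) (j : Fin n) :
    (Matrix.vecMulVec w (fun _ => (1 : Ω))).col j = w := by
  ext i
  simp [Matrix.col_apply, Matrix.vecMulVec_apply]

private theorem rf_f3 (h : Dat k θ v) {a X Y : Matrix (Fin n) (Fin n) Ω}
    (ha : RatV (bas h 1) (⊥ : IntermediateField k Ω) a) (hX : RF θ v (-2) K X)
    (hY : RF θ v 1 K Y) : RF θ v (-1) K (f3 a Y X) := by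
  have ha1 : RF θ v 1 K a := (((ratV_bas h).1 ha)).mono bot_le
  have h1 : RF θ v (-2 + 1) K (hadP X (a * Y)) := RF.had h hX (RF.mul h ha1 hY)
  have h2 : RF θ v (-2 + 1) K (hadP X Y) := RF.had h hX hY
  have h3 : (-2 + 1 : ℤ) = -1 := by norm_num
  rw [h3] at h1 h2
  rw [f3_apply]
  exact h1.sub (RF.mul h (RF.transpose h ha1) h2)

theorem ratR_sol3 (h : Dat k θ v) {a : Matrix (Fin n) (Fin n) Ω}
    (ha : RatV (bas h 1) (⊥ : IntermediateField k Ω) a) {W : Submodule Ω (Fin n → Ω)}
    (hW : RatR (bas h 1) K W) : RatR (bas h (-2)) K (sol3 a W) := by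
  refine ratS_of_eqs (β' := bas h (-1))
    (κ := {Y : Matrix (Fin n) (Fin n) Ω // Y ∈ RI W ∧ RatV (bas h 1) K Y})
    (fun Y => f3 a Y.1) (fun Y i => (ratV_bas h).2 (rf_f3 h ha (rf_bas h (-2) i)
      ((ratV_bas h).1 Y.2.2))) fun X => ?_
  constructor
  · intro hX Y
    rw [f3_eq_zero]
    intro j
    exact (mem_RI_col.1 hX j) _ (mem_RI_col.1 Y.2.1 j)
  · intro hX
    rw [mem_RI_col]
    intro j w hw
    have h1 : f3 a (Matrix.vecMulVec w (fun _ => (1 : Ω))) X = 0 :=
      f3_span_left (fun Y hY => hX ⟨Y, hY⟩) (hW (vecMulVec_mem_RI hw))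
    have h2 := f3_eq_zero.1 h1 j
    rw [col_vecMulVec_one] at h2
    exact h2

theorem ratR_sol4 (h : Dat k θ v) {a : Matrix (Fin n) (Fin n) Ω}
    (ha : RatV (bas h 1) (⊥ : IntermediateField k Ω) a) {W : Submodule Ω (Fin n → Ω)}
    (hW : RatR (bas h (-2)) K W) : RatR (bas h 1) K (sol4 a W) := by
  refine ratS_of_eqs (β' := bas h (-1))
    (κ := {Y : Matrix (Fin n) (Fin n) Ω // Y ∈ RI W ∧ RatV (bas h (-2)) K Y})
    (fun Y => f4 a Y.1) (fun Y i => (ratV_bas h).2 (by
      rw [f4_eq]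
      exact rf_f3 h ha ((ratV_bas h).1 Y.2.2) (rf_bas h 1 i))) fun X => ?_
  constructor
  · intro hX Y
    rw [f4_eq, f3_eq_zero]
    intro j
    exact (mem_RI_col.1 hX j) _ (mem_RI_col.1 Y.2.1 j)
  · intro hX
    rw [mem_RI_col]
    intro j w hw
    have h1 : f3 a X (Matrix.vecMulVec w (fun _ => (1 : Ω))) = 0 :=
      f3_span_right (fun Y hY => by
        have := hX ⟨Y, hY⟩
        rwa [f4_eq] at this) (hW (vecMulVec_mem_RI hw))
    have h2 := f3_eq_zero.1 h1 j
    rw [col_vecMulVec_one] at h2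
    exact h2

end Pool.Agent.H78.TT
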