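import Pool.Agent.H78.TT.RBas
import Pool.Agent.H78.TT.Sol
import Pool.Agent.H78.TT.PolyLine

/-!
# Rational subspaces for arbitrary weights

`w : Fin n → Fin n → Ω` are weights with the cocycle property over `K` (`Coc`). A matrix `X` is
rational (`RatW`) if `X i j / w i j` is a rational function of `i, j`; a subspace `U` is rational
(`RR`) if `RI U` is spanned by rational matrices. For `w = v ^ s` this is `RatR (bas h s)`.
-/

open Module Matrix

namespace Pool.Agent.H78.TT

open Pool.Agent.H72.SB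

variable {k Ω : Type*} [Field k] [Field Ω] [Algebra k Ω] {n : ℕ}

/-- The matrix `X` is rational for the weights `w`. -/
def RatW (θ : Fin n → Ω) (w : Fin n → Fin n → Ω) (K : IntermediateField k Ω)
    (X : Matrix (Fin n) (Fin n) Ω) : Prop :=
  IsR θ K (Fin 2) (fun x => X (x 0) (x 1) / w (x 0) (x 1))

/-- The subspace `U` is rational for the weights `w`. -/
def RR (θ : Fin n → Ω) (w : Fin n → Fin n → Ω) (K : IntermediateField k Ω)
    (U : Submodule Ω (Fin n → Ω)) : Prop :=
  RI U ≤ Submodule.span Ω {X | X ∈ RI U ∧ RatW θ w K X}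

/-- The cocycle property. -/
structure Coc (θ : Fin n → Ω) (w : Fin n → Fin n → Ω) (K : IntermediateField k Ω) : Prop where
  ne : ∀ i j, w i j ≠ 0
  gam : IsR θ K (Fin 3) (fun x => w (x 0) (x 1) * w (x 1) (x 2) / w (x 0) (x 2))

variable {θ : Fin n → Ω} {v w w' : Fin n → Fin n → Ω} {K K' : IntermediateField k Ω}
  {U W : Submodule Ω (Fin n → Ω)} {X : Matrix (Fin n) (Fin n) Ω}

theorem RatW.mono (hK : K ≤ K') (hX : RatW θ w K X) : RatW θ w K' X := IsR.mono hK hX

theorem RR.mono (hK : K ≤ K') (hU : RR θ w K U) : RR θ w K' U :=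
  hU.trans (Submodule.span_mono fun _ hX => ⟨hX.1, hX.2.mono hK⟩)

theorem Coc.mono (hK : K ≤ K') (h : Coc θ w K) : Coc θ w K' := ⟨h.ne, h.gam.mono hK⟩

theorem Coc.mul (h : Coc θ w K) (h' : Coc θ w' K) : Coc θ (fun i j => w i j * w' i j) K :=
  ⟨fun i j => mul_ne_zero (h.ne i j) (h'.ne i j), (h.gam.mul h'.gam).congr fun x => by
    rw [← mul_div_mul_comm]
    congr 1
    ring⟩

theorem Coc.zpow (hp : Pol k θ) (h : Coc θ w K) (s : ℤ) : Coc θ (fun i j => w i j ^ s) K := by
  refine ⟨fun i j => zpow_ne_zero _ (h.ne i j), ?_⟩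
  have h1 : IsR θ K (Fin 3) (fun x => (w (x 0) (x 1) * w (x 1) (x 2) / w (x 0) (x 2)) ^ s) := by
    cases s with
    | ofNat m =>
      exact (h.gam.pow m).congr fun x => by rw [Int.ofNat_eq_natCast, zpow_natCast]
    | negSucc m =>
      refine ((h.gam.pow (m + 1)).inv hp fun x => ?_).congr fun x => by rw [zpow_negSucc]
      exact pow_ne_zero _ (div_ne_zero (mul_ne_zero (h.ne _ _) (h.ne _ _)) (h.ne _ _))
  exact h1.congr fun x => by rw [div_zpow, mul_zpow]

theorem Dat.coc (h : Dat k θ v) (K : IntermediateField k Ω) : Coc θ v K :=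
  ⟨h.ne, h.gam.mono bot_le⟩

/-- `w j j` is rational: it is `w j j * w j j / w j j`. -/
theorem Coc.diag (h : Coc θ w K) : IsR θ K (Fin 1) (fun x => w (x 0) (x 0)) := by
  refine (h.gam.comp (fun _ : Fin 3 => (0 : Fin 1))).congr fun x => ?_
  rw [mul_div_assoc, div_self (h.ne _ _), mul_one]

theorem ratR_iff (h : Dat k θ v) (s : ℤ) :
    RatR (bas h s) K U ↔ RR θ (fun i j => v i j ^ s) K U := by
  have h1 : {X | X ∈ RI U ∧ RatV (bas h s) K X} =
      {X | X ∈ RI U ∧ RatW θ (fun i j => v i j ^ s) K X} :=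
    Set.ext fun X => and_congr_right fun _ => ratV_bas h
  unfold RR
  rw [← h1]
  rfl

private theorem hadP_add_left' (X X' Y : Matrix (Fin n) (Fin n) Ω) :
    hadP (X + X') Y = hadP X Y + hadP X' Y := by
  ext i j
  simp only [hadP_apply, Matrix.add_apply, add_mul]

private theorem hadP_add_right' (X Y Y' : Matrix (Fin n) (Fin n) Ω) :
    hadP X (Y + Y') = hadP X Y + hadP X Y' := by
  ext i j
  simp only [hadP_apply, Matrix.add_apply, mul_add]

private theorem hadP_smul_left' (c : Ω) (X Y : Matrix (Fin n) (Fin n) Ω) :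
    hadP (c • X) Y = c • hadP X Y := by
  ext i j
  simp only [hadP_apply, Matrix.smul_apply, smul_eq_mul, mul_assoc]

private theorem hadP_smul_right' (c : Ω) (X Y : Matrix (Fin n) (Fin n) Ω) :
    hadP X (c • Y) = c • hadP X Y := by
  ext i j
  simp only [hadP_apply, Matrix.smul_apply, smul_eq_mul]
  ring

private theorem hadP_zero_left' (Y : Matrix (Fin n) (Fin n) Ω) : hadP 0 Y = 0 := by
  ext i j
  simp only [hadP_apply, Matrix.zero_apply, zero_mul]

private theorem hadP_zero_right' (X : Matrix (Fin n) (Fin n) Ω) : hadP X 0 = 0 := by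
  ext i j
  simp only [hadP_apply, Matrix.zero_apply, mul_zero]

private theorem hadP_mem_RI' {U W : Submodule Ω (Fin n → Ω)} {X Y : Matrix (Fin n) (Fin n) Ω}
    (hX : X ∈ RI U) (hY : Y ∈ RI W) : hadP X Y ∈ RI (had U W) := by
  rw [mem_RI_col] at hX hY ⊢
  intro j
  have h1 : (hadP X Y).col j = X.col j * Y.col j := by
    ext i
    rfl
  rw [h1]
  exact Submodule.subset_span ⟨_, hX j, _, hY j, rfl⟩

private theorem hadP_vecMulVec' (u w : Fin n → Ω) (j : Fin n) :
    hadP (Matrix.vecMulVec u (Pi.single j 1)) (Matrix.vecMulVec w (Pi.single j 1)) =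
      Matrix.vecMulVec (u * w) (Pi.single j (1 : Ω)) := by
  ext i l
  simp only [hadP_apply, Matrix.vecMulVec_apply, Pi.mul_apply]
  by_cases h : l = j
  · subst h
    simp
  · simp [Pi.single_eq_of_ne h]

private theorem sum_vecMulVec_col' (X : Matrix (Fin n) (Fin n) Ω) :
    X = ∑ j, Matrix.vecMulVec (X.col j) (Pi.single j (1 : Ω)) := by
  ext i l
  rw [Matrix.sum_apply, Finset.sum_eq_single l]
  · simp [Matrix.vecMulVec_apply, Matrix.col_apply]
  · intro b _ hb
    simp [Matrix.vecMulVec_apply, Pi.single_eq_of_ne (Ne.symm hb)]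
  · intro h
    exact absurd (Finset.mem_univ _) h

private theorem RatW_had {X Y : Matrix (Fin n) (Fin n) Ω} (hX : RatW θ w K X)
    (hY : RatW θ w' K Y) : RatW θ (fun i j => w i j * w' i j) K (hadP X Y) :=
  (IsR.mul hX hY).congr fun x => by rw [hadP_apply, mul_div_mul_comm]

/-- As `ratR_had`. -/
theorem RR.had (hU : RR θ w K U) (hW : RR θ w' K W) :
    RR θ (fun i j => w i j * w' i j) K (had U W) := by
  unfold RR
  set S := Submodule.span Ω
    {x | x ∈ RI (Pool.Agent.H78.TT.had U W) ∧ RatW θ (fun i j => w i j * w' i j) K x} with hS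
  have hA : ∀ Y ∈ RI U, ∀ X ∈ RI W, hadP Y X ∈ S := by
    intro Y hY X hX
    refine Submodule.span_induction (p := fun Y _ => hadP Y X ∈ S) ?_ ?_ ?_ ?_ (hU hY)
    · intro Y' hY'
      refine Submodule.span_induction (p := fun X _ => hadP Y' X ∈ S) ?_ ?_ ?_ ?_ (hW hX)
      · intro X' hX'
        exact Submodule.subset_span ⟨hadP_mem_RI' hY'.1 hX'.1, RatW_had hY'.2 hX'.2⟩
      · rw [hadP_zero_right']
        exact Submodule.zero_mem _
      · intro a b _ _ ha hb
        rw [hadP_add_right']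
        exact Submodule.add_mem _ ha hb
      · intro c a _ ha
        rw [hadP_smul_right']
        exact Submodule.smul_mem _ _ ha
    · rw [hadP_zero_left']
      exact Submodule.zero_mem _
    · intro a b _ _ ha hb
      rw [hadP_add_left']
      exact Submodule.add_mem _ ha hb
    · intro c a _ ha
      rw [hadP_smul_left']
      exact Submodule.smul_mem _ _ ha
  have hB : ∀ z ∈ Pool.Agent.H78.TT.had U W, ∀ j,
      Matrix.vecMulVec z (Pi.single j (1 : Ω)) ∈ S := by
    intro z hz j
    unfold Pool.Agent.H78.TT.had at hz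
    refine Submodule.span_induction
      (p := fun z _ => Matrix.vecMulVec z (Pi.single j (1 : Ω)) ∈ S) ?_ ?_ ?_ ?_ hz
    · rintro _ ⟨u, hu, w, hw, rfl⟩
      rw [← hadP_vecMulVec']
      exact hA _ (vecMulVec_mem_RI hu) _ (vecMulVec_mem_RI hw)
    · rw [Matrix.zero_vecMulVec]
      exact Submodule.zero_mem _
    · intro a b _ _ ha hb
      rw [Matrix.add_vecMulVec]
      exact Submodule.add_mem _ ha hb
    · intro c a _ ha
      rw [Matrix.smul_vecMulVec]
      exact Submodule.smul_mem _ _ ha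
  intro X hX
  rw [sum_vecMulVec_col' X]
  exact Submodule.sum_mem _ fun j _ => hB _ (mem_RI_col.1 hX j) j

end Pool.Agent.H78.TT
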