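import Pool.Agent.H78.TT.RPow

/-!
# Sums and inverses of rational functions
-/

namespace Pool.Agent.H78.TT

variable {k Ω : Type*} [Field k] [Field Ω] [Algebra k Ω] {n : ℕ}
variable {θ : Fin n → Ω} {K K' : IntermediateField k Ω} {ι ι' : Type*} {F G : (ι → Fin n) → Ω}

/-- Sum over the last index. -/
theorem IsR.sum_last (h : Pol k θ) (hθ : Function.Injective θ) {r : ℕ}
    {F : (Fin (r + 1) → Fin n) → Ω} (hF : IsR θ K (Fin (r + 1)) F) :
    IsR θ K (Fin r) (fun x => ∑ j : Fin n, F (Fin.snoc x j)) := by
  obtain ⟨P, hP⟩ := hF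
  have key : ∀ Q : MvPolynomial (Fin (r + 1)) K, IsR θ K (Fin r) (fun x => ∑ j : Fin n,
      MvPolynomial.aeval (fun a => θ ((Fin.snoc x j : Fin (r + 1) → Fin n) a)) Q) := by
    intro Q
    induction Q using MvPolynomial.induction_on' with
    | monomial u c =>
      have h1 : IsR θ K (Fin r) (fun x => ((c : Ω) *
          ∏ a : Fin r, θ (x a) ^ u (Fin.castSucc a)) * ∑ j : Fin n, θ j ^ u (Fin.last r)) :=
        ((isR_const (c : Ω) c.2).mul (IsR.prod _ fun a _ => (isR_theta a).pow _)).mul
          (isR_const _ (h.sum_pow hθ _))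
      refine h1.congr fun x => ?_
      rw [Finset.mul_sum]
      refine Finset.sum_congr rfl fun j _ => ?_
      rw [MvPolynomial.aeval_monomial, Finsupp.prod_fintype _ _ (fun _ => pow_zero _),
        Fin.prod_univ_castSucc]
      simp only [Fin.snoc_castSucc, Fin.snoc_last]
      rw [mul_assoc]
      rfl
    | add p q hp hq =>
      refine (hp.add hq).congr fun x => ?_
      rw [← Finset.sum_add_distrib]
      exact Finset.sum_congr rfl fun j _ => map_add _ _ _
  exact (key P).congr fun x => Finset.sum_congr rfl fun j _ => hP _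

private theorem RSum_int (h : Pol k θ) (a : ι) :
    IsIntegral K (fun x : ι → Fin n => θ (x a)) := by
  obtain ⟨c, hc⟩ := h
  refine ⟨Polynomial.X ^ n - ∑ b : Fin n, Polynomial.C (algebraMap k K (c b)) *
    Polynomial.X ^ (b : ℕ), Polynomial.monic_X_pow_sub (Polynomial.degree_sum_fin_lt _), ?_⟩
  rw [← Polynomial.aeval_def]
  simp only [map_sub, map_pow, Polynomial.aeval_X, map_sum, map_mul, Polynomial.aeval_C]
  funext x
  simp only [Pi.sub_apply, Pi.pow_apply, Finset.sum_apply, Pi.mul_apply, Pi.zero_apply]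
  rw [hc, sub_eq_zero]
  exact Finset.sum_congr rfl fun b _ => rfl

/-- A nowhere zero rational function has a rational inverse: the rational functions are a
finite-dimensional `K`-algebra (`fg_adjoin_of_finite`), multiplication by `F` is injective. -/
theorem IsR.inv [Finite ι] (h : Pol k θ) (hF : IsR θ K ι F) (h0 : ∀ x, F x ≠ 0) :
    IsR θ K ι (fun x => (F x)⁻¹) := by
  let t : ι → ((ι → Fin n) → Ω) := fun a x => θ (x a)
  have hev : ∀ (P : MvPolynomial ι K) (x : ι → Fin n),
      MvPolynomial.aeval (R := K) t P x = MvPolynomial.aeval (fun a => θ (x a)) P := by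
    intro P x
    have h1 : (Pi.evalAlgHom K (fun _ : ι → Fin n => Ω) x).comp (MvPolynomial.aeval t) =
        MvPolynomial.aeval (fun a => θ (x a)) := by
      apply MvPolynomial.algHom_ext
      intro a
      simp [t]
    exact DFunLike.congr_fun h1 P
  have hfg : (Subalgebra.toSubmodule (Algebra.adjoin K (Set.range t))).FG := by
    refine fg_adjoin_of_finite (Set.finite_range t) ?_
    rintro _ ⟨a, rfl⟩
    exact RSum_int h a
  set A : Subalgebra K ((ι → Fin n) → Ω) := Algebra.adjoin K (Set.range t) with hA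
  have hAm : ∀ f : (ι → Fin n) → Ω, f ∈ A ↔ IsR θ K ι f := by
    intro f
    rw [hA, Algebra.adjoin_range_eq_range_aeval]
    constructor
    · rintro ⟨P, hP⟩
      refine ⟨P, fun x => ?_⟩
      rw [← hev, ← hP]
      rfl
    · rintro ⟨P, hP⟩
      refine ⟨P, ?_⟩
      funext x
      rw [hP, ← hev]
      rfl
  haveI : Module.Finite K A := Module.Finite.iff_fg.2 hfg
  let m : A →ₗ[K] A := LinearMap.mulLeft K (⟨F, (hAm F).2 hF⟩ : A)
  have hm : Function.Injective m := by
    intro f g hfg'
    apply Subtype.ext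
    funext x
    have h1 : F x * f.1 x = F x * g.1 x := congrFun (congrArg Subtype.val hfg') x
    exact mul_left_cancel₀ (h0 x) h1
  obtain ⟨g, hg⟩ := (LinearMap.injective_iff_surjective.1 hm) 1
  refine ((hAm g.1).1 g.2).congr fun x => ?_
  have h1 : F x * g.1 x = 1 := congrFun (congrArg Subtype.val hg) x
  exact (eq_inv_of_mul_eq_one_right h1).symm

end Pool.Agent.H78.TT
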