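import Pool.Agent.H78.TT.Sol

/-!
# The solution spaces in dimension three are rational

As in `Sol.lean`; for rational `x, y, z` in `RI W` the map
`Y ↦ ∑ sgn hadP (aᵀ * (hadP (hadP Y x) (a * y))) z` is rational from `F_(-3)` to `F_0`
(`-3 + 1 + 1 = -1`, `aᵀ` in `F_(-1)`, `-1 + 1 = 0`), and
`Y ↦ ∑ sgn hadP (aᵀ * (hadP x (a * (hadP Y y)))) z` from `F_3` to `F_(-3)` for `x, y, z` in
`F_(-2)` (`3 - 2 = 1`, `a` in `F_1`, `1 - 2 = -1`, `aᵀ` in `F_(-1)`, `-1 - 2 = -3`).
-/

open Module Matrix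

namespace Pool.Agent.H78.TT

open Pool.Agent.H72.SB

variable {k Ω : Type*} [Field k] [Field Ω] [Algebra k Ω] {n : ℕ}
variable {θ : Fin n → Ω} {v : Fin n → Fin n → Ω} {K : IntermediateField k Ω} {s t : ℤ}

/-- Linear in each of the four variables. -/
private structure FL (T : Matrix (Fin n) (Fin n) Ω → Matrix (Fin n) (Fin n) Ω →
    Matrix (Fin n) (Fin n) Ω → Matrix (Fin n) (Fin n) Ω → Matrix (Fin n) (Fin n) Ω) : Prop where
  a0 : ∀ Y Y' x y z, T (Y + Y') x y z = T Y x y z + T Y' x y z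
  a1 : ∀ Y x x' y z, T Y (x + x') y z = T Y x y z + T Y x' y z
  a2 : ∀ Y x y y' z, T Y x (y + y') z = T Y x y z + T Y x y' z
  a3 : ∀ Y x y z z', T Y x y (z + z') = T Y x y z + T Y x y z'
  s0 : ∀ (c : Ω) Y x y z, T (c • Y) x y z = c • T Y x y z
  s1 : ∀ (c : Ω) Y x y z, T Y (c • x) y z = c • T Y x y z
  s2 : ∀ (c : Ω) Y x y z, T Y x (c • y) z = c • T Y x y z
  s3 : ∀ (c : Ω) Y x y z, T Y x y (c • z) = c • T Y x y z

/-- The alternating sum. -/
private def Alt (T : Matrix (Fin n) (Fin n) Ω → Matrix (Fin n) (Fin n) Ω →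
    Matrix (Fin n) (Fin n) Ω → Matrix (Fin n) (Fin n) Ω → Matrix (Fin n) (Fin n) Ω)
    (Y x y z : Matrix (Fin n) (Fin n) Ω) : Matrix (Fin n) (Fin n) Ω :=
  T Y x y z - T Y y x z + T Y y z x - T Y z y x + T Y z x y - T Y x z y

private def AltL {T : Matrix (Fin n) (Fin n) Ω → Matrix (Fin n) (Fin n) Ω →
    Matrix (Fin n) (Fin n) Ω → Matrix (Fin n) (Fin n) Ω → Matrix (Fin n) (Fin n) Ω} (hT : FL T)
    (x y z : Matrix (Fin n) (Fin n) Ω) :
    Matrix (Fin n) (Fin n) Ω →ₗ[Ω] Matrix (Fin n) (Fin n) Ω where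
  toFun Y := Alt T Y x y z
  map_add' Y Y' := by simp only [Alt, hT.a0]; abel
  map_smul' c Y := by simp only [Alt, hT.s0, RingHom.id_apply, smul_add, smul_sub]

private theorem zero_of_lin {M M' : Type*} [AddCommGroup M] [Module Ω M] [AddCommGroup M']
    [Module Ω M'] {f : M → M'} (ha : ∀ x y, f (x + y) = f x + f y)
    (hs : ∀ (c : Ω) x, f (c • x) = c • f x) {s : Set M} (h : ∀ x ∈ s, f x = 0) {x : M}
    (hx : x ∈ Submodule.span Ω s) : f x = 0 := by
  have h0 : f 0 = 0 := by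
    have := hs 0 0
    rwa [zero_smul, zero_smul] at this
  induction hx using Submodule.span_induction with
  | mem x hx => exact h x hx
  | zero => exact h0
  | add x y _ _ hx hy => rw [ha, hx, hy, add_zero]
  | smul c x _ hx => rw [hs, hx, smul_zero]

private theorem core {ι ι' : Type*} [Fintype ι] [Fintype ι']
    {β : Basis ι Ω (Matrix (Fin n) (Fin n) Ω)} {β' : Basis ι' Ω (Matrix (Fin n) (Fin n) Ω)}
    {β'' : Basis (Fin n × Fin n) Ω (Matrix (Fin n) (Fin n) Ω)}
    {T : Matrix (Fin n) (Fin n) Ω → Matrix (Fin n) (Fin n) Ω →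
      Matrix (Fin n) (Fin n) Ω → Matrix (Fin n) (Fin n) Ω → Matrix (Fin n) (Fin n) Ω} (hT : FL T)
    {t : (Fin n → Ω) → (Fin n → Ω) → (Fin n → Ω) → (Fin n → Ω) → (Fin n → Ω)}
    (ht : ∀ Y x y z j, (T Y x y z).col j = t (Y.col j) (x.col j) (y.col j) (z.col j))
    {W S : Submodule Ω (Fin n → Ω)} (hW : RatR β'' K W)
    (hS : ∀ c, c ∈ S ↔ ∀ w ∈ W, ∀ w' ∈ W, ∀ w'' ∈ W, t c w w' w'' - t c w' w w'' + t c w' w'' w -
      t c w'' w' w + t c w'' w w' - t c w w'' w' = 0)
    (hr : ∀ x y z, RatV β'' K x → RatV β'' K y → RatV β'' K z → ∀ i, RatV β' K (T (β i) x y z)) :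
    RatR β K S := by
  have hcol : ∀ Y x y z j, (Alt T Y x y z).col j =
      t (Y.col j) (x.col j) (y.col j) (z.col j) - t (Y.col j) (y.col j) (x.col j) (z.col j) +
      t (Y.col j) (y.col j) (z.col j) (x.col j) - t (Y.col j) (z.col j) (y.col j) (x.col j) +
      t (Y.col j) (z.col j) (x.col j) (y.col j) - t (Y.col j) (x.col j) (z.col j) (y.col j) := by
    intro Y x y z j
    simp only [← ht]
    rfl
  refine ratS_of_eqs (κ := {q : Matrix (Fin n) (Fin n) Ω × Matrix (Fin n) (Fin n) Ω ×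
    Matrix (Fin n) (Fin n) Ω // (q.1 ∈ RI W ∧ RatV β'' K q.1) ∧ (q.2.1 ∈ RI W ∧ RatV β'' K q.2.1) ∧
      (q.2.2 ∈ RI W ∧ RatV β'' K q.2.2)}) (β' := β')
    (fun q => AltL hT q.1.1 q.1.2.1 q.1.2.2) ?_ ?_
  · rintro ⟨⟨x, y, z⟩, ⟨_, hx⟩, ⟨_, hy⟩, ⟨_, hz⟩⟩ i
    exact (((((hr x y z hx hy hz i).sub (hr y x z hy hx hz i)).add (hr y z x hy hz hx i)).sub
      (hr z y x hz hy hx i)).add (hr z x y hz hx hy i)).sub (hr x z y hx hz hy i)
  · intro Y
    constructor
    · rintro hY ⟨⟨x, y, z⟩, ⟨hx, _⟩, ⟨hy, _⟩, ⟨hz, _⟩⟩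
      show Alt T Y x y z = 0
      have h1 : ∀ j, (Alt T Y x y z).col j = 0 := fun j => by
        rw [hcol]
        exact (hS _).1 (mem_RI_col.1 hY j) _ (mem_RI_col.1 hx j) _ (mem_RI_col.1 hy j) _
          (mem_RI_col.1 hz j)
      ext i j
      exact congrFun (h1 j) i
    · intro hq
      have h3 : ∀ x ∈ RI W, ∀ y ∈ RI W, ∀ z ∈ RI W, Alt T Y x y z = 0 := by
        intro x hx y hy z hz
        refine zero_of_lin (f := fun x => Alt T Y x y z) ?_ ?_ ?_ (hW hx)
        · intro x x'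
          simp only [Alt, hT.a1, hT.a2, hT.a3]; abel
        · intro c x
          simp only [Alt, hT.s1, hT.s2, hT.s3, smul_add, smul_sub]
        rintro x ⟨hx, hx'⟩
        refine zero_of_lin (f := fun y => Alt T Y x y z) ?_ ?_ ?_ (hW hy)
        · intro x x'
          simp only [Alt, hT.a1, hT.a2, hT.a3]; abel
        · intro c x
          simp only [Alt, hT.s1, hT.s2, hT.s3, smul_add, smul_sub]
        rintro y ⟨hy, hy'⟩
        refine zero_of_lin (f := fun z => Alt T Y x y z) ?_ ?_ ?_ (hW hz)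
        · intro x x'
          simp only [Alt, hT.a1, hT.a2, hT.a3]; abel
        · intro c x
          simp only [Alt, hT.s1, hT.s2, hT.s3, smul_add, smul_sub]
        rintro z ⟨hz, hz'⟩
        exact hq ⟨(x, y, z), ⟨hx, hx'⟩, ⟨hy, hy'⟩, ⟨hz, hz'⟩⟩
      rw [mem_RI_col]
      intro j
      rw [hS]
      intro w hw w' hw' w'' hw''
      have h4 := h3 _ (vecMulVec_mem_RI (w := fun _ => (1 : Ω)) hw) _
        (vecMulVec_mem_RI (w := fun _ => (1 : Ω)) hw') _
        (vecMulVec_mem_RI (w := fun _ => (1 : Ω)) hw'')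
      have h5 := congrArg (fun M => M.col j) h4
      simp only [hcol] at h5
      have h6 : ∀ w : Fin n → Ω, (Matrix.vecMulVec w (fun _ => (1 : Ω)) : Matrix (Fin n) (Fin n) Ω).col j
          = w := by
        intro w
        ext i
        simp [Matrix.col, Matrix.vecMulVec]
      simp only [h6] at h5
      exact h5

private theorem hadP_add_left (X X' Y : Matrix (Fin n) (Fin n) Ω) :
    hadP (X + X') Y = hadP X Y + hadP X' Y := by
  ext i j
  simp only [hadP_apply, Matrix.add_apply, add_mul]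

private theorem hadP_add_right (X Y Y' : Matrix (Fin n) (Fin n) Ω) :
    hadP X (Y + Y') = hadP X Y + hadP X Y' := by
  ext i j
  simp only [hadP_apply, Matrix.add_apply, mul_add]

private theorem hadP_smul_left (c : Ω) (X Y : Matrix (Fin n) (Fin n) Ω) :
    hadP (c • X) Y = c • hadP X Y := by
  ext i j
  simp only [hadP_apply, Matrix.smul_apply, smul_mul_assoc]

private theorem hadP_smul_right (c : Ω) (X Y : Matrix (Fin n) (Fin n) Ω) :
    hadP X (c • Y) = c • hadP X Y := by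
  ext i j
  simp only [hadP_apply, Matrix.smul_apply, mul_smul_comm]

private theorem col_mul (A B : Matrix (Fin n) (Fin n) Ω) (j : Fin n) :
    (A * B).col j = A *ᵥ B.col j := by
  ext i
  rfl

private theorem col_hadP (A B : Matrix (Fin n) (Fin n) Ω) (j : Fin n) :
    (hadP A B).col j = A.col j * B.col j := by
  ext i
  rfl

theorem ratR_sol1 (h : Dat k θ v) {a : Matrix (Fin n) (Fin n) Ω}
    (ha : RatV (bas h 1) (⊥ : IntermediateField k Ω) a) {W : Submodule Ω (Fin n → Ω)}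
    (hW : RatR (bas h 1) K W) : RatR (bas h (-3)) K (sol1 a W) := by
  have ha' : RF θ v 1 K a := ((ratV_bas h).1 ha).mono bot_le
  refine core (T := fun Y x y z => hadP (aᵀ * (hadP (hadP Y x) (a * y))) z) (t := T1 a)
    (β' := bas h 0) ?_ ?_ hW (fun c => Iff.rfl) ?_
  · constructor <;> intros <;>
      simp only [hadP_add_left, hadP_add_right, hadP_smul_left, hadP_smul_right, Matrix.mul_add,
        Matrix.mul_smul]
  · intro Y x y z j
    simp only [col_hadP, col_mul, T1]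
  · intro x y z hx hy hz i
    rw [ratV_bas] at hx hy hz ⊢
    have h1 := RF.had h (RF.had h (rf_bas (K := K) h (-3) i) hx) (RF.mul h ha' hy)
    have e1 : (-3 + 1 + 1 : ℤ) = -1 := by norm_num
    rw [e1] at h1
    have h2 := RF.had h (RF.mul h (RF.transpose h ha') h1) hz
    have e2 : (-1 + 1 : ℤ) = 0 := by norm_num
    rw [e2] at h2
    exact h2

theorem ratR_sol2 (h : Dat k θ v) {a : Matrix (Fin n) (Fin n) Ω}
    (ha : RatV (bas h 1) (⊥ : IntermediateField k Ω) a) {W : Submodule Ω (Fin n → Ω)}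
    (hW : RatR (bas h (-2)) K W) : RatR (bas h 3) K (sol2 a W) := by
  have ha' : RF θ v 1 K a := ((ratV_bas h).1 ha).mono bot_le
  refine core (T := fun Y x y z => hadP (aᵀ * (hadP x (a * (hadP Y y)))) z) (t := T2 a)
    (β' := bas h (-3)) ?_ ?_ hW (fun c => Iff.rfl) ?_
  · constructor <;> intros <;>
      simp only [hadP_add_left, hadP_add_right, hadP_smul_left, hadP_smul_right, Matrix.mul_add,
        Matrix.mul_smul]
  · intro Y x y z j
    simp only [col_hadP, col_mul, T2]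
  · intro x y z hx hy hz i
    rw [ratV_bas] at hx hy hz ⊢
    have h1 := RF.had h (rf_bas (K := K) h 3 i) hy
    have e1 : (3 + -2 : ℤ) = 1 := by norm_num
    rw [e1] at h1
    have h2 := RF.had h hx (RF.mul h ha' h1)
    have e2 : (-2 + 1 : ℤ) = -1 := by norm_num
    rw [e2] at h2
    have h3 := RF.had h (RF.mul h (RF.transpose h ha') h2) hz
    have e3 : (-1 + -2 : ℤ) = -3 := by norm_num
    rw [e3] at h3
    exact h3

end Pool.Agent.H78.TT
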