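import Pool.Agent.H78.TT.Core
import Pool.Agent.H78.TT.Mult
import Pool.Agent.H72.SB.Main

/-!
# Function fields: one step

`exists_omega`, `exists_dat'`, `exists_embedding`, `exists_of_isFunctionField`, `exists_core`,
`isFunctionField_of`, `trdeg_fieldRange` (compare `Pool.Agent.H72.SB.functionField_op`).
-/

open Module Matrix

universe u

namespace Pool.Agent.H78.TT

open Pool.Agent.H72.SB Pool.Agent.H49.Cyc

variable {k : Type u} [Field k] {n : ℕ}

theorem functionField_step [Infinite k] {A B : CSA.{u, u} k} (hA : finrank k A = n ^ 2)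
    (hB : finrank k B = n ^ 2) (hn : Odd n) {g : ℕ} (hg : g = 1 ∨ g = 3) (hgn : g ≤ n)
    (hAB : IsMultiple A (-2) B) {F : Type u} [Field F] [Algebra k F]
    (hF : IsFunctionField A g F) : IsFunctionField B g F := by
  have hn0 : NeZero n := ⟨by rintro rfl; simp at hn⟩
  obtain ⟨Ω, _, _, _, hΩ⟩ := exists_omega k (g * (n - g))
  obtain ⟨θ, v, h, ⟨e⟩⟩ := exists_dat' (Ω := Ω) hA
  obtain ⟨e'⟩ := equiv_AC h e hAB hB
  have hF1 : IsFunctionField (AC h 1) g F := hF.congr (e.trans (eqAC h 1).symm)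
  obtain ⟨b, hb⟩ := exists_basis_AC h 1
  obtain ⟨b', hb'⟩ := exists_basis_AC h (-2)
  obtain ⟨f⟩ := exists_embedding (hF1.trdeg (finrank_AC h 1)) hΩ
  obtain ⟨W, hW, hFW⟩ := exists_of_isFunctionField (finrank_AC h 1) hb hF1 f
  have hcore : ∃ W' : Submodule Ω (Fin n → Ω), finrank Ω W' = g ∧
      ∀ K : IntermediateField k Ω, RatR (bas h 1) K W ↔ RatR (bas h (-2)) K W' := by
    rcases hg with rfl | rfl
    · exact exists_core1 h hn hW
    · exact exists_core3 h hn hgn hW
  obtain ⟨W', hW', hWW'⟩ := hcore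
  have hF2 : IsFunctionField (AC h (-2)) g f.fieldRange :=
    isFunctionField_of (finrank_AC h (-2)) hb' hW' (fun K => (hFW K).trans (hWW' K))
      (by rw [trdeg_fieldRange]; exact hF1.trdeg (finrank_AC h 1))
  exact (hF2.congr_field (AlgEquiv.ofInjectiveField f).symm).congr
    ((eqAC h (-2)).trans e'.symm)

/-- Induction on `e`: `exists_isMultiple_of`, `IsMultiple.trans`, `equiv_of_dvd`,
`IsFunctionField.congr`. -/
theorem functionField_pow [Infinite k] {A B : CSA.{u, u} k} (hA : finrank k A = n ^ 2)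
    (hB : finrank k B = n ^ 2) (hn : Odd n) {g : ℕ} (hg : g = 1 ∨ g = 3) (hgn : g ≤ n) (e : ℕ)
    (hAB : IsMultiple A ((-2) ^ e) B) {F : Type u} [Field F] [Algebra k F]
    (hF : IsFunctionField A g F) : IsFunctionField B g F := by
  induction e generalizing B with
  | zero =>
    obtain ⟨e⟩ := equiv_of_dvd hA hA hB .self hAB (by simp)
    exact hF.congr e
  | succ e ih =>
    obtain ⟨C, hC, hAC⟩ := exists_isMultiple_of hA ((-2) ^ e)
    obtain ⟨B', hB', hCB'⟩ := exists_isMultiple_of hC (-2)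
    obtain ⟨e'⟩ := equiv_of_dvd hA hB' hB (hAC.trans hCB') hAB (by rw [pow_succ]; simp)
    exact (functionField_step hC hB' hn hg hgn hCB' (ih hC hAC)).congr e'

end Pool.Agent.H78.TT
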