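import Pool.Agent.H78.TT.CoreG
import Pool.Agent.H78.TT.Mult
import Pool.Agent.H72.SB.Main

/-!
# Function fields, any greatest common divisor
-/

open Module Matrix

universe u

namespace Pool.Agent.H78.TT

open Pool.Agent.H72.SB Pool.Agent.H49.Cyc

variable {k : Type u} [Field k] {n m : ℕ}

theorem functionField_stepG [Infinite k] {A B : CSA.{u, u} k} (hA : finrank k A = n ^ 2)
    (hB : finrank k B = n ^ 2) (hn : Odd n) {g : ℕ} (hg : 1 ≤ g) (hgn : g < n) {i : ℤ} {e : ℕ}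
    (hi : i = (-2) ^ e ∨ i = -(-2) ^ e) (hig : (g : ℤ) ∣ i - 1)
    (hAB : IsMultiple A i B) {F : Type u} [Field F] [Algebra k F]
    (hF : IsFunctionField A g F) : IsFunctionField B g F := by
  have hn0 : NeZero n := ⟨by rintro rfl; simp at hn⟩
  obtain ⟨Ω, _, _, _, hΩ⟩ := exists_omega k (g * (n - g))
  obtain ⟨θ, v, h, ⟨ε⟩⟩ := exists_dat' (Ω := Ω) hA
  obtain ⟨ε'⟩ := equiv_AC h ε hAB hB
  have hF1 : IsFunctionField (AC h 1) g F := hF.congr (ε.trans (eqAC h 1).symm)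
  obtain ⟨b, hb⟩ := exists_basis_AC h 1
  obtain ⟨b', hb'⟩ := exists_basis_AC h i
  obtain ⟨f⟩ := exists_embedding (hF1.trdeg (finrank_AC h 1)) hΩ
  obtain ⟨W, hW, hFW⟩ := exists_of_isFunctionField (finrank_AC h 1) hb hF1 f
  obtain ⟨W', hW', hWW'⟩ := exists_coreG h hn hg hgn hW hi hig
  have hF2 : IsFunctionField (AC h i) g f.fieldRange :=
    isFunctionField_of (finrank_AC h i) hb' hW' (fun K => (hFW K).trans (hWW' K))
      (by rw [trdeg_fieldRange]; exact hF1.trdeg (finrank_AC h 1))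
  exact (hF2.congr_field (AlgEquiv.ofInjectiveField f).symm).congr
    ((eqAC h i).trans ε'.symm)

/-- The case `i = 1` modulo `gcd(m, n)`. -/
theorem common_one [Infinite k] {A B : CSA.{u, u} k} (hA : finrank k A = n ^ 2)
    (hB : finrank k B = n ^ 2) (hn : Odd n) (hm : 1 ≤ m) (hmn : m < n) {i : ℤ}
    (hAB : IsMultiple A i B) (hg : (Nat.gcd m n : ℤ) ∣ i - 1) {e : ℕ}
    (he : (n : ℤ) ∣ i - (-2) ^ e ∨ (n : ℤ) ∣ i + (-2) ^ e) :
    ∃ (F : Type u) (_ : Field F) (_ : Algebra k F), IsFunctionField A m F ∧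
      IsFunctionField B m F := by
  have hg0 : 1 ≤ Nat.gcd m n := Nat.gcd_pos_of_pos_left _ hm
  have hgm : Nat.gcd m n ≤ m := Nat.le_of_dvd hm (Nat.gcd_dvd_left m n)
  have hgn : (Nat.gcd m n : ℤ) ∣ n := Int.natCast_dvd_natCast.2 (Nat.gcd_dvd_right m n)
  obtain ⟨j, hj, hij⟩ : ∃ j : ℤ, (j = (-2) ^ e ∨ j = -(-2) ^ e) ∧ (n : ℤ) ∣ i - j := by
    rcases he with he | he
    · exact ⟨_, Or.inl rfl, he⟩
    · exact ⟨_, Or.inr rfl, by rwa [sub_neg_eq_add]⟩
  have hgj : (Nat.gcd m n : ℤ) ∣ j - 1 := by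
    have h1 := dvd_sub hg (hgn.trans hij)
    rwa [show i - 1 - (i - j) = j - 1 by ring] at h1
  obtain ⟨C, hC, hAC⟩ := exists_isMultiple_of hA j
  obtain ⟨f⟩ := equiv_of_dvd hA hB hC hAB hAC hij
  obtain ⟨F, i1, i2, hF⟩ := exists_functionField A hA (hgm.trans hmn.le)
  have h2 : IsFunctionField C (Nat.gcd m n) F :=
    functionField_stepG hA hC hn hg0 (hgm.trans_lt hmn) hj hgj hAC hF
  have h3 : IsFunctionField B (Nat.gcd m n) F := h2.congr f.symm
  exact ⟨_, _, _, functionField_gcd A hA hm hmn hF, functionField_gcd B hB hm hmn h3⟩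

theorem common_G [Infinite k] {A B : CSA.{u, u} k} (hA : finrank k A = n ^ 2)
    (hB : finrank k B = n ^ 2) (hn : Odd n) (hm : 1 ≤ m) (hmn : m < n) {i : ℤ}
    (hAB : IsMultiple A i B) (hg : (Nat.gcd m n : ℤ) ∣ i - 1 ∨ (Nat.gcd m n : ℤ) ∣ i + 1) {e : ℕ}
    (he : (n : ℤ) ∣ i - 2 ^ e ∨ (n : ℤ) ∣ i + 2 ^ e) :
    ∃ (F : Type u) (_ : Field F) (_ : Algebra k F), IsFunctionField A m F ∧
      IsFunctionField B m F := by
  have h1 : (n : ℤ) ∣ i - (-2) ^ e ∨ (n : ℤ) ∣ i + (-2) ^ e := by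
    rcases Nat.even_or_odd e with hee | hee
    · rw [hee.neg_pow]
      exact he
    · rw [hee.neg_pow, sub_neg_eq_add, ← sub_eq_add_neg]
      exact he.symm
  rcases hg with hg | hg
  · exact common_one hA hB hn hm hmn hAB hg h1
  · have h2 : IsMultiple A (-i) (opCSA B) := .inv i B (opCSA B) hAB ⟨AlgEquiv.refl⟩
    have hB' : finrank k (opCSA B) = n ^ 2 := by
      rw [← hB]
      exact (MulOpposite.opLinearEquiv k).finrank_eq.symm
    have hg' : (Nat.gcd m n : ℤ) ∣ -i - 1 := by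
      obtain ⟨c, hc⟩ := hg
      exact ⟨-c, by linarith⟩
    have h3 : (n : ℤ) ∣ -i - (-2) ^ e ∨ (n : ℤ) ∣ -i + (-2) ^ e := by
      rcases h1 with ⟨c, hc⟩ | ⟨c, hc⟩
      · exact Or.inr ⟨-c, by linarith⟩
      · exact Or.inl ⟨-c, by linarith⟩
    obtain ⟨F, i1, i2, h4, h5⟩ := common_one hA hB' hn hm hmn h2 hg' h3
    exact ⟨F, i1, i2, h4, (op_iff (A := B) (B := opCSA B) hB hm hmn AlgEquiv.refl F).2 h5⟩

theorem same_of_equiv' {A B : CSA.{u, u} k} (hA : finrank k A = n ^ 2) (hmn : m < n)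
    (f : A ≃ₐ[k] B) :
    (∃ (F : Type u) (_ : Field F) (_ : Algebra k F), IsFunctionField A m F ∧
      IsFunctionField B m F) ∧
    ∀ (F : Type u) [Field F] [Algebra k F], IsFunctionField A m F ↔ IsFunctionField B m F := by
  obtain ⟨F, i1, i2, hF⟩ := exists_functionField A hA hmn.le
  exact ⟨⟨F, i1, i2, hF, hF.congr f⟩, fun F _ _ => ⟨fun h => h.congr f, fun h => h.congr f.symm⟩⟩

/-- All fields. -/
theorem same_iff_G {A B : CSA.{u, u} k} (hA : finrank k A = n ^ 2)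
    (hB : finrank k B = n ^ 2) (hn : Odd n) (hm : 1 ≤ m) (hmn : m < n) {i : ℤ}
    (hAB : IsMultiple A i B) (hg : (Nat.gcd m n : ℤ) ∣ i - 1 ∨ (Nat.gcd m n : ℤ) ∣ i + 1) (e : ℕ)
    (he : (n : ℤ) ∣ i - 2 ^ e ∨ (n : ℤ) ∣ i + 2 ^ e) :
    (∃ (F : Type u) (_ : Field F) (_ : Algebra k F), IsFunctionField A m F ∧
      IsFunctionField B m F) ∧
    ∀ (F : Type u) [Field F] [Algebra k F], IsFunctionField A m F ↔ IsFunctionField B m F := by
  rcases finite_or_infinite k with hk | hk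
  · obtain ⟨f⟩ := nonempty_algEquiv_of_finite A B (by rw [hA, hB])
    exact same_of_equiv' hA hmn f
  · obtain ⟨F₀, i1, i2, h1, h2⟩ := common_G hA hB hn hm hmn hAB hg he
    refine ⟨⟨F₀, i1, i2, h1, h2⟩, fun F _ _ => ⟨fun h3 => ?_, fun h3 => ?_⟩⟩
    · obtain ⟨e⟩ := functionField_unique A hA (by omega) h1 h3
      exact h2.congr_field e
    · obtain ⟨e⟩ := functionField_unique B hB (by omega) h2 h3
      exact h1.congr_field e

/-- Degree `3 ^ a`. -/
theorem same_iff_threeG {A B : CSA.{u, u} k} {a : ℕ} (hA : finrank k A = (3 ^ a) ^ 2)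
    (hB : finrank k B = (3 ^ a) ^ 2) (hm : 1 ≤ m) (hmn : m < 3 ^ a) (h9 : ¬ 9 ∣ m)
    (hAB : InCyclic A B) (hBA : InCyclic B A) :
    (∃ (F : Type u) (_ : Field F) (_ : Algebra k F), IsFunctionField A m F ∧
      IsFunctionField B m F) ∧
    ∀ (F : Type u) [Field F] [Algebra k F], IsFunctionField A m F ↔ IsFunctionField B m F := by
  rcases finite_or_infinite k with hk | hk
  · obtain ⟨f⟩ := nonempty_algEquiv_of_finite A B (by rw [hA, hB])
    exact same_of_equiv' hA hmn f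
  obtain ⟨i, hi⟩ := exists_isMultiple hAB
  obtain ⟨j, hj⟩ := exists_isMultiple hBA
  by_cases h3 : (3 : ℤ) ∣ i
  · -- the period is prime to `3`
    have hx : IsMultiple A (i * j + -1) (kCSA k) := (hi.trans hj).sub_one
    obtain ⟨c, hc⟩ := h3
    have hco : IsCoprime (i * j + -1) ((3 : ℤ) ^ a) := by
      refine IsCoprime.pow_right ⟨-1, c * j, ?_⟩
      rw [hc]
      ring
    obtain ⟨u, v, huv⟩ := hco
    have h1 : IsMultiple A (i + ((1 - i) * u) * (i * j + -1)) B := hi.add (hx.smul _)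
    have h2 : ((3 ^ a : ℕ) : ℤ) ∣ i + ((1 - i) * u) * (i * j + -1) - 1 := by
      refine ⟨-((1 - i) * v), ?_⟩
      push_cast
      linear_combination (1 - i) * huv
    obtain ⟨f⟩ := equiv_of_dvd hA hB hA h1 .self h2
    exact same_of_equiv' hA hmn f.symm
  · obtain ⟨e, he⟩ := exists_pm_two_pow a h3
    have hn : Odd (3 ^ a) := Odd.pow (by decide)
    have h13 : (3 : ℤ) ∣ i - 1 ∨ (3 : ℤ) ∣ i + 1 := by omega
    have hg : (Nat.gcd m (3 ^ a) : ℤ) ∣ i - 1 ∨ (Nat.gcd m (3 ^ a) : ℤ) ∣ i + 1 := by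
      obtain ⟨b, hb, hb'⟩ := (Nat.dvd_prime_pow Nat.prime_three).1 (Nat.gcd_dvd_right m (3 ^ a))
      rw [hb']
      have hb2 : b < 2 := by
        by_contra hcon
        have h4 : (3 : ℕ) ^ 2 ∣ 3 ^ b := pow_dvd_pow 3 (by omega)
        rw [← hb'] at h4
        exact h9 ((by norm_num : (9 : ℕ) = 3 ^ 2) ▸ h4.trans (Nat.gcd_dvd_left m (3 ^ a)))
      interval_cases b
      · left; simp
      · simpa using h13
    refine same_iff_G hA hB hn hm hmn hi hg e ?_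
    push_cast
    exact he

end Pool.Agent.H78.TT
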