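import Pool.Agent.H78.TT.Alg
import Pool.Agent.H49.Cyc.BrD

/-!
# Tensor products

`F_s(k) ⊗ F_t(k)` is the algebra of all matrices over `F_(s+t)(k)` of size `n`. Only a homomorphism is
needed (`isSimple_tensor_ring`: the tensor product is simple, and the dimensions agree). It is the
composition of the Kronecker product into the matrices with indices `(i', i)`, the conjugation with
the diagonal matrix of the `v_ii' ^ t` and with the inverse of the Vandermonde matrix in the index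
`i'`: `X ⊗ Y` is mapped to the matrix with the entries `Z_ab ∈ F_(s+t)(k)`,
`(Z_ab)_ij = ∑ i' j', V⁻¹_(a i') * (X_ij Y_i'j' v_ii' ^ t / v_jj' ^ t) * θ_j' ^ b`, which is in
`F_(s+t)(k)` as `v_i'j' v_ii' / (v_jj' v_ij) = gam(i, i', j') / gam(i, j, j')`.
-/

open Module Matrix TensorProduct

namespace Pool.Agent.H78.TT

open Pool.Agent.H72.SB

variable {k Ω : Type*} [Field k] [Field Ω] [Algebra k Ω] {n : ℕ}
variable {θ : Fin n → Ω} {v : Fin n → Fin n → Ω}

section hom

variable (k) {R : Type*} [Ring R] [Algebra k R]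

/-- Conjugation. -/
private def conjH (A A' : R) (h1 : A * A' = 1) (h2 : A' * A = 1) : R →ₐ[k] R where
  toFun M := A * M * A'
  map_one' := by rw [mul_one, h1]
  map_mul' M N := by
    calc A * (M * N) * A' = A * M * (1 * (N * A')) := by simp only [mul_assoc, one_mul]
      _ = A * M * A' * (A * N * A') := by rw [← h2]; simp only [mul_assoc]
  map_zero' := by rw [mul_zero, zero_mul]
  map_add' M N := by rw [mul_add, add_mul]
  commutes' c := by rw [← Algebra.commutes, mul_assoc, h1, mul_one]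

end hom

section kron

variable (k Ω n)

/-- `X ↦ 1 ⊗ X`. -/
private def kr1 : Matrix (Fin n) (Fin n) Ω →ₐ[k] Matrix (Fin n × Fin n) (Fin n × Fin n) Ω where
  toFun X := Matrix.of fun p q => if p.1 = q.1 then X p.2 q.2 else 0
  map_one' := by
    ext ⟨a, b⟩ ⟨c, d⟩
    simp only [Matrix.of_apply, Matrix.one_apply, Prod.mk.injEq]
    split_ifs <;> simp_all
  map_mul' X Y := by
    ext ⟨a, b⟩ ⟨c, d⟩
    simp only [Matrix.of_apply, Matrix.mul_apply, Fintype.sum_prod_type]
    symm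
    rw [Finset.sum_eq_single a]
    · by_cases h : a = c <;> simp [h]
    · intro e _ he
      simp [Ne.symm he]
    · intro h
      exact absurd (Finset.mem_univ _) h
  map_zero' := by
    ext ⟨a, b⟩ ⟨c, d⟩
    simp
  map_add' X Y := by
    ext ⟨a, b⟩ ⟨c, d⟩
    simp only [Matrix.of_apply, Matrix.add_apply]
    split_ifs <;> simp
  commutes' r := by
    ext ⟨a, b⟩ ⟨c, d⟩
    simp only [Matrix.of_apply, Matrix.algebraMap_matrix_apply, Prod.mk.injEq]
    split_ifs <;> simp_all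

/-- `Y ↦ Y ⊗ 1`. -/
private def kr2 : Matrix (Fin n) (Fin n) Ω →ₐ[k] Matrix (Fin n × Fin n) (Fin n × Fin n) Ω where
  toFun X := Matrix.of fun p q => if p.2 = q.2 then X p.1 q.1 else 0
  map_one' := by
    ext ⟨a, b⟩ ⟨c, d⟩
    simp only [Matrix.of_apply, Matrix.one_apply, Prod.mk.injEq]
    split_ifs <;> simp_all
  map_mul' X Y := by
    ext ⟨a, b⟩ ⟨c, d⟩
    simp only [Matrix.of_apply, Matrix.mul_apply, Fintype.sum_prod_type_right]
    symm
    rw [Finset.sum_eq_single b]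
    · by_cases h : b = d <;> simp [h]
    · intro e _ he
      simp [Ne.symm he]
    · intro h
      exact absurd (Finset.mem_univ _) h
  map_zero' := by
    ext ⟨a, b⟩ ⟨c, d⟩
    simp
  map_add' X Y := by
    ext ⟨a, b⟩ ⟨c, d⟩
    simp only [Matrix.of_apply, Matrix.add_apply]
    split_ifs <;> simp
  commutes' r := by
    ext ⟨a, b⟩ ⟨c, d⟩
    simp only [Matrix.of_apply, Matrix.algebraMap_matrix_apply, Prod.mk.injEq]
    split_ifs <;> simp_all

private theorem kr_comm (X Y : Matrix (Fin n) (Fin n) Ω) :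
    kr1 k Ω n X * kr2 k Ω n Y = kr2 k Ω n Y * kr1 k Ω n X := by
  ext ⟨a, b⟩ ⟨c, d⟩
  have h1 : (kr1 k Ω n X * kr2 k Ω n Y) (a, b) (c, d) = X b d * Y a c := by
    rw [Matrix.mul_apply, Finset.sum_eq_single (a, d)]
    · simp [kr1, kr2]
    · rintro ⟨e, f⟩ _ he
      simp only [kr1, kr2, AlgHom.coe_mk, RingHom.coe_mk, MonoidHom.coe_mk, OneHom.coe_mk,
        Matrix.of_apply]
      by_cases h3 : a = e
      · by_cases h4 : f = d
        · exact absurd (by rw [h3, h4]) he
        · rw [if_neg h4, mul_zero]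
      · rw [if_neg h3, zero_mul]
    · intro h
      exact absurd (Finset.mem_univ _) h
  have h2 : (kr2 k Ω n Y * kr1 k Ω n X) (a, b) (c, d) = Y a c * X b d := by
    rw [Matrix.mul_apply, Finset.sum_eq_single (c, b)]
    · simp [kr1, kr2]
    · rintro ⟨e, f⟩ _ he
      simp only [kr1, kr2, AlgHom.coe_mk, RingHom.coe_mk, MonoidHom.coe_mk, OneHom.coe_mk,
        Matrix.of_apply]
      by_cases h3 : b = f
      · by_cases h4 : e = c
        · exact absurd (by rw [h3, h4]) he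
        · rw [if_neg h4, mul_zero]
      · rw [if_neg h3, zero_mul]
    · intro h
      exact absurd (Finset.mem_univ _) h
  rw [h1, h2, mul_comm]

end kron

private theorem dual_pair (h : Dat k θ v) : ∃ g : Fin n → Fin n → k,
    (∀ i j, ∑ b : Fin n, θ i ^ (b : ℕ) *
      ∑ a : Fin n, algebraMap k Ω (g a b) * θ j ^ (a : ℕ) = if i = j then 1 else 0) ∧
    ∀ b c : Fin n, ∑ j, (∑ a : Fin n, algebraMap k Ω (g a b) * θ j ^ (a : ℕ)) * θ j ^ (c : ℕ) =
      if b = c then 1 else 0 := by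
  obtain ⟨g, hg⟩ := h.pol.exists_dual h.inj
  refine ⟨g, hg, ?_⟩
  have h1 : (Matrix.of fun i (b : Fin n) => θ i ^ (b : ℕ) : Matrix (Fin n) (Fin n) Ω) *
      (Matrix.of fun b j => ∑ a : Fin n, algebraMap k Ω (g a b) * θ j ^ (a : ℕ)) = 1 := by
    ext i j
    rw [Matrix.mul_apply, Matrix.one_apply]
    exact hg i j
  have h2 := mul_eq_one_comm.1 h1
  intro b c
  have h3 := congrFun (congrFun h2 b) c
  rw [Matrix.mul_apply, Matrix.one_apply] at h3
  exact h3

/-- the first conjugating matrix, with the indices `(a, i), (i', j)` -/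
private def cA (θ : Fin n → Ω) (v : Fin n → Fin n → Ω) (t : ℤ) (g : Fin n → Fin n → k) :
    Matrix (Fin n × Fin n) (Fin n × Fin n) Ω :=
  Matrix.of fun p q => if p.2 = q.2 then
    (∑ a : Fin n, algebraMap k Ω (g a p.1) * θ q.1 ^ (a : ℕ)) * v q.2 q.1 ^ t else 0

private def cB (θ : Fin n → Ω) (v : Fin n → Fin n → Ω) (t : ℤ) :
    Matrix (Fin n × Fin n) (Fin n × Fin n) Ω :=
  Matrix.of fun p q => if p.2 = q.2 then v p.2 p.1 ^ (-t) * θ p.1 ^ (q.1 : ℕ) else 0

private theorem cB_cA (h : Dat k θ v) (t : ℤ) {g : Fin n → Fin n → k}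
    (hg : ∀ i j, ∑ b : Fin n, θ i ^ (b : ℕ) *
      ∑ a : Fin n, algebraMap k Ω (g a b) * θ j ^ (a : ℕ) = if i = j then 1 else 0) :
    cB θ v t * cA θ v t g = 1 := by
  ext ⟨i', i⟩ ⟨j', j⟩
  rw [Matrix.mul_apply, Fintype.sum_prod_type_right]
  simp only [cA, cB, Matrix.of_apply, Matrix.one_apply, Prod.mk.injEq]
  by_cases hij : i = j
  · subst hij
    rw [Finset.sum_eq_single i]
    · simp only [if_true, and_true]
      have h1 : ∑ b : Fin n, v i i' ^ (-t) * θ i' ^ (b : ℕ) *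
          ((∑ a : Fin n, algebraMap k Ω (g a b) * θ j' ^ (a : ℕ)) * v i j' ^ t) =
          v i i' ^ (-t) * (∑ b : Fin n, θ i' ^ (b : ℕ) *
            ∑ a : Fin n, algebraMap k Ω (g a b) * θ j' ^ (a : ℕ)) * v i j' ^ t := by
        rw [Finset.mul_sum, Finset.sum_mul]
        exact Finset.sum_congr rfl fun b _ => by ring
      rw [h1, hg]
      by_cases h2 : i' = j'
      · subst h2
        rw [if_pos rfl, mul_one, ← zpow_add₀ (h.ne _ _), neg_add_cancel, zpow_zero]
      · rw [if_neg h2, mul_zero, zero_mul]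
    · intro e _ he
      refine Finset.sum_eq_zero fun b _ => ?_
      rw [if_neg (Ne.symm he), zero_mul]
    · intro h
      exact absurd (Finset.mem_univ _) h
  · rw [if_neg (fun h => hij h.2)]
    refine Finset.sum_eq_zero fun e _ => Finset.sum_eq_zero fun b _ => ?_
    by_cases h1 : i = e
    · rw [if_neg (fun h2 => hij (h1.trans h2)), mul_zero]
    · rw [if_neg h1, zero_mul]

/-- block `(a, b)` of the image of `X` -/
private theorem psi1_apply (t : ℤ) (g : Fin n → Fin n → k) (X : Matrix (Fin n) (Fin n) Ω)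
    (a b i j : Fin n) :
    (cA θ v t g * kr1 k Ω n X * cB θ v t) (a, i) (b, j) =
      ∑ i' : Fin n, (∑ c : Fin n, algebraMap k Ω (g c a) * θ i' ^ (c : ℕ)) * v i i' ^ t * X i j *
        (v j i' ^ (-t) * θ i' ^ (b : ℕ)) := by
  rw [Matrix.mul_apply, Fintype.sum_prod_type]
  refine Finset.sum_congr rfl fun i' _ => ?_
  rw [Finset.sum_eq_single j]
  · rw [Matrix.mul_apply, Finset.sum_eq_single (i', i)]
    · simp [cA, cB, kr1]
    · rintro ⟨e, f⟩ _ he
      simp only [cA, kr1, AlgHom.coe_mk, RingHom.coe_mk, MonoidHom.coe_mk, OneHom.coe_mk,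
        Matrix.of_apply]
      by_cases h3 : i = f
      · by_cases h4 : e = i'
        · exact absurd (by rw [h3, h4]) he
        · rw [if_neg h4, mul_zero]
      · rw [if_neg h3, zero_mul]
    · intro h
      exact absurd (Finset.mem_univ _) h
  · intro e _ he
    simp only [cB, Matrix.of_apply]
    rw [if_neg he, mul_zero]
  · intro h
    exact absurd (Finset.mem_univ _) h

private theorem psi2_apply (t : ℤ) (g : Fin n → Fin n → k) (Y : Matrix (Fin n) (Fin n) Ω)
    (a b i j : Fin n) :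
    (cA θ v t g * kr2 k Ω n Y * cB θ v t) (a, i) (b, j) =
      if i = j then ∑ j' : Fin n, ∑ i' : Fin n,
        (∑ c : Fin n, algebraMap k Ω (g c a) * θ i' ^ (c : ℕ)) * v i i' ^ t * Y i' j' *
        (v i j' ^ (-t) * θ j' ^ (b : ℕ)) else 0 := by
  rw [Matrix.mul_apply, Fintype.sum_prod_type]
  by_cases hij : i = j
  · subst hij
    rw [if_pos rfl]
    refine Finset.sum_congr rfl fun j' _ => ?_
    rw [Finset.sum_eq_single i]
    · rw [Matrix.mul_apply, Fintype.sum_prod_type, Finset.sum_mul]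
      refine Finset.sum_congr rfl fun i' _ => ?_
      rw [Finset.sum_eq_single i]
      · simp [cA, cB, kr2]
      · intro e _ he
        simp only [cA, Matrix.of_apply]
        rw [if_neg (Ne.symm he), zero_mul]
      · intro h
        exact absurd (Finset.mem_univ _) h
    · intro e _ he
      simp only [cB, Matrix.of_apply]
      rw [if_neg he, mul_zero]
    · intro h
      exact absurd (Finset.mem_univ _) h
  · rw [if_neg hij]
    refine Finset.sum_eq_zero fun j' _ => Finset.sum_eq_zero fun e _ => ?_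
    rw [Matrix.mul_apply, Finset.sum_mul]
    refine Finset.sum_eq_zero fun x _ => ?_
    simp only [cA, cB, kr2, AlgHom.coe_mk, RingHom.coe_mk, MonoidHom.coe_mk, OneHom.coe_mk,
      Matrix.of_apply]
    by_cases h1 : i = x.2
    · by_cases h2 : x.2 = e
      · rw [if_neg (c := e = j) (fun h3 => hij (h1.trans (h2.trans h3))), mul_zero]
      · rw [if_neg h2, mul_zero, zero_mul]
    · rw [if_neg h1, zero_mul, zero_mul]

private theorem isR_lam {K : IntermediateField k Ω} {ι : Type*} (g : Fin n → Fin n → k)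
    (b : Fin n) (a : ι) :
    IsR θ K ι (fun x => ∑ c : Fin n, algebraMap k Ω (g c b) * θ (x a) ^ (c : ℕ)) :=
  IsR.sum _ fun c _ => (isR_const _ (K.algebraMap_mem _)).mul ((isR_theta a).pow _)

private theorem psi1_mem (h : Dat k θ v) (s t : ℤ) (g : Fin n → Fin n → k)
    {X : Matrix (Fin n) (Fin n) Ω} (hX : RF θ v s (⊥ : IntermediateField k Ω) X) (a b : Fin n) :
    RF θ v (s + t) (⊥ : IntermediateField k Ω) (Matrix.of fun i j =>
      ∑ i' : Fin n, (∑ c : Fin n, algebraMap k Ω (g c a) * θ i' ^ (c : ℕ)) * v i i' ^ t * X i j *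
        (v j i' ^ (-t) * θ i' ^ (b : ℕ))) := by
  have h1 : IsR θ (⊥ : IntermediateField k Ω) (Fin 3)
      (fun x => X (x 0) (x 1) / v (x 0) (x 1) ^ s) :=
    (IsR.comp hX (![0, 1] : Fin 2 → Fin 3)).congr fun x => rfl
  have h2 : IsR θ (⊥ : IntermediateField k Ω) (Fin 3)
      (fun x => v (x 0) (x 1) ^ (-t) * v (x 1) (x 2) ^ (-t) / v (x 0) (x 2) ^ (-t)) :=
    h.gam_zpow (-t)
  have h3 := IsR.sum_last h.pol h.inj (r := 2)
    (((h1.mul h2).mul (isR_lam g a (2 : Fin 3))).mul ((isR_theta (2 : Fin 3)).pow (b : ℕ)))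
  refine h3.congr fun x => ?_
  rw [Matrix.of_apply, Finset.sum_div]
  refine Finset.sum_congr rfl fun j _ => ?_
  have e0 : (Fin.snoc x j : Fin 3 → Fin n) 0 = x 0 := rfl
  have e1 : (Fin.snoc x j : Fin 3 → Fin n) 1 = x 1 := rfl
  have e2 : (Fin.snoc x j : Fin 3 → Fin n) 2 = j := rfl
  simp only [e0, e1, e2]
  have n1 := zpow_ne_zero t (h.ne (x 0) j)
  have n2 := zpow_ne_zero t (h.ne (x 1) j)
  have n3 := zpow_ne_zero t (h.ne (x 0) (x 1))
  have n4 := zpow_ne_zero s (h.ne (x 0) (x 1))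
  rw [zpow_add₀ (h.ne _ _), _root_.zpow_neg, _root_.zpow_neg, _root_.zpow_neg]
  field_simp

private theorem psi2_mem (h : Dat k θ v) (s t : ℤ) (g : Fin n → Fin n → k)
    {Y : Matrix (Fin n) (Fin n) Ω} (hY : RF θ v t (⊥ : IntermediateField k Ω) Y) (a b : Fin n) :
    RF θ v (s + t) (⊥ : IntermediateField k Ω) (Matrix.of fun i j =>
      if i = j then ∑ j' : Fin n, ∑ i' : Fin n,
        (∑ c : Fin n, algebraMap k Ω (g c a) * θ i' ^ (c : ℕ)) * v i i' ^ t * Y i' j' *
        (v i j' ^ (-t) * θ j' ^ (b : ℕ)) else 0) := by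
  -- indices: 0 = i, 1 = j, 2 = j', 3 = i'
  have h1 : IsR θ (⊥ : IntermediateField k Ω) (Fin 4)
      (fun x => Y (x 3) (x 2) / v (x 3) (x 2) ^ t) :=
    (IsR.comp hY (![3, 2] : Fin 2 → Fin 4)).congr fun x => rfl
  have h2 : IsR θ (⊥ : IntermediateField k Ω) (Fin 4)
      (fun x => v (x 0) (x 3) ^ t * v (x 3) (x 2) ^ t / v (x 0) (x 2) ^ t) :=
    (IsR.comp (h.gam_zpow (K := ⊥) t) (![0, 3, 2] : Fin 3 → Fin 4)).congr fun x => rfl
  have h3 := IsR.sum_last h.pol h.inj (r := 3)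
    (((h1.mul h2).mul (isR_lam g a (3 : Fin 4))).mul ((isR_theta (2 : Fin 4)).pow (b : ℕ)))
  have h4 := IsR.sum_last h.pol h.inj (r := 2) h3
  have h5 : IsR θ (⊥ : IntermediateField k Ω) (Fin 2) (fun x => if x 0 = x 1 then 1 else 0) :=
    isR_delta h.pol h.inj (0 : Fin 2) (1 : Fin 2)
  have h6 : IsR θ (⊥ : IntermediateField k Ω) (Fin 2) (fun x => v (x 0) (x 0) ^ (-(s + t))) :=
    (IsR.comp (h.diag_zpow (K := ⊥) (-(s + t))) (![0] : Fin 1 → Fin 2)).congr fun x => rfl
  refine ((h5.mul h6).mul h4).congr fun x => ?_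
  rw [Matrix.of_apply]
  by_cases hx : x 0 = x 1
  · rw [if_pos hx, if_pos hx, one_mul, ← hx, div_eq_mul_inv, ← _root_.zpow_neg, mul_comm]
    congr 1
    refine Finset.sum_congr rfl fun j' _ => Finset.sum_congr rfl fun i' _ => ?_
    have e0 : (Fin.snoc (Fin.snoc x j' : Fin 3 → Fin n) i' : Fin 4 → Fin n) 0 = x 0 := rfl
    have e2 : (Fin.snoc (Fin.snoc x j' : Fin 3 → Fin n) i' : Fin 4 → Fin n) 2 = j' := rfl
    have e3 : (Fin.snoc (Fin.snoc x j' : Fin 3 → Fin n) i' : Fin 4 → Fin n) 3 = i' := rfl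
    simp only [e0, e2, e3]
    have n1 := zpow_ne_zero t (h.ne (x 0) i')
    have n2 := zpow_ne_zero t (h.ne (x 0) j')
    have n3 := zpow_ne_zero t (h.ne i' j')
    rw [_root_.zpow_neg]
    field_simp
  · rw [if_neg hx, if_neg hx, zero_div, zero_mul, zero_mul]

/-- A homomorphism into the matrices over `AA`. -/
private theorem exists_lift (h : Dat k θ v) (r : ℤ) {S : Type*} [Ring S] [Algebra k S]
    (f : S →ₐ[k] Matrix (Fin n × Fin n) (Fin n × Fin n) Ω)
    (hf : ∀ x a b, (Matrix.of fun i j => f x (a, i) (b, j)) ∈ AA h r) :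
    ∃ F : S →ₐ[k] Matrix (Fin n) (Fin n) (AA h r), ∀ x a b i j,
      ((F x a b : AA h r) : Matrix (Fin n) (Fin n) Ω) i j = f x (a, i) (b, j) := by
  let ι : Matrix (Fin n) (Fin n) (AA h r) →ₐ[k] Matrix (Fin n) (Fin n) (Matrix (Fin n) (Fin n) Ω) :=
    (AA h r).val.mapMatrix
  have hι : Function.Injective ι := by
    intro A B hAB
    ext a b : 2
    exact congrFun (congrFun hAB a) b
  let f' : S →ₐ[k] Matrix (Fin n) (Fin n) (Matrix (Fin n) (Fin n) Ω) :=
    (Matrix.compAlgEquiv (Fin n) (Fin n) Ω k).symm.toAlgHom.comp f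
  have hf' : ∀ x, f' x ∈ ι.range := by
    intro x
    refine ⟨Matrix.of fun a b => ⟨Matrix.of fun i j => f x (a, i) (b, j), hf x a b⟩, ?_⟩
    ext a b i j
    rfl
  let e := AlgEquiv.ofInjective ι hι
  refine ⟨e.symm.toAlgHom.comp (f'.codRestrict ι.range hf'), fun x a b i j => ?_⟩
  have h1 : ι (e.symm (⟨f' x, hf' x⟩ : ι.range)) = f' x := by
    have := congrArg Subtype.val (e.apply_symm_apply (⟨f' x, hf' x⟩ : ι.range))
    exact this
  have h2 := congrFun (congrFun (congrFun (congrFun h1 a) b) i) j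
  exact h2

private theorem gen_equiv {X Y M : Type*} [Ring X] [Algebra k X] [Ring Y] [Algebra k Y] [Ring M]
    [Algebra k M] [Nontrivial M] [FiniteDimensional k X] [FiniteDimensional k Y]
    [FiniteDimensional k M] [IsSimpleRing X] [IsSimpleRing Y] [Algebra.IsCentral k Y]
    (F1 : X →ₐ[k] M) (F2 : Y →ₐ[k] M) (hcomm : ∀ x y, Commute (F1 x) (F2 y))
    (hdim : finrank k X * finrank k Y = finrank k M) : Nonempty (X ⊗[k] Y ≃ₐ[k] M) := by
  have i8 : IsSimpleRing (X ⊗[k] Y) := Pool.Agent.H49.Cyc.isSimple_tensor_ring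
  let φ : X ⊗[k] Y →ₐ[k] M := Algebra.TensorProduct.lift F1 F2 hcomm
  have hinj : Function.Injective φ := φ.toRingHom.injective
  have hd : finrank k (X ⊗[k] Y) = finrank k M := by
    rw [Module.finrank_tensorProduct, hdim]
  exact ⟨AlgEquiv.ofBijective φ (Pool.Agent.H49.Cyc.bij_of_inj hd φ.toLinearMap hinj)⟩

theorem tensor_AA (h : Dat k θ v) (s t : ℤ) [NeZero n] :
    Nonempty ((AA h s) ⊗[k] (AA h t) ≃ₐ[k] Matrix (Fin n) (Fin n) (AA h (s + t))) := by
  obtain ⟨g, hg, -⟩ := dual_pair h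
  have hBA := cB_cA h t hg
  have hAB : cA θ v t g * cB θ v t = 1 := mul_eq_one_comm.1 hBA
  let Φ := conjH k (cA θ v t g) (cB θ v t) hAB hBA
  let f1 : AA h s →ₐ[k] Matrix (Fin n × Fin n) (Fin n × Fin n) Ω :=
    (Φ.comp (kr1 k Ω n)).comp (AA h s).val
  let f2 : AA h t →ₐ[k] Matrix (Fin n × Fin n) (Fin n × Fin n) Ω :=
    (Φ.comp (kr2 k Ω n)).comp (AA h t).val
  have h1 : ∀ x a b, (Matrix.of fun i j => f1 x (a, i) (b, j)) ∈ AA h (s + t) := by
    intro x a b
    rw [mem_AA]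
    have h2 := psi1_mem h s t g (mem_AA.1 x.2) a b
    convert! h2 using 1
    ext i j
    exact psi1_apply t g (x : Matrix (Fin n) (Fin n) Ω) a b i j
  have h2 : ∀ y a b, (Matrix.of fun i j => f2 y (a, i) (b, j)) ∈ AA h (s + t) := by
    intro y a b
    rw [mem_AA]
    have h3 := psi2_mem h s t g (mem_AA.1 y.2) a b
    convert! h3 using 1
    ext i j
    exact psi2_apply t g (y : Matrix (Fin n) (Fin n) Ω) a b i j
  obtain ⟨F1, hF1⟩ := exists_lift h (s + t) f1 h1
  obtain ⟨F2, hF2⟩ := exists_lift h (s + t) f2 h2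
  have hmul : ∀ (A B : Matrix (Fin n) (Fin n) (AA h (s + t)))
      (A' B' : Matrix (Fin n × Fin n) (Fin n × Fin n) Ω)
      (_ : ∀ a b i j, ((A a b : AA h (s + t)) : Matrix (Fin n) (Fin n) Ω) i j = A' (a, i) (b, j))
      (_ : ∀ a b i j, ((B a b : AA h (s + t)) : Matrix (Fin n) (Fin n) Ω) i j = B' (a, i) (b, j))
      (a b i j : Fin n),
      (((A * B) a b : AA h (s + t)) : Matrix (Fin n) (Fin n) Ω) i j = (A' * B') (a, i) (b, j) := by
    intro A B A' B' hA hB a b i j
    rw [Matrix.mul_apply, Matrix.mul_apply, Fintype.sum_prod_type, AddSubmonoidClass.coe_finset_sum,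
      Matrix.sum_apply]
    refine Finset.sum_congr rfl fun c _ => ?_
    rw [MulMemClass.coe_mul, Matrix.mul_apply]
    exact Finset.sum_congr rfl fun l _ => by rw [hA, hB]
  have hcomm : ∀ x y, Commute (F1 x) (F2 y) := by
    intro x y
    rw [commute_iff_eq]
    ext a b i j
    rw [hmul _ _ (f1 x) (f2 y) (hF1 x) (hF2 y), hmul _ _ (f2 y) (f1 x) (hF2 y) (hF1 x)]
    have h3 : f1 x * f2 y = f2 y * f1 x := by
      change Φ (kr1 k Ω n x) * Φ (kr2 k Ω n y) = Φ (kr2 k Ω n y) * Φ (kr1 k Ω n x)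
      rw [← map_mul, ← map_mul, kr_comm]
    rw [h3]
  have i1 := finite_AA h s
  have i2 := finite_AA h t
  have i3 := finite_AA h (s + t)
  have i4 := isCentral_AA h t
  have i5 := isSimple_AA h s
  have i6 := isSimple_AA h t
  have i7 := isSimple_AA h (s + t)
  have hdim : finrank k (AA h s) * finrank k (AA h t) =
      finrank k (Matrix (Fin n) (Fin n) (AA h (s + t))) := by
    rw [Module.finrank_matrix, finrank_AA, finrank_AA, finrank_AA]
    simp only [Fintype.card_fin]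
    ring
  exact gen_equiv F1 F2 hcomm hdim

end Pool.Agent.H78.TT
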